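import Pool.Agent.PolyCell.Defs

/-!
# The order of `s_i s_j` is `M i j`

Hints. Tits representation on `B →₀ ℝ` (or `B → ℝ` dual): `σ_i x = x - 2 B(α_i, x) α_i`,
`B(α_i, α_j) = - cos (π / M i j)` (`-1` for `M i j = 0`), lift it with `cs.lift` (the relation
`(σ_i σ_j)^m = 1` holds on the plane spanned by `α_i, α_j` by rotation formulas
`(σ_i σ_j)^k α_i = (sin((2k+1)θ) α_i + sin(2kθ) α_j) / sin θ`, `θ = π/m`, and on its orthogonal complement trivially).
-/

open CoxeterSystem

namespace Pool.Agent.PolyCell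

variable {B W : Type*} [Group W] {M : CoxeterMatrix B} (cs : CoxeterSystem M W)

/-- the canonical bilinear form -/
noncomputable def GeoOrder_bf (M : CoxeterMatrix B) (a b : B) : ℝ :=
  if M a b = 0 then -1 else -Real.cos (Real.pi / M a b)

/-- the contragredient Tits representation -/
noncomputable def GeoOrder_rf (M : CoxeterMatrix B) (b : B) (f : B → ℝ) : B → ℝ :=
  fun c => f c - 2 * GeoOrder_bf M b c * f b

theorem GeoOrder_bf_self (b : B) : GeoOrder_bf M b b = 1 := by
  unfold GeoOrder_bf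
  rw [M.diagonal]
  simp

theorem GeoOrder_bf_symm (a b : B) : GeoOrder_bf M a b = GeoOrder_bf M b a := by
  unfold GeoOrder_bf
  rw [M.symmetric a b]

theorem GeoOrder_rf_self (b : B) (f : B → ℝ) : GeoOrder_rf M b (GeoOrder_rf M b f) = f := by
  funext c
  unfold GeoOrder_rf
  rw [GeoOrder_bf_self]
  ring

section finite

variable {a b : B} {m : ℕ}

/-- `exp (π i / m)` -/
noncomputable def GeoOrder_om (m : ℕ) : ℂ := Complex.exp ((Real.pi / m : ℝ) * Complex.I)

theorem GeoOrder_om_conj (m : ℕ) :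
    GeoOrder_om m * (starRingEnd ℂ) (GeoOrder_om m) = 1 := by
  unfold GeoOrder_om
  rw [← Complex.exp_conj, ← Complex.exp_add]
  simp

theorem GeoOrder_om_add (m : ℕ) :
    GeoOrder_om m + (starRingEnd ℂ) (GeoOrder_om m) = 2 * (Real.cos (Real.pi / m) : ℂ) := by
  rw [Complex.add_conj]
  unfold GeoOrder_om
  rw [Complex.exp_ofReal_mul_I_re]
  push_cast
  ring

theorem GeoOrder_om_prim (hm : m ≠ 0) : IsPrimitiveRoot (GeoOrder_om m ^ 2) m := by
  have h : GeoOrder_om m ^ 2 = Complex.exp (2 * Real.pi * Complex.I / m) := by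
    unfold GeoOrder_om
    rw [← Complex.exp_nat_mul]
    congr 1
    push_cast
    ring
  rw [h]
  exact Complex.isPrimitiveRoot_exp m hm

/-- the complex coordinate -/
noncomputable def GeoOrder_Z (m : ℕ) (a b : B) (f : B → ℝ) : ℂ := f a + GeoOrder_om m * f b

theorem GeoOrder_Z_b (hm : M a b = m) (hm0 : m ≠ 0) (f : B → ℝ) :
    GeoOrder_Z m a b (GeoOrder_rf M b f) = (starRingEnd ℂ) (GeoOrder_Z m a b f) := by
  have h1 := GeoOrder_om_add m
  have h2 : GeoOrder_bf M b a = -Real.cos (Real.pi / m) := by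
    rw [GeoOrder_bf_symm]
    unfold GeoOrder_bf
    rw [hm, if_neg hm0]
  unfold GeoOrder_Z GeoOrder_rf
  rw [GeoOrder_bf_self, h2]
  simp only [map_add, map_mul, Complex.conj_ofReal]
  push_cast at h1 ⊢
  linear_combination (-(f b : ℂ)) * h1

theorem GeoOrder_Z_a (hm : M a b = m) (hm0 : m ≠ 0) (f : B → ℝ) :
    GeoOrder_Z m a b (GeoOrder_rf M a f) =
      GeoOrder_om m ^ 2 * (starRingEnd ℂ) (GeoOrder_Z m a b f) := by
  have h1 := GeoOrder_om_add m
  have h0 := GeoOrder_om_conj m
  have h2 : GeoOrder_bf M a b = -Real.cos (Real.pi / m) := by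
    unfold GeoOrder_bf
    rw [hm, if_neg hm0]
  unfold GeoOrder_Z GeoOrder_rf
  rw [GeoOrder_bf_self, h2]
  simp only [map_add, map_mul, Complex.conj_ofReal]
  push_cast at h1 ⊢
  linear_combination (-(f a : ℂ) * GeoOrder_om m) * h1 +
    ((f a : ℂ) - GeoOrder_om m * f b) * h0

/-- the product of two reflections -/
noncomputable def GeoOrder_st (M : CoxeterMatrix B) (a b : B) (f : B → ℝ) : B → ℝ :=
  GeoOrder_rf M a (GeoOrder_rf M b f)

theorem GeoOrder_Z_st (hm : M a b = m) (hm0 : m ≠ 0) (f : B → ℝ) :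
    GeoOrder_Z m a b (GeoOrder_st M a b f) = GeoOrder_om m ^ 2 * GeoOrder_Z m a b f := by
  unfold GeoOrder_st
  rw [GeoOrder_Z_a hm hm0, GeoOrder_Z_b hm hm0, Complex.conj_conj]

theorem GeoOrder_Z_iter (hm : M a b = m) (hm0 : m ≠ 0) (f : B → ℝ) (k : ℕ) :
    GeoOrder_Z m a b ((GeoOrder_st M a b)^[k] f) =
      (GeoOrder_om m ^ 2) ^ k * GeoOrder_Z m a b f := by
  induction k with
  | zero => simp
  | succ k ih =>
    rw [Function.iterate_succ_apply', GeoOrder_Z_st hm hm0, ih]
    ring

theorem GeoOrder_iter (M : CoxeterMatrix B) (a b : B) (f : B → ℝ) (k : ℕ) (c : B) :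
    ((GeoOrder_st M a b)^[k] f) c = f c -
      2 * GeoOrder_bf M b c * (∑ l ∈ Finset.range k, ((GeoOrder_st M a b)^[l] f) b) -
      2 * GeoOrder_bf M a c *
        (∑ l ∈ Finset.range k, (GeoOrder_rf M b ((GeoOrder_st M a b)^[l] f)) a) := by
  induction k with
  | zero => simp
  | succ k ih =>
    rw [Function.iterate_succ_apply', Finset.sum_range_succ, Finset.sum_range_succ]
    have h : (GeoOrder_st M a b ((GeoOrder_st M a b)^[k] f)) c =
        ((GeoOrder_st M a b)^[k] f) c - 2 * GeoOrder_bf M b c * ((GeoOrder_st M a b)^[k] f) b -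
          2 * GeoOrder_bf M a c * (GeoOrder_rf M b ((GeoOrder_st M a b)^[k] f)) a := rfl
    rw [h, ih]
    ring

theorem GeoOrder_iter_m (hm : M a b = m) (hm2 : 2 ≤ m) (f : B → ℝ) :
    (GeoOrder_st M a b)^[m] f = f := by
  have hm0 : m ≠ 0 := by omega
  have hz : ∑ l ∈ Finset.range m, GeoOrder_Z m a b ((GeoOrder_st M a b)^[l] f) = 0 := by
    have h1 : ∑ l ∈ Finset.range m, GeoOrder_Z m a b ((GeoOrder_st M a b)^[l] f) =
        (∑ l ∈ Finset.range m, (GeoOrder_om m ^ 2) ^ l) * GeoOrder_Z m a b f := by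
      rw [Finset.sum_mul]
      exact Finset.sum_congr rfl fun l _ => GeoOrder_Z_iter hm hm0 f l
    rw [h1, (GeoOrder_om_prim hm0).geom_sum_eq_zero (by omega), zero_mul]
  have hs : 0 < Real.sin (Real.pi / m) := by
    apply Real.sin_pos_of_pos_of_lt_pi
    · have : (0 : ℝ) < m := by exact_mod_cast Nat.pos_of_ne_zero hm0
      positivity
    · have h2 : (2 : ℝ) ≤ m := by exact_mod_cast hm2
      rw [div_lt_iff₀ (by linarith)]
      nlinarith [Real.pi_pos]
  have him : ∀ g : B → ℝ, (GeoOrder_Z m a b g).im = Real.sin (Real.pi / m) * g b := by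
    intro g
    unfold GeoOrder_Z GeoOrder_om
    rw [Complex.add_im, Complex.ofReal_im, Complex.im_mul_ofReal, Complex.exp_ofReal_mul_I_im]
    ring
  have hre : ∀ g : B → ℝ, (GeoOrder_Z m a b g).re = g a + Real.cos (Real.pi / m) * g b := by
    intro g
    unfold GeoOrder_Z GeoOrder_om
    rw [Complex.add_re, Complex.ofReal_re, Complex.re_mul_ofReal, Complex.exp_ofReal_mul_I_re]
  have hb : ∑ l ∈ Finset.range m, ((GeoOrder_st M a b)^[l] f) b = 0 := by
    have h1 := congrArg Complex.im hz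
    rw [Complex.im_sum, Complex.zero_im] at h1
    simp only [him] at h1
    rw [← Finset.mul_sum] at h1
    exact (mul_eq_zero.mp h1).resolve_left hs.ne'
  have ha : ∑ l ∈ Finset.range m, (GeoOrder_rf M b ((GeoOrder_st M a b)^[l] f)) a = 0 := by
    have h1 := congrArg Complex.re hz
    rw [Complex.re_sum, Complex.zero_re] at h1
    have h2 : ∀ g : B → ℝ, (GeoOrder_rf M b g) a =
        (GeoOrder_Z m a b g).re + Real.cos (Real.pi / m) * g b := by
      intro g
      rw [hre]
      unfold GeoOrder_rf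
      rw [GeoOrder_bf_symm]
      unfold GeoOrder_bf
      rw [hm, if_neg hm0]
      ring
    simp only [h2]
    rw [Finset.sum_add_distrib, h1, ← Finset.mul_sum, hb]
    ring
  funext c
  rw [GeoOrder_iter, ha, hb]
  ring

end finite

/-- the reflection as an element of the monoid of functions -/
noncomputable def GeoOrder_E (M : CoxeterMatrix B) (b : B) : Function.End (B → ℝ) :=
  GeoOrder_rf M b

theorem GeoOrder_E_pow (M : CoxeterMatrix B) (a b : B) (n : ℕ) (f : B → ℝ) :
    ((GeoOrder_E M a * GeoOrder_E M b) ^ n) f = (GeoOrder_st M a b)^[n] f := by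
  induction n generalizing f with
  | zero => rfl
  | succ n ih =>
    rw [pow_succ]
    exact ih (GeoOrder_st M a b f)

theorem GeoOrder_liftable (M : CoxeterMatrix B) : M.IsLiftable (GeoOrder_E M) := by
  intro a b
  funext f
  rw [GeoOrder_E_pow]
  show (GeoOrder_st M a b)^[M a b] f = f
  by_cases hab : a = b
  · subst hab
    rw [M.diagonal, Function.iterate_one]
    exact GeoOrder_rf_self a f
  · rcases Nat.eq_zero_or_pos (M a b) with h0 | h0
    · rw [h0]
      rfl
    · have h1 := M.off_diagonal a b hab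
      exact GeoOrder_iter_m rfl (by omega) f

/-- the case of infinite order -/
theorem GeoOrder_inf {a b : B} (hm : M a b = 0) (f : B → ℝ) (k : ℕ) :
    ((GeoOrder_st M a b)^[k] f) a = f a - 2 * k * (f a + f b) ∧
      ((GeoOrder_st M a b)^[k] f) b = f b + 2 * k * (f a + f b) := by
  have h1 : GeoOrder_bf M a b = -1 := by
    unfold GeoOrder_bf
    rw [if_pos hm]
  have h2 : GeoOrder_bf M b a = -1 := by rw [GeoOrder_bf_symm, h1]
  induction k with
  | zero => simp
  | succ k ih =>
    rw [Function.iterate_succ_apply']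
    unfold GeoOrder_st GeoOrder_rf at ih ⊢
    simp only [GeoOrder_bf_self, h1, h2] at ih ⊢
    rw [ih.1, ih.2]
    push_cast
    constructor <;> ring

theorem pow_ne_one {i j : B} (hij : i ≠ j) {r : ℕ} (hr : 0 < r) (hm : M i j = 0 ∨ r < M i j) :
    (cs.simple i * cs.simple j) ^ r ≠ 1 := by
  classical
  intro h
  have h1 := congrArg (cs.lift ⟨_, GeoOrder_liftable M⟩) h
  rw [map_pow, map_mul, cs.lift_apply_simple, cs.lift_apply_simple, map_one] at h1
  have h2 : (GeoOrder_st M i j)^[r] (Pi.single i 1) = (Pi.single i 1 : B → ℝ) := by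
    exact (GeoOrder_E_pow M i j r _).symm.trans (congrFun h1 (Pi.single i 1 : B → ℝ))
  rcases hm with hm | hm
  · have h3 := (GeoOrder_inf hm (Pi.single i 1) r).1
    rw [h2, Pi.single_eq_same, Pi.single_eq_of_ne hij.symm] at h3
    have h4 : (0 : ℝ) < r := by exact_mod_cast hr
    linarith
  · have hm0 : M i j ≠ 0 := by omega
    have h3 := GeoOrder_Z_iter rfl hm0 (Pi.single i 1) r
    rw [h2] at h3
    have h4 : GeoOrder_Z (M i j) i j (Pi.single i 1) = 1 := by
      unfold GeoOrder_Z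
      rw [Pi.single_eq_same, Pi.single_eq_of_ne hij.symm]
      simp
    rw [h4, mul_one] at h3
    exact (GeoOrder_om_prim hm0).pow_ne_one_of_pos_of_lt (by omega) hm h3.symm

end Pool.Agent.PolyCell
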