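import Pool.Agent.PolyCell.Refl
import Pool.Agent.PolyCell.GeoOrder

/-!
# Alternating words of length `≤ M i j` are reduced

Hints. By `pow_ne_one` the entries of the right inversion sequence of the alternating word (see
`getElem_leftInvSeq_alternatingWord`) are pairwise distinct, so each of them has odd count and is a right
inversion of the product; by `strong_exchange` for a reduced word of the product there are at most
`ℓ` of them.
-/

open CoxeterSystem

namespace Pool.Agent.PolyCell

variable {B W : Type*} [Group W] {M : CoxeterMatrix B} (cs : CoxeterSystem M W)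

private theorem AltLen_succ (i j : B) (k : ℕ) :
    alt cs i j (k + 1) = alt cs j i k * cs.simple j := by
  unfold alt
  rw [alternatingWord_succ, wordProd_concat]

private theorem AltLen_mul (m : ℕ) : ∀ i j : B,
    alt cs i j m * (cs.simple j * (cs.simple i * cs.simple j) ^ m) = alt cs i j (m + 1) := by
  induction m with
  | zero =>
    intro i j
    rw [AltLen_succ]
    unfold alt
    simp [alternatingWord]
  | succ m ih =>
    intro i j
    rw [AltLen_succ cs i j (m + 1), ← ih j i, AltLen_succ cs i j m, mul_assoc,
      ← mul_assoc (cs.simple j) (cs.simple j), cs.simple_mul_simple_self, one_mul, ← mul_pow_mul,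
      pow_succ, mul_assoc, mul_assoc]

private theorem AltLen_ris (i j : B) (k : ℕ) :
    cs.rightInvSeq (alternatingWord i j (k + 1)) =
      (cs.simple j * (cs.simple i * cs.simple j) ^ k) ::
        cs.rightInvSeq (alternatingWord i j k) := by
  rw [alternatingWord_succ', rightInvSeq]
  congr 1
  have h := AltLen_mul cs k i j
  unfold alt at h
  rw [alternatingWord_succ', wordProd_cons] at h
  rw [mul_assoc, ← h, inv_mul_cancel_left]

private theorem AltLen_mem (i j : B) (k : ℕ) {t : W}
    (ht : t ∈ cs.rightInvSeq (alternatingWord i j k)) :
    ∃ m < k, t = cs.simple j * (cs.simple i * cs.simple j) ^ m := by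
  induction k with
  | zero => simp [alternatingWord] at ht
  | succ k ih =>
    rw [AltLen_ris, List.mem_cons] at ht
    rcases ht with h | h
    · exact ⟨k, Nat.lt_succ_self k, h⟩
    · obtain ⟨m, hm, h'⟩ := ih h
      exact ⟨m, by omega, h'⟩

private theorem AltLen_nodup {i j : B} (hij : i ≠ j) (k : ℕ) (hk : M i j = 0 ∨ k ≤ M i j) :
    (cs.rightInvSeq (alternatingWord i j k)).Nodup := by
  induction k with
  | zero => simp [alternatingWord]
  | succ k ih =>
    rw [AltLen_ris, List.nodup_cons]
    refine ⟨fun h => ?_, ih (by omega)⟩
    obtain ⟨m, hm, h'⟩ := AltLen_mem cs i j k h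
    have h1 := mul_left_cancel h'
    have h2 : (cs.simple i * cs.simple j) ^ (k - m) = 1 := by
      have h3 : (cs.simple i * cs.simple j) ^ m * (cs.simple i * cs.simple j) ^ (k - m) =
          (cs.simple i * cs.simple j) ^ m * 1 := by
        rw [← pow_add, mul_one]
        convert! h1 using 2
        omega
      exact mul_left_cancel h3
    exact pow_ne_one cs hij (r := k - m) (by omega) (by omega) h2

theorem length_alt {i j : B} (hij : i ≠ j) {k : ℕ} (hk : M i j = 0 ∨ k ≤ M i j) :
    cs.length (alt cs i j k) = k := by
  classical
  have h1 : cs.length (alt cs i j k) ≤ k := by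
    have h := cs.length_wordProd_le (alternatingWord i j k)
    rwa [length_alternatingWord] at h
  refine le_antisymm h1 ?_
  obtain ⟨ω, hω, hw⟩ := cs.exists_isReduced (alt cs i j k)
  have hsub : cs.rightInvSeq (alternatingWord i j k) ⊆ cs.rightInvSeq ω := by
    intro t ht
    have hr := cs.isReflection_of_mem_rightInvSeq _ ht
    have h2 := (odd_count_iff cs (alternatingWord i j k) hr).1 (by
      rw [List.count_eq_one_of_mem (AltLen_nodup cs hij k hk) ht]
      exact odd_one)
    apply strong_exchange cs ω hr
    rw [← hw]
    exact h2
  have h3 := ((AltLen_nodup cs hij k hk).subperm hsub).length_le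
  rw [length_rightInvSeq, length_rightInvSeq, length_alternatingWord] at h3
  rw [hw, hω.eq]
  exact h3

end Pool.Agent.PolyCell
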