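import Pool.Agent.PolyCell.Junc

/-!
# The degree bounds E0, E1, E0', E1': statements by total length
-/

open CoxeterSystem

namespace Pool.Agent.PolyCell

variable {B W : Type*} [Group W] {M : CoxeterMatrix B} (cs : CoxeterSystem M W)

def E0S (C : W → Hk cs) (N n : ℕ) : Prop :=
  ∀ x y : W, cs.length x + cs.length y ≤ n → PLat cs C N N (T cs x * T cs y)

def E1S (C : W → Hk cs) (N n : ℕ) : Prop :=
  ∀ (x y : W) (g : B), cs.length x + cs.length y + 1 ≤ n → ¬ cs.IsRightDescent x g →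
    ¬ cs.IsLeftDescent y g → Le cs N (x * cs.simple g) → Le cs N (cs.simple g * y) →
    PLat cs C N ((N : ℤ) - 1) (T cs x * T cs (cs.simple g) * T cs y)

def E0pS (C : W → Hk cs) (N n : ℕ) : Prop :=
  ∀ x y : W, cs.length x + cs.length y ≤ n → Le cs (N - 1) x →
    Lat cs C N ((N : ℤ) - 1) (T cs x * T cs y)

def E1pS (C : W → Hk cs) (N n : ℕ) : Prop :=
  ∀ (x y : W) (g : B), cs.length x + cs.length y + 1 ≤ n → ¬ cs.IsRightDescent x g →
    ¬ cs.IsLeftDescent y g → Le cs (N - 1) (x * cs.simple g) → Le cs N (cs.simple g * y) →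
    Lat cs C N ((N : ℤ) - 2) (T cs x * T cs (cs.simple g) * T cs y)

end Pool.Agent.PolyCell
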