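import Pool.Agent.PolyCell.BDefs

/-!
# Step for E0

Proof. If `Fac N x`: `T_fac_expand`, `E0S n` for `T_z T_y` (`ℓ(z) < ℓ(x)`), coefficients of degree `≤ -1`: `Lat (N-1)`, `plat_of_lat`; the `Zero` part by the ideal property. Same if `Fac N y`. Now `Le N x`, `Le N y`. `x = 1` or `y = 1`: `plat_T`.
(a) common `g ∈ R(x) ∩ L(y)`, `x = x' g`, `y = g y'`: `T_x T_y = T_{x'} T_{y'} + ξ T_{x'} T_g T_{y'}`: `E0S n`, `E1S n` (`ξ` is `Gd 1`).
(b) no common descent. `s ∈ R(x)`, `x = x' s`; `dichotomy` for `(x', s, y)`: reduced: `T_x T_y = T_{xy}`, `plat_T`. Otherwise `h ≠ s`, `m = M s h ≠ 0`, `h ∈ R(x') ∩ L(y)`. `T = {s,h}`, `x = x₁ a`, `y = b y₁` (`decompR`, `decompL`); `s ∈ R(a)`, `s ∉ L(b)`, `ℓ(a) ≥ 2`, `ℓ(b) ≥ 1`; `a ≠ w_T`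
(otherwise `h` is a common descent), `b ≠ w_T`: `ℓ(a), ℓ(b) ≤ m - 1`. If `m ≤ N` or `ℓ(a) + ℓ(b) ≤ m`: `junc_A` (`t = s`): `PLat (max 0 (ℓ(a)+ℓ(b)-m))`, at most `N`. If `m > N` and `ℓ(a) + ℓ(b) ≥ m`: `junc_C`: `n` has degree `≤ -2`, `T_{x₁} T_{y₁}` in `PLat N` (`E0S n`); `n', n''` have degree `≤ -1` and
`T_{x₁} T_{s_i} T_{y₁} = T_{x₁ s_i} T_{y₁}` in `PLat N` (`E0S n`: `ℓ(x₁) + 1 + ℓ(y₁) ≤ n`). Everything is in `Lat (N-1)`: `plat_of_lat`.
-/

open CoxeterSystem

namespace Pool.Agent.PolyCell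

variable {B W : Type*} [Group W] {M : CoxeterMatrix B} {cs : CoxeterSystem M W}
  {C : W → Hk cs} {N : ℕ}

private theorem BStep0_fac_left (hC : IsKL cs C) (hI : IdealN cs C N) {k : ℤ} {x : W} {g : Hk cs}
    (hx : Fac cs N x) (h : ∀ z, cs.length z < cs.length x → Lat cs C N k (T cs z * g)) :
    Lat cs C N (k - 1) (T cs x * g) := by
  obtain ⟨a, hz, ha⟩ := T_fac_expand hC hx
  have e1 : T cs x * g = (T cs x - Finsupp.linearCombination LP (T cs) a) * g +
      ∑ z ∈ a.support, a z • (T cs z * g) := by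
    rw [sub_mul, Finsupp.linearCombination_apply, Finsupp.sum, Finset.sum_mul]
    have : ∑ z ∈ a.support, a z • (T cs z * g) = ∑ z ∈ a.support, a z • T cs z * g :=
      Finset.sum_congr rfl fun z _ => (smul_mul_assoc _ _ _).symm
    rw [this]
    abel
  rw [e1]
  refine lat_add (lat_of_zero _ (zero_mul_right hC hI hz g)) (lat_sum _ _ ?_)
  intro z hzs
  obtain ⟨-, h2, h3⟩ := ha z (Finsupp.mem_support_iff.mp hzs)
  exact lat_smul h3 (h z h2)

private theorem BStep0_fac_right (hC : IsKL cs C) (hI : IdealN cs C N) {k : ℤ} {y : W} {g : Hk cs}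
    (hy : Fac cs N y) (h : ∀ z, cs.length z < cs.length y → Lat cs C N k (g * T cs z)) :
    Lat cs C N (k - 1) (g * T cs y) := by
  obtain ⟨a, hz, ha⟩ := T_fac_expand hC hy
  have e1 : g * T cs y = g * (T cs y - Finsupp.linearCombination LP (T cs) a) +
      ∑ z ∈ a.support, a z • (g * T cs z) := by
    rw [mul_sub, Finsupp.linearCombination_apply, Finsupp.sum, Finset.mul_sum]
    have : ∑ z ∈ a.support, a z • (g * T cs z) = ∑ z ∈ a.support, g * a z • T cs z :=
      Finset.sum_congr rfl fun z _ => (mul_smul_comm _ _ _).symm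
    rw [this]
    abel
  rw [e1]
  refine lat_add (lat_of_zero _ (zero_mul_left hC hI hz g)) (lat_sum _ _ ?_)
  intro z hzs
  obtain ⟨-, h2, h3⟩ := ha z (Finsupp.mem_support_iff.mp hzs)
  exact lat_smul h3 (h z h2)

/-- common descent -/
private theorem BStep0_common {n : ℕ} (h0 : E0S cs C N n) (h1 : E1S cs C N n) {x y : W} {g : B}
    (hxy : cs.length x + cs.length y ≤ n + 1) (hx : Le cs N x) (hy : Le cs N y)
    (hgx : cs.IsRightDescent x g) (hgy : cs.IsLeftDescent y g) :
    PLat cs C N N (T cs x * T cs y) := by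
  have lx := cs.isRightDescent_iff.mp hgx
  have ly := cs.isLeftDescent_iff.mp hgy
  have ex : x * cs.simple g * cs.simple g = x := cs.simple_mul_simple_cancel_right g
  have ey : cs.simple g * (cs.simple g * y) = y := cs.simple_mul_simple_cancel_left g
  have nx : ¬ cs.IsRightDescent (x * cs.simple g) g := by
    rw [cs.not_isRightDescent_iff, ex]; omega
  have ny : ¬ cs.IsLeftDescent (cs.simple g * y) g := by
    rw [cs.not_isLeftDescent_iff, ey]; omega
  have Tx : T cs x = T cs (x * cs.simple g) * T cs (cs.simple g) := by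
    rw [T_mul_s cs nx, ex]
  have Ty : T cs y = T cs (cs.simple g) * T cs (cs.simple g * y) := by
    rw [s_mul_T cs ny, ey]
  have key : T cs x * T cs y = T cs (x * cs.simple g) * T cs (cs.simple g * y) +
      xi • (T cs (x * cs.simple g) * T cs (cs.simple g) * T cs (cs.simple g * y)) := by
    rw [Tx, Ty]
    have : T cs (x * cs.simple g) * T cs (cs.simple g) * (T cs (cs.simple g) * T cs (cs.simple g * y))
        = T cs (x * cs.simple g) * (T cs (cs.simple g) * T cs (cs.simple g)) *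
          T cs (cs.simple g * y) := by
      simp only [mul_assoc]
    rw [this, T_s_sq, mul_add, mul_one, add_mul, mul_smul_comm, smul_mul_assoc]
  rw [key]
  have p1 : PLat cs C N N (T cs (x * cs.simple g) * T cs (cs.simple g * y)) :=
    h0 _ _ (by omega)
  have p2 : PLat cs C N ((N : ℤ) - 1)
      (T cs (x * cs.simple g) * T cs (cs.simple g) * T cs (cs.simple g * y)) :=
    h1 _ _ g (by omega) nx ny (by rwa [ex]) (by rwa [ey])
  have gx : Gd 1 xi := by
    have := gd_xi_mul gd_one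
    simpa using this
  have p3 := plat_smul gx p2
  rw [sub_add_cancel] at p3
  exact plat_add p1 p3

/-- no common descent -/
private theorem BStep0_nocommon (hM : TF M) (hC : IsKL cs C) (hI : IdealN cs C N) (hN : 2 ≤ N)
    {n : ℕ} (h0 : E0S cs C N n) {x y : W}
    (hxy : cs.length x + cs.length y ≤ n + 1)
    (hno : ∀ g, cs.IsRightDescent x g → ¬ cs.IsLeftDescent y g) :
    PLat cs C N N (T cs x * T cs y) := by
  by_cases hx1 : x = 1
  · rw [hx1, ← one_def', one_mul]
    exact plat_mono (by positivity) (plat_T hC y)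
  obtain ⟨s, hs⟩ := cs.exists_rightDescent_of_ne_one hx1
  have lx := cs.isRightDescent_iff.mp hs
  have ex : x * cs.simple s * cs.simple s = x := cs.simple_mul_simple_cancel_right s
  have nx : ¬ cs.IsRightDescent (x * cs.simple s) s := by
    rw [cs.not_isRightDescent_iff, ex]; omega
  have hsy := hno s hs
  rcases dichotomy cs hM nx hsy with hred | ⟨h, hhs, hm, hhx, hhy⟩
  · rw [ex] at hred
    have : Red cs x y := by
      unfold Red; omega
    rw [T_mul_T cs this]
    exact plat_mono (by positivity) (plat_T hC _)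
  have hsh : s ≠ h := fun e => hhs e.symm
  obtain ⟨x₁, a, hx₁, ha, hxa⟩ := decompR cs hsh x
  obtain ⟨b, y₁, hy₁, hb, hyb⟩ := decompL cs hsh y
  have hsa : cs.IsRightDescent a s := by
    rw [hxa] at hs
    exact (rd_mul_D cs hsh (Or.inl rfl) hx₁ ha).mp hs
  have hsb : ¬ cs.IsLeftDescent b s := by
    rw [hyb] at hsy
    exact fun hc => hsy ((ld_D_mul cs hsh (Or.inl rfl) hy₁ hb).mpr hc)
  have hhb : cs.IsLeftDescent b h := by
    rw [hyb] at hhy
    exact (ld_D_mul cs hsh (Or.inr rfl) hy₁ hb).mp hhy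
  have hsD : cs.simple s ∈ D cs s h := Subgroup.subset_closure (by simp)
  have hasD : a * cs.simple s ∈ D cs s h := Subgroup.mul_mem _ ha hsD
  have hhas : cs.IsRightDescent (a * cs.simple s) h := by
    have e : x * cs.simple s = x₁ * (a * cs.simple s) := by rw [hxa, mul_assoc]
    rw [e] at hhx
    exact (rd_mul_D cs hsh (Or.inr rfl) hx₁ hasD).mp hhx
  have ha' : a ≠ wT cs s h := by
    intro e
    have h1 : cs.IsRightDescent a h := by rw [e]; exact rd_wT cs hsh hm (Or.inr rfl)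
    have h2 : cs.IsRightDescent x h := by
      rw [hxa]; exact (rd_mul_D cs hsh (Or.inr rfl) hx₁ ha).mpr h1
    exact hno h h2 hhy
  have hb' : b ≠ wT cs s h := by
    intro e
    exact hsb (by rw [e]; exact ld_wT cs hsh hm (Or.inl rfl))
  have la := cs.isRightDescent_iff.mp hsa
  have las := cs.isRightDescent_iff.mp hhas
  have lb := cs.isLeftDescent_iff.mp hhb
  have la_le : cs.length a < M s h :=
    lt_of_le_of_ne (len_D_le cs hsh hm ha) fun e => ha' (eq_wT_of_len cs hsh hm ha e)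
  have lb_le : cs.length b < M s h :=
    lt_of_le_of_ne (len_D_le cs hsh hm hb) fun e => hb' (eq_wT_of_len cs hsh hm hb e)
  have rx : Red cs x₁ a := len_mul_D cs hsh hx₁ ha
  have ry : Red cs b y₁ := len_D_mul cs hsh hy₁ hb
  have lxa : cs.length x = cs.length x₁ + cs.length a := by rw [hxa]; exact rx
  have lyb : cs.length y = cs.length b + cs.length y₁ := by rw [hyb]; exact ry
  have key : T cs x * T cs y = T cs x₁ * T cs a * T cs b * T cs y₁ := by
    rw [hxa, hyb, ← T_mul_T cs rx, ← T_mul_T cs ry]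
    simp only [mul_assoc]
  rw [key]
  by_cases hcase : M s h ≤ N ∨ cs.length a + cs.length b ≤ M s h
  · refine plat_mono ?_ (junc_A hM hC hsh hm hx₁ hy₁ ha hb hsa hsb (by omega) (by omega))
    rcases hcase with hc | hc <;> omega
  · push Not at hcase
    obtain ⟨hc1, hc2⟩ := hcase
    obtain ⟨p, p', p'', hp, hp', hp'', hlat⟩ :=
      junc_C hM hC hI hsh hc1 hx₁ hy₁ ha hb ha' hb' hsa hsb hc2.le
    have l1 : cs.length (x₁ * cs.simple s) = cs.length x₁ + 1 :=
      cs.not_isRightDescent_iff.mp hx₁.1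
    have l2 : cs.length (x₁ * cs.simple h) = cs.length x₁ + 1 :=
      cs.not_isRightDescent_iff.mp hx₁.2
    have q0 : Lat cs C N N (T cs x₁ * T cs y₁) := (h0 x₁ y₁ (by omega)).1
    have q1 : Lat cs C N N (T cs x₁ * T cs (cs.simple s) * T cs y₁) := by
      rw [T_mul_s cs hx₁.1]
      exact (h0 _ y₁ (by omega)).1
    have q2 : Lat cs C N N (T cs x₁ * T cs (cs.simple h) * T cs y₁) := by
      rw [T_mul_s cs hx₁.2]
      exact (h0 _ y₁ (by omega)).1
    have r0 : Lat cs C N ((N : ℤ) - 1) (p • (T cs x₁ * T cs y₁)) :=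
      lat_mono (by omega) (lat_smul hp q0)
    have r1 : Lat cs C N ((N : ℤ) - 1) (p' • (T cs x₁ * T cs (cs.simple s) * T cs y₁)) :=
      lat_mono (by omega) (lat_smul hp' q1)
    have r2 : Lat cs C N ((N : ℤ) - 1) (p'' • (T cs x₁ * T cs (cs.simple h) * T cs y₁)) :=
      lat_mono (by omega) (lat_smul hp'' q2)
    have r3 : Lat cs C N ((N : ℤ) - 1) (T cs x₁ * T cs a * T cs b * T cs y₁ -
        p • (T cs x₁ * T cs y₁) - p' • (T cs x₁ * T cs (cs.simple s) * T cs y₁)
        - p'' • (T cs x₁ * T cs (cs.simple h) * T cs y₁)) :=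
      lat_mono (by omega) hlat
    apply plat_of_lat
    have := lat_add (lat_add (lat_add r3 r2) r1) r0
    simpa using this

theorem e0_step (hM : TF M) (hC : IsKL cs C) (hI : IdealN cs C N) (hN : 2 ≤ N) (n : ℕ)
    (h0 : E0S cs C N n) (h1 : E1S cs C N n) (h0p : E0pS cs C N n) (h1p : E1pS cs C N n) :
    E0S cs C N (n + 1) := by
  intro x y hxy
  by_cases hx : Fac cs N x
  · apply plat_of_lat
    exact BStep0_fac_left hC hI hx fun z hz => (h0 z y (by omega)).1
  by_cases hy : Fac cs N y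
  · apply plat_of_lat
    exact BStep0_fac_right hC hI hy fun z hz => (h0 x z (by omega)).1
  by_cases hg : ∃ g, cs.IsRightDescent x g ∧ cs.IsLeftDescent y g
  · obtain ⟨g, hgx, hgy⟩ := hg
    exact BStep0_common h0 h1 hxy hx hy hgx hgy
  · push Not at hg
    exact BStep0_nocommon hM hC hI hN h0 hxy hg

end Pool.Agent.PolyCell
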