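import Pool.Agent.PolyCell.BDefs

/-!
# Step for E0'

Proof. As E0 (module BStep0), with `Le (N-1) x`. If `Fac N y`: `T_fac_expand` for `y`, `E0S n`: `Lat (N-1)`. Otherwise `Le N y`. Common `g`: `T_{x'} T_{y'}` by `E0pS n`, `ξ T_{x'} T_g T_{y'}` by `E1pS n` (`Le (N-1) (x' g)`): `Lat (N-1)`. No common descent: as in BStep0: `junc_A` gives at most
`max 0 (m-2) ≤ N - 1`, `junc_C` gives `Lat (N-1)` (with `E0S n`).
-/

open CoxeterSystem

namespace Pool.Agent.PolyCell

variable {B W : Type*} [Group W] {M : CoxeterMatrix B} {cs : CoxeterSystem M W}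
  {C : W → Hk cs} {N : ℕ}

theorem e0p_step (hM : TF M) (hC : IsKL cs C) (hI : IdealN cs C N) (hN : 2 ≤ N) (n : ℕ)
    (h0 : E0S cs C N n) (h1 : E1S cs C N n) (h0p : E0pS cs C N n) (h1p : E1pS cs C N n) :
    E0pS cs C N (n + 1) := by
  classical
  intro x y hxy hlx
  by_cases hfy : Fac cs N y
  · -- `y` has a factor of exponent `> N`
    obtain ⟨a, ha, ha'⟩ := T_fac_expand hC hfy
    have e : T cs x * T cs y = T cs x * (T cs y - Finsupp.linearCombination LP (T cs) a) +
        T cs x * Finsupp.linearCombination LP (T cs) a := by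
      rw [mul_sub, sub_add_cancel]
    rw [e]
    apply lat_add
    · exact lat_of_zero _ (zero_mul_left hC hI ha _)
    · rw [Finsupp.linearCombination_apply, Finsupp.sum, Finset.mul_sum]
      apply lat_sum
      intro z hz
      rw [mul_smul_comm]
      have hz' := ha' z (Finsupp.mem_support_iff.1 hz)
      have h2 := (h0 x z (by omega)).1
      have h3 := lat_smul hz'.2.2 h2
      exact lat_mono (by omega) h3
  have hly : Le cs N y := hfy
  by_cases hcom : ∃ g, cs.IsRightDescent x g ∧ cs.IsLeftDescent y g
  · -- common descent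
    obtain ⟨g, hgx, hgy⟩ := hcom
    have hss : cs.simple g * cs.simple g = 1 := cs.simple_mul_simple_self g
    have hx' : ¬ cs.IsRightDescent (x * cs.simple g) g :=
      cs.isRightDescent_iff_not_isRightDescent_mul.1 hgx
    have hy' : ¬ cs.IsLeftDescent (cs.simple g * y) g :=
      cs.isLeftDescent_iff_not_isLeftDescent_mul.1 hgy
    have hlx' := cs.isRightDescent_iff.1 hgx
    have hly' := cs.isLeftDescent_iff.1 hgy
    have ex : x * cs.simple g * cs.simple g = x := by rw [mul_assoc, hss, mul_one]
    have ey : cs.simple g * (cs.simple g * y) = y := by rw [← mul_assoc, hss, one_mul]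
    have tx : T cs (x * cs.simple g) * T cs (cs.simple g) = T cs x := by
      rw [T_mul_s cs hx', ex]
    have ty : T cs (cs.simple g) * T cs (cs.simple g * y) = T cs y := by
      rw [s_mul_T cs hy', ey]
    have e : T cs x * T cs y = T cs (x * cs.simple g) * T cs (cs.simple g * y) +
        xi • (T cs (x * cs.simple g) * T cs (cs.simple g) * T cs (cs.simple g * y)) := by
      rw [← tx, ← ty, mul_assoc, ← mul_assoc (T cs (cs.simple g)) (T cs (cs.simple g)), T_s_sq,
        add_mul, one_mul, mul_add, smul_mul_assoc, mul_smul_comm, ← mul_assoc]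
    rw [e]
    have hred : Red cs (x * cs.simple g) (cs.simple g) := by
      unfold Red
      rw [ex, cs.length_simple]
      omega
    apply lat_add
    · apply h0p _ _ (by omega)
      apply le_prefix cs hred
      rw [ex]
      exact hlx
    · have h2 := h1p (x * cs.simple g) (cs.simple g * y) g (by omega) hx' hy'
        (by rw [ex]; exact hlx) (by rw [ey]; exact hly)
      exact lat_mono (by omega) (lat_smul dle_xi h2)
  -- no common descent
  have hNge : (0 : ℤ) ≤ (N : ℤ) - 1 := by omega
  by_cases hx1 : x = 1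
  · rw [hx1, ← one_def', one_mul]
    exact lat_mono hNge (lat_T hC y)
  obtain ⟨s, hs⟩ := cs.exists_rightDescent_of_ne_one hx1
  have hsy : ¬ cs.IsLeftDescent y s := fun h => hcom ⟨s, hs, h⟩
  have hss : cs.simple s * cs.simple s = 1 := cs.simple_mul_simple_self s
  have hx' : ¬ cs.IsRightDescent (x * cs.simple s) s :=
    cs.isRightDescent_iff_not_isRightDescent_mul.1 hs
  have hlx' := cs.isRightDescent_iff.1 hs
  have ex : x * cs.simple s * cs.simple s = x := by rw [mul_assoc, hss, mul_one]
  rcases dichotomy cs hM hx' hsy with hd | ⟨h, hhs, hm, hxh, hyh⟩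
  · rw [ex] at hd
    have hred : Red cs x y := by
      unfold Red
      omega
    rw [T_mul_T cs hred]
    exact lat_mono hNge (lat_T hC _)
  · have hsh : s ≠ h := hhs.symm
    obtain ⟨x1, a, hx1', ha, hxa⟩ := decompR cs hsh x
    obtain ⟨b, y1, hy1', hb, hyb⟩ := decompL cs hsh y
    have hat : cs.IsRightDescent a s := by
      rw [hxa] at hs
      exact (rd_mul_D cs hsh (Or.inl rfl) hx1' ha).1 hs
    have hbt : ¬ cs.IsLeftDescent b s := by
      rw [hyb] at hsy
      exact fun h' => hsy ((ld_D_mul cs hsh (Or.inl rfl) hy1' hb).2 h')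
    have hbh : cs.IsLeftDescent b h := by
      rw [hyb] at hyh
      exact (ld_D_mul cs hsh (Or.inr rfl) hy1' hb).1 hyh
    have has : a * cs.simple s ∈ D cs s h := by
      apply Subgroup.mul_mem _ ha
      exact Subgroup.subset_closure (by simp)
    have hash : cs.IsRightDescent (a * cs.simple s) h := by
      rw [hxa, mul_assoc] at hxh
      exact (rd_mul_D cs hsh (Or.inr rfl) hx1' has).1 hxh
    have hla1 := cs.isRightDescent_iff.1 hat
    have hla2 := cs.isRightDescent_iff.1 hash
    have hlb1 := cs.isLeftDescent_iff.1 hbh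
    have hlx1 : cs.length x = cs.length x1 + cs.length a := by
      rw [hxa]
      exact len_mul_D cs hsh hx1' ha
    have hly1 : cs.length y = cs.length b + cs.length y1 := by
      rw [hyb]
      exact len_D_mul cs hsh hy1' hb
    have hane : a ≠ wT cs s h := by
      intro hc
      apply hcom
      refine ⟨h, ?_, hyh⟩
      rw [hxa]
      apply (rd_mul_D cs hsh (Or.inr rfl) hx1' ha).2
      rw [hc]
      exact rd_wT cs hsh hm (Or.inr rfl)
    have hbne : b ≠ wT cs s h := by
      intro hc
      apply hbt
      rw [hc]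
      exact ld_wT cs hsh hm (Or.inl rfl)
    have hla : cs.length a + 1 ≤ M s h := by
      have h2 := len_D_le cs hsh hm ha
      have h3 : cs.length a ≠ M s h := fun h3 => hane (eq_wT_of_len cs hsh hm ha h3)
      omega
    have hlb : cs.length b + 1 ≤ M s h := by
      have h2 := len_D_le cs hsh hm hb
      have h3 : cs.length b ≠ M s h := fun h3 => hbne (eq_wT_of_len cs hsh hm hb h3)
      omega
    have hTx : T cs x = T cs x1 * T cs a := by
      rw [T_mul_T cs (len_mul_D cs hsh hx1' ha), hxa]
    have hTy : T cs y = T cs b * T cs y1 := by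
      rw [T_mul_T cs (len_D_mul cs hsh hy1' hb), hyb]
    have hTT : T cs x * T cs y = T cs x1 * T cs a * T cs b * T cs y1 := by
      rw [hTx, hTy, ← mul_assoc]
    by_cases hcase : M s h ≤ N ∨ cs.length a + cs.length b ≤ M s h
    · have hA := junc_A (N := N) hM hC hsh hm hx1' hy1' ha hb hat hbt (by omega) (by omega)
      rw [hTT]
      refine lat_mono ?_ hA.1
      rcases hcase with hcase | hcase
      · omega
      · omega
    · rw [not_or] at hcase
      obtain ⟨m, m', m'', hm1, hm2, hm3, hL⟩ := junc_C (N := N) hM hC hI hsh (by omega) hx1' hy1'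
        ha hb hane hbne hat hbt (by omega)
      have hE1 := (h0 x1 y1 (by omega)).1
      have hTs : T cs x1 * T cs (cs.simple s) = T cs (x1 * cs.simple s) := T_mul_s cs hx1'.1
      have hTh : T cs x1 * T cs (cs.simple h) = T cs (x1 * cs.simple h) := T_mul_s cs hx1'.2
      have hls := cs.length_mul_le x1 (cs.simple s)
      have hlh := cs.length_mul_le x1 (cs.simple h)
      rw [cs.length_simple] at hls hlh
      have hE2 := (h0 (x1 * cs.simple s) y1 (by omega)).1
      have hE3 := (h0 (x1 * cs.simple h) y1 (by omega)).1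
      rw [hTs, hTh] at hL
      rw [hTT]
      have e : T cs x1 * T cs a * T cs b * T cs y1 =
          (T cs x1 * T cs a * T cs b * T cs y1 - m • (T cs x1 * T cs y1)
            - m' • (T cs (x1 * cs.simple s) * T cs y1)
            - m'' • (T cs (x1 * cs.simple h) * T cs y1)) + m'' • (T cs (x1 * cs.simple h) * T cs y1)
            + m' • (T cs (x1 * cs.simple s) * T cs y1) + m • (T cs x1 * T cs y1) := by
        abel
      rw [e]
      refine lat_add (lat_add (lat_add (lat_mono hNge hL) ?_) ?_) ?_
      · exact lat_mono (by omega) (lat_smul hm3 hE3)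
      · exact lat_mono (by omega) (lat_smul hm2 hE2)
      · exact lat_mono (by omega) (lat_smul hm1 hE1)

end Pool.Agent.PolyCell
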