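import Pool.Agent.PolyCell.BDefs

/-!
# Step for E1

Proof. `ℓ(x) + ℓ(y) + 1 ≤ n + 1`. `dichotomy` for `(x, g, y)`: reduced: `T_{x g y}`, `PLat 0`, `plat_mono`. Otherwise `h ≠ g`, `m = M g h ≠ 0`, `h ∈ R(x) ∩ L(y)`; `T = {g,h}`, `x = x₁ a'`, `y = b y₁`, `a = a' s_g` (`g ∉ R(a')`), `T_x T_g = T_{x₁} T_a`; `g ∈ R(a)`, `g ∉ L(b)`, `a', b ≠ 1`, `ℓ(b) ≤ m - 1`, `ℓ(a) ≤ m`.
`m ≤ N`: `ℓ(a)+ℓ(b) ≤ 2m-2`: `junc_A` (`t = g`): at most `m - 2 ≤ N - 1` (or `0`). `ℓ(a)+ℓ(b) = 2m-1`: `a = w_T`, `s_g b = w_T`: `junc_B`; the terms `T_{x₁} T_c T_{y₁}`, `c ∈ {g,h}` are in `PLat (N-1)` by `E1S n` (`Le N (x₁ s_c)`: prefix of `x₁ w_T = x s_g`; `Le N (s_c y₁)`: suffix of `w_T y₁ = s_g y`) and `Gd 0`.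
`m > N`: `a ≠ w_T` (`Le N (x s_g)`), `s_g b ≠ w_T` (`Le N (s_g y)`), so `ℓ(a) ≤ m - 1`, `ℓ(b) ≤ m - 2`. `ℓ(a)+ℓ(b) ≤ m`: `junc_A`, `PLat 0`. Otherwise `junc_C`: `n` of degree `≤ -3`, `n', n''` of degree `≤ -2`; `T_{x₁} T_{y₁}`, `T_{x₁ s_c} T_{y₁}` in `PLat N` by `E0S n`; the rest in `Lat 0`. All in `Lat (N-2)`: `plat_of_lat`.
-/

open CoxeterSystem

namespace Pool.Agent.PolyCell

variable {B W : Type*} [Group W] {M : CoxeterMatrix B} {cs : CoxeterSystem M W}
  {C : W → Hk cs} {N : ℕ}

private theorem BStep1_prefix {i j c : B} (hij : i ≠ j) (hm : M i j ≠ 0) (hc : c = i ∨ c = j)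
    {x : W} (hx : Rmin cs i j x) (h : Le cs N (x * wT cs i j)) : Le cs N (x * cs.simple c) := by
  have hcD : cs.simple c ∈ D cs i j := by
    refine Subgroup.subset_closure ?_
    rcases hc with rfl | rfl
    · exact Or.inl rfl
    · exact Or.inr rfl
  have hwD := wT_mem cs i j
  have hld : cs.IsLeftDescent (wT cs i j) c := ld_wT cs hij hm hc
  have h1 := (cs.isLeftDescent_iff).1 hld
  have h2 : x * cs.simple c * (cs.simple c * wT cs i j) = x * wT cs i j := by
    rw [mul_assoc, cs.simple_mul_simple_cancel_left]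
  refine le_prefix cs (y := cs.simple c * wT cs i j) ?_ (by rw [h2]; exact h)
  unfold Red
  rw [h2, len_mul_D cs hij hx hwD, len_mul_D cs hij hx hcD, cs.length_simple]
  omega

private theorem BStep1_suffix {i j c : B} (hij : i ≠ j) (hm : M i j ≠ 0) (hc : c = i ∨ c = j)
    {y : W} (hy : Lmin cs i j y) (h : Le cs N (wT cs i j * y)) : Le cs N (cs.simple c * y) := by
  have hcD : cs.simple c ∈ D cs i j := by
    refine Subgroup.subset_closure ?_
    rcases hc with rfl | rfl
    · exact Or.inl rfl
    · exact Or.inr rfl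
  have hwD := wT_mem cs i j
  have hrd : cs.IsRightDescent (wT cs i j) c := rd_wT cs hij hm hc
  have h1 := (cs.isRightDescent_iff).1 hrd
  have h2 : wT cs i j * cs.simple c * (cs.simple c * y) = wT cs i j * y := by
    rw [mul_assoc, cs.simple_mul_simple_cancel_left]
  refine le_suffix cs (x := wT cs i j * cs.simple c) ?_ (by rw [h2]; exact h)
  unfold Red
  rw [h2, len_D_mul cs hij hy hwD, len_D_mul cs hij hy hcD, cs.length_simple]
  omega

theorem e1_step (hM : TF M) (hC : IsKL cs C) (hI : IdealN cs C N) (hN : 2 ≤ N) (n : ℕ)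
    (h0 : E0S cs C N n) (h1 : E1S cs C N n) (h0p : E0pS cs C N n) (h1p : E1pS cs C N n) :
    E1S cs C N (n + 1) := by
  intro x y g hlen hxg hyg hxN hyN
  have hN' : (2 : ℤ) ≤ N := by exact_mod_cast hN
  rcases dichotomy cs hM hxg hyg with hred | ⟨h, hhg, hm, hxh, hyh⟩
  · -- reduced case
    have hxg' := (cs.not_isRightDescent_iff).1 hxg
    rw [T_mul_s cs hxg, T_mul_T cs (show Red cs (x * cs.simple g) y by unfold Red; omega)]
    exact plat_mono (by omega) (plat_T hC _)
  · have hgh : g ≠ h := fun e => hhg e.symm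
    have hm2 : 2 ≤ M g h := two_le_exp hgh hm
    obtain ⟨x₁, a', hx₁, ha', rfl⟩ := decompR cs hgh x
    obtain ⟨b, y₁, hy₁, hb, rfl⟩ := decompL cs hgh y
    have hgD : cs.simple g ∈ D cs g h := Subgroup.subset_closure (Or.inl rfl)
    have hhD : cs.simple h ∈ D cs g h := Subgroup.subset_closure (Or.inr rfl)
    rw [rd_mul_D cs hgh (Or.inr rfl) hx₁ ha'] at hxh
    rw [rd_mul_D cs hgh (Or.inl rfl) hx₁ ha'] at hxg
    rw [ld_D_mul cs hgh (Or.inr rfl) hy₁ hb] at hyh
    rw [ld_D_mul cs hgh (Or.inl rfl) hy₁ hb] at hyg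
    have hlx := len_mul_D cs hgh hx₁ ha'
    have hly := len_D_mul cs hgh hy₁ hb
    have hla' : 1 ≤ cs.length a' := by
      have := (cs.isRightDescent_iff).1 hxh
      omega
    have hlb : 1 ≤ cs.length b := by
      have := (cs.isLeftDescent_iff).1 hyh
      omega
    -- a = a' s_g
    have ha : a' * cs.simple g ∈ D cs g h := Subgroup.mul_mem _ ha' hgD
    have hsb : cs.simple g * b ∈ D cs g h := Subgroup.mul_mem _ hgD hb
    have hla : cs.length (a' * cs.simple g) = cs.length a' + 1 := (cs.not_isRightDescent_iff).1 hxg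
    have hlsb : cs.length (cs.simple g * b) = cs.length b + 1 := (cs.not_isLeftDescent_iff).1 hyg
    have hag : cs.IsRightDescent (a' * cs.simple g) g := by
      rw [cs.isRightDescent_iff, cs.simple_mul_simple_cancel_right]
      exact hla.symm
    have hlam := len_D_le cs hgh hm ha
    have hlbm := len_D_le cs hgh hm hsb
    have hT : T cs (x₁ * a') * T cs (cs.simple g) * T cs (b * y₁) =
        T cs x₁ * T cs (a' * cs.simple g) * T cs b * T cs y₁ := by
      rw [← T_mul_T cs (show Red cs x₁ a' from hlx), ← T_mul_T cs (show Red cs b y₁ from hly),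
        ← T_mul_s cs hxg]
      simp only [mul_assoc]
    have hxN' : Le cs N (x₁ * (a' * cs.simple g)) := by rw [← mul_assoc]; exact hxN
    have hyN' : Le cs N (cs.simple g * b * y₁) := by rw [mul_assoc]; exact hyN
    rw [hT]
    set a := a' * cs.simple g with hadef
    by_cases hmN : M g h ≤ N
    · have hmN' : (M g h : ℤ) ≤ N := by exact_mod_cast hmN
      by_cases hs : cs.length a + cs.length b + 2 ≤ 2 * M g h
      · refine plat_mono ?_ (junc_A hM hC hgh hm hx₁ hy₁ ha hb hag hyg (by omega) hs)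
        refine max_le (by omega) ?_
        have : ((cs.length a + cs.length b + 2 : ℕ) : ℤ) ≤ ((2 * M g h : ℕ) : ℤ) := by
          exact_mod_cast hs
        push_cast at this
        omega
      · have ham : cs.length a = M g h := by omega
        have hbm : cs.length (cs.simple g * b) = M g h := by omega
        have haw := eq_wT_of_len cs hgh hm ha ham
        have hbw := eq_wT_of_len cs hgh hm hsb hbm
        obtain ⟨p, p', hp, hp', hP⟩ := junc_B (N := N) hM hC hgh hm hx₁ hy₁ ha hb hag hyg
          (show cs.length a + cs.length b + 1 = 2 * M g h by omega)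
        rw [haw] at hxN'
        rw [hbw] at hyN'
        have key : ∀ c, (c = g ∨ c = h) →
            PLat cs C N ((N : ℤ) - 1) (T cs x₁ * T cs (cs.simple c) * T cs y₁) := by
          intro c hc
          refine h1 x₁ y₁ c (by omega) ?_ ?_ (BStep1_prefix hgh hm hc hx₁ hxN')
            (BStep1_suffix hgh hm hc hy₁ hyN')
          · rcases hc with rfl | rfl
            · exact hx₁.1
            · exact hx₁.2
          · rcases hc with rfl | rfl
            · exact hy₁.1
            · exact hy₁.2
        have e1 := plat_smul hp (key g (Or.inl rfl))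
        have e2 := plat_smul hp' (key h (Or.inr rfl))
        rw [add_zero] at e1 e2
        have e3 := plat_mono (l := (N : ℤ) - 1) (by omega) hP
        have := plat_add (plat_add e3 e2) e1
        convert this using 1
        abel
    · have hmN1 : N < M g h := by omega
      have haw : a ≠ wT cs g h := by
        intro e
        rw [e] at hxN'
        have hwD := wT_mem cs g h
        refine hxN' (fac_of_both cs hgh hmN1 ?_ ?_)
        · rw [rd_mul_D cs hgh (Or.inl rfl) hx₁ hwD]
          exact rd_wT cs hgh hm (Or.inl rfl)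
        · rw [rd_mul_D cs hgh (Or.inr rfl) hx₁ hwD]
          exact rd_wT cs hgh hm (Or.inr rfl)
      have hsbw : cs.simple g * b ≠ wT cs g h := by
        intro e
        rw [e] at hyN'
        have hwD := wT_mem cs g h
        refine hyN' (fac_of_both_left cs hgh hmN1 ?_ ?_)
        · rw [ld_D_mul cs hgh (Or.inl rfl) hy₁ hwD]
          exact ld_wT cs hgh hm (Or.inl rfl)
        · rw [ld_D_mul cs hgh (Or.inr rfl) hy₁ hwD]
          exact ld_wT cs hgh hm (Or.inr rfl)
      have hla2 : cs.length a ≠ M g h := fun e => haw (eq_wT_of_len cs hgh hm ha e)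
      have hlb2 : cs.length (cs.simple g * b) ≠ M g h :=
        fun e => hsbw (eq_wT_of_len cs hgh hm hsb e)
      have hbw : b ≠ wT cs g h := by
        intro e
        have := length_wT cs (i := g) (j := h) hgh
        rw [← e] at this
        omega
      by_cases hs : cs.length a + cs.length b ≤ M g h
      · refine plat_mono ?_ (junc_A hM hC hgh hm hx₁ hy₁ ha hb hag hyg (by omega) (by omega))
        refine max_le (by omega) ?_
        omega
      · obtain ⟨p, p', p'', hp, hp', hp'', hP⟩ := junc_C hM hC hI hgh hmN1 hx₁ hy₁ ha hb haw hbw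
          hag hyg (by omega)
        refine plat_of_lat ?_
        have k0 : Lat cs C N (N : ℤ) (T cs x₁ * T cs y₁) := (h0 x₁ y₁ (by omega)).1
        have k1 : ∀ c, (c = g ∨ c = h) →
            Lat cs C N (N : ℤ) (T cs x₁ * T cs (cs.simple c) * T cs y₁) := by
          intro c hc
          have hcx : ¬ cs.IsRightDescent x₁ c := by
            rcases hc with rfl | rfl
            · exact hx₁.1
            · exact hx₁.2
          rw [T_mul_s cs hcx]
          refine (h0 _ y₁ ?_).1
          rw [(cs.not_isRightDescent_iff).1 hcx]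
          omega
        have e0 := lat_smul hp k0
        have e1 := lat_smul hp' (k1 g (Or.inl rfl))
        have e2 := lat_smul hp'' (k1 h (Or.inr rfl))
        have e0' := lat_mono (l := (N : ℤ) - 1 - 1) (by omega) e0
        have e1' := lat_mono (l := (N : ℤ) - 1 - 1) (by omega) e1
        have e2' := lat_mono (l := (N : ℤ) - 1 - 1) (by omega) e2
        have e3 := lat_mono (l := (N : ℤ) - 1 - 1) (by omega) hP
        have := lat_add (lat_add (lat_add e3 e2') e1') e0'
        convert this using 1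
        abel

end Pool.Agent.PolyCell
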