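import Pool.Agent.PolyCell.Defs

/-!
# Degrees of Laurent polynomials
-/

open CoxeterSystem

namespace Pool.Agent.PolyCell

/-- degree `≤ k` -/
def dle (k : ℤ) (p : LP) : Prop := ∀ n : ℤ, k < n → p.coeff n = 0

/-- degree `≤ k`, nonnegative coefficient of `v^k`, and `p = 0` if `k < 0`. -/
def Gd (k : ℤ) (p : LP) : Prop := dle k p ∧ 0 ≤ p.coeff k ∧ (k < 0 → p = 0)

theorem dle_zero (k : ℤ) : dle k 0 := by
  intro n _
  simp

theorem dle_add {k : ℤ} {p q : LP} (hp : dle k p) (hq : dle k q) : dle k (p + q) := by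
  intro n hn
  rw [AddMonoidAlgebra.coeff_add, Finsupp.add_apply, hp n hn, hq n hn, add_zero]

theorem dle_neg {k : ℤ} {p : LP} (hp : dle k p) : dle k (-p) := by
  intro n hn
  rw [AddMonoidAlgebra.coeff_neg, Finsupp.neg_apply, hp n hn, neg_zero]

theorem dle_sub {k : ℤ} {p q : LP} (hp : dle k p) (hq : dle k q) : dle k (p - q) := by
  rw [sub_eq_add_neg]
  exact dle_add hp (dle_neg hq)

theorem dle_mul {k l : ℤ} {p q : LP} (hp : dle k p) (hq : dle l q) : dle (k + l) (p * q) := by
  intro n hn
  rw [AddMonoidAlgebra.coeff_mul_apply_left]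
  refine Finset.sum_eq_zero fun m _ => ?_
  by_cases hm : k < m
  · simp only [hp m hm, zero_mul]
  · simp only [hq (-m + n) (by omega), mul_zero]

theorem dle_mono {k l : ℤ} (h : k ≤ l) {p : LP} (hp : dle k p) : dle l p := by
  intro n hn
  exact hp n (by omega)

theorem dle_sum {ι : Type*} {k : ℤ} (s : Finset ι) (f : ι → LP) (h : ∀ i ∈ s, dle k (f i)) :
    dle k (∑ i ∈ s, f i) := by
  classical
  induction s using Finset.induction_on with
  | empty => simpa using dle_zero k
  | insert a s ha ih =>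
    rw [Finset.sum_insert ha]
    exact dle_add (h a (Finset.mem_insert_self _ _))
      (ih fun i hi => h i (Finset.mem_insert_of_mem hi))

theorem dle_v (k : ℤ) : dle k (v k) := by
  intro n hn
  unfold v
  rw [LaurentPolynomial.T_apply, if_neg (by omega)]

theorem dle_one : dle 0 (1 : LP) := by
  have h := dle_v 0
  unfold v at h
  rwa [LaurentPolynomial.T_zero] at h

theorem dle_int (n : ℤ) : dle 0 (n : LP) := by
  intro m hm
  have h : ((n : ℤ) : LP) = LaurentPolynomial.C n := by simp
  rw [h, LaurentPolynomial.C_apply, if_neg (by omega)]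

theorem dle_xi : dle 1 xi := by
  exact dle_sub (dle_v 1) (dle_mono (by norm_num) (dle_v (-1)))

/-- leading coefficient of a product -/
theorem coeff_mul_top {k l : ℤ} {p q : LP} (hp : dle k p) (hq : dle l q) :
    (p * q).coeff (k + l) = p.coeff k * q.coeff l := by
  rw [AddMonoidAlgebra.coeff_mul_apply_left, Finsupp.sum]
  rw [Finset.sum_eq_single k]
  · congr 2
    omega
  · intro m _ hm
    by_cases hkm : k < m
    · simp only [hp m hkm, zero_mul]
    · simp only [hq (-m + (k + l)) (by omega), mul_zero]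
  · intro hk
    rw [Finsupp.notMem_support_iff.1 hk, zero_mul]

theorem coeff_v (k n : ℤ) : (v k).coeff n = if n = k then 1 else 0 := by
  unfold v
  rw [LaurentPolynomial.T_apply]
  simp only [eq_comm]

theorem coeff_xi (n : ℤ) : xi.coeff n = if n = 1 then 1 else if n = -1 then -1 else 0 := by
  unfold xi
  rw [AddMonoidAlgebra.coeff_sub, Finsupp.sub_apply, coeff_v, coeff_v]
  by_cases h1 : n = 1
  · subst h1
    norm_num
  · by_cases h2 : n = -1
    · subst h2
      norm_num
    · simp [h1, h2]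

theorem coeff_v_mul (k n : ℤ) (p : LP) : (v k * p).coeff n = p.coeff (n - k) := by
  unfold v LaurentPolynomial.T
  rw [AddMonoidAlgebra.coeff_single_mul_apply, one_mul]
  congr 1
  omega

theorem v_add (k l : ℤ) : v (k + l) = v k * v l := by
  exact LaurentPolynomial.T_add k l

theorem v_zero : v 0 = 1 := by
  exact LaurentPolynomial.T_zero

theorem invert_v (k : ℤ) : LaurentPolynomial.invert (v k) = v (-k) := by
  exact LaurentPolynomial.invert_T k

theorem coeff_invert (p : LP) (n : ℤ) :
    (LaurentPolynomial.invert p : LP).coeff n = p.coeff (-n) := by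
  exact LaurentPolynomial.invert_apply p n

/-- a polynomial of negative degree which is invariant under `v ↦ v⁻¹` vanishes -/
theorem eq_zero_of_invert {p : LP} (h : dle (-1) p) (h' : LaurentPolynomial.invert p = p) :
    p = 0 := by
  ext n
  by_cases hn : -1 < n
  · rw [h n hn]
    simp
  · rw [← h', coeff_invert, h (-n) (by omega)]
    simp

theorem gd_add {k : ℤ} {p q : LP} (hp : Gd k p) (hq : Gd k q) : Gd k (p + q) := by
  refine ⟨dle_add hp.1 hq.1, ?_, fun hk => ?_⟩
  · rw [AddMonoidAlgebra.coeff_add, Finsupp.add_apply]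
    exact add_nonneg hp.2.1 hq.2.1
  · rw [hp.2.2 hk, hq.2.2 hk, add_zero]

theorem gd_mono {k l : ℤ} (h : k ≤ l) {p : LP} (hp : Gd k p) : Gd l p := by
  rcases eq_or_lt_of_le h with h | h
  · subst h
    exact hp
  · refine ⟨dle_mono h.le hp.1, ?_, fun hk => hp.2.2 (h.trans hk)⟩
    rw [hp.1 l h]

theorem gd_xi_mul {k : ℤ} {p : LP} (hp : Gd k p) : Gd (k + 1) (xi * p) := by
  have h1 : dle (k + 1) (xi * p) := by
    rw [add_comm k 1]
    exact dle_mul dle_xi hp.1
  refine ⟨h1, ?_, fun hk => ?_⟩
  · rw [add_comm k 1, coeff_mul_top dle_xi hp.1, coeff_xi, if_pos rfl, one_mul]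
    exact hp.2.1
  · rw [hp.2.2 (by omega), mul_zero]

theorem gd_zero (k : ℤ) : Gd k 0 := by
  exact ⟨dle_zero k, by simp, fun _ => rfl⟩

theorem gd_one : Gd 0 (1 : LP) := by
  refine ⟨dle_one, ?_, fun h => absurd h (by norm_num)⟩
  have h := coeff_v 0 0
  rw [v_zero] at h
  rw [h]
  norm_num

end Pool.Agent.PolyCell
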