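import Pool.Agent.PolyCell.Fl
import Pool.Agent.PolyCell.PolyDeg

/-!
# The bar involution
-/

open CoxeterSystem

namespace Pool.Agent.PolyCell

variable {B W : Type*} [Group W] {M : CoxeterMatrix B} (cs : CoxeterSystem M W)

/-! ### auxiliary lemmas -/

private theorem Bar_b1 {β : Hk cs →+ Hk cs} (h : IsBar cs β) : β (T cs 1) = T cs 1 := h.one

private theorem Bar_b1' {β : Hk cs →+ Hk cs} (h : IsBar cs β) : β (1 : Hk cs) = 1 := h.one

private theorem Bar_bs {β : Hk cs →+ Hk cs} (h : IsBar cs β) (r : LP) (x : Hk cs) :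
    β (r • x) = (LaurentPolynomial.invert r : LP) • β x := h.smul r x

private theorem Bar_bm {β : Hk cs →+ Hk cs} (h : IsBar cs β) (i : B) (x : Hk cs) :
    β (x * T cs (cs.simple i)) = β x * T cs (cs.simple i) - xi • β x := by
  rw [mul_T_simple, mul_T_simple]
  exact h.mul i x

private theorem Bar_inv_xi : (LaurentPolynomial.invert xi : LP) = - xi := by
  unfold xi
  rw [map_sub, invert_v, invert_v, neg_neg, neg_sub]

/-- induction on the length: every `w ≠ 1` is `w' s > w'` -/
private theorem Bar_ind {P : W → Prop} (h1 : P 1)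
    (hs : ∀ (w : W) (i : B), ¬ cs.IsRightDescent w i → P w → P (w * cs.simple i)) (w : W) : P w := by
  have key : ∀ n : ℕ, ∀ w : W, cs.length w = n → P w := by
    intro n
    induction n with
    | zero =>
      intro w hw
      rw [cs.length_eq_zero_iff] at hw
      rw [hw]
      exact h1
    | succ n ih =>
      intro w hw
      have hne : w ≠ 1 := by
        intro h
        rw [h, cs.length_one] at hw
        omega
      obtain ⟨i, hi⟩ := cs.exists_rightDescent_of_ne_one hne
      have h2 : cs.length (w * cs.simple i) = n := by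
        have := cs.isRightDescent_iff.1 hi
        omega
      have h3 : ¬ cs.IsRightDescent (w * cs.simple i) i := by
        intro h
        have := cs.isRightDescent_iff.1 h
        rw [mul_assoc, cs.simple_mul_simple_self, mul_one] at this
        omega
      have h4 := hs (w * cs.simple i) i h3 (ih _ h2)
      rwa [mul_assoc, cs.simple_mul_simple_self, mul_one] at h4
  exact key _ w rfl

private theorem Bar_s_inv (i : B) : T cs (cs.simple i) * (T cs (cs.simple i) - xi • 1) = 1 := by
  rw [mul_sub, T_s_sq, mul_smul_comm, mul_one]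
  abel

private theorem Bar_inv_s (i : B) : (T cs (cs.simple i) - xi • 1) * T cs (cs.simple i) = 1 := by
  rw [sub_mul, T_s_sq, smul_mul_assoc, one_mul]
  abel

private theorem Bar_unit (w : W) : IsUnit (T cs w) := by
  refine Bar_ind cs (P := fun w => IsUnit (T cs w)) ?_ ?_ w
  · rw [← one_def']
    exact isUnit_one
  · intro w i hi hw
    rw [← T_mul_s cs hi]
    refine hw.mul ?_
    exact ⟨⟨T cs (cs.simple i), T cs (cs.simple i) - xi • 1, Bar_s_inv cs i, Bar_inv_s cs i⟩, rfl⟩

/-- `β₀(w) = (T_{w⁻¹})⁻¹` -/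
private noncomputable def Bar_b0 (w : W) : Hk cs := Ring.inverse (T cs w⁻¹)

private theorem Bar_b0_one : Bar_b0 cs 1 = 1 := by
  unfold Bar_b0
  rw [inv_one, ← one_def', Ring.inverse_one]

private theorem Bar_b0_mul {w : W} {i : B} (hi : ¬ cs.IsRightDescent w i) :
    Bar_b0 cs (w * cs.simple i) = Bar_b0 cs w * (T cs (cs.simple i) - xi • 1) := by
  unfold Bar_b0
  have hl : ¬ cs.IsLeftDescent w⁻¹ i := by
    rw [cs.isLeftDescent_inv_iff]
    exact hi
  rw [mul_inv_rev, cs.inv_simple, ← s_mul_T cs hl]
  have e1 : (T cs w⁻¹) * Ring.inverse (T cs w⁻¹) = 1 := Ring.mul_inverse_cancel _ (Bar_unit cs _)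
  have e2 : Ring.inverse (T cs (cs.simple i) * T cs w⁻¹) * (T cs (cs.simple i) * T cs w⁻¹) = 1 :=
    Ring.inverse_mul_cancel _ ((Bar_unit cs _).mul (Bar_unit cs _))
  calc Ring.inverse (T cs (cs.simple i) * T cs w⁻¹)
      = Ring.inverse (T cs (cs.simple i) * T cs w⁻¹) * (T cs (cs.simple i) *
          ((T cs w⁻¹) * Ring.inverse (T cs w⁻¹)) * (T cs (cs.simple i) - xi • 1)) := by
        rw [e1, mul_one, Bar_s_inv, mul_one]
    _ = (Ring.inverse (T cs (cs.simple i) * T cs w⁻¹) * (T cs (cs.simple i) * T cs w⁻¹)) *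
          (Ring.inverse (T cs w⁻¹) * (T cs (cs.simple i) - xi • 1)) := by
        simp only [mul_assoc]
    _ = _ := by rw [e2, one_mul]

/-- the additive map `a_w T_w ↦ invert(a_w) β₀(w)` -/
private noncomputable def Bar_map : Hk cs →+ Hk cs :=
  (Finsupp.liftAddHom (α := W) (M := LP) (N := Hk cs)) fun w =>
    (((LinearMap.toSpanSingleton LP (Hk cs) (Bar_b0 cs w)).toAddMonoidHom).comp
      ((LaurentPolynomial.invert : LP ≃ₐ[ℤ] LP).toRingEquiv.toAddMonoidHom))

private theorem Bar_map_single (w : W) (a : LP) :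
    Bar_map cs (a • T cs w) = (LaurentPolynomial.invert a : LP) • Bar_b0 cs w := by
  have e : (a • T cs w : Hk cs) = (Finsupp.single w a : W →₀ LP) := by
    unfold T
    exact (Finsupp.smul_single_one w a)
  rw [e]
  unfold Bar_map
  erw [Finsupp.liftAddHom_apply_single]
  rfl

private theorem Bar_map_T (w : W) : Bar_map cs (T cs w) = Bar_b0 cs w := by
  have := Bar_map_single cs w 1
  rwa [one_smul, map_one, one_smul] at this

private theorem Bar_map_smul (r : LP) (x : Hk cs) :
    Bar_map cs (r • x) = (LaurentPolynomial.invert r : LP) • Bar_map cs x := by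
  refine hk_induction cs (P := fun x => ∀ r : LP, Bar_map cs (r • x) =
    (LaurentPolynomial.invert r : LP) • Bar_map cs x) ?_ ?_ ?_ ?_ x r
  · intro r
    rw [smul_zero, map_zero, smul_zero]
  · intro w r
    rw [Bar_map_single, Bar_map_T]
  · intro g h hg hh r
    rw [smul_add, map_add, hg, hh, map_add, smul_add]
  · intro a x hx r
    rw [smul_smul, hx, hx, map_mul, smul_smul]

private theorem Bar_map_mul (i : B) (x : Hk cs) :
    Bar_map cs (x * T cs (cs.simple i)) = Bar_map cs x * T cs (cs.simple i) - xi • Bar_map cs x := by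
  refine hk_induction cs (P := fun x => Bar_map cs (x * T cs (cs.simple i)) =
    Bar_map cs x * T cs (cs.simple i) - xi • Bar_map cs x) ?_ ?_ ?_ ?_ x
  · simp
  · intro w
    by_cases hw : cs.IsRightDescent w i
    · rw [T_mul_s' cs hw, map_add, Bar_map_smul, Bar_map_T, Bar_map_T, Bar_inv_xi]
      have h3 : ¬ cs.IsRightDescent (w * cs.simple i) i := by
        intro h
        have h1 := cs.isRightDescent_iff.1 h
        have h2 := cs.isRightDescent_iff.1 hw
        rw [mul_assoc, cs.simple_mul_simple_self, mul_one] at h1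
        omega
      have h4 := Bar_b0_mul cs h3
      rw [mul_assoc, cs.simple_mul_simple_self, mul_one] at h4
      have h5 : Bar_b0 cs w * T cs (cs.simple i) = Bar_b0 cs (w * cs.simple i) := by
        rw [h4, mul_assoc, Bar_inv_s, mul_one]
      rw [h5, neg_smul, sub_eq_add_neg]
    · rw [T_mul_s cs hw, Bar_map_T, Bar_map_T, Bar_b0_mul cs hw, mul_sub, mul_smul_comm, mul_one]
  · intro g h hg hh
    rw [add_mul, map_add, hg, hh, map_add, add_mul, smul_add]
    abel
  · intro r h hh
    rw [smul_mul_assoc, Bar_map_smul, hh, Bar_map_smul, smul_sub, smul_mul_assoc, smul_comm]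

private theorem Bar_map_mul' (i : B) (x : Hk cs) :
    Bar_map cs (rS cs i x) = rS cs i (Bar_map cs x) - xi • Bar_map cs x := by
  rw [← mul_T_simple, ← mul_T_simple, Bar_map_mul]

/-- Existence: `β(∑ a_w T_w) = ∑ (invert a_w) T_{s₁}⁻¹ ⋯ T_{s_k}⁻¹` (reduced word), `T_s⁻¹ = T_s - ξ`. The main point is
`β(T_w T_s) = β(T_w) T_s⁻¹` for `ws < w` and independence of the reduced word: both follow from
`β(T_w) T_{w⁻¹} = 1`. -/
theorem exists_bar : ∃ β : (W →₀ LP) →+ (W →₀ LP), IsBar cs β := by
  refine ⟨Bar_map cs, ?_, ?_, ?_⟩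
  · have := Bar_map_T cs 1
    rw [Bar_b0_one] at this
    exact this
  · intro r h
    exact Bar_map_smul cs r h
  · intro s h
    exact Bar_map_mul' cs s h

private theorem Bar_T_succ {β : Hk cs →+ Hk cs} (h : IsBar cs β) {w : W} {i : B}
    (hi : ¬ cs.IsRightDescent w i) :
    β (T cs (w * cs.simple i)) = β (T cs w) * T cs (cs.simple i) - xi • β (T cs w) := by
  rw [← T_mul_s cs hi, Bar_bm cs h]

theorem bar_unique {β β' : (W →₀ LP) →+ (W →₀ LP)} (h : IsBar cs β) (h' : IsBar cs β') :
    β = β' := by
  have key : ∀ (γ γ' : Hk cs →+ Hk cs) (_ : IsBar cs γ) (_ : IsBar cs γ') (x : Hk cs),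
      γ x = γ' x := by
    intro γ γ' h h' x
    refine hk_induction cs (P := fun x => γ x = γ' x) ?_ ?_ ?_ ?_ x
    · rw [map_zero, map_zero]
    · intro w
      refine Bar_ind cs (P := fun w => γ (T cs w) = γ' (T cs w)) ?_ ?_ w
      · rw [Bar_b1 cs h, Bar_b1 cs h']
      · intro w i hi hw
        rw [Bar_T_succ cs h hi, Bar_T_succ cs h' hi, hw]
    · intro g k hg hk
      rw [map_add, map_add, hg, hk]
    · intro r k hk
      rw [Bar_bs cs h, Bar_bs cs h', hk]
  exact AddMonoidHom.ext (key β β' h h')

theorem bar_mul {β : Hk cs →+ Hk cs} (h : IsBar cs β) (g k : Hk cs) :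
    β (g * k) = β g * β k := by
  refine hk_induction cs (P := fun k => β (g * k) = β g * β k) ?_ ?_ ?_ ?_ k
  · rw [mul_zero, map_zero, mul_zero]
  · intro w
    refine Bar_ind cs (P := fun w => β (g * T cs w) = β g * β (T cs w)) ?_ ?_ w
    · rw [Bar_b1 cs h, ← one_def', mul_one, mul_one]
    · intro w i hi hw
      rw [Bar_T_succ cs h hi, ← T_mul_s cs hi, ← mul_assoc, Bar_bm cs h, hw, mul_sub, mul_assoc,
        mul_smul_comm]
  · intro a b ha hb
    rw [mul_add, map_add, ha, hb, map_add, mul_add]
  · intro r a ha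
    rw [mul_smul_comm, Bar_bs cs h, ha, Bar_bs cs h, mul_smul_comm]

theorem bar_T_simple {β : Hk cs →+ Hk cs} (h : IsBar cs β) (i : B) :
    β (T cs (cs.simple i)) = T cs (cs.simple i) - xi • 1 := by
  have := Bar_bm cs h i 1
  rwa [one_mul, Bar_b1' cs h, one_mul] at this

theorem bar_bar {β : Hk cs →+ Hk cs} (h : IsBar cs β) (g : Hk cs) : β (β g) = g := by
  refine hk_induction cs (P := fun g => β (β g) = g) ?_ ?_ ?_ ?_ g
  · rw [map_zero, map_zero]
  · intro w
    refine Bar_ind cs (P := fun w => β (β (T cs w)) = T cs w) ?_ ?_ w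
    · rw [Bar_b1 cs h, Bar_b1 cs h]
    · intro w i hi hw
      rw [← T_mul_s cs hi, bar_mul cs h, bar_mul cs h, hw, bar_T_simple cs h, map_sub,
        bar_T_simple cs h, Bar_bs cs h, Bar_b1' cs h, Bar_inv_xi, neg_smul]
      congr 1
      abel
  · intro a b ha hb
    rw [map_add, map_add, ha, hb]
  · intro r a ha
    rw [Bar_bs cs h, Bar_bs cs h, ha]
    congr 1
    exact LaurentPolynomial.involutive_invert r

theorem bar_fl {β : Hk cs →+ Hk cs} (h : IsBar cs β) (g : Hk cs) :
    β (fl cs g) = fl cs (β g) := by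
  have flone : fl cs (1 : Hk cs) = 1 := by
    rw [one_def', fl_T, inv_one]
  have key : ∀ x : Hk cs, fl cs (β (fl cs x)) = β x := by
    intro x
    refine hk_induction cs (P := fun x => fl cs (β (fl cs x)) = β x) ?_ ?_ ?_ ?_ x
    · rw [map_zero, map_zero, map_zero]
    · intro w
      refine Bar_ind cs (P := fun w => fl cs (β (fl cs (T cs w))) = β (T cs w)) ?_ ?_ w
      · rw [fl_T, inv_one, Bar_b1 cs h, fl_T, inv_one]
      · intro w i hi hw
        rw [← T_mul_s cs hi, fl_mul, bar_mul cs h, bar_mul cs h, fl_mul, hw, fl_T, cs.inv_simple,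
          bar_T_simple cs h, map_sub, map_smul, flone, fl_T, cs.inv_simple]
    · intro a b ha hb
      rw [map_add, map_add, map_add, ha, hb, map_add]
    · intro r a ha
      rw [map_smul, Bar_bs cs h, map_smul, ha, Bar_bs cs h]
  have := key g
  rw [← this, fl_fl]

open Classical in
private theorem Bar_coeff (i : B) (x : Hk cs) (y : W) :
    (x * T cs (cs.simple i)) y = x (y * cs.simple i) +
      (if cs.IsRightDescent y i then xi * x y else 0) := by
  refine hk_induction cs (P := fun x => (x * T cs (cs.simple i)) y = x (y * cs.simple i) +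
      (if cs.IsRightDescent y i then xi * x y else 0)) ?_ ?_ ?_ ?_ x
  · rw [zero_mul]
    have h0 : ∀ z : W, (0 : Hk cs) z = 0 := fun z => rfl
    rw [h0, h0]
    simp
  · intro w
    have hiff : (y = w * cs.simple i) ↔ (y * cs.simple i = w) := by
      constructor
      · intro h
        rw [h, mul_assoc, cs.simple_mul_simple_self, mul_one]
      · intro h
        rw [← h, mul_assoc, cs.simple_mul_simple_self, mul_one]
    by_cases hw : cs.IsRightDescent w i
    · rw [T_mul_s' cs hw, add_apply', smul_apply', T_apply, T_apply, T_apply]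
      by_cases hy : y = w
      · subst hy
        simp [hw, hiff]
      · simp [hy, hiff]
    · rw [T_mul_s cs hw, T_apply, T_apply, T_apply]
      by_cases hy : y = w
      · subst hy
        simp [hw, hiff]
      · simp [hy, hiff]
  · intro a b ha hb
    rw [add_mul, add_apply', ha, hb, add_apply', add_apply']
    split_ifs <;> ring
  · intro r a ha
    rw [smul_mul_assoc, smul_apply', ha, smul_apply', smul_apply']
    split_ifs <;> ring

private theorem Bar_support_aux {β : Hk cs →+ Hk cs} (h : IsBar cs β) (w : W) :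
    ∀ y : W, (β (T cs w)) y ≠ 0 → y = w ∨ cs.length y < cs.length w := by
  classical
  refine Bar_ind cs (P := fun w => ∀ y : W, (β (T cs w)) y ≠ 0 → y = w ∨
    cs.length y < cs.length w) ?_ ?_ w
  · intro y hy
    rw [Bar_b1 cs h, T_apply] at hy
    left
    by_contra hne
    exact hy (if_neg hne)
  · intro w i hi hw y hy
    have hlen : cs.length (w * cs.simple i) = cs.length w + 1 := cs.not_isRightDescent_iff.1 hi
    rw [Bar_T_succ cs h hi, sub_apply', smul_apply', Bar_coeff] at hy
    by_cases h1 : (β (T cs w)) (y * cs.simple i) = 0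
    · by_cases h2 : (β (T cs w)) y = 0
      · exfalso
        apply hy
        rw [h1, h2]
        simp
      · rcases hw y h2 with h3 | h3
        · right
          rw [h3, hlen]
          omega
        · right
          omega
    · rcases hw _ h1 with h3 | h3
      · left
        rw [← h3, mul_assoc, cs.simple_mul_simple_self, mul_one]
      · right
        have h4 : cs.length y ≤ cs.length (y * cs.simple i) + 1 := by
          have := cs.length_mul_le (y * cs.simple i) (cs.simple i)
          rw [mul_assoc, cs.simple_mul_simple_self, mul_one, cs.length_simple] at this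
          exact this
        omega

/-- `β(T_w) - T_w` is supported on shorter elements -/
theorem bar_T_support {β : Hk cs →+ Hk cs} (h : IsBar cs β) {w y : W} (hy : (β (T cs w)) y ≠ 0) :
    y = w ∨ cs.length y < cs.length w :=
  Bar_support_aux cs h w y hy

theorem bar_T_self {β : Hk cs →+ Hk cs} (h : IsBar cs β) (w : W) : (β (T cs w)) w = 1 := by
  classical
  refine Bar_ind cs (P := fun w => (β (T cs w)) w = 1) ?_ ?_ w
  · rw [Bar_b1 cs h, T_apply, if_pos rfl]
  · intro w i hi hw
    have hlen : cs.length (w * cs.simple i) = cs.length w + 1 := cs.not_isRightDescent_iff.1 hi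
    have hd : cs.IsRightDescent (w * cs.simple i) i := by
      rw [cs.isRightDescent_iff, mul_assoc, cs.simple_mul_simple_self, mul_one, hlen]
    rw [Bar_T_succ cs h hi, sub_apply', smul_apply', Bar_coeff, if_pos hd, mul_assoc,
      cs.simple_mul_simple_self, mul_one, hw]
    ring

end Pool.Agent.PolyCell
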