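import Pool.Agent.PolyCell.HPar1

/-!
# Parabolic factorisation of Kazhdan-Lusztig basis elements

Proof. `eigen_factor`: let `E = ∑_z g(z w_T) T_z` (sum over the finitely many rmin `z` with `g(z w_T) ≠ 0`); by `C_wT_apply` the coefficient of `E C_{w_T}` at `z u` is `g(z w_T) v^{ℓ(u) - m}` (`T_z T_u = T_{zu}`), which is `g(z u)` by
`eigen_coeff_D`; every `w` is uniquely `z u`. `exists_E`: `g = C_{x w_T}` (`kl_mul_s`; `i, j ∈ R(x w_T)`), `kl_self`, `kl_supp`, `kl_dle`. `exists_F` is the image of `exists_E` for `y⁻¹` under `fl` (`kl_fl`, `fl_mul`, `wT_inv`).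
-/

open CoxeterSystem

namespace Pool.Agent.PolyCell

variable {B W : Type*} [Group W] {M : CoxeterMatrix B} (cs : CoxeterSystem M W)

/-- evaluation at `w` -/
private noncomputable def HPar_ev (w : W) : Hk cs →ₗ[LP] LP :=
  (Finsupp.lapply w : (W →₀ LP) →ₗ[LP] LP)

private theorem HPar_ev_apply (w : W) (h : Hk cs) : HPar_ev cs w h = h w := rfl

private theorem HPar_mul_sum_T (g h : Hk cs) :
    g * h = Finsupp.sum (show W →₀ LP from h) fun w a => a • (g * T cs w) := by
  conv_lhs => rw [eq_sum_T cs h]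
  simp only [Finsupp.sum, Finset.mul_sum, mul_smul_comm]

private theorem HPar_sum_T_mul (g h : Hk cs) :
    g * h = Finsupp.sum (show W →₀ LP from g) fun w a => a • (T cs w * h) := by
  conv_lhs => rw [eq_sum_T cs g]
  simp only [Finsupp.sum, Finset.sum_mul, smul_mul_assoc]

open Classical in
private theorem HPar_T_mul_apply {i j : B} (hij : i ≠ j) {h : Hk cs}
    (hD : ∀ u, h u ≠ 0 → u ∈ D cs i j) {z z' u : W} (hz : Rmin cs i j z) (hz' : Rmin cs i j z')
    (hu : u ∈ D cs i j) : (T cs z' * h) (z * u) = if z' = z then h u else 0 := by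
  rw [← HPar_ev_apply, HPar_mul_sum_T, Finsupp.sum, map_sum]
  have key : ∀ w ∈ (show W →₀ LP from h).support,
      HPar_ev cs (z * u) ((show W →₀ LP from h) w • (T cs z' * T cs w)) =
        if z * u = z' * w then h w else 0 := by
    intro w hw
    have hw0 : h w ≠ 0 := (Finsupp.mem_support_iff.1 hw)
    have hwD := hD w hw0
    rw [map_smul, HPar_ev_apply, T_mul_T cs (len_mul_D cs hij hz' hwD), T_apply]
    by_cases e : z * u = z' * w
    · rw [if_pos e, if_pos e, smul_eq_mul, mul_one]; rfl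
    · rw [if_neg e, if_neg e, smul_zero]
  rw [Finset.sum_congr rfl key]
  by_cases hzz : z' = z
  · subst hzz
    rw [if_pos rfl]
    have : ∀ w ∈ (show W →₀ LP from h).support,
        (if z' * u = z' * w then h w else 0) = if u = w then h w else 0 := by
      intro w _
      simp only [mul_right_inj]
    rw [Finset.sum_congr rfl this, Finset.sum_ite_eq]
    by_cases hs : u ∈ (show W →₀ LP from h).support
    · rw [if_pos hs]
    · rw [if_neg hs]
      exact (Finsupp.notMem_support_iff.1 hs).symm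
  · rw [if_neg hzz]
    apply Finset.sum_eq_zero
    intro w hw
    have hw0 : h w ≠ 0 := (Finsupp.mem_support_iff.1 hw)
    rw [if_neg]
    intro e
    exact hzz (decompR_unique cs hij hz hz' hu (hD w hw0) e).1.symm

private theorem HPar_mul_apply {i j : B} (hij : i ≠ j) {E h : Hk cs}
    (hE : ∀ z, ¬ Rmin cs i j z → E z = 0)
    (hD : ∀ u, h u ≠ 0 → u ∈ D cs i j) {z u : W} (hz : Rmin cs i j z)
    (hu : u ∈ D cs i j) : (E * h) (z * u) = E z * h u := by
  classical
  rw [← HPar_ev_apply, HPar_sum_T_mul, Finsupp.sum, map_sum]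
  have key : ∀ w ∈ (show W →₀ LP from E).support,
      HPar_ev cs (z * u) ((show W →₀ LP from E) w • (T cs w * h)) =
        if z = w then E w * h u else 0 := by
    intro w hw
    have hw0 : E w ≠ 0 := (Finsupp.mem_support_iff.1 hw)
    have hwR : Rmin cs i j w := by
      by_contra hc
      exact hw0 (hE w hc)
    rw [map_smul, HPar_ev_apply, HPar_T_mul_apply cs hij hD hz hwR hu]
    by_cases e : z = w
    · rw [if_pos e.symm, if_pos e, smul_eq_mul]; rfl
    · rw [if_neg (fun h' => e h'.symm), if_neg e, smul_zero]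
  rw [Finset.sum_congr rfl key, Finset.sum_ite_eq]
  by_cases hs : z ∈ (show W →₀ LP from E).support
  · rw [if_pos hs]
  · rw [if_neg hs]
    have : E z = 0 := Finsupp.notMem_support_iff.1 hs
    rw [this, zero_mul]

/-- eigenvectors for `i, j` are multiples of `C_{w_T}` -/
theorem eigen_factor {C : W → Hk cs} (h : IsKL cs C) {g : Hk cs} {i j : B} (hij : i ≠ j)
    (hm : M i j ≠ 0) (hi : g * T cs (cs.simple i) = v 1 • g)
    (hj : g * T cs (cs.simple j) = v 1 • g) :
    ∃ E : Hk cs, g = E * C (wT cs i j) ∧ (∀ z, Rmin cs i j z → E z = g (z * wT cs i j)) ∧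
      ∀ z, ¬ Rmin cs i j z → E z = 0 := by
  classical
  let E0 : W →₀ LP := Finsupp.onFinset
    ((show W →₀ LP from g).support.image (fun w => w * (wT cs i j)⁻¹))
    (fun z => if Rmin cs i j z then g (z * wT cs i j) else 0) (by
      intro z hz
      by_cases hr : Rmin cs i j z
      · rw [if_pos hr] at hz
        rw [Finset.mem_image]
        exact ⟨z * wT cs i j, Finsupp.mem_support_iff.2 hz, by group⟩
      · rw [if_neg hr] at hz
        exact absurd rfl hz)
  let E : Hk cs := E0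
  have hE1 : ∀ z, Rmin cs i j z → E z = g (z * wT cs i j) := by
    intro z hz
    change (if Rmin cs i j z then g (z * wT cs i j) else 0) = _
    rw [if_pos hz]
  have hE0 : ∀ z, ¬ Rmin cs i j z → E z = 0 := by
    intro z hz
    change (if Rmin cs i j z then g (z * wT cs i j) else 0) = _
    rw [if_neg hz]
  refine ⟨E, ?_, hE1, hE0⟩
  have hCD : ∀ u, C (wT cs i j) u ≠ 0 → u ∈ D cs i j := by
    intro u hu
    by_contra hc
    rw [C_wT_apply cs h hij hm, if_neg hc] at hu
    exact hu rfl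
  apply hk_ext cs
  intro w
  obtain ⟨z, u, hz, hu, rfl⟩ := decompR cs hij w
  rw [HPar_mul_apply cs hij hE0 hCD hz hu, hE1 z hz, C_wT_apply cs h hij hm, if_pos hu,
    eigen_coeff_D cs hij hm hi hj hz hu, mul_comm]

/-- `C_{x w_T} = E C_{w_T}` -/
theorem exists_E {C : W → Hk cs} (h : IsKL cs C) {i j : B} (hij : i ≠ j) (hm : M i j ≠ 0) {x : W}
    (hx : Rmin cs i j x) :
    ∃ E : Hk cs, C (x * wT cs i j) = E * C (wT cs i j) ∧ E x = 1 ∧
      ∀ z, z ≠ x → E z ≠ 0 → Rmin cs i j z ∧ cs.length z < cs.length x ∧ dle (-1) (E z) := by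
  have hi : cs.IsRightDescent (x * wT cs i j) i :=
    (rd_mul_D cs hij (Or.inl rfl) hx (wT_mem cs i j)).2 (rd_wT cs hij hm (Or.inl rfl))
  have hj : cs.IsRightDescent (x * wT cs i j) j :=
    (rd_mul_D cs hij (Or.inr rfl) hx (wT_mem cs i j)).2 (rd_wT cs hij hm (Or.inr rfl))
  obtain ⟨E, hE, hE1, hE0⟩ := eigen_factor cs h hij hm (kl_mul_s cs h hi) (kl_mul_s cs h hj)
  refine ⟨E, hE, ?_, ?_⟩
  · rw [hE1 x hx, kl_self cs h]
  · intro z hzx hz
    have hzR : Rmin cs i j z := by
      by_contra hc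
      exact hz (hE0 z hc)
    have hne : z * wT cs i j ≠ x * wT cs i j := fun e => hzx (mul_right_cancel e)
    refine ⟨hzR, ?_, ?_⟩
    · rw [hE1 z hzR] at hz
      rcases kl_supp cs h hz with e | e
      · exact absurd e hne
      · rw [len_mul_D cs hij hzR (wT_mem cs i j), len_mul_D cs hij hx (wT_mem cs i j)] at e
        omega
    · rw [hE1 z hzR]
      exact kl_dle cs h hne

private theorem HPar_rmin_inv {i j : B} {y : W} : Rmin cs i j y⁻¹ ↔ Lmin cs i j y := by
  unfold Rmin Lmin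
  rw [cs.isRightDescent_inv_iff, cs.isRightDescent_inv_iff]

/-- `C_{w_T y} = C_{w_T} F` -/
theorem exists_F {C : W → Hk cs} (h : IsKL cs C) {i j : B} (hij : i ≠ j) (hm : M i j ≠ 0) {y : W}
    (hy : Lmin cs i j y) :
    ∃ F : Hk cs, C (wT cs i j * y) = C (wT cs i j) * F ∧ F y = 1 ∧
      ∀ z, z ≠ y → F z ≠ 0 → Lmin cs i j z ∧ cs.length z < cs.length y ∧ dle (-1) (F z) := by
  obtain ⟨E, hE, hE1, hE2⟩ := exists_E cs h hij hm ((HPar_rmin_inv cs).2 hy)
  refine ⟨fl cs E, ?_, ?_, ?_⟩
  · have e1 : C (wT cs i j * y) = fl cs (C (y⁻¹ * wT cs i j)) := by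
      rw [kl_fl cs h, mul_inv_rev, inv_inv, wT_inv]
    rw [e1, hE, fl_mul, kl_fl cs h, wT_inv]
  · rw [fl_apply, hE1]
  · intro z hzy hz
    rw [fl_apply] at hz ⊢
    have := hE2 z⁻¹ (fun e => hzy (inv_injective e)) hz
    rw [HPar_rmin_inv, cs.length_inv, cs.length_inv] at this
    exact this

end Pool.Agent.PolyCell
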