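import Pool.Agent.PolyCell.Lat
import Pool.Agent.PolyCell.HPar

/-!
# `E C_{w_T} F` is bar invariant

Proof. `C_{x w_T} C_{w_T y} = E C_{w_T} C_{w_T} F = η E C_{w_T} F` (`C_wT_sq`); the left side is bar invariant (`bar_mul`), so is `η ≠ 0`; `ℤ[v, v⁻¹]` is a domain, so `η • h = 0 → h = 0` in `H`.
-/

open CoxeterSystem

namespace Pool.Agent.PolyCell

variable {B W : Type*} [Group W] {M : CoxeterMatrix B} {cs : CoxeterSystem M W}
  {C : W → Hk cs} {N : ℕ}

private theorem BarECF_smul_cancel {η : LP} (hη : η ≠ 0) {g h : Hk cs} (hgh : η • g = η • h) :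
    g = h := by
  have hgh' : η • (show W →₀ LP from g) = η • (show W →₀ LP from h) := hgh
  have key : (show W →₀ LP from g) = (show W →₀ LP from h) := by
    ext1 w
    have h1 := DFunLike.congr_fun hgh' w
    rw [Finsupp.smul_apply, Finsupp.smul_apply, smul_eq_mul, smul_eq_mul] at h1
    exact mul_left_cancel₀ hη h1
  exact key

/-- `E C_{w_T} F` is bar invariant (multiply by `η`, `C_{x w_T} C_{w_T y} = η E C_{w_T} F`). -/
theorem bar_ECF (hC : IsKL cs C) {β : Hk cs →+ Hk cs} (hβ : IsBar cs β) {i j : B} (hij : i ≠ j)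
    (hm : M i j ≠ 0) {x y : W} {E F : Hk cs} (hE : C (x * wT cs i j) = E * C (wT cs i j))
    (hF : C (wT cs i j * y) = C (wT cs i j) * F) :
    β (E * C (wT cs i j) * F) = E * C (wT cs i j) * F := by
  obtain ⟨η, hη0, hηi, hsq⟩ := C_wT_sq cs hC hij hm
  have hCβ : ∀ w, β (C w) = C w := by
    obtain ⟨β', hβ', h'⟩ := hC
    intro w
    have e : β = β' := bar_unique cs hβ hβ'
    rw [e]
    exact (h' w).1
  have e1 : η • (E * C (wT cs i j) * F) = C (x * wT cs i j) * C (wT cs i j * y) := by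
    rw [hE, hF]
    calc η • (E * C (wT cs i j) * F) = E * (η • C (wT cs i j)) * F := by
          rw [mul_smul_comm, smul_mul_assoc]
      _ = E * (C (wT cs i j) * C (wT cs i j)) * F := by rw [hsq]
      _ = E * C (wT cs i j) * (C (wT cs i j) * F) := by simp only [mul_assoc]
  have e2 : β (η • (E * C (wT cs i j) * F)) = η • (E * C (wT cs i j) * F) := by
    rw [e1, bar_mul cs hβ, hCβ, hCβ]
  have e3 : β (η • (E * C (wT cs i j) * F)) = η • β (E * C (wT cs i j) * F) := by
    have h3 := hβ.smul η (E * C (wT cs i j) * F)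
    rw [hηi] at h3
    exact h3
  exact BarECF_smul_cancel hη0 (e3.symm.trans e2)

end Pool.Agent.PolyCell
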