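import Pool.Agent.PolyCell.KLProps

/-!
# The right preorder and right ideals
-/

open CoxeterSystem

namespace Pool.Agent.PolyCell

variable {B W : Type*} [Group W] {M : CoxeterMatrix B} {cs : CoxeterSystem M W}
  {C : W → Hk cs}

theorem rstep_iff (hC : IsKL cs C) {y w : W} :
    RStep cs C y w ↔ ∃ s, co cs C (C w * T cs (cs.simple s) + v (-1) • C w) y ≠ 0 := by
  constructor
  · rintro ⟨s, a, h, hy⟩
    refine ⟨s, ?_⟩
    have h' : C w * T cs (cs.simple s) + v (-1) • C w
        = (Finsupp.linearCombination LP C : (W →₀ LP) →ₗ[LP] Hk cs) a := by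
      rw [mul_T_simple]
      exact h
    rw [h', co_comb cs hC]
    exact hy
  · rintro ⟨s, h⟩
    refine ⟨s, co cs C (C w * T cs (cs.simple s) + v (-1) • C w), ?_, h⟩
    have h' := co_spec cs hC (C w * T cs (cs.simple s) + v (-1) • C w)
    rw [mul_T_simple] at h' ⊢
    exact h'.symm

/-- expansion in the Kazhdan-Lusztig basis, as a sum over the support -/
private theorem Cells_expand (hC : IsKL cs C) (h : Hk cs) :
    h = ∑ z ∈ (co cs C h).support, co cs C h z • C z := by
  conv_lhs => rw [← co_spec cs hC h]
  rw [Finsupp.linearCombination_apply]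
  rfl

private theorem Cells_step (hC : IsKL cs C) {h : Hk cs} {i : B} {y : W}
    (hy : co cs C (h * T cs (cs.simple i)) y ≠ 0) :
    ∃ z, co cs C h z ≠ 0 ∧ co cs C (C z * T cs (cs.simple i)) y ≠ 0 := by
  by_contra hcon
  push Not at hcon
  apply hy
  have e : h * T cs (cs.simple i)
      = ∑ z ∈ (co cs C h).support, co cs C h z • (C z * T cs (cs.simple i)) := by
    conv_lhs => rw [Cells_expand hC h]
    rw [Finset.sum_mul]
    refine Finset.sum_congr rfl fun z _ => ?_
    rw [smul_mul_assoc]
  rw [e, map_sum, Finsupp.finsetSum_apply]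
  refine Finset.sum_eq_zero fun z hz => ?_
  rw [map_smul, Finsupp.smul_apply, hcon z (Finsupp.mem_support_iff.mp hz), smul_zero]

/-- `C_z` appears in `C_w g`: `z ≤_R w`. (The span of the `C_z`, `z ≤_R w`, is a right ideal: `right_ideal_of_simple`.) -/
theorem rle_of_co (hC : IsKL cs C) {z w : W} {g : Hk cs} (h : co cs C (C w * g) z ≠ 0) :
    RLe cs C z w := by
  classical
  have key : ∀ y, co cs C (C w * g) y ≠ 0 → RLe cs C y w := by
    refine right_ideal_of_simple cs (P := fun h => ∀ y, co cs C h y ≠ 0 → RLe cs C y w)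
      ?_ ?_ ?_ ?_ ?_ g
    · intro y hy
      exact absurd (by rw [map_zero]; rfl) hy
    · intro g h hg hh y hy
      rw [map_add, Finsupp.add_apply] at hy
      by_cases h1 : co cs C g y = 0
      · exact hh y (fun h2 => hy (by rw [h1, h2, add_zero]))
      · exact hg y h1
    · intro r h hh y hy
      rw [map_smul, Finsupp.smul_apply] at hy
      exact hh y (fun h2 => hy (by rw [h2, smul_zero]))
    · intro h i hh y hy
      obtain ⟨x, hx, hxy⟩ := Cells_step hC hy
      by_cases hyx : y = x
      · rw [hyx]
        exact hh x hx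
      · refine Relation.ReflTransGen.head ?_ (hh x hx)
        rw [rstep_iff hC]
        refine ⟨i, ?_⟩
        rw [map_add, map_smul, Finsupp.add_apply, Finsupp.smul_apply, co_C cs hC,
          Finsupp.single_apply, if_neg (Ne.symm hyx), smul_zero, add_zero]
        exact hxy
    · intro y hy
      rw [co_C cs hC, Finsupp.single_apply] at hy
      by_cases hyw : w = y
      · rw [hyw]
        exact Relation.ReflTransGen.refl
      · rw [if_neg hyw] at hy
        exact absurd rfl hy
  exact key z h

/-- a set stable under all right multiplications is stable under `≤_R` -/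
theorem closed_of_co (hC : IsKL cs C) {P : Set W}
    (hP : ∀ w ∈ P, ∀ (g : Hk cs) (z : W), co cs C (C w * g) z ≠ 0 → z ∈ P) {z w : W}
    (h : RLe cs C z w) (hw : w ∈ P) : z ∈ P := by
  unfold RLe at h
  induction h using Relation.ReflTransGen.head_induction_on with
  | refl => exact hw
  | head hac _ ih =>
    obtain ⟨s, hs⟩ := (rstep_iff hC).mp hac
    refine hP _ ih (T cs (cs.simple s) + v (-1) • 1) _ ?_
    rw [mul_add, mul_smul_comm, mul_one]
    exact hs

end Pool.Agent.PolyCell
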