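import Pool.Agent.PolyCell.CoE

/-!
# `C_{x w_T}` occurs in `C_{x w_T y} C_{y⁻¹ w_T}`

`C_{x w_T y} = E C_{w_T} F` modulo `Zero` (`k2`, `exists_E`, `exists_F`), so (ideal)
the coordinate at `x w_T` is the one of `E C_{w_T} (F C_{(w_T y)⁻¹})`, i.e. (`co_E_mul` for `w = x w_T`, `y = 1`) that of `C_{w_T} F C_{(w_T y)⁻¹} = C_{w_T y} C_{(w_T y)⁻¹}` at `w_T`.
-/

open CoxeterSystem

namespace Pool.Agent.PolyCell

variable {B W : Type*} [Group W] {M : CoxeterMatrix B} {cs : CoxeterSystem M W}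
  {C : W → Hk cs} {N : ℕ}

/-- consequence for first pairs (`co_E_mul`, `k2`) -/
theorem lead_first (hC : IsKL cs C) (hI : IdealN cs C N) (hK : KAx cs C N) (hN : 2 ≤ N) {i j : B}
    {x y : W} (hx : First cs N i j x) (hy : Lmin cs i j y) (h2 : Le cs N (wT cs i j * y))
    (h5 : co cs C (C (wT cs i j * y) * C (wT cs i j * y)⁻¹) (wT cs i j) ≠ 0) :
    co cs C (C (x * wT cs i j * y) * C (wT cs i j * y)⁻¹) (x * wT cs i j) ≠ 0 := by
  have hm0 : M i j ≠ 0 := by rw [hx.exp]; omega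
  obtain ⟨E, hE, hE1, hE2⟩ := exists_E cs hC hx.ne hm0 hx.rmin
  obtain ⟨F, hF, hF1, hF2⟩ := exists_F cs hC hx.ne hm0 hy
  have hz := k2 hC hK hN hx hy h2 hE hE1 hE2 hF hF1 hF2
  have hz' := zero_mul_right hC hI hz (C (wT cs i j * y)⁻¹)
  have h3 := hz' _ hx.le
  have h1min : Lmin cs i j 1 := ⟨cs.not_isLeftDescent_one i, cs.not_isLeftDescent_one j⟩
  have h4 := (co_E_mul hC hI hK hN hx hE hE1 hE2 (F * C (wT cs i j * y)⁻¹) hx.le).2 1 h1min
    (by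
      rw [mul_one]
      exact le_suffix cs (len_mul_D cs hx.ne hx.rmin (wT_mem cs i j)) hx.le) (by rw [mul_one])
  rw [sub_mul, map_sub, Finsupp.sub_apply, sub_eq_zero] at h3
  rw [h3, mul_assoc (E * C (wT cs i j)) F, h4, ← mul_assoc, ← hF, mul_one]
  exact h5

end Pool.Agent.PolyCell
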