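import Pool.Agent.PolyCell.VSet

/-!
# Translation of the sets of the conjecture

`cset_iff`: `HasFactor e w` for some exponent `≥ e` and none for exponents `> e`. `Fac` and `HasFactor` only differ by `length_wT`.
`uset_iff`: `w ∈ USet` iff `L(w) = {i,j}` and `w ∈ W_{≤ e}` (if `w` had a factor of exponent `> e` it would be in some `CSet e'`, `e' > e`: take `e'` maximal; the exponents of factors are bounded by `ℓ(w)`); `L(w) = {i,j}` iff `w = w_T y` with `y` lmin
(`both_ld`, `no_three_left`). `omega_iff`: `x = w⁻¹ w_T = y⁻¹ w_T w_T = y⁻¹`, and `w_T y` inverse to `x w_T` (`le_inv`, `wT_inv`).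
`minPair_iff`: (⇒) `(x,T)` minimal; `exists_first` for `w = x w_T`: `w = x' w_T' y'` with `(x',T')` first; `ℓ(x') ≤ ℓ(x)`; `V(x,T) ⊆ V(x',T')`: `x w_T y = x' w_T' (y' y)` with lengths adding (`vset_data`, `mem_vset_of_fac`). So `(x',T') ⪯ (x,T)` and they are equal.
(⇐) `(x,T)` first, `q = (x',T') ⪯ (x,T)`: `x w_T ∈ V(x,T) ⊆ V(x',T')`: `first_unique_end` gives `q = (x,T)`.
-/

open CoxeterSystem

namespace Pool.Agent.PolyCell

variable {B W : Type*} [Group W] {M : CoxeterMatrix B} (cs : CoxeterSystem M W)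

private theorem Trans_fac_iff {N : ℕ} {w : W} : Fac cs N w ↔ ∃ e, N < e ∧ HasFactor cs e w := by
  constructor
  · rintro ⟨i, j, hij, hN, u, x, hw, hl⟩
    exact ⟨M i j, hN, i, j, hij, rfl, by omega, u, x, hw, by rw [length_wT cs hij]; exact hl⟩
  · rintro ⟨e, hN, i, j, hij, rfl, he, u, x, hw, hl⟩
    rw [length_wT cs hij] at hl
    exact ⟨i, j, hij, hN, u, x, hw, hl⟩

private theorem Trans_hasFactor_le {e : ℕ} {w : W} (h : HasFactor cs e w) : e ≤ cs.length w := by
  obtain ⟨i, j, hij, rfl, he, u, x, hw, hl⟩ := h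
  rw [length_wT cs hij] at hl
  omega

private theorem Trans_exists_cset {e : ℕ} {w : W} (h : Fac cs e w) : ∃ e', e < e' ∧ w ∈ CSet cs e' := by
  by_contra hcon
  push Not at hcon
  have key : ∀ n e', HasFactor cs e' w → e < e' → cs.length w - e' = n → False := by
    intro n
    induction n using Nat.strong_induction_on with
    | _ n ih =>
      intro e' he' hlt hn
      have h1 := hcon e' hlt
      have h2 : ∃ e'', e' < e'' ∧ HasFactor cs e'' w := by
        by_contra h3
        push Not at h3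
        exact h1 ⟨he', h3⟩
      obtain ⟨e'', hlt', he''⟩ := h2
      have h4 := Trans_hasFactor_le cs he''
      exact ih (cs.length w - e'') (by omega) e'' he'' (by omega) rfl
  obtain ⟨e', hlt, he'⟩ := (Trans_fac_iff cs).1 h
  exact key _ e' he' hlt rfl

theorem cset_iff {e : ℕ} (he : 2 ≤ e) {w : W} :
    w ∈ CSet cs e ↔ Le cs e w ∧ Fac cs (e - 1) w := by
  constructor
  · rintro ⟨h1, h2⟩
    refine ⟨?_, (Trans_fac_iff cs).2 ⟨e, by omega, h1⟩⟩
    intro h
    obtain ⟨e', hlt, he'⟩ := (Trans_fac_iff cs).1 h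
    exact h2 e' hlt he'
  · rintro ⟨h1, h2⟩
    obtain ⟨e', hlt, he'⟩ := (Trans_fac_iff cs).1 h2
    have h3 : ¬ e < e' := fun h => h1 ((Trans_fac_iff cs).2 ⟨e', h, he'⟩)
    have h4 : e' = e := by omega
    subst h4
    exact ⟨he', fun e'' hlt' he'' => h1 ((Trans_fac_iff cs).2 ⟨e'', hlt', he''⟩)⟩

theorem uset_iff (h3 : NoThree cs) {e : ℕ} (he : 2 ≤ e) {i j : B} (hij : i ≠ j) (hm : M i j = e) {w : W} :
    w ∈ USet cs e {i, j} ↔ ∃ y, Lmin cs i j y ∧ Le cs e (wT cs i j * y) ∧ w = wT cs i j * y := by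
  have hm0 : M i j ≠ 0 := by omega
  constructor
  · rintro ⟨h1, h2⟩
    have hi : cs.IsLeftDescent w i := by
      have : i ∈ {s | cs.IsLeftDescent w s} := by
        rw [h1]
        exact Set.mem_insert _ _
      exact this
    have hj : cs.IsLeftDescent w j := by
      have : j ∈ {s | cs.IsLeftDescent w s} := by
        rw [h1]
        exact Set.mem_insert_of_mem _ (Set.mem_singleton _)
      exact this
    obtain ⟨-, z, hz, hw, -⟩ := both_ld cs hij hi hj
    refine ⟨z, hz, ?_, hw⟩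
    rw [← hw]
    intro hF
    obtain ⟨e', hlt, hmem⟩ := Trans_exists_cset cs hF
    exact h2 e' hlt hmem
  · rintro ⟨y, hy, hle, rfl⟩
    have hi : cs.IsLeftDescent (wT cs i j * y) i :=
      (ld_D_mul cs hij (Or.inl rfl) hy (wT_mem cs i j)).2 (ld_wT cs hij hm0 (Or.inl rfl))
    have hj : cs.IsLeftDescent (wT cs i j * y) j :=
      (ld_D_mul cs hij (Or.inr rfl) hy (wT_mem cs i j)).2 (ld_wT cs hij hm0 (Or.inr rfl))
    refine ⟨?_, ?_⟩
    · ext k
      constructor
      · intro hk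
        have hk' : cs.IsLeftDescent (wT cs i j * y) k := hk
        rcases h3 hi hj hk' with h | h | h
        · exact absurd h hij
        · exact Or.inr h.symm
        · exact Or.inl h.symm
      · intro hk
        rcases hk with rfl | hk
        · exact hi
        · have hk' : k = j := hk
          subst hk'
          exact hj
    · intro e' hlt hmem
      exact hle ((Trans_fac_iff cs).2 ⟨e', hlt, hmem.1⟩)

private theorem Trans_rmin_inv {i j : B} {y : W} (h : Lmin cs i j y) : Rmin cs i j y⁻¹ :=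
  ⟨fun h' => h.1 ((cs.isRightDescent_inv_iff).1 h'), fun h' => h.2 ((cs.isRightDescent_inv_iff).1 h')⟩

private theorem Trans_lmin_inv {i j : B} {y : W} (h : Rmin cs i j y) : Lmin cs i j y⁻¹ :=
  ⟨fun h' => h.1 ((cs.isLeftDescent_inv_iff).1 h'), fun h' => h.2 ((cs.isLeftDescent_inv_iff).1 h')⟩

theorem omega_iff (h3 : NoThree cs) {e : ℕ} (he : 2 ≤ e) {x : W} {T : Set B} :
    (x, T) ∈ Omega cs e ↔ ∃ i j, i ≠ j ∧ M i j = e ∧ T = {i, j} ∧ Rmin cs i j x ∧
      Le cs e (x * wT cs i j) := by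
  constructor
  · rintro ⟨i, j, hij, hm, hT, w, hw, hx⟩
    obtain ⟨y, hy, hle, rfl⟩ := (uset_iff cs h3 he hij hm).1 hw
    have hx' : x = y⁻¹ := by
      have h1 : x = (wT cs i j * y)⁻¹ * wT cs i j := hx
      rw [h1, mul_inv_rev, mul_assoc, inv_mul_cancel, mul_one]
    refine ⟨i, j, hij, hm, hT, ?_, ?_⟩
    · rw [hx']
      exact Trans_rmin_inv cs hy
    · have h2 : x * wT cs i j = (wT cs i j * y)⁻¹ := by
        rw [hx', mul_inv_rev, wT_inv]
      rw [h2]
      exact (le_inv cs).2 hle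
  · rintro ⟨i, j, hij, hm, hT, hx, hle⟩
    refine ⟨i, j, hij, hm, hT, wT cs i j * x⁻¹, ?_, ?_⟩
    · refine (uset_iff cs h3 he hij hm).2 ⟨x⁻¹, Trans_lmin_inv cs hx, ?_, rfl⟩
      have h2 : wT cs i j * x⁻¹ = (x * wT cs i j)⁻¹ := by
        rw [mul_inv_rev, wT_inv]
      rw [h2]
      exact (le_inv cs).2 hle
    · show x = (wT cs i j * x⁻¹)⁻¹ * wT cs i j
      rw [mul_inv_rev, inv_inv, mul_assoc, inv_mul_cancel, mul_one]

theorem cellSet_eq (h3 : NoThree cs) {e : ℕ} (he : 2 ≤ e) {i j : B} (hij : i ≠ j) (hm : M i j = e)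
    (x : W) : cellSet cs e (x, {i, j}) = VSet cs e i j x := by
  ext w
  constructor
  · rintro ⟨u, hu, hw⟩
    obtain ⟨y, hy, hle, rfl⟩ := (uset_iff cs h3 he hij hm).1 hu
    refine ⟨y, hy, hle, ?_⟩
    rw [mul_assoc]
    exact hw
  · rintro ⟨y, hy, hle, hw⟩
    refine ⟨wT cs i j * y, (uset_iff cs h3 he hij hm).2 ⟨y, hy, hle, rfl⟩, ?_⟩
    show w = x * (wT cs i j * y)
    rw [← mul_assoc]
    exact hw

theorem minPair_iff (h3 : NoThree cs) {e : ℕ} (hG : Geo cs e) (he : 2 ≤ e) {Γ : Set W} :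
    (∃ p, MinPair cs e p ∧ Γ = cellSet cs e p) ↔ ∃ i j x, First cs e i j x ∧ Γ = VSet cs e i j x := by
  constructor
  · rintro ⟨⟨x, T⟩, ⟨hp, hmin⟩, hΓ⟩
    obtain ⟨i, j, hij, hm, hT, hx, hle⟩ := (omega_iff cs h3 he).1 hp
    subst hT
    have hl0 : cs.length (x * wT cs i j) = cs.length x + e := by
      rw [len_mul_D cs hij hx (wT_mem cs i j), length_wT cs hij, hm]
    have hF : Fac cs (e - 1) (x * wT cs i j) := by
      refine ⟨i, j, hij, by omega, x, 1, by rw [mul_one], ?_⟩
      rw [hl0, hm, cs.length_one, add_zero]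
    obtain ⟨i', j', x', y', hfirst, hy', hw, hl⟩ := exists_first cs he hle hF
    have hq : (x', ({i', j'} : Set B)) ∈ Omega cs e :=
      (omega_iff cs h3 he).2 ⟨i', j', hfirst.ne, hfirst.exp, rfl, hfirst.rmin, hfirst.le⟩
    have hprec : Prec cs e (x', ({i', j'} : Set B)) (x, {i, j}) := by
      refine ⟨?_, ?_⟩
      · show cs.length x' ≤ cs.length x
        omega
      · rw [cellSet_eq cs h3 he hij hm, cellSet_eq cs h3 he hfirst.ne hfirst.exp]
        rintro w1 ⟨y, hy, hy2, rfl⟩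
        obtain ⟨d1, d2, -⟩ := vset_data cs hG he hij hm hx hle hy hy2
        have hw1 : x * wT cs i j * y = x' * wT cs i' j' * (y' * y) := by
          rw [hw, mul_assoc]
        have b1 := cs.length_mul_le y' y
        have b2 := cs.length_mul_le (x' * wT cs i' j') (y' * y)
        have b3 := cs.length_mul_le x' (wT cs i' j')
        rw [length_wT cs hfirst.ne, hfirst.exp] at b3
        have hlen : cs.length (x * wT cs i j * y) = cs.length x' + e + cs.length (y' * y) := by
          rw [← hw1] at b2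
          omega
        exact (mem_vset_of_fac cs hfirst.ne hfirst.exp (by omega) hw1 hlen d2).2.2.2.2
    have heq := hmin _ hq hprec
    refine ⟨i', j', x', hfirst, ?_⟩
    rw [hΓ, ← heq]
    exact cellSet_eq cs h3 he hfirst.ne hfirst.exp x'
  · rintro ⟨i, j, x, hfirst, hΓ⟩
    have hij := hfirst.ne
    have hm := hfirst.exp
    have hl0 : cs.length (x * wT cs i j) = cs.length x + e := by
      rw [len_mul_D cs hij hfirst.rmin (wT_mem cs i j), length_wT cs hij, hm]
    refine ⟨(x, {i, j}), ⟨(omega_iff cs h3 he).2 ⟨i, j, hij, hm, rfl, hfirst.rmin, hfirst.le⟩, ?_⟩,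
      ?_⟩
    · rintro ⟨x', T'⟩ hq ⟨-, hsub⟩
      obtain ⟨i', j', hij', hm', hT', hx', hle'⟩ := (omega_iff cs h3 he).1 hq
      subst hT'
      rw [cellSet_eq cs h3 he hij hm, cellSet_eq cs h3 he hij' hm'] at hsub
      have hred : Red cs x (wT cs i j) := by
        show cs.length (x * wT cs i j) = cs.length x + cs.length (wT cs i j)
        rw [hl0, length_wT cs hij, hm]
      have hmem : x * wT cs i j ∈ VSet cs e i j x := by
        refine ⟨1, ⟨cs.not_isLeftDescent_one i, cs.not_isLeftDescent_one j⟩, ?_, by rw [mul_one]⟩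
        rw [mul_one]
        exact le_suffix cs hred hfirst.le
      obtain ⟨y', hy', hy2', hw'⟩ := hsub hmem
      obtain ⟨d1, -, -⟩ := vset_data cs hG he hij' hm' hx' hle' hy' hy2'
      obtain ⟨-, hxx, hTT⟩ := first_unique_end cs h3 hG he hfirst hij' hm' hw'
        (by rw [← hl0, hw', d1])
      rw [hxx, hTT]
    · rw [hΓ]
      exact (cellSet_eq cs h3 he hij hm x).symm

end Pool.Agent.PolyCell
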