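import Pool.Agent.PolyCell.Closure
import Pool.Agent.PolyCell.Lead
import Pool.Agent.PolyCell.Cells
import Pool.Agent.PolyCell.Trans

/-!
# Main theorem

Proofs. `rle_le`: `closed_of_co` for `P = {w | Fac N w}` (`ideal_all`; `Zero` means all coordinates at `Le N z` vanish). `cell_eq_vset`: (⊆) `P = V(x,T) ∪ {Fac N}` is closed (`vset_closed`, ideal), so `y ≤_R w` implies `y ∈ V` or `Fac N y`; the latter is impossible since `w ≤_R y` would give `Fac N w` (`rle_le`).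
(⊇) every `w = x w_T y ∈ V` is equivalent to `x w_T`: `C_{x w_T} F = E C_{w_T} F` has coordinate `co (C_{w_T} F)(w_T y) = co (C_{w_T y})(w_T y) = 1` at `x w_T y` (`co_E_mul`), so `w ≤_R x w_T` (`rle_of_co`); `x w_T ≤_R w` by `lead_first` and `rle_of_co`.
`cellConj`: existence and uniqueness of `C`: `kl_exists`, `kl_unique`. `e = 1`: `M i j = 1` is impossible for `i ≠ j`, so `CSet`, `Omega` are empty, and right cells are nonempty. `e ≥ 2`: `cset_iff`, `exists_first`, `cell_eq_vset`, `minPair_iff`, `vset_data`.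
-/

open CoxeterSystem

namespace Pool.Agent.PolyCell

variable {B W : Type*} [Group W] {M : CoxeterMatrix B} {cs : CoxeterSystem M W}
  {C : W → Hk cs}

/-- `C_{w_T}` occurs in `C_{w_T y} C_{(w_T y)⁻¹}` -/
def LeadAx (cs : CoxeterSystem M W) (C : W → Hk cs) (N : ℕ) : Prop :=
  ∀ ⦃i j : B⦄ ⦃y : W⦄, i ≠ j → M i j = N → Lmin cs i j y → Le cs N (wT cs i j * y) →
    co cs C (C (wT cs i j * y) * C (wT cs i j * y)⁻¹) (wT cs i j) ≠ 0

theorem rle_le (hC : IsKL cs C) {N : ℕ} (hI : IdealN cs C N) {z w : W} (h : RLe cs C z w)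
    (hw : Fac cs N w) : Fac cs N z := by
  refine closed_of_co hC (P := {w | Fac cs N w}) ?_ h hw
  intro u hu g z hz
  by_contra hne
  exact hz ((hI u hu g).1 z hne)

/-- every element of `V(x,T)` is equivalent to `x w_T` -/
theorem Main_equiv (hC : IsKL cs C) {N : ℕ} (hG : Geo cs N) (hI : IdealN cs C N)
    (hK : KAx cs C N) (hL : LeadAx cs C N) (hN : 2 ≤ N) {i j : B} {x w : W}
    (hx : First cs N i j x) (hw : w ∈ VSet cs N i j x) :
    RLe cs C w (x * wT cs i j) ∧ RLe cs C (x * wT cs i j) w := by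
  have hm : M i j ≠ 0 := by
    rw [hx.exp]
    omega
  obtain ⟨y, hy, h2, rfl⟩ := hw
  obtain ⟨-, hle, -⟩ := vset_data cs hG hN hx.ne hx.exp hx.rmin hx.le hy h2
  obtain ⟨E, hE, hE1, hE2⟩ := exists_E cs hC hx.ne hm hx.rmin
  obtain ⟨F, hF, -, -⟩ := exists_F cs hC hx.ne hm hy
  constructor
  · refine rle_of_co hC (g := F) ?_
    rw [hE, (co_E_mul hC hI hK hN hx hE hE1 hE2 F hle).2 y hy h2 rfl, ← hF, co_C cs hC,
      Finsupp.single_eq_same]
    exact one_ne_zero
  · exact rle_of_co hC (lead_first hC hI hK hN hx hy h2 (hL hx.ne hx.exp hy h2))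

/-- the right cell of `w ∈ V(x,T)`, `(x,T)` first, is `V(x,T)`. -/
theorem cell_eq_vset (hC : IsKL cs C) {N : ℕ} (hG : Geo cs N) (hI : IdealN cs C N)
    (hK : KAx cs C N) (hL : LeadAx cs C N) (hN : 2 ≤ N) {i j : B} {x w : W}
    (hx : First cs N i j x) (hw : w ∈ VSet cs N i j x) :
    {y | RLe cs C y w ∧ RLe cs C w y} = VSet cs N i j x := by
  apply Set.Subset.antisymm
  · rintro y ⟨h1, h2⟩
    have h3 : y ∈ VSet cs N i j x ∪ {u | Fac cs N u} := by
      refine closed_of_co hC ?_ h1 (Or.inl hw)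
      intro u hu g z hz
      by_cases hzf : Fac cs N z
      · exact Or.inr hzf
      · rcases hu with hu | hu
        · exact Or.inl (vset_closed hC hI hK hN hx hu g hzf hz)
        · exact absurd ((hI u hu g).1 z hzf) hz
    rcases h3 with h3 | h3
    · exact h3
    · exfalso
      have h4 := rle_le hC hI h2 h3
      obtain ⟨y', hy', h5, rfl⟩ := hw
      exact (vset_data cs hG hN hx.ne hx.exp hx.rmin hx.le hy' h5).2.1 h4
  · intro y hy
    obtain ⟨h1, h2⟩ := Main_equiv hC hG hI hK hL hN hx hy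
    obtain ⟨h3, h4⟩ := Main_equiv hC hG hI hK hL hN hx hw
    exact ⟨h1.trans h4, h3.trans h2⟩

theorem Main_exp_ne_one {i j : B} (hij : i ≠ j) : M i j ≠ 1 := M.off_diagonal i j hij

/-- the conjecture from the axioms `NoThree`, `Geo`, `KAx`, `LeadAx` for every exponent `N` -/
theorem cellConj_of_axioms {N0 : ℕ} (hN0 : ∀ i j : B, M i j ≤ N0) (h3 : NoThree cs)
    (hG : ∀ N, 2 ≤ N → (∃ i j : B, i ≠ j ∧ M i j = N) → Geo cs N)
    (hK : ∀ C : W → Hk cs, IsKL cs C → ∀ N, 2 ≤ N → (∃ i j : B, i ≠ j ∧ M i j = N) →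
      IdealN cs C N → KAx cs C N)
    (hL : ∀ C : W → Hk cs, IsKL cs C → (∀ N, 1 ≤ N → IdealN cs C N) →
      ∀ N, 2 ≤ N → (∃ i j : B, i ≠ j ∧ M i j = N) → LeadAx cs C N) : CellConj cs := by
  refine ⟨?_, ?_⟩
  · obtain ⟨C, hC, -, -⟩ := kl_exists cs
    exact ⟨C, hC, fun C' hC' => kl_unique cs hC' hC⟩
  intro C hC e he
  have hIall : ∀ N, 1 ≤ N → IdealN cs C N := fun N hN => ideal_all hC hN0 hG (hK C hC) hN
  by_cases he1 : e = 1
  · subst he1
    ext Γ
    simp only [Set.mem_ofPred_eq]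
    constructor
    · rintro ⟨⟨w, rfl⟩, hsub⟩
      exfalso
      have hw : w ∈ CSet cs 1 := hsub ⟨Relation.ReflTransGen.refl, Relation.ReflTransGen.refl⟩
      obtain ⟨⟨i, j, hij, h1, -⟩, -⟩ := hw
      exact Main_exp_ne_one hij h1
    · rintro ⟨p, ⟨⟨i, j, hij, h1, -⟩, -⟩, -⟩
      exact absurd h1 (Main_exp_ne_one hij)
  · have he2 : 2 ≤ e := by omega
    ext Γ
    simp only [Set.mem_ofPred_eq]
    by_cases hex : ∃ i j : B, i ≠ j ∧ M i j = e
    swap
    · constructor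
      · rintro ⟨⟨w, rfl⟩, hsub⟩
        have hw : w ∈ CSet cs e := hsub ⟨Relation.ReflTransGen.refl, Relation.ReflTransGen.refl⟩
        obtain ⟨⟨i, j, hij, h1, -⟩, -⟩ := hw
        exact absurd ⟨i, j, hij, h1⟩ hex
      · rintro ⟨p, ⟨⟨i, j, hij, h1, -⟩, -⟩, -⟩
        exact absurd ⟨i, j, hij, h1⟩ hex
    have hGe := hG e he2 hex
    have hIe := hIall e (by omega)
    have hKe := hK C hC e he2 hex hIe
    have hLe := hL C hC hIall e he2 hex
    rw [minPair_iff cs h3 hGe he2]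
    constructor
    · rintro ⟨⟨w, rfl⟩, hsub⟩
      have hw : w ∈ CSet cs e := hsub ⟨Relation.ReflTransGen.refl, Relation.ReflTransGen.refl⟩
      rw [cset_iff cs he2] at hw
      obtain ⟨i, j, x, y, hx, hy, hwe, hl⟩ := exists_first cs he2 hw.1 hw.2
      have h1 := mem_vset_of_fac cs hx.ne hx.exp he hwe hl hw.1
      exact ⟨i, j, x, hx, cell_eq_vset hC hGe hIe hKe hLe he2 hx h1.2.2.2.2⟩
    · rintro ⟨i, j, x, hx, rfl⟩
      have hmem : x * wT cs i j ∈ VSet cs e i j x := by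
        refine ⟨1, ⟨cs.not_isLeftDescent_one i, cs.not_isLeftDescent_one j⟩, ?_, ?_⟩
        · rw [mul_one]
          exact le_suffix cs (len_mul_D cs hx.ne hx.rmin (wT_mem cs i j)) hx.le
        · rw [mul_one]
      refine ⟨⟨x * wT cs i j, (cell_eq_vset hC hGe hIe hKe hLe he2 hx hmem).symm⟩, ?_⟩
      rintro w ⟨y, hy, h2, rfl⟩
      obtain ⟨-, h3, h4⟩ := vset_data cs hGe he2 hx.ne hx.exp hx.rmin hx.le hy h2
      exact (cset_iff cs he2).2 ⟨h3, h4⟩

end Pool.Agent.PolyCell
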