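import Pool.Agent.PolyCell.KLProps

/-!
# The trace `τ(h) = h_1`

`τ(T_x T_y) = [x y = 1]` (induction on `ℓ(y)`), so `τ(g h) = ∑_z g_{z⁻¹} h_z`.
-/

open CoxeterSystem

namespace Pool.Agent.PolyCell

variable {B W : Type*} [Group W] {M : CoxeterMatrix B} (cs : CoxeterSystem M W)

open Classical in
theorem tau_T (x y : W) : (T cs x * T cs y) 1 = if x * y = 1 then 1 else 0 := by
  induction hn : cs.length y generalizing x y with
  | zero =>
    rw [cs.length_eq_zero_iff] at hn
    subst hn
    rw [← one_def', mul_one, T_apply, mul_one]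
    simp only [eq_comm]
  | succ n ih =>
    have hy : y ≠ 1 := by
      rintro rfl
      rw [cs.length_one] at hn
      omega
    obtain ⟨i, hi⟩ := cs.exists_leftDescent_of_ne_one hy
    obtain ⟨y', rfl⟩ : ∃ y', y = cs.simple i * y' := ⟨cs.simple i * y, by
      rw [cs.simple_mul_simple_cancel_left]⟩
    have hi' : ¬ cs.IsLeftDescent y' i := by
      intro h
      unfold CoxeterSystem.IsLeftDescent at h hi
      rw [cs.simple_mul_simple_cancel_left] at hi
      omega
    have hl : cs.length y' = n := by
      have := cs.not_isLeftDescent_iff.1 hi'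
      omega
    rw [← s_mul_T cs hi', ← mul_assoc]
    by_cases hx : cs.IsRightDescent x i
    · rw [T_mul_s' cs hx, add_mul, smul_mul_assoc, add_apply', smul_apply', ih _ _ hl, ih _ _ hl]
      have h0 : x * y' ≠ 1 := by
        intro h
        have hxy : x = y'⁻¹ := eq_inv_of_mul_eq_one_left h
        rw [hxy, cs.isRightDescent_inv_iff] at hx
        exact hi' hx
      rw [if_neg h0, mul_zero, add_zero]
      simp only [mul_assoc]
    · rw [T_mul_s cs hx, ih _ _ hl]
      simp only [mul_assoc]

/-- `τ(g h) = ∑_z g_{z⁻¹} h_z` -/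
theorem tau_mul (g h : Hk cs) :
    (g * h) 1 = ∑ z ∈ (show W →₀ LP from h).support, g z⁻¹ * h z := by
  classical
  have e : ∀ g : Hk cs, ∀ z : W, (g * T cs z) 1 = g z⁻¹ := by
    intro g z
    induction g using hk_induction cs with
    | h0 =>
      rw [zero_mul]
      rfl
    | hT w =>
      rw [tau_T, T_apply]
      simp only [← mul_eq_one_iff_eq_inv, eq_comm (a := z⁻¹)]
    | ha g h hg hh => rw [add_mul, add_apply', hg, hh, add_apply']
    | hs r h hh => rw [smul_mul_assoc, smul_apply', hh, smul_apply']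
  have e2 : g * h = ∑ z ∈ (show W →₀ LP from h).support, h z • (g * T cs z) := by
    conv_lhs => rw [eq_sum_T cs h]
    rw [Finsupp.sum, Finset.mul_sum]
    refine Finset.sum_congr rfl fun z _ => ?_
    rw [mul_smul_comm]
    rfl
  let ev : Hk cs →ₗ[LP] LP :=
    { toFun := fun g => g 1
      map_add' := fun _ _ => rfl
      map_smul' := fun _ _ => rfl }
  have h1 : ev (g * h) = ∑ z ∈ (show W →₀ LP from h).support, g z⁻¹ * h z := by
    rw [e2, map_sum]
    refine Finset.sum_congr rfl fun z _ => ?_
    rw [map_smul, smul_eq_mul, mul_comm]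
    congr 1
    exact e g z
  exact h1

/-- `τ(h) = ∑_w co(h)(w) τ(C_w)` -/
theorem tau_co {C : W → Hk cs} (hC : IsKL cs C) (h : Hk cs) :
    h 1 = ∑ w ∈ (co cs C h).support, co cs C h w * C w 1 := by
  let ev : Hk cs →ₗ[LP] LP :=
    { toFun := fun g => g 1
      map_add' := fun _ _ => rfl
      map_smul' := fun _ _ => rfl }
  have h1 : ev h = ∑ w ∈ (co cs C h).support, co cs C h w * C w 1 := by
    conv_lhs => rw [← co_spec cs hC h]
    rw [Finsupp.linearCombination_apply, Finsupp.sum, map_sum]
    refine Finset.sum_congr rfl fun w _ => ?_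
    rw [map_smul, smul_eq_mul]
    rfl
  exact h1

end Pool.Agent.PolyCell
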