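import Pool.Agent.PolyCell.Closure
import Pool.Agent.PolyCell.Main
import Pool.Agent.PolyCell.Tau

/-!
# The conjecture from degree bounds of `T_x T_u T_y` modulo `H_{> N}`

`Bnd cs C N`: the bounds. `kax_of_bnd`: expand `C_{w_T}`.
`P1` (decreasing induction on `N`): `τ(C_g)` has degree `≤ -N` for `g ∈ W_{≤ N}` with a factor of exponent `N`. `g = x w_T y` (first),
`D := E C_{w_T} F = C_g + ∑_{g' ∈ W_{> N}} α_{g'} C_{g'}` (`k2`); `τ(D) = ∑_z C_{x w_T}(z⁻¹) F(z)` has degree `≤ -N` (`C_{x w_T}(z⁻¹) = v^{-N} C_{x w_T}(z⁻¹ w_T)`); `deg α_{g'} ≤ N' - N` if `g'` has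
maximal exponent `N'` (bounds for `N'`), `deg τ(C_{g'}) ≤ -N'`.
`lead_of_bnd`: `z = w_T y`: `C_z C_{z⁻¹} = ∑ h_g C_g`; all `g` have `i, j ∈ L(g)`, so `τ(C_g) = v^{-N} C_g(w_T)`; `τ(C_z C_{z⁻¹}) = ∑ C_z(a)² = 1 + (degree ≤ -1)`. If `g ≠ w_T` has maximal exponent `N`:
`deg h_g ≤ N`, `deg τ(C_g) ≤ -N - 1`. If the maximal exponent is `N' > N`: `deg h_g ≤ N' - 1`, `deg τ(C_g) ≤ -N'`. Hence `h_{w_T} ≠ 0`.
-/

open CoxeterSystem

namespace Pool.Agent.PolyCell

variable {B W : Type*} [Group W] {M : CoxeterMatrix B} {cs : CoxeterSystem M W}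
  {C : W → Hk cs} {N : ℕ}

/-- degree bounds modulo `H_{> N}` -/
structure BndC (cs : CoxeterSystem M W) (C : W → Hk cs) (N : ℕ) : Prop where
  a : ∀ x y : W, Lat cs C N N (T cs x * T cs y)
  a' : ∀ x y : W, Le cs (N - 1) x → Lat cs C N ((N : ℤ) - 1) (T cs x * T cs y)
  dC : ∀ ⦃i j : B⦄ ⦃x y : W⦄, i ≠ j → M i j ≠ 0 → M i j ≤ N → Rmin cs i j x → Lmin cs i j y →
    Lat cs C N ((N : ℤ) - M i j) (T cs x * C (wT cs i j) * T cs y)
  k1f : ∀ ⦃i j : B⦄ ⦃x y : W⦄, First cs N i j x → Lmin cs i j y → Le cs N (wT cs i j * y) →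
    Lat cs C N (-1) (T cs x * C (wT cs i j) * T cs y - T cs (x * wT cs i j * y))

/-- stronger degree bounds modulo `H_{> N}` -/
structure Bnd (cs : CoxeterSystem M W) (C : W → Hk cs) (N : ℕ) : Prop where
  a : ∀ x y : W, Lat cs C N N (T cs x * T cs y)
  a' : ∀ x y : W, Le cs (N - 1) x → Lat cs C N ((N : ℤ) - 1) (T cs x * T cs y)
  d : ∀ ⦃i j : B⦄ ⦃x y u : W⦄, i ≠ j → M i j ≠ 0 → M i j ≤ N → Rmin cs i j x → Lmin cs i j y →
    u ∈ D cs i j → Lat cs C N ((N : ℤ) - cs.length u) (T cs x * T cs u * T cs y)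
  d' : ∀ ⦃i j : B⦄ ⦃x y u : W⦄, First cs N i j x → Lmin cs i j y → Le cs N (wT cs i j * y) →
    u ∈ D cs i j → u ≠ wT cs i j →
    Lat cs C N ((N : ℤ) - 1 - cs.length u) (T cs x * T cs u * T cs y)

theorem kax_of_bndC (hB : BndC cs C N) (hN : 2 ≤ N) : KAx cs C N := by
  refine ⟨?_, fun i j x y hx hy h2 => hB.k1f hx hy h2⟩
  intro i j x y hij hm hx hy
  have h := hB.dC hij (by omega) (le_of_eq hm) hx hy
  rw [hm, sub_self] at h
  exact h

theorem kax_of_bnd (hC : IsKL cs C) (hG : Geo cs N) (hB : Bnd cs C N) (hN : 2 ≤ N) :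
    KAx cs C N := by
  classical
  constructor
  · intro i j x y hij hm hx hy
    have hm0 : M i j ≠ 0 := by omega
    refine lat_expand x y _ fun u hu => ?_
    rw [C_wT_apply cs hC hij hm0] at hu ⊢
    split_ifs at hu ⊢ with hD
    · have h1 := lat_smul (dle_v ((cs.length u : ℤ) - M i j))
        (hB.d hij hm0 (le_of_eq hm) hx hy hD)
      refine lat_mono ?_ h1
      rw [hm]
      omega
    · exact absurd rfl hu
  · intro i j x y hx hy h2
    have hij := hx.ne
    have hm := hx.exp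
    have hm0 : M i j ≠ 0 := by omega
    have hlen := (hG.vset hij hm hx.rmin hx.le hy h2).1
    have hl1 := len_mul_D cs hij hx.rmin (wT_mem cs i j)
    rw [length_wT cs hij, hm] at hl1
    have hT : T cs x * T cs (wT cs i j) * T cs y = T cs (x * wT cs i j * y) := by
      rw [T_mul_T cs (show Red cs x (wT cs i j) by
        unfold Red; rw [hl1, length_wT cs hij, hm]), T_mul_T cs (show Red cs (x * wT cs i j) y by
        unfold Red; rw [hlen, hl1])]
    have e : T cs x * C (wT cs i j) * T cs y - T cs (x * wT cs i j * y) =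
        T cs x * (C (wT cs i j) - T cs (wT cs i j)) * T cs y := by
      rw [mul_sub, sub_mul, hT]
    rw [e]
    refine lat_expand x y _ fun u hu => ?_
    rw [sub_apply', T_apply] at hu ⊢
    by_cases huw : u = wT cs i j
    · exfalso
      apply hu
      rw [if_pos huw, huw, kl_self cs hC, sub_self]
    rw [if_neg huw, sub_zero] at hu ⊢
    rw [C_wT_apply cs hC hij hm0] at hu ⊢
    split_ifs at hu ⊢ with hD
    · have h1 := lat_smul (dle_v ((cs.length u : ℤ) - M i j)) (hB.d' hx hy h2 hD huw)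
      refine lat_mono ?_ h1
      rw [hm]
      omega
    · exact absurd rfl hu

theorem bndC_of_bnd (hC : IsKL cs C) (hG : ∀ i j : B, i ≠ j → M i j = N → Geo cs N)
    (hB : Bnd cs C N) (hN : 2 ≤ N) : BndC cs C N := by
  classical
  refine ⟨hB.a, hB.a', ?_, ?_⟩
  · intro i j x y hij hm0 hmN hx hy
    refine lat_expand x y _ fun u hu => ?_
    rw [C_wT_apply cs hC hij hm0] at hu ⊢
    split_ifs at hu ⊢ with hD
    · have h1 := lat_smul (dle_v ((cs.length u : ℤ) - M i j)) (hB.d hij hm0 hmN hx hy hD)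
      exact lat_mono (by omega) h1
    · exact absurd rfl hu
  · intro i j x y hx hy h2
    exact (kax_of_bnd hC (hG i j hx.ne hx.exp) hB hN).k1f hx hy h2

/-- the maximal exponent of a factor -/
theorem exists_level {N : ℕ} {w : W} (h : Fac cs N w) :
    ∃ N', N < N' ∧ Le cs N' w ∧ Fac cs (N' - 1) w ∧ ∃ i j : B, i ≠ j ∧ M i j = N' := by
  classical
  have hb : ∀ N, Fac cs N w → N < cs.length w := by
    rintro N ⟨i, j, hij, hlt, u, x, hw, hl⟩
    omega
  obtain ⟨N', hN', hmax⟩ : ∃ N', (Fac cs N' w ∧ N ≤ N') ∧ ∀ k, Fac cs k w ∧ N ≤ k → k ≤ N' := by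
    have hne : ∃ k, Fac cs k w ∧ N ≤ k := ⟨N, h, le_rfl⟩
    let S := (Finset.range (cs.length w)).filter fun k => Fac cs k w ∧ N ≤ k
    have hS : S.Nonempty := ⟨N, Finset.mem_filter.2 ⟨Finset.mem_range.2 (hb N h), h, le_rfl⟩⟩
    obtain ⟨k, hk, hkm⟩ := S.exists_max_image id hS
    refine ⟨k, (Finset.mem_filter.1 hk).2, fun l hl => ?_⟩
    exact hkm l (Finset.mem_filter.2 ⟨Finset.mem_range.2 (hb l hl.1), hl⟩)
  obtain ⟨i, j, hij, hlt, hrest⟩ := hN'.1
  have hle : Le cs (N' + 1) w := fun hf => by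
    have := hmax (N' + 1) ⟨hf, by omega⟩
    omega
  refine ⟨N' + 1, by omega, hle, hN'.1, i, j, hij, ?_⟩
  by_contra hne
  exact hle ⟨i, j, hij, by omega, hrest⟩

/-- products of elements with bounded degrees -/
theorem bnd_mul_lat (hA : ∀ x y : W, Lat cs C N N (T cs x * T cs y)) {k l : ℤ} {g h : Hk cs}
    (hg : ∀ z, dle k (g z)) (hh : ∀ z, dle l (h z)) : Lat cs C N ((N : ℤ) + (k + l)) (g * h) := by
  have e3 : g * h = ∑ z ∈ (show W →₀ LP from g).support,
      ∑ z' ∈ (show W →₀ LP from h).support,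
        (g z * h z') • (T cs z * T cs z') := by
    conv_lhs => rw [eq_sum_T cs g, eq_sum_T cs h]
    unfold Finsupp.sum
    rw [Finset.sum_mul]
    refine Finset.sum_congr rfl fun z _ => ?_
    rw [Finset.mul_sum]
    refine Finset.sum_congr rfl fun z' _ => ?_
    rw [smul_mul_smul_comm]
    rfl
  rw [e3]
  refine lat_sum _ _ fun z _ => lat_sum _ _ fun z' _ => ?_
  exact lat_smul (dle_mul (hg z) (hh z')) (hA z z')

/-- the coordinates of `E C_{w_T} F` at higher exponents -/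
theorem bnd_ECF (hB : BndC cs C N) {i j : B} (hij : i ≠ j) (hm0 : M i j ≠ 0)
    (hm : M i j ≤ N) {E F : Hk cs} (hE : ∀ z, E z ≠ 0 → Rmin cs i j z ∧ dle 0 (E z))
    (hF : ∀ z, F z ≠ 0 → Lmin cs i j z ∧ dle 0 (F z)) :
    Lat cs C N ((N : ℤ) - M i j) (E * C (wT cs i j) * F) := by
  classical
  have e : E * C (wT cs i j) * F = ∑ z ∈ (show W →₀ LP from E).support,
      ∑ u ∈ (show W →₀ LP from F).support,
        (E z * F u) • (T cs z * C (wT cs i j) * T cs u) := by
    conv_lhs => rw [eq_sum_T cs E, eq_sum_T cs F]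
    rw [Finsupp.sum, Finsupp.sum, Finset.sum_mul, Finset.sum_mul]
    refine Finset.sum_congr rfl fun z _ => ?_
    rw [Finset.mul_sum]
    refine Finset.sum_congr rfl fun u _ => ?_
    rw [smul_mul_assoc, smul_mul_assoc, mul_smul_comm, smul_smul]
    rfl
  rw [e]
  refine lat_sum _ _ fun z hz => lat_sum _ _ fun y hy => ?_
  obtain ⟨h1, h2⟩ := hE z (Finsupp.mem_support_iff.1 hz)
  obtain ⟨h3, h4⟩ := hF y (Finsupp.mem_support_iff.1 hy)
  have key : Lat cs C N ((N : ℤ) - M i j) (T cs z * C (wT cs i j) * T cs y) :=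
    hB.dC hij hm0 hm h1 h3
  have h5 := lat_smul (dle_mul h2 h4) key
  exact lat_mono (by omega) h5

theorem P1 (hC : IsKL cs C) {N0 : ℕ} (hN0 : ∀ i j : B, M i j ≤ N0)
    (hB : ∀ N, 2 ≤ N → (∃ i j : B, i ≠ j ∧ M i j = N) → BndC cs C N) {N : ℕ} (hN : 2 ≤ N)
    {g : W} (h1 : Le cs N g) (h2 : Fac cs (N - 1) g) : dle (-(N : ℤ)) (C g 1) := by
  classical
  obtain ⟨d, hd⟩ : ∃ d, N0 - N = d := ⟨_, rfl⟩
  induction d using Nat.strong_induction_on generalizing N g with
  | _ d ih =>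
  obtain ⟨i, j, x, y, hx, _, hg, hl⟩ := exists_first cs hN h1 h2
  have hij := hx.ne
  have hm := hx.exp
  have hm0 : M i j ≠ 0 := by omega
  have hex : ∃ i j : B, i ≠ j ∧ M i j = N := ⟨i, j, hij, hm⟩
  obtain ⟨_, hy, _, hle2, _⟩ := mem_vset_of_fac cs hij hm (by omega) hg hl h1
  obtain ⟨E, hE, hE1, hE2⟩ := exists_E cs hC hij hm0 hx.rmin
  obtain ⟨F, hF, hF1, hF2⟩ := exists_F cs hC hij hm0 hy
  have hk := k2 hC (kax_of_bndC (hB N hN hex) hN) hN hx hy hle2 hE hE1 hE2
    hF hF1 hF2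
  rw [← hg] at hk
  have hE' : ∀ z, E z ≠ 0 → Rmin cs i j z ∧ dle 0 (E z) := by
    intro z hz
    by_cases hzx : z = x
    · subst hzx
      rw [hE1]
      exact ⟨hx.rmin, dle_one⟩
    · exact ⟨(hE2 z hzx hz).1, dle_mono (by norm_num) (hE2 z hzx hz).2.2⟩
  have hF' : ∀ z, F z ≠ 0 → Lmin cs i j z ∧ dle 0 (F z) := by
    intro z hz
    by_cases hzy : z = y
    · subst hzy
      rw [hF1]
      exact ⟨hy, dle_one⟩
    · exact ⟨(hF2 z hzy hz).1, dle_mono (by norm_num) (hF2 z hzy hz).2.2⟩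
  have hCd : ∀ w z : W, dle 0 (C w z) := by
    intro w z
    by_cases hzw : z = w
    · subst hzw
      rw [kl_self cs hC]
      exact dle_one
    · exact dle_mono (by norm_num) (kl_dle cs hC hzw)
  -- `τ(D)`
  have hτD : dle (-(N : ℤ)) ((E * C (wT cs i j) * F) 1) := by
    rw [tau_mul, ← hE]
    refine dle_sum _ _ fun z hz => ?_
    obtain ⟨hz1, hz2⟩ := hF' z (Finsupp.mem_support_iff.1 hz)
    have hzr : Rmin cs i j z⁻¹ :=
      ⟨by rw [cs.isRightDescent_inv_iff]; exact hz1.1, by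
        rw [cs.isRightDescent_inv_iff]; exact hz1.2⟩
    have hdi : cs.IsRightDescent (x * wT cs i j) i :=
      (rd_mul_D cs hij (Or.inl rfl) hx.rmin (wT_mem cs i j)).2 (rd_wT cs hij hm0 (Or.inl rfl))
    have hdj : cs.IsRightDescent (x * wT cs i j) j :=
      (rd_mul_D cs hij (Or.inr rfl) hx.rmin (wT_mem cs i j)).2 (rd_wT cs hij hm0 (Or.inr rfl))
    have h3 := eigen_coeff_D cs hij hm0 (kl_mul_s cs hC hdi) (kl_mul_s cs hC hdj) hzr
      (Subgroup.one_mem (D cs i j))
    rw [mul_one, cs.length_one, hm] at h3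
    rw [h3]
    have h4 := dle_mul (dle_mul (dle_v (((0 : ℕ) : ℤ) - (N : ℤ))) (hCd _ _)) hz2
      (p := v (((0 : ℕ) : ℤ) - (N : ℤ)) * C (x * wT cs i j) (z⁻¹ * wT cs i j))
    exact dle_mono (by push_cast; omega) h4
  -- compare with `C_g`
  have hτ := tau_co cs hC (E * C (wT cs i j) * F)
  have hcoLe : ∀ w, Le cs N w → co cs C (E * C (wT cs i j) * F) w =
      Finsupp.single g (1 : LP) w := by
    intro w hw
    have h3 := hk w hw
    rw [map_sub, Finsupp.sub_apply, co_C cs hC, sub_eq_zero] at h3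
    exact h3.symm
  have hterm : ∀ w, w ≠ g → dle (-(N : ℤ)) (co cs C (E * C (wT cs i j) * F) w * C w 1) := by
    intro w hwg
    by_cases hw : Le cs N w
    · rw [hcoLe w hw, Finsupp.single_eq_of_ne hwg, zero_mul]
      exact dle_zero _
    · obtain ⟨N', hN', hle', hf', hex'⟩ := exists_level (not_not.1 hw)
      have hb := hB N' (by omega) hex'
      have h3 := bnd_ECF hb hij hm0 (by omega) hE' hF' w hle'
      have hlt : N' ≤ N0 := by
        obtain ⟨a, b, _, hab⟩ := hex'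
        rw [← hab]
        exact hN0 a b
      have h4 := ih (N0 - N') (by omega) (by omega) hle' hf' rfl
      refine dle_mono ?_ (dle_mul h3 h4)
      rw [hm]
      omega
  have hgs : g ∈ (co cs C (E * C (wT cs i j) * F)).support := by
    rw [Finsupp.mem_support_iff, hcoLe g h1, Finsupp.single_eq_same]
    exact one_ne_zero
  rw [← Finset.add_sum_erase _ _ hgs, hcoLe g h1, Finsupp.single_eq_same, one_mul] at hτ
  have h5 : C g 1 = (E * C (wT cs i j) * F) 1 - ∑ w ∈ (co cs C (E * C (wT cs i j) * F)).support.erase g,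
      co cs C (E * C (wT cs i j) * F) w * C w 1 := by
    rw [hτ]
    ring
  rw [h5]
  refine dle_sub hτD (dle_sum _ _ fun w hw => hterm w (Finset.ne_of_mem_erase hw))

theorem lead_of_bnd (hC : IsKL cs C) {N0 : ℕ} (hN0 : ∀ i j : B, M i j ≤ N0)
    (hB : ∀ N, 2 ≤ N → (∃ i j : B, i ≠ j ∧ M i j = N) → BndC cs C N) {N : ℕ} (hN : 2 ≤ N) :
    LeadAx cs C N := by
  classical
  intro i j y hij hm hy h2 h0
  have hm0 : M i j ≠ 0 := by omega
  have hex : ∃ i j : B, i ≠ j ∧ M i j = N := ⟨i, j, hij, hm⟩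
  set z := wT cs i j * y with hz
  have hCd : ∀ w z : W, dle 0 (C w z) := by
    intro w z
    by_cases hzw : z = w
    · subst hzw
      rw [kl_self cs hC]
      exact dle_one
    · exact dle_mono (by norm_num) (kl_dle cs hC hzw)
  have hR : ∀ u : W, ∀ z, dle (-1) ((C u - T cs u : Hk cs) z) := by
    intro u z
    rw [sub_apply', T_apply]
    by_cases hz : z = u
    · subst hz
      rw [if_pos rfl, kl_self cs hC, sub_self]
      exact dle_zero _
    · rw [if_neg hz, sub_zero]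
      exact kl_dle cs hC hz
  obtain ⟨F, hF, -, -⟩ := exists_F cs hC hij hm0 hy
  -- every summand has degree `≤ -1`
  have hterm : ∀ g ∈ (co cs C (C z * C z⁻¹)).support,
      dle (-1) (co cs C (C z * C z⁻¹) g * C g 1) := by
    intro g hg
    have hg0 := Finsupp.mem_support_iff.1 hg
    have hgw : g ≠ wT cs i j := by
      rintro rfl
      exact hg0 h0
    by_cases hle : Le cs N g
    · -- exponent `≤ N`
      have h3 := bnd_mul_lat (hB N hN hex).a (hCd z) (hCd z⁻¹) g hle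
      have hld : cs.IsLeftDescent g i ∧ cs.IsLeftDescent g j := by
        have h4 : co cs C (C (wT cs i j) * (F * C z⁻¹)) g ≠ 0 := by
          rw [← mul_assoc, ← hF]
          exact hg0
        exact co_wT_mul cs hC hij hm0 _ h4
      have h5 : dle (-(N : ℤ) - 1) (C g 1) := by
        have hinv : C g 1 = C g⁻¹ 1 := by
          have := kl_fl cs hC g⁻¹
          rw [inv_inv] at this
          rw [← this, fl_apply, inv_one]
        have hdi : cs.IsRightDescent g⁻¹ i := by rw [cs.isRightDescent_inv_iff]; exact hld.1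
        have hdj : cs.IsRightDescent g⁻¹ j := by rw [cs.isRightDescent_inv_iff]; exact hld.2
        have h6 := eigen_coeff_D cs hij hm0 (kl_mul_s cs hC hdi) (kl_mul_s cs hC hdj)
          (z := 1) ⟨cs.not_isRightDescent_one i, cs.not_isRightDescent_one j⟩
          (Subgroup.one_mem (D cs i j))
        rw [mul_one, one_mul, cs.length_one, hm] at h6
        rw [hinv, h6]
        have hne : wT cs i j ≠ g⁻¹ := by
          intro h7
          apply hgw
          rw [← inv_inv g, ← h7, wT_inv]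
        have h8 := dle_mul (dle_v (((0 : ℕ) : ℤ) - (N : ℤ))) (kl_dle cs hC hne)
        exact dle_mono (by push_cast; omega) h8
      exact dle_mono (by omega) (dle_mul h3 h5)
    · -- exponent `> N`
      obtain ⟨N', hN', hle', hf', hex'⟩ := exists_level (not_not.1 hle)
      have hb := hB N' (by omega) hex'
      have h4 := P1 hC hN0 hB (by omega) hle' hf'
      have h5 : Lat cs C N' ((N' : ℤ) - 1) (C z * C z⁻¹) := by
        have e : C z * C z⁻¹ = T cs z * C z⁻¹ + (C z - T cs z) * C z⁻¹ := by noncomm_ring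
        rw [e]
        refine lat_add ?_ (lat_mono (by omega) (bnd_mul_lat hb.a (hR z) (hCd z⁻¹)))
        have e2 : T cs z * C z⁻¹ = ∑ u ∈ (show W →₀ LP from C z⁻¹).support,
            C z⁻¹ u • (T cs z * T cs u) := by
          conv_lhs => rw [eq_sum_T cs (C z⁻¹)]
          rw [Finsupp.sum, Finset.mul_sum]
          refine Finset.sum_congr rfl fun u _ => ?_
          rw [mul_smul_comm]
          rfl
        rw [e2]
        refine lat_sum _ _ fun u _ => ?_
        have h6 := lat_smul (hCd z⁻¹ u) (hb.a' z u (le_mono cs (by omega) h2))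
        exact lat_mono (by omega) h6
      exact dle_mono (by omega) (dle_mul (h5 g hle') h4)
  have hτ := tau_co cs hC (C z * C z⁻¹)
  have h3 : dle (-1) ((C z * C z⁻¹) 1) := by
    rw [hτ]
    exact dle_sum _ _ hterm
  -- but the constant coefficient of `τ(C_z C_{z⁻¹})` is `1`
  have h4 : (C z * C z⁻¹) 1 = ∑ u ∈ (show W →₀ LP from C z⁻¹).support, C z⁻¹ u * C z⁻¹ u := by
    rw [tau_mul]
    refine Finset.sum_congr rfl fun u _ => ?_
    congr 1
    rw [← kl_fl cs hC, fl_apply]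
  have hmem : z⁻¹ ∈ (show W →₀ LP from C z⁻¹).support := by
    refine Finsupp.mem_support_iff.2 ?_
    show C z⁻¹ z⁻¹ ≠ 0
    rw [kl_self cs hC]
    exact one_ne_zero
  rw [← Finset.add_sum_erase _ _ hmem, kl_self cs hC, mul_one] at h4
  have h5 : dle (-1) (∑ u ∈ (show W →₀ LP from C z⁻¹).support.erase z⁻¹, C z⁻¹ u * C z⁻¹ u) := by
    refine dle_sum _ _ fun u hu => ?_
    have h6 := kl_dle cs hC (Finset.ne_of_mem_erase hu)
    exact dle_mono (by norm_num) (dle_mul h6 h6)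
  have h6 : dle (-1) (1 : LP) := by
    have h7 : (1 : LP) = (C z * C z⁻¹) 1 -
        ∑ u ∈ (show W →₀ LP from C z⁻¹).support.erase z⁻¹, C z⁻¹ u * C z⁻¹ u := by
      rw [h4]
      ring
    rw [h7]
    exact dle_sub h3 h5
  have h7 := h6 0 (by norm_num)
  rw [← v_zero, coeff_v, if_pos rfl] at h7
  exact one_ne_zero h7

/-- the conjecture from `NoThree`, `Geo` and the degree bounds `BndC` for every exponent `N` -/
theorem cellConj_of_bndC {N0 : ℕ} (hN0 : ∀ i j : B, M i j ≤ N0) (h3 : NoThree cs)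
    (hG : ∀ N, 2 ≤ N → (∃ i j : B, i ≠ j ∧ M i j = N) → Geo cs N)
    (hB : ∀ C : W → Hk cs, IsKL cs C → ∀ N, 2 ≤ N → (∃ i j : B, i ≠ j ∧ M i j = N) →
      IdealN cs C N → BndC cs C N) : CellConj cs :=
  cellConj_of_axioms hN0 h3 hG
    (fun C hC N hN hex hI => kax_of_bndC (hB C hC N hN hex hI) hN)
    (fun C hC hI N hN _ => lead_of_bnd hC hN0
      (fun N hN hex => hB C hC N hN hex (hI N (by omega))) hN)

/-- the conjecture from `NoThree`, `Geo` and the degree bounds `Bnd` for every exponent `N` -/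
theorem cellConj_of_bnd {N0 : ℕ} (hN0 : ∀ i j : B, M i j ≤ N0) (h3 : NoThree cs)
    (hG : ∀ N, 2 ≤ N → (∃ i j : B, i ≠ j ∧ M i j = N) → Geo cs N)
    (hB : ∀ C : W → Hk cs, IsKL cs C → ∀ N, 2 ≤ N → (∃ i j : B, i ≠ j ∧ M i j = N) →
      IdealN cs C N → Bnd cs C N) : CellConj cs :=
  cellConj_of_bndC hN0 h3 hG fun C hC N hN hex hI =>
    bndC_of_bnd hC (fun _ _ _ _ => hG N hN hex) (hB C hC N hN hex hI) hN

end Pool.Agent.PolyCell
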