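import Pool.Agent.PolyCell.BStep0
import Pool.Agent.PolyCell.BStep1
import Pool.Agent.PolyCell.BStep0p
import Pool.Agent.PolyCell.BStep1p

/-!
# The degree bounds
-/

open CoxeterSystem

namespace Pool.Agent.PolyCell

variable {B W : Type*} [Group W] {M : CoxeterMatrix B} {cs : CoxeterSystem M W}
  {C : W → Hk cs} {N : ℕ}

private theorem Bounds_one {x y : W} (h : cs.length x + cs.length y ≤ 0) :
    T cs x * T cs y = T cs 1 := by
  have hx : x = 1 := cs.length_eq_zero_iff.1 (by omega)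
  have hy : y = 1 := cs.length_eq_zero_iff.1 (by omega)
  rw [hx, hy, ← one_def', one_mul]

theorem bounds_zero (hC : IsKL cs C) (hN : 2 ≤ N) :
    E0S cs C N 0 ∧ E1S cs C N 0 ∧ E0pS cs C N 0 ∧ E1pS cs C N 0 := by
  refine ⟨fun x y h => ?_, fun x y g h => ?_, fun x y h _ => ?_, fun x y g h => ?_⟩
  · rw [Bounds_one h]
    exact plat_mono (by positivity) (plat_T hC 1)
  · omega
  · rw [Bounds_one h]
    exact lat_mono (by omega) (lat_T hC 1)
  · omega

theorem bounds (hM : TF M) (hC : IsKL cs C) (hI : IdealN cs C N) (hN : 2 ≤ N) (n : ℕ) :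
    E0S cs C N n ∧ E1S cs C N n ∧ E0pS cs C N n ∧ E1pS cs C N n := by
  induction n with
  | zero => exact bounds_zero hC hN
  | succ n ih =>
    obtain ⟨h0, h1, h0p, h1p⟩ := ih
    exact ⟨e0_step hM hC hI hN n h0 h1 h0p h1p, e1_step hM hC hI hN n h0 h1 h0p h1p,
      e0p_step hM hC hI hN n h0 h1 h0p h1p, e1p_step hM hC hI hN n h0 h1 h0p h1p⟩

theorem E0 (hM : TF M) (hC : IsKL cs C) (hI : IdealN cs C N) (hN : 2 ≤ N) (x y : W) :
    PLat cs C N N (T cs x * T cs y) :=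
  (bounds hM hC hI hN _).1 x y le_rfl

theorem E1 (hM : TF M) (hC : IsKL cs C) (hI : IdealN cs C N) (hN : 2 ≤ N) {x y : W} {g : B}
    (hx : ¬ cs.IsRightDescent x g) (hy : ¬ cs.IsLeftDescent y g) (h1 : Le cs N (x * cs.simple g))
    (h2 : Le cs N (cs.simple g * y)) :
    PLat cs C N ((N : ℤ) - 1) (T cs x * T cs (cs.simple g) * T cs y) :=
  (bounds hM hC hI hN _).2.1 x y g le_rfl hx hy h1 h2

theorem E0p (hM : TF M) (hC : IsKL cs C) (hI : IdealN cs C N) (hN : 2 ≤ N) {x : W} (y : W)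
    (hx : Le cs (N - 1) x) : Lat cs C N ((N : ℤ) - 1) (T cs x * T cs y) :=
  (bounds hM hC hI hN _).2.2.1 x y le_rfl hx

theorem E1p (hM : TF M) (hC : IsKL cs C) (hI : IdealN cs C N) (hN : 2 ≤ N) {x y : W} {g : B}
    (hx : ¬ cs.IsRightDescent x g) (hy : ¬ cs.IsLeftDescent y g)
    (h1 : Le cs (N - 1) (x * cs.simple g)) (h2 : Le cs N (cs.simple g * y)) :
    Lat cs C N ((N : ℤ) - 2) (T cs x * T cs (cs.simple g) * T cs y) :=
  (bounds hM hC hI hN _).2.2.2 x y g le_rfl hx hy h1 h2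

end Pool.Agent.PolyCell
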