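import Pool.Agent.PolyCell.CoE

/-!
# Closure of `V(x,T)` under right multiplication, and the ideal step

Proofs. `vset_closed`: `w = x w_T y`, `C_w = E C_{w_T} F` modulo `Zero` (`k2`), so `C_w g = E C_{w_T} (F g)` modulo `Zero` (ideal) and `co_E_mul`. `ideal_of_right`: `h C_w = fl (C_{w⁻¹} fl(h))`, `co_fl`, `le_inv`, `fac_inv`. `ideal_step`: by `ideal_of_right` it suffices: `Fac (N-1) w`, `Le (N-1) z` imply `co (C_w g) z = 0`.
`Le N z` by `le_mono`. If `Fac N w`: `hI`. If `Le N w`: `exists_first`: `w ∈ V(x,T)` (`mem_vset_of_fac`), `vset_closed`: if the coordinate is nonzero, `z ∈ V(x,T)`, `Fac (N-1) z` by `vset_data`, contradiction. `ideal_top`: no factor of exponent `> N`. `ideal_all`: descending induction from `N0`.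
-/

open CoxeterSystem

namespace Pool.Agent.PolyCell

variable {B W : Type*} [Group W] {M : CoxeterMatrix B} {cs : CoxeterSystem M W}
  {C : W → Hk cs} {N : ℕ}

/-- `w ∈ V(x,T)` first: the `W_{≤N}`-coordinates of `C_w h` are supported in `V(x,T)`. -/
theorem vset_closed (hC : IsKL cs C) (hI : IdealN cs C N) (hK : KAx cs C N) (hN : 2 ≤ N) {i j : B}
    {x w z : W} (hx : First cs N i j x) (hw : w ∈ VSet cs N i j x) (g : Hk cs) (hz : Le cs N z)
    (h : co cs C (C w * g) z ≠ 0) : z ∈ VSet cs N i j x := by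
  obtain ⟨y, hy, hle, rfl⟩ := hw
  have hm : M i j ≠ 0 := by
    rw [hx.exp]
    omega
  obtain ⟨E, hE, hE1, hE2⟩ := exists_E cs hC hx.ne hm hx.rmin
  obtain ⟨F, hF, hF1, hF2⟩ := exists_F cs hC hx.ne hm hy
  have hk := k2 hC hK hN hx hy hle hE hE1 hE2 hF hF1 hF2
  have h2 := zero_mul_right hC hI hk g z hz
  by_contra hne
  have h1 := (co_E_mul hC hI hK hN hx hE hE1 hE2 (F * g) hz).1 hne
  rw [sub_mul, map_sub, Finsupp.sub_apply, mul_assoc (E * C (wT cs i j)) F g, h1,
    sub_zero] at h2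
  exact h h2

/-- one half of the ideal property gives the other one by the anti-involution `fl`. -/
theorem ideal_of_right (hC : IsKL cs C)
    (h : ∀ w, Fac cs N w → ∀ g : Hk cs, Zero cs C N (C w * g)) : IdealN cs C N := by
  intro w hw k
  refine ⟨h w hw k, fun z hz => ?_⟩
  have h1 : k * C w = fl cs (C w⁻¹ * fl cs k) := by
    rw [fl_mul, fl_fl, kl_fl cs hC, inv_inv]
  rw [h1, co_fl cs hC]
  exact h w⁻¹ ((fac_inv cs).2 hw) (fl cs k) z⁻¹ ((le_inv cs).2 hz)

theorem ideal_step (hC : IsKL cs C) (hI : IdealN cs C N) (hG : Geo cs N) (hK : KAx cs C N)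
    (hN : 2 ≤ N) :
    IdealN cs C (N - 1) := by
  refine ideal_of_right hC fun w hw g z hz => ?_
  have hzN : Le cs N z := le_mono cs (by omega) hz
  by_cases hf : Fac cs N w
  · exact (hI w hf g).1 z hzN
  · obtain ⟨i, j, x, y, hx, _, hw2, hl⟩ := exists_first cs hN hf hw
    obtain ⟨_, _, _, _, h5⟩ := mem_vset_of_fac cs hx.ne hx.exp (by omega) hw2 hl hf
    by_contra hne
    obtain ⟨y', hy', hle', rfl⟩ := vset_closed hC hI hK hN hx h5 g hzN hne
    exact hz (vset_data cs hG hN hx.ne hx.exp hx.rmin hx.le hy' hle').2.2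

theorem ideal_top (hN : ∀ i j : B, M i j ≤ N) : IdealN cs C N := by
  intro w hw
  obtain ⟨i, j, _, hlt, _⟩ := hw
  exact absurd (hN i j) (not_le.2 hlt)

theorem ideal_step' (hN : ∀ i j : B, i ≠ j → M i j ≠ N) (h1 : 1 ≤ N) (hI : IdealN cs C N) :
    IdealN cs C (N - 1) := by
  have key : ∀ w : W, Fac cs (N - 1) w ↔ Fac cs N w := by
    intro w
    refine ⟨?_, fac_mono cs (by omega)⟩
    rintro ⟨i, j, hij, hlt, h⟩
    have := hN i j hij
    exact ⟨i, j, hij, by omega, h⟩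
  intro w hw h
  have h2 := hI w ((key w).1 hw) h
  have h3 : ∀ z : W, Le cs (N - 1) z → Le cs N z := fun z hz hf => hz ((key z).2 hf)
  exact ⟨fun z hz => h2.1 z (h3 z hz), fun z hz => h2.2 z (h3 z hz)⟩

theorem ideal_all (hC : IsKL cs C) {N0 : ℕ} (hN0 : ∀ i j : B, M i j ≤ N0)
    (hG : ∀ N, 2 ≤ N → (∃ i j : B, i ≠ j ∧ M i j = N) → Geo cs N)
    (hK : ∀ N, 2 ≤ N → (∃ i j : B, i ≠ j ∧ M i j = N) → IdealN cs C N → KAx cs C N) {N : ℕ}
    (hN : 1 ≤ N) : IdealN cs C N := by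
  obtain ⟨d, hd⟩ : ∃ d, N0 - N = d := ⟨_, rfl⟩
  induction d generalizing N with
  | zero =>
    exact ideal_top fun i j => (hN0 i j).trans (by omega)
  | succ d ih =>
    have h1 : IdealN cs C (N + 1) := ih (N := N + 1) (by omega) (by omega)
    by_cases he : ∃ i j : B, i ≠ j ∧ M i j = N + 1
    · have h2 := ideal_step hC h1 (hG (N + 1) (by omega) he) (hK (N + 1) (by omega) he h1)
        (by omega)
      simpa using h2
    · have h2 := ideal_step' (N := N + 1) (fun i j hij hm => he ⟨i, j, hij, hm⟩) (by omega) h1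
      simpa using h2

end Pool.Agent.PolyCell
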