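import Pool.Agent.PolyCell.Geo

/-!
# The sets `V(x,T)`

`vset_data`: the axioms `Geo`, and `Fac (N-1)` by definition.
-/

open CoxeterSystem

namespace Pool.Agent.PolyCell

variable {B W : Type*} [Group W] {M : CoxeterMatrix B} (cs : CoxeterSystem M W)

/-- `V(x,T) = {x . w_T . y : y left minimal, w_T y ∈ W_{≤ N}}` -/
def VSet (N : ℕ) (i j : B) (x : W) : Set W :=
  {w | ∃ y, Lmin cs i j y ∧ Le cs N (wT cs i j * y) ∧ w = x * wT cs i j * y}

/-- basic data for an element of `V` -/
theorem vset_data {N : ℕ} (hG : Geo cs N) (hN : 2 ≤ N) {i j : B} {x y : W} (hij : i ≠ j)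
    (hm : M i j = N) (hx : Rmin cs i j x) (hle : Le cs N (x * wT cs i j)) (hy : Lmin cs i j y)
    (hy2 : Le cs N (wT cs i j * y)) :
    cs.length (x * wT cs i j * y) = cs.length x + N + cs.length y ∧ Le cs N (x * wT cs i j * y) ∧
      Fac cs (N - 1) (x * wT cs i j * y) := by
  obtain ⟨hl, hle'⟩ := hG.vset hij hm hx hle hy hy2
  exact ⟨hl, hle', i, j, hij, by omega, x, y, rfl, by rw [hl, hm]⟩

/-- every factorisation `w = x w_T y` (reduced) of `w ∈ W_{≤ N}` gives `w ∈ V(x,T)` and the hypotheses on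
`x`, `y`. -/
theorem mem_vset_of_fac {N : ℕ} {i j : B} {x y w : W} (hij : i ≠ j) (hm : M i j = N) (h0 : N ≠ 0)
    (hw : w = x * wT cs i j * y) (hl : cs.length w = cs.length x + N + cs.length y)
    (hle : Le cs N w) :
    Rmin cs i j x ∧ Lmin cs i j y ∧ Le cs N (x * wT cs i j) ∧ Le cs N (wT cs i j * y) ∧
      w ∈ VSet cs N i j x := by
  have hm0 : M i j ≠ 0 := by omega
  have hlT : cs.length (wT cs i j) = N := by rw [length_wT cs hij, hm]
  have h1 : cs.length (x * wT cs i j * y) ≤ cs.length (x * wT cs i j) + cs.length y :=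
    cs.length_mul_le _ _
  have h2 : cs.length (x * wT cs i j) ≤ cs.length x + cs.length (wT cs i j) :=
    cs.length_mul_le _ _
  have h3 : cs.length (x * (wT cs i j * y)) ≤ cs.length x + cs.length (wT cs i j * y) :=
    cs.length_mul_le _ _
  have h4 : cs.length (wT cs i j * y) ≤ cs.length (wT cs i j) + cs.length y :=
    cs.length_mul_le _ _
  have hw2 : w = x * (wT cs i j * y) := by rw [hw, mul_assoc]
  have e1 : cs.length (x * wT cs i j) = cs.length x + N := by rw [hw] at hl; omega
  have e2 : cs.length (wT cs i j * y) = N + cs.length y := by rw [hw2] at hl; omega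
  have r1 : Red cs (x * wT cs i j) y := by
    unfold Red; rw [← hw, hl, e1]
  have r2 : Red cs x (wT cs i j * y) := by
    unfold Red; rw [← hw2, hl, e2, add_assoc]
  have key1 : ∀ k, k = i ∨ k = j → ¬ cs.IsRightDescent x k := by
    intro k hk hd
    have hld := ld_wT cs hij hm0 hk
    have hd' := cs.isRightDescent_iff.1 hd
    have hld' := cs.isLeftDescent_iff.1 hld
    have hx' : x * wT cs i j = (x * cs.simple k) * (cs.simple k * wT cs i j) := by
      rw [mul_assoc, cs.simple_mul_simple_cancel_left]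
    have := cs.length_mul_le (x * cs.simple k) (cs.simple k * wT cs i j)
    rw [← hx', e1] at this
    omega
  have key2 : ∀ k, k = i ∨ k = j → ¬ cs.IsLeftDescent y k := by
    intro k hk hd
    have hrd := rd_wT cs hij hm0 hk
    have hd' := cs.isLeftDescent_iff.1 hd
    have hrd' := cs.isRightDescent_iff.1 hrd
    have hx' : wT cs i j * y = (wT cs i j * cs.simple k) * (cs.simple k * y) := by
      rw [mul_assoc, cs.simple_mul_simple_cancel_left]
    have := cs.length_mul_le (wT cs i j * cs.simple k) (cs.simple k * y)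
    rw [← hx', e2] at this
    omega
  have hL : Lmin cs i j y := ⟨key2 i (Or.inl rfl), key2 j (Or.inr rfl)⟩
  have hle2 : Le cs N (wT cs i j * y) := le_suffix cs r2 (by rw [← hw2]; exact hle)
  exact ⟨⟨key1 i (Or.inl rfl), key1 j (Or.inr rfl)⟩, hL,
    le_prefix cs r1 (by rw [← hw]; exact hle), hle2, y, hL, hle2, hw⟩

theorem vset_symm (N : ℕ) (i j : B) (x : W) : VSet cs N i j x = VSet cs N j i x := by
  ext w
  constructor
  · rintro ⟨y, hy, h1, h2⟩
    exact ⟨y, ⟨hy.2, hy.1⟩, by rw [← wT_symm cs i j]; exact h1, by rw [← wT_symm cs i j]; exact h2⟩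
  · rintro ⟨y, hy, h1, h2⟩
    exact ⟨y, ⟨hy.2, hy.1⟩, by rw [wT_symm cs i j]; exact h1, by rw [wT_symm cs i j]; exact h2⟩

end Pool.Agent.PolyCell
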