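import Pool.Agent.PolyCell.K2
import Pool.Agent.PolyCell.VSet

/-!
# Coordinates of `E C_{w_T} g`

Proof. `C_{w_T} g = ∑_z a_z C_z` with `i, j ∈ L(z)` (`co_wT_mul`), so `z = w_T y`, `y` lmin (`both_ld`). If `Fac N z`, then `E C_z` is `Zero` (ideal). If `Le N z`: `C_z = C_{w_T} F_y` (`exists_F`) and `E C_z = (E C_{w_T}) F_y` is `C_{x w_T y}` modulo `Zero` (`k2`).
So `E C_{w_T} g = ∑_{y : Le N (w_T y)} a_{w_T y} C_{x w_T y}` modulo `Zero`. For `w = x w_T y` with `y` lmin and `Le N w`: `Le N (w_T y)` (suffix; `fstat` for the length; `First.le`).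
-/

open CoxeterSystem

namespace Pool.Agent.PolyCell

variable {B W : Type*} [Group W] {M : CoxeterMatrix B} {cs : CoxeterSystem M W}
  {C : W → Hk cs} {N : ℕ}

/-- the coordinates of `E C_z` on `W_{≤N}` for the `z` which occur in `C_{w_T} g` -/
private theorem CoE_one (hC : IsKL cs C) (hI : IdealN cs C N) (hK : KAx cs C N) (hN : 2 ≤ N) {i j : B}
    {x : W} (hx : First cs N i j x) {E : Hk cs} (hE : C (x * wT cs i j) = E * C (wT cs i j))
    (hE1 : E x = 1)
    (hE2 : ∀ z, z ≠ x → E z ≠ 0 → Rmin cs i j z ∧ cs.length z < cs.length x ∧ dle (-1) (E z))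
    {w z : W} (hw : Le cs N w) (h1 : cs.IsLeftDescent z i) (h2 : cs.IsLeftDescent z j) :
    (¬ Le cs N z → co cs C (E * C z) w = 0) ∧
      (Le cs N z → co cs C (E * C z) w = Finsupp.single (x * z) (1 : LP) w) := by
  refine ⟨fun h => ?_, fun h => ?_⟩
  · have h3 : Fac cs N z := not_not.1 h
    exact (hI z h3 E).2 w hw
  · obtain ⟨hm, y, hy, rfl, -⟩ := both_ld cs hx.ne h1 h2
    obtain ⟨F, hF, hF1, hF2⟩ := exists_F cs hC hx.ne hm hy
    have h4 := k2 hC hK hN hx hy h hE hE1 hE2 hF hF1 hF2 w hw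
    rw [map_sub, Finsupp.sub_apply, sub_eq_zero, co_C cs hC] at h4
    rw [hF, ← mul_assoc, ← h4, mul_assoc]

/-- For a first pair and `E` with `C_{x w_T} = E C_{w_T}`: for all `g`, the coordinates of
`E C_{w_T} g` on `W_{≤N}` are those of `C_{w_T} g`, moved by `w_T y ↦ x w_T y`. -/
theorem co_E_mul (hC : IsKL cs C) (hI : IdealN cs C N) (hK : KAx cs C N) (hN : 2 ≤ N) {i j : B}
    {x : W} (hx : First cs N i j x) {E : Hk cs} (hE : C (x * wT cs i j) = E * C (wT cs i j))
    (hE1 : E x = 1)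
    (hE2 : ∀ z, z ≠ x → E z ≠ 0 → Rmin cs i j z ∧ cs.length z < cs.length x ∧ dle (-1) (E z))
    (g : Hk cs) {w : W} (hw : Le cs N w) :
    (w ∉ VSet cs N i j x → co cs C (E * C (wT cs i j) * g) w = 0) ∧
      ∀ y, Lmin cs i j y → Le cs N (wT cs i j * y) → w = x * wT cs i j * y →
        co cs C (E * C (wT cs i j) * g) w = co cs C (C (wT cs i j) * g) (wT cs i j * y) := by
  classical
  have hsum : co cs C (E * C (wT cs i j) * g) w =
      ∑ z ∈ (co cs C (C (wT cs i j) * g)).support,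
        co cs C (C (wT cs i j) * g) z * co cs C (E * C z) w := by
    have h1 : E * C (wT cs i j) * g = ∑ z ∈ (co cs C (C (wT cs i j) * g)).support,
        co cs C (C (wT cs i j) * g) z • (E * C z) := by
      rw [mul_assoc]
      conv_lhs => rw [← co_spec cs hC (C (wT cs i j) * g)]
      rw [Finsupp.linearCombination_apply, Finsupp.sum, Finset.mul_sum]
      exact Finset.sum_congr rfl fun z _ => mul_smul_comm _ _ _
    conv_lhs => rw [h1]
    rw [map_sum, Finsupp.finsetSum_apply]
    refine Finset.sum_congr rfl fun z _ => ?_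
    rw [map_smul, Finsupp.smul_apply, smul_eq_mul]
  have hld : ∀ z ∈ (co cs C (C (wT cs i j) * g)).support,
      cs.IsLeftDescent z i ∧ cs.IsLeftDescent z j := by
    intro z hz
    have hm : M i j ≠ 0 := by
      rw [hx.exp]
      omega
    exact co_wT_mul cs hC hx.ne hm g (Finsupp.mem_support_iff.1 hz)
  refine ⟨fun hV => ?_, fun y hy hle hwy => ?_⟩
  · rw [hsum]
    refine Finset.sum_eq_zero fun z hz => ?_
    obtain ⟨l1, l2⟩ := hld z hz
    obtain ⟨c1, c2⟩ := CoE_one hC hI hK hN hx hE hE1 hE2 hw l1 l2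
    by_cases hz2 : Le cs N z
    · rw [c2 hz2, Finsupp.single_apply]
      split_ifs with h3
      · exfalso
        obtain ⟨hm, y, hy, rfl, -⟩ := both_ld cs hx.ne l1 l2
        exact hV ⟨y, hy, hz2, by rw [← h3, mul_assoc]⟩
      · rw [mul_zero]
    · rw [c1 hz2, mul_zero]
  · have hm : M i j ≠ 0 := by
      rw [hx.exp]
      omega
    have hxw : x * (wT cs i j * y) = w := by rw [hwy, mul_assoc]
    rw [hsum]
    by_cases h0 : co cs C (C (wT cs i j) * g) (wT cs i j * y) = 0
    · rw [h0]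
      refine Finset.sum_eq_zero fun z hz => ?_
      obtain ⟨l1, l2⟩ := hld z hz
      obtain ⟨c1, c2⟩ := CoE_one hC hI hK hN hx hE hE1 hE2 hw l1 l2
      by_cases hz2 : Le cs N z
      · rw [c2 hz2, Finsupp.single_apply]
        split_ifs with h3
        · have h4 : z = wT cs i j * y := mul_left_cancel (h3.trans hxw.symm)
          rw [h4, h0, zero_mul]
        · rw [mul_zero]
      · rw [c1 hz2, mul_zero]
    · rw [Finset.sum_eq_single (wT cs i j * y)]
      · obtain ⟨l1, l2⟩ := hld _ (Finsupp.mem_support_iff.2 h0)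
        obtain ⟨c1, c2⟩ := CoE_one hC hI hK hN hx hE hE1 hE2 hw l1 l2
        rw [c2 hle, hxw, Finsupp.single_eq_same, mul_one]
      · intro z hz hne
        obtain ⟨l1, l2⟩ := hld z hz
        obtain ⟨c1, c2⟩ := CoE_one hC hI hK hN hx hE hE1 hE2 hw l1 l2
        by_cases hz2 : Le cs N z
        · rw [c2 hz2, Finsupp.single_apply]
          split_ifs with h3
          · exact absurd (mul_left_cancel (h3.trans hxw.symm)) hne
          · rw [mul_zero]
        · rw [c1 hz2, mul_zero]
      · intro h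
        exact absurd (Finsupp.mem_support_iff.2 h0) h

end Pool.Agent.PolyCell
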