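import Pool.Agent.PolyCell.Refl

/-!
# Exchange lemmas
-/

open CoxeterSystem

namespace Pool.Agent.PolyCell

variable {B W : Type*} [Group W] {M : CoxeterMatrix B} (cs : CoxeterSystem M W)

/-- Exchange condition (from `strong_exchange`). -/
theorem exchange (ω : List B) (hω : cs.IsReduced ω) (i : B)
    (h : cs.IsRightDescent (cs.wordProd ω) i) :
    ∃ k < ω.length, cs.wordProd ω * cs.simple i = cs.wordProd (ω.eraseIdx k) := by
  have hmem := strong_exchange cs ω (cs.isReflection_simple i) h
  obtain ⟨k, hk, hkeq⟩ := List.mem_iff_getElem.mp hmem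
  have hk' : k < ω.length := by simpa using hk
  refine ⟨k, hk', ?_⟩
  have h2 := cs.wordProd_mul_getD_rightInvSeq ω k
  rw [List.getD_eq_getElem _ _ hk, hkeq] at h2
  exact h2

/-- If `x . y` is reduced, `k ∈ R(xy)`, `k ∉ R(y)`, then `x y s_k = x' y` with `ℓ(x') = ℓ(x) - 1`. -/
theorem exch {x y : W} {k : B} (h : Red cs x y) (h1 : cs.IsRightDescent (x * y) k)
    (h2 : ¬ cs.IsRightDescent y k) :
    ∃ x', x * y * cs.simple k = x' * y ∧ cs.length x' + 1 = cs.length x := by
  obtain ⟨a, ha, hxa⟩ := cs.exists_isReduced x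
  obtain ⟨b, hb, hyb⟩ := cs.exists_isReduced y
  have hla : cs.length x = a.length := by rw [hxa]; exact ha
  have hlb : cs.length y = b.length := by rw [hyb]; exact hb
  have hprod : cs.wordProd (a ++ b) = x * y := by rw [cs.wordProd_append, ← hxa, ← hyb]
  have hred : cs.IsReduced (a ++ b) := by
    unfold CoxeterSystem.IsReduced
    rw [hprod, h, List.length_append, hla, hlb]
  obtain ⟨n, hn, hne⟩ := exchange cs (a ++ b) hred k (by rw [hprod]; exact h1)
  rw [hprod] at hne
  rcases lt_or_ge n a.length with hna | hna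
  · rw [List.eraseIdx_append_of_lt_length hna, cs.wordProd_append, ← hyb] at hne
    refine ⟨cs.wordProd (a.eraseIdx n), hne, ?_⟩
    have hle : cs.length (cs.wordProd (a.eraseIdx n)) ≤ a.length - 1 := by
      refine (cs.length_wordProd_le _).trans ?_
      rw [List.length_eraseIdx_of_lt hna]
    have hr := cs.isRightDescent_iff.mp h1
    have hge := cs.length_mul_le (cs.wordProd (a.eraseIdx n)) y
    rw [← hne] at hge
    have hh : cs.length (x * y) = cs.length x + cs.length y := h
    omega
  · exfalso
    rw [List.eraseIdx_append_of_length_le hna, cs.wordProd_append, ← hxa, mul_assoc] at hne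
    have hne' := mul_left_cancel hne
    apply h2
    unfold CoxeterSystem.IsRightDescent
    rw [hne']
    refine lt_of_le_of_lt (cs.length_wordProd_le _) ?_
    have hnb : n - a.length < b.length := by
      rw [List.length_append] at hn
      omega
    rw [List.length_eraseIdx_of_lt hnb, hlb]
    omega

/-- If `s_i w > w`, `w s_j > w` and `j` is a right descent of `s_i w`, then `s_i w = w s_j`. -/
theorem lift_eq {w : W} {i j : B} (h1 : ¬ cs.IsLeftDescent w i) (h2 : ¬ cs.IsRightDescent w j)
    (h3 : cs.IsRightDescent (cs.simple i * w) j) : cs.simple i * w = w * cs.simple j := by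
  have hred : Red cs (cs.simple i) w := by
    unfold Red
    rw [cs.not_isLeftDescent_iff.mp h1, cs.length_simple, add_comm]
  obtain ⟨x', hx', hl⟩ := exch cs hred h3 h2
  rw [cs.length_simple] at hl
  have hx1 : x' = 1 := cs.length_eq_zero_iff.mp (by omega)
  rw [hx1, one_mul] at hx'
  rw [← mul_inv_eq_iff_eq_mul, cs.inv_simple]
  exact hx'

end Pool.Agent.PolyCell
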