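import Pool.Agent.PolyCell.Dih2

/-!
# Deodhar's lemma and the wall step
-/

open CoxeterSystem

namespace Pool.Agent.PolyCell

variable {B W : Type*} [Group W] {M : CoxeterMatrix B} (cs : CoxeterSystem M W)

/-- if `s_t y > y`, `y s_k > y` and `t` is a left descent of `y s_k`, then `y s_k = s_t y` -/
private theorem Dih3_lift {t k : B} {y : W} (ht : ¬ cs.IsLeftDescent y t)
    (hk : ¬ cs.IsRightDescent y k) (h : cs.IsLeftDescent (y * cs.simple k) t) :
    y * cs.simple k = cs.simple t * y := by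
  refine (lift_eq cs ht hk ?_).symm
  rw [CoxeterSystem.isRightDescent_iff]
  rw [CoxeterSystem.isLeftDescent_iff] at h
  rw [CoxeterSystem.not_isLeftDescent_iff] at ht
  rw [CoxeterSystem.not_isRightDescent_iff] at hk
  rw [mul_assoc]
  omega

/-- A4. `y` has no left descent in `{i,j}`, `u ∈ D`, `k ∈ R(u y)`, `k ∉ R(y)`: then `y s_k = s_t y` with
`t ∈ {i,j}`, `t ∈ R(u)`. -/
theorem deodhar {i j k : B} (hij : i ≠ j) {u y : W} (hy : Lmin cs i j y) (hu : u ∈ D cs i j)
    (h : cs.IsRightDescent (u * y) k) (h' : ¬ cs.IsRightDescent y k) :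
    ∃ t, (t = i ∨ t = j) ∧ y * cs.simple k = cs.simple t * y ∧ cs.IsRightDescent u t := by
  have key : ∃ t, (t = i ∨ t = j) ∧ y * cs.simple k = cs.simple t * y := by
    by_contra hcon
    push Not at hcon
    have hmin : Lmin cs i j (y * cs.simple k) := by
      refine ⟨fun hi => ?_, fun hj => ?_⟩
      · exact hcon i (Or.inl rfl) (Dih3_lift cs hy.1 h' hi)
      · exact hcon j (Or.inr rfl) (Dih3_lift cs hy.2 h' hj)
    have e1 := len_D_mul cs hij hmin hu
    have e2 := len_D_mul cs hij hy hu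
    rw [CoxeterSystem.not_isRightDescent_iff] at h'
    rw [CoxeterSystem.isRightDescent_iff, mul_assoc] at h
    omega
  obtain ⟨t, ht, hty⟩ := key
  refine ⟨t, ht, hty, ?_⟩
  have htD : cs.simple t ∈ D cs i j := by
    rcases ht with rfl | rfl
    · exact Subgroup.subset_closure (by simp)
    · exact Subgroup.subset_closure (by simp)
  have e1 := len_D_mul cs hij hy (mul_mem hu htD)
  have e2 := len_D_mul cs hij hy hu
  rw [CoxeterSystem.isRightDescent_iff, mul_assoc, hty, ← mul_assoc] at h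
  rw [CoxeterSystem.isRightDescent_iff]
  omega

/-- A5. Wall step: `y s_k = s_t y`, `k ∉ R(y)`, `e ∈ L(y)`, `e ≠ t`. -/
theorem wall_step {t k e : B} {y : W} (h : y * cs.simple k = cs.simple t * y)
    (hk : ¬ cs.IsRightDescent y k) (he : cs.IsLeftDescent y e) (hte : t ≠ e) :
    M t e ≠ 0 ∧ ∃ ν y2, y = ν * y2 ∧ ν ∈ D cs t e ∧ Lmin cs t e y2 ∧
      cs.length y = cs.length ν + cs.length y2 ∧
      cs.simple t * ν = wT cs t e ∧ cs.length ν + 1 = M t e ∧ cs.IsLeftDescent ν e ∧
      ¬ cs.IsRightDescent y2 k ∧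
      (M t e = 2 → ν = cs.simple e ∧ y2 * cs.simple k = cs.simple t * y2) := by
  obtain ⟨ν, y2, hy2, hν, rfl⟩ := decompL cs hte y
  have hlen := len_D_mul cs hte hy2 hν
  have htD : cs.simple t ∈ D cs t e := Subgroup.subset_closure (by simp)
  have hk' := hk
  rw [CoxeterSystem.not_isRightDescent_iff] at hk'
  have hlt : cs.IsLeftDescent (cs.simple t * (ν * y2)) t := by
    rw [CoxeterSystem.isLeftDescent_iff, ← mul_assoc, CoxeterSystem.simple_mul_simple_self, one_mul,
      ← h, hk']
  have hle : cs.IsLeftDescent (cs.simple t * (ν * y2)) e := by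
    rw [← h]
    have he' := he
    rw [CoxeterSystem.isLeftDescent_iff] at he'
    have := cs.length_mul_le (cs.simple e * (ν * y2)) (cs.simple k)
    rw [CoxeterSystem.length_simple] at this
    unfold CoxeterSystem.IsLeftDescent
    rw [← mul_assoc (cs.simple e) (ν * y2) (cs.simple k)]
    omega
  obtain ⟨hM, z, hz, hwz, hlz⟩ := both_ld cs hte hlt hle
  have huniq := decompL_unique cs hte hy2 hz (mul_mem htD hν) (wT_mem cs t e)
    (by rw [mul_assoc]; exact hwz)
  obtain ⟨hyz, hνw⟩ := huniq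
  have hνlen : cs.length ν + 1 = M t e := by
    rw [← h, hk', ← hyz] at hlz
    omega
  have heν : cs.IsLeftDescent ν e := (ld_D_mul cs hte (Or.inr rfl) hy2 hν).1 he
  have hky2 : ¬ cs.IsRightDescent y2 k := by
    intro hc
    rw [CoxeterSystem.isRightDescent_iff] at hc
    have := cs.length_mul_le ν (y2 * cs.simple k)
    rw [← mul_assoc] at this
    omega
  refine ⟨hM, ν, y2, rfl, hν, hy2, hlen, hνw, hνlen, heν, hky2, fun h2 => ?_⟩
  have hνe : ν = cs.simple e := by
    rw [CoxeterSystem.isLeftDescent_iff] at heν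
    have h0 : cs.length (cs.simple e * ν) = 0 := by omega
    rw [CoxeterSystem.length_eq_zero_iff] at h0
    have h1 := congrArg (fun x => cs.simple e * x) h0
    simpa using h1
  refine ⟨hνe, ?_⟩
  have hcomm := comm_of_two cs h2
  subst hνe
  have h1 : cs.simple e * (cs.simple e * y2 * cs.simple k) =
      cs.simple e * (cs.simple t * (cs.simple e * y2)) := by rw [h]
  rw [mul_assoc, ← mul_assoc, CoxeterSystem.simple_mul_simple_self, one_mul] at h1
  rw [h1, ← mul_assoc (cs.simple t), hcomm, mul_assoc, ← mul_assoc,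
    CoxeterSystem.simple_mul_simple_self, one_mul]

end Pool.Agent.PolyCell
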