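import Pool.Agent.PolyCell.TMul
import Pool.Agent.PolyCell.PolyDeg
import Pool.Agent.PolyCell.Dih3

/-!
# Products in dihedral Hecke algebras, exponents `≤ N`

Hints. `wT_mul_gd`: if `h = ∑ f_c T_c`, then `(h T_s)(c) = f_{cs} + [s ∈ R(c)] ξ f_c`. Induction on `ℓ(b)`: `f_c` in `Gd (n - m + ℓ(c))`; `gd_xi_mul`, `gd_mono`, `gd_add` (`ℓ(cs) ≤ ℓ(c) + 1`). Coefficient of `v^{n+1}` at `c = w_T`: `f_{w_T s}` has degree `≤ n - 1`, `ξ f_{w_T}`
contributes the coefficient of `v^n` of `f_{w_T}`. (Only elements of `D` occur; outside of `D` the coefficients are `0`.) `len_junction`, `junction_split`: elements of `D` are alternating words; `a ≠ w_T` ends with `t`, `b` starts with the other letter.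
`dh1`: `T_a T_b = T_{w_T} T_{b''}`, `ℓ(b'') = ℓ(a) + ℓ(b) - m`.
-/

open CoxeterSystem

namespace Pool.Agent.PolyCell

variable {B W : Type*} [Group W] {M : CoxeterMatrix B} (cs : CoxeterSystem M W)

open Classical in
private theorem DH1_rS_T (w : W) (i : B) : rS cs i (T cs w) =
    T cs (w * cs.simple i) + (if cs.IsRightDescent w i then xi • T cs w else 0) := by
  by_cases h : cs.IsRightDescent w i
  · rw [← mul_T_simple, T_mul_s' cs h, if_pos h]
  · rw [← mul_T_simple, T_mul_s cs h, if_neg h, add_zero]

open Classical in
private theorem DH1_apply (h : Hk cs) (i : B) (w : W) : (h * T cs (cs.simple i)) w =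
    h (w * cs.simple i) + (if cs.IsRightDescent w i then xi * h w else 0) := by
  rw [mul_T_simple]
  induction h using hk_induction cs with
  | h0 =>
    rw [map_zero]
    show (0 : LP) = 0 + _
    split_ifs
    · show (0 : LP) = 0 + xi * 0
      ring
    · ring
  | hT z =>
    rw [DH1_rS_T, add_apply', T_apply, T_apply]
    by_cases hz : cs.IsRightDescent z i
    · rw [if_pos hz, smul_apply', T_apply]
      by_cases hw : w = z
      · subst hw
        rw [if_pos hz]
        have h1 : w ≠ w * cs.simple i := by
          intro e
          have := cs.length_mul_simple_ne w i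
          exact this (congrArg cs.length e.symm)
        simp [h1, h1.symm]
      · rw [if_neg hw]
        by_cases hw2 : w = z * cs.simple i
        · subst hw2
          rw [cs.simple_mul_simple_cancel_right]
          simp
        · have : w * cs.simple i ≠ z := by
            rintro rfl
            exact hw2 (cs.simple_mul_simple_cancel_right i).symm
          rw [if_neg hw2, if_neg this]
          simp
    · rw [if_neg hz]
      show _ + (0 : LP) = _
      by_cases hw : w = z
      · subst hw
        rw [if_neg hz]
        have h1 : w ≠ w * cs.simple i := by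
          intro e
          have := cs.length_mul_simple_ne w i
          exact this (congrArg cs.length e.symm)
        simp [h1, h1.symm]
      · by_cases hw2 : w = z * cs.simple i
        · subst hw2
          rw [cs.simple_mul_simple_cancel_right]
          simp [T_apply, hw]
        · have : w * cs.simple i ≠ z := by
            rintro rfl
            exact hw2 (cs.simple_mul_simple_cancel_right i).symm
          simp [T_apply, hw, hw2, this]
  | ha g h hg hh =>
    rw [map_add, add_apply', hg, hh, add_apply', add_apply']
    split_ifs <;> ring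
  | hs r h hh =>
    rw [map_smul, smul_apply', hh, smul_apply', smul_apply']
    split_ifs <;> ring

private theorem DH1_last {i j : B} (hij : i ≠ j) {y : W} (hyD : y ∈ D cs i j) (hy : y ≠ 1) :
    ∃ (y' : W) (s : B), (s = i ∨ s = j) ∧ y' ∈ D cs i j ∧ y = y' * cs.simple s ∧
    ¬ cs.IsRightDescent y' s ∧ cs.length y = cs.length y' + 1 := by
  obtain ⟨s, hs⟩ := cs.exists_rightDescent_of_ne_one hy
  have h1 := (cs.isRightDescent_iff).1 hs
  have h2 := rd_of_mem_D cs hij hyD hs
  have hsD : cs.simple s ∈ D cs i j := by
    refine Subgroup.subset_closure ?_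
    rcases h2 with rfl | rfl
    · exact Or.inl rfl
    · exact Or.inr rfl
  refine ⟨y * cs.simple s, s, h2, Subgroup.mul_mem _ hyD hsD,
    (cs.simple_mul_simple_cancel_right s).symm, ?_, h1.symm⟩
  exact (cs.isRightDescent_iff_not_isRightDescent_mul).1 hs

private theorem DH1_first {i j : B} (hij : i ≠ j) {y : W} (hyD : y ∈ D cs i j) (hy : y ≠ 1) :
    ∃ (s : B), (s = i ∨ s = j) ∧ cs.simple s ∈ D cs i j ∧ cs.simple s * y ∈ D cs i j ∧
    cs.IsLeftDescent y s ∧
    ¬ cs.IsLeftDescent (cs.simple s * y) s ∧ cs.length (cs.simple s * y) + 1 = cs.length y := by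
  obtain ⟨s, hs⟩ := cs.exists_leftDescent_of_ne_one hy
  have h1 := (cs.isLeftDescent_iff).1 hs
  have h2 := ld_of_mem_D cs hij hyD hs
  have hsD : cs.simple s ∈ D cs i j := by
    refine Subgroup.subset_closure ?_
    rcases h2 with rfl | rfl
    · exact Or.inl rfl
    · exact Or.inr rfl
  refine ⟨s, h2, hsD, Subgroup.mul_mem _ hsD hyD, hs, ?_, h1⟩
  exact (cs.isLeftDescent_iff_not_isLeftDescent_mul).1 hs

/-- elements of `D` multiply inside `D` -/
theorem mul_supp_D {i j : B} {a b c : W} (ha : a ∈ D cs i j) (hb : b ∈ D cs i j)
    (h : (T cs a * T cs b) c ≠ 0) : c ∈ D cs i j := by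
  classical
  -- write `b` as a product of generators `s_i`, `s_j`
  have key : ∀ (g : Hk cs), (∀ c, g c ≠ 0 → c ∈ D cs i j) → ∀ s, (s = i ∨ s = j) →
      ∀ c, (g * T cs (cs.simple s)) c ≠ 0 → c ∈ D cs i j := by
    intro g hg s hs c hc
    have hsD : cs.simple s ∈ D cs i j := by
      refine Subgroup.subset_closure ?_
      rcases hs with rfl | rfl
      · exact Or.inl rfl
      · exact Or.inr rfl
    rw [DH1_apply] at hc
    by_cases h1 : g (c * cs.simple s) = 0
    · by_cases h2 : g c = 0
      · exfalso
        apply hc
        rw [h1, h2]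
        split_ifs <;> ring
      · exact hg c h2
    · have := hg _ h1
      have h3 := Subgroup.mul_mem _ this hsD
      rwa [cs.simple_mul_simple_cancel_right] at h3
  by_cases hij : i = j
  · -- degenerate case `i = j`: `D = {1, s_i}`
    subst hij
    have hD : ∀ z, z ∈ D cs i i → z = 1 ∨ z = cs.simple i := by
      intro z hz
      unfold D at hz
      rw [Set.pair_eq_singleton] at hz
      refine Subgroup.closure_induction (p := fun z _ => z = 1 ∨ z = cs.simple i) ?_ ?_ ?_ ?_ hz
      · intro x hx
        exact Or.inr hx
      · exact Or.inl rfl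
      · rintro x y _ _ (rfl | rfl) (rfl | rfl)
        · left; simp
        · right; simp
        · right; simp
        · left; simp
      · rintro x _ (rfl | rfl)
        · left; simp
        · right; simp
    have h0 : ∀ c, (T cs a) c ≠ 0 → c ∈ D cs i i := by
      intro c hc
      rw [T_apply] at hc
      by_cases e : c = a
      · rw [e]; exact ha
      · rw [if_neg e] at hc; exact absurd rfl hc
    rcases hD b hb with rfl | rfl
    · rw [← one_def', mul_one] at h
      exact h0 c h
    · exact key _ h0 i (Or.inl rfl) c h
  · induction hn : cs.length b generalizing b c with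
    | zero =>
      rw [cs.length_eq_zero_iff] at hn
      subst hn
      rw [← one_def', mul_one, T_apply] at h
      by_cases e : c = a
      · rw [e]; exact ha
      · rw [if_neg e] at h; exact absurd rfl h
    | succ n ih =>
      have hb1 : b ≠ 1 := by
        rintro rfl
        rw [cs.length_one] at hn
        omega
      obtain ⟨b', s, hs, hb', rfl, hsb, hl⟩ := DH1_last cs hij hb hb1
      rw [← T_mul_s cs hsb, ← mul_assoc] at h
      exact key (T cs a * T cs b') (fun c hc => ih hb' hc (by omega)) s hs c h

/-- `T_{w_T} T_b`, `b ∈ D`. Induction on `ℓ(b)`: multiplication by `T_s` on the right preserves the invariant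
`Gd (n - m + ℓ(c)) (coefficient of T_c)` with `n ↦ n + 1`. -/
theorem wT_mul_gd {i j : B} (hij : i ≠ j) (hm : M i j ≠ 0) {b : W} (hb : b ∈ D cs i j) :
    (∀ c, Gd ((cs.length b : ℤ) - M i j + cs.length c) ((T cs (wT cs i j) * T cs b) c)) ∧
      ((T cs (wT cs i j) * T cs b) (wT cs i j)).coeff (cs.length b) = 1 := by
  classical
  induction hn : cs.length b generalizing b with
  | zero =>
    rw [cs.length_eq_zero_iff] at hn
    subst hn
    rw [← one_def', mul_one]
    have hlw := length_wT cs hij
    constructor
    · intro c
      rw [T_apply]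
      by_cases e : c = wT cs i j
      · rw [if_pos e, e, hlw]
        have : (((0 : ℕ) : ℤ) - (M i j : ℤ) + (M i j : ℤ)) = 0 := by
          push_cast; ring
        rw [this]
        exact gd_one
      · rw [if_neg e]
        exact gd_zero _
    · rw [T_apply, if_pos rfl]
      have := coeff_v 0 0
      rw [v_zero] at this
      simpa using this
  | succ n ih =>
    have hb1 : b ≠ 1 := by
      rintro rfl
      rw [cs.length_one] at hn
      omega
    obtain ⟨b', s, hs, hb', rfl, hsb, hl⟩ := DH1_last cs hij hb hb1
    obtain ⟨h1, h2⟩ := ih hb' (by omega)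
    set g := T cs (wT cs i j) * T cs b' with hg
    have hmul : T cs (wT cs i j) * T cs (b' * cs.simple s) = g * T cs (cs.simple s) := by
      rw [← T_mul_s cs hsb, ← mul_assoc]
    rw [hmul]
    constructor
    · intro c
      rw [DH1_apply]
      refine gd_add ?_ ?_
      · refine gd_mono ?_ (h1 (c * cs.simple s))
        have := cs.length_mul_simple c s
        push_cast
        omega
      · by_cases hc : cs.IsRightDescent c s
        · rw [if_pos hc]
          refine gd_mono ?_ (gd_xi_mul (h1 c))
          push_cast
          omega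
        · rw [if_neg hc]
          exact gd_zero _
    · rw [DH1_apply, if_pos (rd_wT cs hij hm hs)]
      have hlw := length_wT cs hij
      have hrd := (cs.isRightDescent_iff).1 (rd_wT cs hij hm hs)
      have e1 : (g (wT cs i j * cs.simple s)).coeff ((n + 1 : ℕ) : ℤ) = 0 := by
        refine (h1 (wT cs i j * cs.simple s)).1 _ ?_
        push_cast
        omega
      have e2 : (xi * g (wT cs i j)).coeff ((n + 1 : ℕ) : ℤ) = 1 := by
        have e3 : dle (n : ℤ) (g (wT cs i j)) := by
          refine dle_mono ?_ (h1 (wT cs i j)).1
          rw [hlw]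
          omega
        have e4 := coeff_mul_top dle_xi e3
        have e5 : ((n + 1 : ℕ) : ℤ) = 1 + (n : ℤ) := by push_cast; ring
        rw [e5, e4, h2, coeff_xi]
        simp
      have e6 : (g (wT cs i j * cs.simple s) + xi * g (wT cs i j)).coeff ((n + 1 : ℕ) : ℤ) =
          (g (wT cs i j * cs.simple s)).coeff ((n + 1 : ℕ) : ℤ) +
            (xi * g (wT cs i j)).coeff ((n + 1 : ℕ) : ℤ) := rfl
      rw [e6, e1, e2]
      norm_num

/-- junction in `D`: short case -/
theorem len_junction {i j t : B} (hij : i ≠ j) (hm : M i j ≠ 0) {a b : W} (ha : a ∈ D cs i j)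
    (hb : b ∈ D cs i j) (hat : cs.IsRightDescent a t) (hbt : ¬ cs.IsLeftDescent b t)
    (hl : cs.length a + cs.length b ≤ M i j) : Red cs a b := by
  induction hn : cs.length b generalizing a b t with
  | zero =>
    rw [cs.length_eq_zero_iff] at hn
    subst hn
    unfold Red
    rw [mul_one, cs.length_one]
    omega
  | succ n ih =>
    have hb1 : b ≠ 1 := by
      rintro rfl
      rw [cs.length_one] at hn
      omega
    obtain ⟨s, hs, hsD, hb', hsb, hsb', hlb⟩ := DH1_first cs hij hb hb1
    have hst : s ≠ t := by
      rintro rfl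
      exact hbt hsb
    have hti := rd_of_mem_D cs hij ha hat
    have has : ¬ cs.IsRightDescent a s := by
      intro h
      have : a = wT cs i j := by
        rcases hti with rfl | rfl
        · rcases hs with rfl | rfl
          · exact absurd rfl hst
          · exact eq_wT_of_rd cs hij hm ha hat h
        · rcases hs with rfl | rfl
          · exact eq_wT_of_rd cs hij hm ha h hat
          · exact absurd rfl hst
      have h2 := length_wT cs (i := i) (j := j) hij
      rw [← this] at h2
      omega
    have hla := (cs.not_isRightDescent_iff).1 has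
    have has' : cs.IsRightDescent (a * cs.simple s) s := by
      rw [cs.isRightDescent_iff, cs.simple_mul_simple_cancel_right]
      exact hla.symm
    have := ih (t := s) (a := a * cs.simple s) (b := cs.simple s * b)
      (Subgroup.mul_mem _ ha hsD) hb' has' hsb' (by omega) (by omega)
    unfold Red at this ⊢
    have e : a * cs.simple s * (cs.simple s * b) = a * b := by
      rw [mul_assoc, cs.simple_mul_simple_cancel_left]
    rw [e] at this
    omega

/-- junction in `D`: long case, `b = b' b''` with `a b' = w_T` -/
theorem junction_split {i j t : B} (hij : i ≠ j) (hm : M i j ≠ 0) {a b : W} (ha : a ∈ D cs i j)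
    (hb : b ∈ D cs i j) (hat : cs.IsRightDescent a t) (hbt : ¬ cs.IsLeftDescent b t)
    (hl : M i j ≤ cs.length a + cs.length b) :
    ∃ b' b'', b' ∈ D cs i j ∧ b'' ∈ D cs i j ∧ b = b' * b'' ∧ a * b' = wT cs i j ∧
      cs.length a + cs.length b' = M i j ∧ cs.length b' + cs.length b'' = cs.length b := by
  induction hn : M i j - cs.length a generalizing a b t with
  | zero =>
    have h1 := len_D_le cs hij hm ha
    have h2 := eq_wT_of_len cs hij hm ha (by omega)
    refine ⟨1, b, Subgroup.one_mem _, hb, (one_mul b).symm, by rw [mul_one, h2], ?_, ?_⟩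
    · rw [cs.length_one]; omega
    · rw [cs.length_one]; omega
  | succ n ih =>
    have hb1 : b ≠ 1 := by
      rintro rfl
      rw [cs.length_one] at hl
      omega
    obtain ⟨s, hs, hsD, hb', hsb, hsb', hlb⟩ := DH1_first cs hij hb hb1
    have hst : s ≠ t := by
      rintro rfl
      exact hbt hsb
    have hti := rd_of_mem_D cs hij ha hat
    have has : ¬ cs.IsRightDescent a s := by
      intro h
      have : a = wT cs i j := by
        rcases hti with rfl | rfl
        · rcases hs with rfl | rfl
          · exact absurd rfl hst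
          · exact eq_wT_of_rd cs hij hm ha hat h
        · rcases hs with rfl | rfl
          · exact eq_wT_of_rd cs hij hm ha h hat
          · exact absurd rfl hst
      have h2 := length_wT cs (i := i) (j := j) hij
      rw [← this] at h2
      omega
    have hla := (cs.not_isRightDescent_iff).1 has
    have has' : cs.IsRightDescent (a * cs.simple s) s := by
      rw [cs.isRightDescent_iff, cs.simple_mul_simple_cancel_right]
      exact hla.symm
    obtain ⟨b₁, b₂, hb₁, hb₂, e1, e2, e3, e4⟩ := ih (t := s) (a := a * cs.simple s)
      (b := cs.simple s * b)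
      (Subgroup.mul_mem _ ha hsD) hb' has' hsb' (by omega) (by omega)
    have hsb1 : cs.simple s * b₁ ∈ D cs i j := Subgroup.mul_mem _ hsD hb₁
    have e5 : a * (cs.simple s * b₁) = wT cs i j := by rw [← mul_assoc]; exact e2
    have e6 : cs.simple s * b₁ = a⁻¹ * wT cs i j := by
      rw [← e5, inv_mul_cancel_left]
    have e7 := (len_compl cs hij hm ha).1
    rw [← e6] at e7
    refine ⟨cs.simple s * b₁, b₂, hsb1, hb₂, ?_, e5, by omega, by omega⟩
    rw [mul_assoc, ← e1, cs.simple_mul_simple_cancel_left]

/-- DH1 -/
theorem dh1 {i j t : B} (hij : i ≠ j) (hm : M i j ≠ 0) {a b : W} (ha : a ∈ D cs i j)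
    (hb : b ∈ D cs i j) (hat : cs.IsRightDescent a t) (hbt : ¬ cs.IsLeftDescent b t)
    (hl : M i j ≤ cs.length a + cs.length b) (c : W) :
    Gd ((cs.length a : ℤ) + cs.length b + cs.length c - 2 * M i j) ((T cs a * T cs b) c) := by
  obtain ⟨b₁, b₂, hb₁, hb₂, e1, e2, e3, e4⟩ := junction_split cs hij hm ha hb hat hbt hl
  have hlw := length_wT cs (i := i) (j := j) hij
  have h1 : T cs a * T cs b = T cs (wT cs i j) * T cs b₂ := by
    rw [e1, ← T_mul_T cs (show Red cs b₁ b₂ by unfold Red; rw [← e1]; omega), ← mul_assoc,
      T_mul_T cs (show Red cs a b₁ by unfold Red; rw [e2]; omega), e2]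
  rw [h1]
  have h2 := (wT_mul_gd cs hij hm hb₂).1 c
  have h3 : (cs.length b₂ : ℤ) - M i j + cs.length c =
      (cs.length a : ℤ) + cs.length b + cs.length c - 2 * M i j := by
    omega
  rw [h3] at h2
  exact h2

end Pool.Agent.PolyCell
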