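import Pool.Agent.PolyCell.DH1
import Pool.Agent.PolyCell.HPar

/-!
# Products in dihedral Hecke algebras modulo `C_{w_T}`

Proofs. `C_dih_apply`: let `K_u` be the right side; `K_1 = 1`, `K_s = T_s + v⁻¹`, and for `u ∈ D`, `1 ≤ ℓ(u) < m`, `t ∈ R(u)`, `s` the other letter: `K_u K_s = K_{us} + K_{ut}` if `ℓ(u) ≥ 2`, `K_t K_s = K_{ts}`. So `K_u` is bar invariant, and `eq_zero_of_bar` for `K_u - C_u`
(for `u = w_T`: `C_wT_apply`).
`dh2_co`: for `c, c' ∈ D ∖ {1, w_T}` the coordinates (except at `w_T`) of `C_c C_{c'}` are integers if the last letter of `c` is not the first letter of `c'`, and `v + v⁻¹` times integers if it is. Induction on `ℓ(c)`: `c = s d`, `C_c = C_s C_d - C_{d'}` (`d = t d'`, `d'` starting with `s`, the last term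
only if `ℓ(d) ≥ 2`); `C_d C_{c'}` is spanned by `C_e` with first letter `t` (`co_of_eigen_left`), and `C_s C_e = C_{se} + C_{te}` (or `C_{se}` if `e = t`; `C_s C_{w_T} = (v+v⁻¹) C_{w_T}`).
`T_a ∈ C_a + ∑_{c} v⁻¹ℤ[v⁻¹] C_c` (`co_T_dle`; the support is in `D`), so all contributions have degree `≤ 0`.
`dh2`: `r` = coefficient of `T_{w_T}` in `T_a T_b`, `g = T_a T_b - r C_{w_T}`. Second bound: `dh1` and `C_wT_apply`. First bound: `g = ∑_{c ≠ w_T} co_c C_c` because `g(w_T) = 0`, and `dh2_co`.
-/

open CoxeterSystem

namespace Pool.Agent.PolyCell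

variable {B W : Type*} [Group W] {M : CoxeterMatrix B} (cs : CoxeterSystem M W)

open Classical in
/-- the candidate for the coefficients of `C_u` -/
private noncomputable def DH2_F (i j : B) (u c : W) : LP :=
  if c ∈ D cs i j ∧ (c = u ∨ cs.length c < cs.length u) then
    v ((cs.length c : ℤ) - cs.length u) else 0

private theorem DH2_F_lt {i j : B} {u c : W} (hc : c ∈ D cs i j) (h : cs.length c < cs.length u) :
    DH2_F cs i j u c = v ((cs.length c : ℤ) - cs.length u) := by
  unfold DH2_F; rw [if_pos ⟨hc, Or.inr h⟩]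

private theorem DH2_F_self {i j : B} {u : W} (hc : u ∈ D cs i j) :
    DH2_F cs i j u u = 1 := by
  unfold DH2_F; rw [if_pos ⟨hc, Or.inl rfl⟩, sub_self, v_zero]

private theorem DH2_F_zero {i j : B} {u c : W} (h1 : c ≠ u) (h : cs.length u ≤ cs.length c) :
    DH2_F cs i j u c = 0 := by
  unfold DH2_F; rw [if_neg]; rintro ⟨_, h2 | h2⟩
  · exact h1 h2
  · omega

private theorem DH2_F_notD {i j : B} {u c : W} (h : c ∉ D cs i j) :
    DH2_F cs i j u c = 0 := by
  unfold DH2_F; rw [if_neg]; rintro ⟨h2, _⟩; exact h h2

private theorem DH2_s_mem {i j s : B} (hs : s = i ∨ s = j) : cs.simple s ∈ D cs i j := by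
  unfold D
  rcases hs with rfl | rfl
  · exact Subgroup.subset_closure (by simp)
  · exact Subgroup.subset_closure (by simp)

private theorem DH2_mem_iff {i j s : B} (hs : s = i ∨ s = j) {c : W} :
    c * cs.simple s ∈ D cs i j ↔ c ∈ D cs i j :=
  Subgroup.mul_mem_cancel_right _ (DH2_s_mem cs hs)

private theorem DH2_alt_rd {i j : B} (hij : i ≠ j) {k : ℕ} (hk : k + 1 ≤ M i j) :
    cs.IsRightDescent (alt cs i j (k + 1)) j := by
  have h1 : alt cs i j (k + 1) = alt cs j i k * cs.simple j := by
    unfold alt
    rw [alternatingWord_succ, cs.wordProd_concat]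
  have h2 : cs.length (alt cs i j (k + 1)) = k + 1 := length_alt cs hij (Or.inr hk)
  have h3 : cs.length (alt cs j i k) = k := length_alt cs hij.symm (Or.inr (by
    rw [M.symmetric j i]; omega))
  unfold IsRightDescent
  rw [h2, h1, mul_assoc, cs.simple_mul_simple_self, mul_one, h3]
  omega

private theorem DH2_alt_rd' {i j : B} (hij : i ≠ j) {k : ℕ} (hk : k + 1 ≤ M i j) :
    cs.IsRightDescent (alt cs j i (k + 1)) i :=
  DH2_alt_rd cs hij.symm (by rw [M.symmetric j i]; exact hk)

private theorem DH2_uniq {i j r : B} (hij : i ≠ j) (hm : M i j ≠ 0) (hr : r = i ∨ r = j) {u u' : W}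
    (hu : u ∈ D cs i j) (hu' : u' ∈ D cs i j) (hl : cs.length u = cs.length u')
    (hlt : cs.length u < M i j) (h1 : cs.IsRightDescent u r) (h2 : cs.IsRightDescent u' r) :
    u = u' := by
  obtain ⟨k, hk, hku⟩ := D_cases cs hij hm hu
  obtain ⟨k', hk', hku'⟩ := D_cases cs hij hm hu'
  have hlk : cs.length u = k := by
    rcases hku with h | h <;> rw [h]
    · exact length_alt cs hij (Or.inr hk)
    · exact length_alt cs hij.symm (Or.inr (by rw [M.symmetric j i]; exact hk))
  have hlk' : cs.length u' = k' := by
    rcases hku' with h | h <;> rw [h]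
    · exact length_alt cs hij (Or.inr hk')
    · exact length_alt cs hij.symm (Or.inr (by rw [M.symmetric j i]; exact hk'))
  have hkk : k = k' := by omega
  subst hkk
  have hpos : 1 ≤ k := by
    unfold IsRightDescent at h1; omega
  obtain ⟨n, rfl⟩ : ∃ n, k = n + 1 := ⟨k - 1, by omega⟩
  have key : ∀ w : W, w ∈ D cs i j → cs.length w < M i j → cs.IsRightDescent w i →
      cs.IsRightDescent w j → False := by
    intro w hw hl1 ha hb
    have := eq_wT_of_rd cs hij hm hw ha hb
    rw [this, length_wT cs hij] at hl1
    exact lt_irrefl _ hl1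
  rcases hku with h | h <;> rcases hku' with h' | h'
  · rw [h, h']
  · exfalso
    have e1 : cs.IsRightDescent u j := by rw [h]; exact DH2_alt_rd cs hij hk
    have e2 : cs.IsRightDescent u' i := by rw [h']; exact DH2_alt_rd' cs hij hk
    rcases hr with rfl | rfl
    · exact key u hu hlt h1 e1
    · exact key u' hu' (hl ▸ hlt) e2 h2
  · exfalso
    have e1 : cs.IsRightDescent u i := by rw [h]; exact DH2_alt_rd' cs hij hk
    have e2 : cs.IsRightDescent u' j := by rw [h']; exact DH2_alt_rd cs hij hk
    rcases hr with rfl | rfl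
    · exact key u' hu' (hl ▸ hlt) h2 e2
    · exact key u hu hlt e1 h1
  · rw [h, h']

private theorem DH2_simple_ne_one (s : B) : cs.simple s ≠ 1 := by
  intro h
  have h1 := cs.length_simple s
  rw [h, cs.length_one] at h1
  omega

/-- coefficients of `h T_s` -/
private theorem DH2_mul_apply (h : Hk cs) (s : B) (c : W) [Decidable (cs.IsRightDescent c s)] :
    (h * T cs (cs.simple s)) c =
      h (c * cs.simple s) + (if cs.IsRightDescent c s then xi * h c else 0) := by
  classical
  refine hk_induction cs (P := fun h => (h * T cs (cs.simple s)) c =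
      h (c * cs.simple s) + (if cs.IsRightDescent c s then xi * h c else 0)) ?_ ?_ ?_ ?_ h
  · rw [zero_mul]
    show (0 : LP) = 0 + (if cs.IsRightDescent c s then xi * 0 else 0)
    simp
  · intro w
    by_cases hw : cs.IsRightDescent w s
    · rw [T_mul_s' cs hw, add_apply', smul_apply', T_apply, T_apply, T_apply]
      by_cases h1 : c = w * cs.simple s
      · have h2 : c * cs.simple s = w := by rw [h1, mul_assoc, cs.simple_mul_simple_self, mul_one]
        have h3 : c ≠ w := by
          intro h3
          rw [h3] at h1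
          have : cs.simple s = 1 := by
            have := h1
            rw [eq_comm, mul_eq_left] at this
            exact this
          exact DH2_simple_ne_one cs s this
        have h4 : ¬ cs.IsRightDescent c s := by
          rw [h1]
          unfold IsRightDescent at hw ⊢
          rw [mul_assoc, cs.simple_mul_simple_self, mul_one]
          omega
        rw [if_pos h1, if_neg h3, if_pos h2, if_neg h4]
        ring
      · have h2 : c * cs.simple s ≠ w := by
          intro h2
          apply h1
          rw [← h2, mul_assoc, cs.simple_mul_simple_self, mul_one]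
        rw [if_neg h1, if_neg h2]
        by_cases h3 : c = w
        · subst h3
          rw [if_pos rfl, if_pos hw]
        · rw [if_neg h3]
          simp
    · rw [T_mul_s cs hw, T_apply, T_apply, T_apply]
      by_cases h1 : c = w * cs.simple s
      · have h2 : c * cs.simple s = w := by rw [h1, mul_assoc, cs.simple_mul_simple_self, mul_one]
        have h3 : c ≠ w := by
          intro h3
          rw [h3] at h1
          have : cs.simple s = 1 := by
            have := h1
            rw [eq_comm, mul_eq_left] at this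
            exact this
          exact DH2_simple_ne_one cs s this
        rw [if_pos h1, if_pos h2, if_neg h3]
        simp
      · have h2 : c * cs.simple s ≠ w := by
          intro h2
          apply h1
          rw [← h2, mul_assoc, cs.simple_mul_simple_self, mul_one]
        rw [if_neg h1, if_neg h2]
        by_cases h3 : c = w
        · subst h3
          rw [if_neg hw]
          simp
        · rw [if_neg h3]
          simp
  · intro g k hg hk
    rw [add_mul, add_apply', hg, hk, add_apply', add_apply']
    split_ifs <;> ring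
  · intro r k hk
    rw [smul_mul_assoc, smul_apply', hk, smul_apply', smul_apply']
    split_ifs <;> ring

private theorem DH2_D_symm (i j : B) : D cs i j = D cs j i := by
  unfold D; rw [Set.pair_comm]

private theorem DH2_F_symm (i j : B) (u c : W) : DH2_F cs i j u c = DH2_F cs j i u c := by
  unfold DH2_F; rw [DH2_D_symm]

private theorem DH2_lt {i j : B} (hij : i ≠ j) (hm : M i j ≠ 0) {u : W} (hu : u ∈ D cs i j)
    (h : u ≠ wT cs i j) : cs.length u < M i j :=
  lt_of_le_of_ne (len_D_le cs hij hm hu) (fun e => h (eq_wT_of_len cs hij hm hu e))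

private theorem DH2_exists_rd {i j : B} (hij : i ≠ j) {u : W} (hu : u ∈ D cs i j) (h : u ≠ 1) :
    cs.IsRightDescent u i ∨ cs.IsRightDescent u j := by
  obtain ⟨k, hk⟩ := cs.exists_rightDescent_of_ne_one h
  rcases rd_of_mem_D cs hij hu hk with rfl | rfl
  · exact Or.inl hk
  · exact Or.inr hk

private theorem DH2_exists_ld {i j : B} (hij : i ≠ j) {u : W} (hu : u ∈ D cs i j) (h : u ≠ 1) :
    cs.IsLeftDescent u i ∨ cs.IsLeftDescent u j := by
  obtain ⟨k, hk⟩ := cs.exists_leftDescent_of_ne_one h
  rcases ld_of_mem_D cs hij hu hk with rfl | rfl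
  · exact Or.inl hk
  · exact Or.inr hk

private theorem DH2_prev {i j : B} (hij : i ≠ j) {u : W} (hu : u ∈ D cs i j)
    (h2 : 2 ≤ cs.length u) (h : cs.IsRightDescent u i) :
    cs.IsRightDescent (u * cs.simple i) j := by
  obtain ⟨s, hs, hs', _, h3⟩ := rd_prev cs hij hu h2 h
  rcases hs' with rfl | rfl
  · exact absurd rfl hs
  · exact h3

open Classical in
private theorem DH2_F_rec {i j : B} (hij : i ≠ j) (hm : M i j ≠ 0) {u : W} (hu : u ∈ D cs i j)
    (hu' : ¬ cs.IsRightDescent u j) (c : W) :
    DH2_F cs i j u (c * cs.simple j) + (if cs.IsRightDescent c j then xi * DH2_F cs i j u c else 0)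
      + v (-1) * DH2_F cs i j u c - (if 2 ≤ cs.length u then DH2_F cs i j (u * cs.simple i) c else 0)
      = DH2_F cs i j (u * cs.simple j) c := by
  have hlu : cs.length u < M i j := DH2_lt cs hij hm hu (by
    rintro rfl; exact hu' (rd_wT cs hij hm (Or.inr rfl)))
  have hlj : cs.length (u * cs.simple j) = cs.length u + 1 := cs.not_isRightDescent_iff.1 hu'
  by_cases hc : c ∈ D cs i j
  swap
  · rw [DH2_F_notD cs hc, DH2_F_notD cs hc, DH2_F_notD cs hc,
      DH2_F_notD cs (mt (DH2_mem_iff cs (Or.inr rfl)).1 hc)]
    split_ifs <;> ring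
  have hcj : c * cs.simple j ∈ D cs i j := (DH2_mem_iff cs (Or.inr rfl)).2 hc
  by_cases hu1 : u = 1
  · subst hu1
    rw [one_mul (cs.simple j)]
    have hl1 : cs.length (1 : W) = 0 := cs.length_one
    have hlj' : cs.length (cs.simple j) = 1 := cs.length_simple j
    by_cases hc1 : c = 1
    · subst hc1
      have h1 : ¬ cs.IsRightDescent (1 : W) j := hu'
      rw [DH2_F_self cs hc, one_mul, DH2_F_zero cs (DH2_simple_ne_one cs j) (by omega), if_neg h1,
        if_neg (by omega), DH2_F_lt cs hc (by omega)]
      rw [hl1, hlj']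
      norm_num
    · rw [DH2_F_zero cs hc1 (by omega), if_neg (by omega : ¬ 2 ≤ cs.length (1 : W))]
      by_cases hcj1 : c = cs.simple j
      · subst hcj1
        rw [cs.simple_mul_simple_self, DH2_F_self cs hu, DH2_F_self cs hc]
        simp
      · have h3 : 1 ≤ cs.length c := by
          rcases Nat.eq_zero_or_pos (cs.length c) with h | h
          · exact absurd (cs.length_eq_zero_iff.1 h) hc1
          · exact h
        have h4 : c * cs.simple j ≠ 1 := by
          intro h4
          apply hcj1
          rw [← mul_one c, ← cs.simple_mul_simple_self j, ← mul_assoc, h4, one_mul]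
        rw [DH2_F_zero cs h4 (by omega), DH2_F_zero cs hcj1 (by omega)]
        simp
  · have hui : cs.IsRightDescent u i := by
      rcases DH2_exists_rd cs hij hu hu1 with h | h
      · exact h
      · exact absurd h hu'
    have hli : cs.length (u * cs.simple i) + 1 = cs.length u := cs.isRightDescent_iff.1 hui
    have hn1 : 1 ≤ cs.length u := by omega
    have huj : ¬ cs.IsRightDescent u j := hu'
    have hujd : cs.IsRightDescent (u * cs.simple j) j := by
      unfold IsRightDescent
      rw [mul_assoc, cs.simple_mul_simple_self, mul_one]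
      omega
    have huiD : u * cs.simple i ∈ D cs i j := (DH2_mem_iff cs (Or.inl rfl)).2 hu
    have hujD : u * cs.simple j ∈ D cs i j := (DH2_mem_iff cs (Or.inr rfl)).2 hu
    by_cases hd : cs.IsRightDescent c j
    · have hlc : cs.length (c * cs.simple j) + 1 = cs.length c := cs.isRightDescent_iff.1 hd
      have hcu : c ≠ u := by rintro rfl; exact hu' hd
      rw [if_pos hd]
      have hxi : ∀ p : LP, xi * p + v (-1) * p = v 1 * p := by
        intro p; unfold xi; ring
      rw [add_assoc, hxi]
      rcases lt_or_ge (cs.length c) (cs.length u) with h1 | h1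
      · -- k < n
        have h2 : 2 ≤ cs.length u := by omega
        rw [DH2_F_lt cs hcj (by omega), DH2_F_lt cs hc h1, if_pos h2,
          DH2_F_lt cs (u := u * cs.simple j) hc (by omega)]
        have e1 : DH2_F cs i j (u * cs.simple i) c = v ((cs.length c : ℤ) - cs.length u + 1) := by
          rcases lt_or_ge (cs.length c + 1) (cs.length u) with h3 | h3
          · rw [DH2_F_lt cs hc (by omega)]
            congr 1
            omega
          · have h4 : c = u * cs.simple i :=
              DH2_uniq cs hij hm (Or.inr rfl) hc huiD (by omega) (by omega) hd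
                (DH2_prev cs hij hu h2 hui)
            rw [← h4, DH2_F_self cs hc, ← v_zero]
            congr 1
            omega
        rw [e1, ← v_add]
        have e2 : (1 : ℤ) + ((cs.length c : ℤ) - cs.length u) = (cs.length c : ℤ) - cs.length u + 1 := by
          ring
        rw [e2, add_sub_cancel_right]
        congr 1
        omega
      · have e3 : (if 2 ≤ cs.length u then DH2_F cs i j (u * cs.simple i) c else 0) = 0 := by
          split_ifs
          · exact DH2_F_zero cs (by rintro rfl; omega) (by omega)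
          · rfl
        rw [e3, DH2_F_zero cs hcu h1]
        rcases h1.eq_or_lt with h2 | h2
        · rw [DH2_F_lt cs hcj (by omega), DH2_F_lt cs hc (by omega), mul_zero, add_zero, sub_zero]
          congr 1
          omega
        · by_cases h3 : c = u * cs.simple j
          · have h4 : c * cs.simple j = u := by
              rw [h3, mul_assoc, cs.simple_mul_simple_self, mul_one]
            rw [h4, ← h3, DH2_F_self cs hu, DH2_F_self cs hc]
            simp
          · have h4 : c * cs.simple j ≠ u := by
              intro h4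
              apply h3
              rw [← h4, mul_assoc, cs.simple_mul_simple_self, mul_one]
            rw [DH2_F_zero cs h4 (by omega), DH2_F_zero cs h3 (by omega)]
            simp
    · have hlc : cs.length (c * cs.simple j) = cs.length c + 1 := cs.not_isRightDescent_iff.1 hd
      rw [if_neg hd, add_zero]
      have hcjd : cs.IsRightDescent (c * cs.simple j) j := by
        unfold IsRightDescent
        rw [mul_assoc, cs.simple_mul_simple_self, mul_one]
        omega
      have hcju : c * cs.simple j ≠ u := by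
        intro h; rw [h] at hcjd; exact hu' hcjd
      rcases lt_or_ge (cs.length c + 1) (cs.length u) with h1 | h1
      · rw [DH2_F_lt cs hcj (by omega), DH2_F_lt cs hc (by omega), if_pos (by omega),
          DH2_F_lt cs (u := u * cs.simple i) hc (by omega),
          DH2_F_lt cs (u := u * cs.simple j) hc (by omega), ← v_add]
        have e1 : ((cs.length (c * cs.simple j) : ℕ) : ℤ) - cs.length u =
            (cs.length c : ℤ) - cs.length (u * cs.simple i) := by omega
        have e2 : (-1 : ℤ) + ((cs.length c : ℤ) - cs.length u) =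
            (cs.length c : ℤ) - cs.length (u * cs.simple j) := by omega
        rw [e1, e2]
        ring
      · rw [DH2_F_zero cs hcju (by omega), zero_add]
        have e3 : (if 2 ≤ cs.length u then DH2_F cs i j (u * cs.simple i) c else 0) = 0 := by
          split_ifs with h2
          · refine DH2_F_zero cs ?_ (by omega)
            intro h
            apply hd
            rw [h]
            exact DH2_prev cs hij hu h2 hui
          · rfl
        rw [e3, sub_zero]
        have hcuj : c ≠ u * cs.simple j := by
          intro h; rw [h] at hd; exact hd hujd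
        rcases h1.eq_or_lt with h2 | h2
        · rw [DH2_F_lt cs hc (by omega), DH2_F_lt cs (u := u * cs.simple j) hc (by omega), ← v_add]
          congr 1
          omega
        · rcases (Nat.lt_succ_iff.1 h2).eq_or_lt with h3 | h3
          · have hc1 : c ≠ 1 := by
              intro h; rw [h, cs.length_one] at h3; omega
            have hci : cs.IsRightDescent c i := by
              rcases DH2_exists_rd cs hij hc hc1 with h | h
              · exact h
              · exact absurd h hd
            have h4 : c = u := DH2_uniq cs hij hm (Or.inl rfl) hc hu h3.symm (by omega) hci hui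
            rw [h4, DH2_F_self cs hu, DH2_F_lt cs (u := u * cs.simple j) hu (by omega), mul_one]
            congr 1
            omega
          · rw [DH2_F_zero cs (by rintro rfl; omega) (by omega), DH2_F_zero cs hcuj (by omega)]
            simp

private theorem DH2_C_one {C : W → Hk cs} (h : IsKL cs C) : C 1 = 1 := by
  classical
  rw [one_def']
  refine hk_ext cs fun w => ?_
  rw [T_apply]
  split_ifs with h1
  · rw [h1, kl_self cs h]
  · by_contra h2
    rcases kl_supp cs h h2 with h3 | h3
    · exact h1 h3
    · rw [cs.length_one] at h3; omega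

private theorem DH2_bar {C : W → Hk cs} (h : IsKL cs C) : ∃ β : Hk cs →+ Hk cs, IsBar cs β ∧
    ∀ w, β (C w) = C w := by
  obtain ⟨β, hβ, hC⟩ := h
  exact ⟨β, hβ, fun w => (hC w).1⟩

private theorem DH2_bar_step {β : Hk cs →+ Hk cs} (hβ : IsBar cs β) {g : Hk cs} (hg : β g = g)
    (s : B) : β (g * T cs (cs.simple s) + v (-1) • g) = g * T cs (cs.simple s) + v (-1) • g := by
  rw [map_add, mul_T_simple]
  have h1 : β (rS cs s g) = rS cs s (β g) - (v 1 - v (-1)) • β g := hβ.mul s g
  have h2 : β (v (-1) • g) = LaurentPolynomial.invert (v (-1)) • β g := hβ.smul _ _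
  rw [h1, h2, hg, invert_v]
  have h3 : v (-(-1)) = v 1 := by norm_num
  rw [h3]
  module

/-- one step of the recursion, given the coefficients of the two smaller elements -/
private theorem DH2_step {C : W → Hk cs} (h : IsKL cs C) {i j : B} (hij : i ≠ j) (hm : M i j ≠ 0)
    {u : W} (hu : u ∈ D cs i j) (huj : ¬ cs.IsRightDescent u j)
    (h1 : ∀ c, C u c = DH2_F cs i j u c)
    (h2 : 2 ≤ cs.length u → ∀ c, C (u * cs.simple i) c = DH2_F cs i j (u * cs.simple i) c) :
    C u * T cs (cs.simple j) + v (-1) • C u - (if 2 ≤ cs.length u then C (u * cs.simple i) else 0) =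
      C (u * cs.simple j) ∧ ∀ c, C (u * cs.simple j) c = DH2_F cs i j (u * cs.simple j) c := by
  classical
  obtain ⟨β, hβ, hC⟩ := DH2_bar cs h
  set g : Hk cs := C u * T cs (cs.simple j) + v (-1) • C u -
    (if 2 ≤ cs.length u then C (u * cs.simple i) else 0) with hg
  have hgc : ∀ c, g c = DH2_F cs i j (u * cs.simple j) c := by
    intro c
    rw [← DH2_F_rec cs hij hm hu huj c, hg, sub_apply', add_apply', smul_apply', DH2_mul_apply,
      h1 c, h1 (c * cs.simple j)]
    congr 1
    by_cases h3 : 2 ≤ cs.length u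
    · rw [if_pos h3, if_pos h3, h2 h3]
    · rw [if_neg h3, if_neg h3]; rfl
  have hgb : β g = g := by
    rw [hg, map_sub, DH2_bar_step cs hβ (hC u)]
    congr 1
    split_ifs
    · exact hC _
    · exact map_zero β
  have hlj : cs.length (u * cs.simple j) = cs.length u + 1 := cs.not_isRightDescent_iff.1 huj
  have hujD : u * cs.simple j ∈ D cs i j := (DH2_mem_iff cs (Or.inr rfl)).2 hu
  have hz : g - C (u * cs.simple j) = 0 := by
    refine eq_zero_of_bar cs hβ ?_ ?_
    · rw [map_sub, hgb, hC]
    · intro w
      rw [sub_apply', hgc]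
      by_cases hw : w = u * cs.simple j
      · rw [hw, DH2_F_self cs hujD, kl_self cs h, sub_self]
        exact dle_zero _
      · refine dle_sub ?_ (kl_dle cs h hw)
        unfold DH2_F
        split_ifs with h3
        · rcases h3.2 with h4 | h4
          · exact absurd h4 hw
          · exact dle_mono (by omega) (dle_v _)
        · exact dle_zero _
  have hgC : g = C (u * cs.simple j) := sub_eq_zero.1 hz
  exact ⟨hgC, fun c => by rw [← hgC, hgc]⟩

private theorem DH2_C_F {C : W → Hk cs} (h : IsKL cs C) (n : ℕ) : ∀ {i j : B}, i ≠ j → M i j ≠ 0 →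
    ∀ {u : W}, u ∈ D cs i j → cs.length u = n → ∀ c, C u c = DH2_F cs i j u c := by
  induction n using Nat.strong_induction_on with
  | _ n ih =>
    -- the case of a right descent `j`
    have key : ∀ {i j : B}, i ≠ j → M i j ≠ 0 → ∀ {u : W}, u ∈ D cs i j → cs.length u = n →
        cs.IsRightDescent u j → ∀ c, C u c = DH2_F cs i j u c := by
      intro i j hij hm u hu hn huj c
      have h1 : cs.length (u * cs.simple j) + 1 = cs.length u := cs.isRightDescent_iff.1 huj
      have h2 : u * cs.simple j * cs.simple j = u := by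
        rw [mul_assoc, cs.simple_mul_simple_self, mul_one]
      have h3 : ¬ cs.IsRightDescent (u * cs.simple j) j := by
        unfold IsRightDescent
        rw [h2]; omega
      have hD : u * cs.simple j ∈ D cs i j := (DH2_mem_iff cs (Or.inr rfl)).2 hu
      have h4 := (DH2_step cs h hij hm hD h3 (ih _ (by omega) hij hm hD rfl) (by
        intro h5
        refine ih _ ?_ hij hm ((DH2_mem_iff cs (Or.inl rfl)).2 hD) rfl
        have h6 : cs.IsRightDescent (u * cs.simple j) i := by
          have h7 : u * cs.simple j ≠ 1 := by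
            intro h8; rw [h8, cs.length_one] at h5; omega
          rcases DH2_exists_rd cs hij hD h7 with h8 | h8
          · exact h8
          · exact absurd h8 h3
        have h9 := cs.isRightDescent_iff.1 h6
        omega)).2 c
      rw [h2] at h4
      exact h4
    intro i j hij hm u hu hn c
    classical
    by_cases hu1 : u = 1
    · subst hu1
      rw [DH2_C_one cs h, one_def', T_apply]
      split_ifs with h1
      · rw [h1, DH2_F_self cs hu]
      · rw [DH2_F_zero cs h1 (by rw [cs.length_one]; omega)]
    · rcases DH2_exists_rd cs hij hu hu1 with h1 | h1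
      · rw [DH2_F_symm]
        exact key hij.symm (by rw [M.symmetric j i]; exact hm) (by rw [DH2_D_symm]; exact hu) hn h1 c
      · exact key hij hm hu hn h1 c

open Classical in
/-- The dihedral Kazhdan-Lusztig element `K_u = ∑_{c ∈ D, c = u ∨ ℓ(c) < ℓ(u)} v^{ℓ(c) - ℓ(u)} T_c` (for `u ∈ D`, finite `M i j`) is `C_u`. -/
theorem C_dih_apply {C : W → Hk cs} (h : IsKL cs C) {i j : B} (hij : i ≠ j) (hm : M i j ≠ 0)
    {u : W} (hu : u ∈ D cs i j) (c : W) :
    C u c = if c ∈ D cs i j ∧ (c = u ∨ cs.length c < cs.length u) then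
      v ((cs.length c : ℤ) - cs.length u) else 0 := by
  have := DH2_C_F cs h _ hij hm hu rfl c
  rw [this]
  unfold DH2_F
  congr

/-! ### recursions -/

private theorem DH2_recR {C : W → Hk cs} (h : IsKL cs C) {i j : B} (hij : i ≠ j) (hm : M i j ≠ 0)
    {u : W} (hu : u ∈ D cs i j) (huj : ¬ cs.IsRightDescent u j) :
    C u * T cs (cs.simple j) + v (-1) • C u =
      C (u * cs.simple j) + (if 2 ≤ cs.length u then C (u * cs.simple i) else 0) := by
  have h1 := (DH2_step cs h hij hm hu huj (DH2_C_F cs h _ hij hm hu rfl) (fun _ =>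
    DH2_C_F cs h _ hij hm ((DH2_mem_iff cs (Or.inl rfl)).2 hu) rfl)).1
  rw [← h1]
  abel

private theorem DH2_recL {C : W → Hk cs} (h : IsKL cs C) {i j : B} (hij : i ≠ j) (hm : M i j ≠ 0)
    {u : W} (hu : u ∈ D cs i j) (huj : ¬ cs.IsLeftDescent u j) :
    T cs (cs.simple j) * C u + v (-1) • C u =
      C (cs.simple j * u) + (if 2 ≤ cs.length u then C (cs.simple i * u) else 0) := by
  have h1 := DH2_recR cs h hij hm (u := u⁻¹) (inv_mem hu) (by
    rw [cs.isRightDescent_inv_iff]; exact huj)
  have h2 := congrArg (fl cs) h1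
  rw [map_add, fl_mul, map_smul, kl_fl cs h, inv_inv, fl_T, cs.inv_simple, map_add, kl_fl cs h,
    mul_inv_rev, inv_inv, cs.inv_simple, cs.length_inv] at h2
  rw [h2]
  congr 1
  split_ifs
  · rw [kl_fl cs h, mul_inv_rev, inv_inv, cs.inv_simple]
  · exact map_zero _

/-! ### sums over the two bases -/

private theorem DH2_sum_T {P : Hk cs → Prop} (h0 : P 0) (ha : ∀ g h, P g → P h → P (g + h))
    (hs : ∀ (r : LP) h, P h → P (r • h)) (h : Hk cs) (H : ∀ y, h y ≠ 0 → P (T cs y)) : P h := by
  rw [eq_sum_T cs h]
  unfold Finsupp.sum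
  refine Finset.sum_induction _ P ha h0 ?_
  intro y hy
  exact hs _ _ (H y (Finsupp.mem_support_iff.1 hy))

private theorem DH2_sum_C {C : W → Hk cs} (hC : IsKL cs C) {P : Hk cs → Prop} (h0 : P 0)
    (ha : ∀ g h, P g → P h → P (g + h)) (h : Hk cs)
    (H : ∀ y, co cs C h y ≠ 0 → P (co cs C h y • C y)) : P h := by
  rw [← co_spec cs hC h, Finsupp.linearCombination_apply]
  unfold Finsupp.sum
  refine Finset.sum_induction _ P ha h0 ?_
  intro y hy
  exact H y (Finsupp.mem_support_iff.1 hy)

/-! ### supports -/

private theorem DH2_co_add (C : W → Hk cs) (g h : Hk cs) (x : W) :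
    co cs C (g + h) x = co cs C g x + co cs C h x := by
  rw [map_add]; rfl

private theorem DH2_co_sub (C : W → Hk cs) (g h : Hk cs) (x : W) :
    co cs C (g - h) x = co cs C g x - co cs C h x := by
  rw [map_sub]; rfl

private theorem DH2_co_smul (C : W → Hk cs) (r : LP) (h : Hk cs) (x : W) :
    co cs C (r • h) x = r * co cs C h x := by
  rw [map_smul]; rfl

private theorem DH2_co_zero (C : W → Hk cs) (x : W) : co cs C (0 : Hk cs) x = 0 := by
  rw [map_zero]; rfl

private theorem DH2_co_T_D {C : W → Hk cs} (h : IsKL cs C) {i j : B} (hij : i ≠ j)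
    (hm : M i j ≠ 0) (n : ℕ) :
    ∀ {u : W}, u ∈ D cs i j → cs.length u = n → ∀ x, co cs C (T cs u) x ≠ 0 → x ∈ D cs i j := by
  classical
  induction n using Nat.strong_induction_on with
  | _ n ih =>
    intro u hu hn x hx
    have h1 : ∀ x, co cs C (C u - T cs u) x ≠ 0 → x ∈ D cs i j := by
      refine DH2_sum_T cs (P := fun g => ∀ x, co cs C g x ≠ 0 → x ∈ D cs i j) ?_ ?_ ?_ _ ?_
      · intro x hx
        exact absurd (DH2_co_zero cs C x) hx
      · intro g k hg hk x hx
        rw [DH2_co_add] at hx
        by_cases h2 : co cs C g x = 0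
        · rw [h2, zero_add] at hx
          exact hk x hx
        · exact hg x h2
      · intro r k hk x hx
        rw [DH2_co_smul] at hx
        exact hk x (right_ne_zero_of_mul hx)
      · intro y hy
        rw [sub_apply', T_apply] at hy
        have hyu : y ≠ u := by
          rintro rfl
          rw [kl_self cs h, if_pos rfl, sub_self] at hy
          exact hy rfl
        rw [if_neg hyu, sub_zero] at hy
        have hyD : y ∈ D cs i j := by
          by_contra h3
          rw [C_dih_apply cs h hij hm hu, if_neg (fun h4 => h3 h4.1)] at hy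
          exact hy rfl
        rcases kl_supp cs h hy with h3 | h3
        · exact absurd h3 hyu
        · exact ih _ (by omega) hyD rfl
    have h2 : T cs u = C u - (C u - T cs u) := by abel
    rw [h2, DH2_co_sub] at hx
    by_cases h3 : co cs C (C u - T cs u) x = 0
    · rw [h3, sub_zero, co_C cs h, Finsupp.single_apply] at hx
      by_cases h4 : u = x
      · rw [← h4]; exact hu
      · rw [if_neg h4] at hx; exact absurd rfl hx
    · exact h1 x h3

private theorem DH2_co_D {C : W → Hk cs} (h : IsKL cs C) {i j : B} (hij : i ≠ j)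
    (hm : M i j ≠ 0) {g : Hk cs} (hg : ∀ y, g y ≠ 0 → y ∈ D cs i j) {x : W}
    (hx : co cs C g x ≠ 0) : x ∈ D cs i j := by
  refine (DH2_sum_T cs (P := fun g => ∀ x, co cs C g x ≠ 0 → x ∈ D cs i j) ?_ ?_ ?_ g ?_) x hx
  · intro x hx
    exact absurd (DH2_co_zero cs C x) hx
  · intro g k hg hk x hx
    rw [DH2_co_add] at hx
    by_cases h2 : co cs C g x = 0
    · rw [h2, zero_add] at hx
      exact hk x hx
    · exact hg x h2
  · intro r k hk x hx
    rw [DH2_co_smul] at hx
    exact hk x (right_ne_zero_of_mul hx)
  · intro y hy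
    exact DH2_co_T_D cs h hij hm _ (hg y hy) rfl

private theorem DH2_mul_D {i j : B} {g k : Hk cs} (hg : ∀ y, g y ≠ 0 → y ∈ D cs i j)
    (hk : ∀ y, k y ≠ 0 → y ∈ D cs i j) : ∀ y, (g * k) y ≠ 0 → y ∈ D cs i j := by
  have hadd : ∀ g h : Hk cs, (∀ y, g y ≠ 0 → y ∈ D cs i j) → (∀ y, h y ≠ 0 → y ∈ D cs i j) →
      ∀ y, (g + h) y ≠ 0 → y ∈ D cs i j := by
    intro g h hg hh y hy
    rw [add_apply'] at hy
    by_cases h2 : g y = 0
    · rw [h2, zero_add] at hy; exact hh y hy
    · exact hg y h2
  have hsm : ∀ (r : LP) (h : Hk cs), (∀ y, h y ≠ 0 → y ∈ D cs i j) →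
      ∀ y, (r • h) y ≠ 0 → y ∈ D cs i j := by
    intro r h hh y hy
    rw [smul_apply'] at hy
    exact hh y (right_ne_zero_of_mul hy)
  have hz : ∀ y, (0 : Hk cs) y ≠ 0 → y ∈ D cs i j := fun y hy => absurd rfl hy
  refine DH2_sum_T cs (P := fun g => ∀ y, (g * k) y ≠ 0 → y ∈ D cs i j) ?_ ?_ ?_ g ?_
  · rw [zero_mul]; exact hz
  · intro g h hg hh
    rw [add_mul]; exact hadd _ _ hg hh
  · intro r h hh
    rw [smul_mul_assoc]; exact hsm _ _ hh
  · intro a ha
    refine DH2_sum_T cs (P := fun k => ∀ y, (T cs a * k) y ≠ 0 → y ∈ D cs i j) ?_ ?_ ?_ k ?_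
    · rw [mul_zero]; exact hz
    · intro g h hg hh
      rw [mul_add]; exact hadd _ _ hg hh
    · intro r h hh
      rw [mul_smul_comm]; exact hsm _ _ hh
    · intro b hb y hy
      exact mul_supp_D cs (hg a ha) (hk b hb) hy

private theorem DH2_C_D {C : W → Hk cs} (h : IsKL cs C) {i j : B} (hij : i ≠ j) (hm : M i j ≠ 0)
    {u : W} (hu : u ∈ D cs i j) : ∀ y, C u y ≠ 0 → y ∈ D cs i j := by
  intro y hy
  by_contra h1
  rw [C_dih_apply cs h hij hm hu, if_neg (fun h2 => h1 h2.1)] at hy
  exact hy rfl

/-! ### products of Kazhdan-Lusztig elements -/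

private theorem DH2_co_C_dle {C : W → Hk cs} (h : IsKL cs C) (w c : W) :
    dle 0 (co cs C (C w) c) := by
  classical
  rw [co_C cs h, Finsupp.single_apply]
  split_ifs
  · exact dle_one
  · exact dle_zero _

private theorem DH2_L_step {C : W → Hk cs} (h : IsKL cs C) {i j : B} (hij : i ≠ j)
    (hm : M i j ≠ 0) {e f : W} (he : e ∈ D cs i j) (hf : f ∈ D cs i j)
    (hf' : f ≠ wT cs i j) (hei : cs.IsLeftDescent e i) {k : ℤ}
    (hk : k = 1 ∨ (k = 0 ∧ ∀ t, cs.IsRightDescent e t → ¬ cs.IsLeftDescent f t)) {c : W}
    (hc : c ≠ wT cs i j)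
    (ih : ∀ d : W, d ∈ D cs i j → cs.length d < cs.length e →
      (∀ t, cs.IsRightDescent d t → cs.IsRightDescent e t) → ∀ c, c ≠ wT cs i j →
      dle k (co cs C (C d * C f) c)) :
    dle k (co cs C (C e * C f) c) := by
  classical
  have hk0 : 0 ≤ k := by rcases hk with h | h <;> omega
  have hsi := DH2_s_mem cs (i := i) (j := j) (s := i) (Or.inl rfl)
  have hsj := DH2_s_mem cs (i := i) (j := j) (s := j) (Or.inr rfl)
  obtain ⟨d, hd⟩ : ∃ d, d = cs.simple i * e := ⟨_, rfl⟩
  have hed : cs.simple i * d = e := by
    rw [hd, ← mul_assoc, cs.simple_mul_simple_self, one_mul]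
  have hdD : d ∈ D cs i j := by rw [hd]; exact mul_mem hsi he
  have hle : cs.length d + 1 = cs.length e := by rw [hd]; exact cs.isLeftDescent_iff.1 hei
  have hdi : ¬ cs.IsLeftDescent d i := by
    unfold IsLeftDescent; rw [hed]; omega
  have hdw : d ≠ wT cs i j := by
    rintro rfl; exact hdi (ld_wT cs hij hm (Or.inl rfl))
  have hrec := DH2_recL cs h hij.symm (by rw [M.symmetric j i]; exact hm)
    (by rw [DH2_D_symm]; exact hdD) hdi
  rw [hed] at hrec
  have hT : ∀ x : W, x ∈ D cs i j → x ≠ wT cs i j → ¬ cs.IsLeftDescent x i →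
      dle 0 (co cs C (T cs (cs.simple i) * C x + v (-1) • C x) c) := by
    intro x hx hxw hxi
    rw [DH2_recL cs h hij.symm (by rw [M.symmetric j i]; exact hm)
      (by rw [DH2_D_symm]; exact hx) hxi, DH2_co_add]
    refine dle_add (DH2_co_C_dle cs h _ _) ?_
    split_ifs
    · exact DH2_co_C_dle cs h _ _
    · rw [DH2_co_zero]; exact dle_zero _
  by_cases hd1 : d = 1
  · -- `e = s_i`
    have hei' : e = cs.simple i := by rw [← hed, hd1, mul_one]
    rw [hd1, cs.length_one, if_neg (by omega), add_zero, DH2_C_one cs h, mul_one] at hrec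
    rw [← hrec, add_mul, smul_mul_assoc, one_mul]
    by_cases hfi : cs.IsLeftDescent f i
    · have hk1 : k = 1 := by
        rcases hk with hk | ⟨_, hk⟩
        · exact hk
        · exfalso
          refine hk i ?_ hfi
          rw [hei']
          unfold IsRightDescent
          rw [cs.simple_mul_simple_self, cs.length_one, cs.length_simple]
          omega
      rw [kl_s_mul cs h hfi, DH2_co_add, DH2_co_smul, DH2_co_smul, hk1]
      refine dle_add ?_ ?_
      · exact dle_mul (k := 1) (l := 0) (dle_v 1) (DH2_co_C_dle cs h _ _)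
      · exact dle_mono (by norm_num) (dle_mul (dle_v (-1)) (DH2_co_C_dle cs h _ _))
    · exact dle_mono hk0 (hT f hf hf' hfi)
  · have hdj : cs.IsLeftDescent d j := by
      rcases DH2_exists_ld cs hij hdD hd1 with h1 | h1
      · exact absurd h1 hdi
      · exact h1
    have hde : ∀ t, cs.IsRightDescent d t → cs.IsRightDescent e t := by
      intro t ht
      have h1 := cs.isRightDescent_iff.1 ht
      unfold IsRightDescent
      rw [← hed, mul_assoc]
      have h2 := cs.length_mul_le (cs.simple i) (d * cs.simple t)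
      rw [cs.length_simple] at h2
      rw [hed]
      omega
    have hCe : C e = T cs (cs.simple i) * C d + v (-1) • C d -
        (if 2 ≤ cs.length d then C (cs.simple j * d) else 0) := by
      rw [hrec]; abel
    rw [hCe, sub_mul, DH2_co_sub]
    refine dle_sub ?_ ?_
    · have hassoc : (T cs (cs.simple i) * C d + v (-1) • C d) * C f =
          T cs (cs.simple i) * (C d * C f) + v (-1) • (C d * C f) := by
        rw [add_mul, mul_assoc, smul_mul_assoc]
      rw [hassoc]
      refine DH2_sum_C cs h (P := fun g => dle k (co cs C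
        (T cs (cs.simple i) * g + v (-1) • g) c)) ?_ ?_ _ ?_
      · rw [mul_zero, smul_zero, add_zero, DH2_co_zero]; exact dle_zero _
      · intro g1 g2 hg1 hg2
        have : T cs (cs.simple i) * (g1 + g2) + v (-1) • (g1 + g2) =
            (T cs (cs.simple i) * g1 + v (-1) • g1) + (T cs (cs.simple i) * g2 + v (-1) • g2) := by
          rw [mul_add, smul_add]; abel
        rw [this, DH2_co_add]
        exact dle_add hg1 hg2
      · intro x hx
        have hxD : x ∈ D cs i j :=
          DH2_co_D cs h hij hm (DH2_mul_D cs (DH2_C_D cs h hij hm hdD) (DH2_C_D cs h hij hm hf)) hx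
        have hxj : cs.IsLeftDescent x j := by
          refine co_of_eigen_left cs h ?_ hx
          rw [← mul_assoc, kl_s_mul cs h hdj, smul_mul_assoc]
        obtain ⟨a, ha⟩ : ∃ a, a = co cs C (C d * C f) x := ⟨_, rfl⟩
        rw [← ha]
        have hsm : T cs (cs.simple i) * (a • C x) + v (-1) • (a • C x) =
            a • (T cs (cs.simple i) * C x + v (-1) • C x) := by
          rw [mul_smul_comm, smul_add, smul_comm]
        rw [hsm, DH2_co_smul]
        by_cases hxw : x = wT cs i j
        · subst hxw
          rw [kl_s_mul cs h (ld_wT cs hij hm (Or.inl rfl)), DH2_co_add, DH2_co_smul, DH2_co_smul,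
            co_C cs h, Finsupp.single_apply, if_neg (Ne.symm hc)]
          simp only [mul_zero, add_zero]
          exact dle_zero _
        · have hxi : ¬ cs.IsLeftDescent x i := fun h1 => hxw (eq_wT_of_ld cs hij hm hxD h1 hxj)
          have h1 : dle k a := by
            rw [ha]
            exact ih d hdD (by omega) hde x hxw
          have h2 := dle_mul h1 (hT x hxD hxw hxi)
          rw [add_zero] at h2
          exact h2
    · split_ifs with h2
      · have h3 : cs.length (cs.simple j * d) + 1 = cs.length d := cs.isLeftDescent_iff.1 hdj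
        refine ih _ (mul_mem hsj hdD) (by omega) ?_ c hc
        intro t ht
        refine hde t ?_
        have h4 := cs.isRightDescent_iff.1 ht
        unfold IsRightDescent
        have h5 := cs.length_mul_le (cs.simple j) (cs.simple j * d * cs.simple t)
        rw [cs.length_simple, ← mul_assoc, ← mul_assoc, cs.simple_mul_simple_self, one_mul] at h5
        omega
      · rw [zero_mul, DH2_co_zero]; exact dle_zero _

private theorem DH2_L {C : W → Hk cs} (h : IsKL cs C) {i j : B} (hij : i ≠ j)
    (hm : M i j ≠ 0) {f : W} (hf : f ∈ D cs i j) (hf' : f ≠ wT cs i j) {k : ℤ} (n : ℕ) :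
    ∀ {e : W}, e ∈ D cs i j → cs.length e = n →
    (k = 1 ∨ (k = 0 ∧ ∀ t, cs.IsRightDescent e t → ¬ cs.IsLeftDescent f t)) → ∀ c : W,
    c ≠ wT cs i j → dle k (co cs C (C e * C f) c) := by
  induction n using Nat.strong_induction_on with
  | _ n ih =>
    intro e he hn hk c hc
    have hk0 : 0 ≤ k := by rcases hk with h | h <;> omega
    by_cases he1 : e = 1
    · rw [he1, DH2_C_one cs h, one_mul]
      exact dle_mono hk0 (DH2_co_C_dle cs h _ _)
    · have IH : ∀ d : W, d ∈ D cs i j → cs.length d < cs.length e →
          (∀ t, cs.IsRightDescent d t → cs.IsRightDescent e t) → ∀ c, c ≠ wT cs i j →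
          dle k (co cs C (C d * C f) c) := by
        intro d hd hde ht c hc
        refine ih _ (hn ▸ hde) hd rfl ?_ c hc
        rcases hk with hk | hk
        · exact Or.inl hk
        · exact Or.inr ⟨hk.1, fun t h1 => hk.2 t (ht t h1)⟩
      rcases DH2_exists_ld cs hij he he1 with h1 | h1
      · exact DH2_L_step cs h hij hm he hf hf' h1 hk hc IH
      · have hw := wT_symm cs i j
        rw [DH2_D_symm] at he hf
        rw [hw] at hf' hc
        refine DH2_L_step cs h hij.symm (by rw [M.symmetric j i]; exact hm) he hf hf' h1 hk hc ?_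
        intro d hd hde ht c hc
        rw [DH2_D_symm] at hd
        rw [← hw] at hc
        exact IH d hd hde ht c hc

/-- Lattice statement: for `a, b ∈ D ∖ {w_T}`, `t ∈ R(a)`, `t ∉ L(b)`, the coordinates of `T_a T_b` at all
`C_c`, `c ≠ w_T`, have degree `≤ 0`. Proof: for `c, c' ∈ D ∖ {1, w_T}`, the product `C_c C_{c'}` has integer coordinates
(apart from `w_T`) if the last letter of `c` differs from the first letter of `c'`, and
`v + v⁻¹` times integers if they agree (induction on `ℓ(c)` with `C_{s c'} = C_s C_{c'} - C_{c''}`); and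
`T_a ∈ C_a + v⁻¹ (span of C_c)`. -/
theorem dh2_co {C : W → Hk cs} (h : IsKL cs C) {i j t : B} (hij : i ≠ j) (hm : M i j ≠ 0)
    {a b : W} (ha : a ∈ D cs i j) (hb : b ∈ D cs i j) (ha' : a ≠ wT cs i j) (hb' : b ≠ wT cs i j)
    (hat : cs.IsRightDescent a t) (hbt : ¬ cs.IsLeftDescent b t) {c : W} (hc : c ≠ wT cs i j) :
    dle 0 (co cs C (T cs a * T cs b) c) := by
  have hcond : ∀ t', cs.IsRightDescent a t' → ¬ cs.IsLeftDescent b t' := by
    intro t' ht' hbt'
    have h1 := rd_of_mem_D cs hij ha hat
    have h2 := rd_of_mem_D cs hij ha ht'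
    rcases h1 with rfl | rfl <;> rcases h2 with rfl | rfl
    · exact hbt hbt'
    · exact ha' (eq_wT_of_rd cs hij hm ha hat ht')
    · exact ha' (eq_wT_of_rd cs hij hm ha ht' hat)
    · exact hbt hbt'
  have hp : ∀ (a e : W), a ∈ D cs i j → a ≠ wT cs i j → co cs C (T cs a) e ≠ 0 →
      e ∈ D cs i j ∧ e ≠ wT cs i j ∧ (e = a ∨ dle (-1) (co cs C (T cs a) e)) := by
    intro a e ha ha' he
    refine ⟨DH2_co_T_D cs h hij hm _ ha rfl e he, ?_, ?_⟩
    · rintro rfl
      rcases co_T_supp cs h he with h1 | h1
      · exact ha' h1.symm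
      · rw [length_wT cs hij] at h1
        have := len_D_le cs hij hm ha
        omega
    · by_cases h1 : e = a
      · exact Or.inl h1
      · exact Or.inr (co_T_dle cs h h1)
  refine DH2_sum_C cs h (P := fun g => dle 0 (co cs C (T cs a * g) c)) ?_ ?_ (T cs b) ?_
  · rw [mul_zero, DH2_co_zero]; exact dle_zero _
  · intro g1 g2 h1 h2
    rw [mul_add, DH2_co_add]; exact dle_add h1 h2
  · intro f hf
    obtain ⟨hfD, hfw, hf1⟩ := hp b f hb hb' hf
    refine DH2_sum_C cs h (P := fun g => dle 0 (co cs C (g * (co cs C (T cs b) f • C f)) c)) ?_ ?_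
      (T cs a) ?_
    · rw [zero_mul, DH2_co_zero]; exact dle_zero _
    · intro g1 g2 h1 h2
      rw [add_mul, DH2_co_add]; exact dle_add h1 h2
    · intro e he
      obtain ⟨heD, hew, he1⟩ := hp a e ha ha' he
      rw [smul_mul_assoc, mul_smul_comm, DH2_co_smul, DH2_co_smul]
      have hL1 : dle 1 (co cs C (C e * C f) c) :=
        DH2_L cs h hij hm hfD hfw _ heD rfl (Or.inl rfl) c hc
      rcases he1 with rfl | he1
      · rcases hf1 with rfl | hf1
        · rw [co_T_self cs h, co_T_self cs h, one_mul, one_mul]
          exact DH2_L cs h hij hm hfD hfw _ heD rfl (Or.inr ⟨rfl, hcond⟩) c hc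
        · rw [co_T_self cs h, one_mul]
          exact dle_mul (k := -1) (l := 1) hf1 hL1
      · have hf0 : dle 0 (co cs C (T cs b) f) := by
          rcases hf1 with rfl | hf1
          · rw [co_T_self cs h]; exact dle_one
          · exact dle_mono (by norm_num) hf1
        exact dle_mul (k := -1) (l := 1) he1 (dle_mul (k := 0) (l := 1) hf0 hL1)

/-- DH2 -/
theorem dh2 {C : W → Hk cs} (h : IsKL cs C) {i j t : B} (hij : i ≠ j) (hm : M i j ≠ 0)
    {a b : W} (ha : a ∈ D cs i j) (hb : b ∈ D cs i j) (ha' : a ≠ wT cs i j) (hb' : b ≠ wT cs i j)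
    (hat : cs.IsRightDescent a t) (hbt : ¬ cs.IsLeftDescent b t)
    (hl : M i j ≤ cs.length a + cs.length b) :
    ∃ (g : Hk cs) (r : LP), T cs a * T cs b = g + r • C (wT cs i j) ∧
      (∀ c, g c ≠ 0 → c ∈ D cs i j ∧ c ≠ wT cs i j) ∧
      ∀ c, dle 0 (g c) ∧ dle ((cs.length a : ℤ) + cs.length b + cs.length c - 2 * M i j) (g c) := by
  classical
  have hdh1 := dh1 cs hij hm ha hb hat hbt hl
  obtain ⟨r, hr⟩ : ∃ r, r = (T cs a * T cs b) (wT cs i j) := ⟨_, rfl⟩
  obtain ⟨g, hg⟩ : ∃ g, g = T cs a * T cs b - r • C (wT cs i j) := ⟨_, rfl⟩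
  have hgw : g (wT cs i j) = 0 := by
    rw [hg, sub_apply', smul_apply', kl_self cs h, mul_one, hr, sub_self]
  have hTD : ∀ a : W, a ∈ D cs i j → ∀ y, (T cs a) y ≠ 0 → y ∈ D cs i j := by
    intro a ha y hy
    rw [T_apply] at hy
    by_cases h1 : y = a
    · rw [h1]; exact ha
    · rw [if_neg h1] at hy; exact absurd rfl hy
  have hgD : ∀ c, g c ≠ 0 → c ∈ D cs i j := by
    intro c hc
    rw [hg, sub_apply', smul_apply'] at hc
    by_cases h1 : (T cs a * T cs b) c = 0
    · rw [h1, zero_sub] at hc
      exact DH2_C_D cs h hij hm (wT_mem cs i j) c (right_ne_zero_of_mul (neg_ne_zero.1 hc))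
    · exact DH2_mul_D cs (hTD a ha) (hTD b hb) c h1
  have hcox : ∀ x, x ≠ wT cs i j → dle 0 (co cs C g x) := by
    intro x hx
    rw [hg, DH2_co_sub, DH2_co_smul, co_C cs h, Finsupp.single_apply, if_neg (Ne.symm hx),
      mul_zero, sub_zero]
    exact dh2_co cs h hij hm ha hb ha' hb' hat hbt hx
  have hcow : co cs C g (wT cs i j) = 0 := by
    obtain ⟨g', hg'⟩ : ∃ g', g' = g - co cs C g (wT cs i j) • C (wT cs i j) := ⟨_, rfl⟩
    have h1 : g' (wT cs i j) = 0 := by
      refine DH2_sum_C cs h (P := fun k => k (wT cs i j) = 0) rfl ?_ g' ?_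
      · intro g1 g2 h1 h2
        rw [add_apply', h1, h2, add_zero]
      · intro x hx
        rw [smul_apply']
        by_contra h2
        have h3 : C x (wT cs i j) ≠ 0 := right_ne_zero_of_mul h2
        have h4 : x ≠ wT cs i j := by
          rintro rfl
          rw [hg', DH2_co_sub, DH2_co_smul, co_C cs h, Finsupp.single_apply, if_pos rfl, mul_one,
            sub_self] at hx
          exact hx rfl
        have h5 : x ∈ D cs i j := by
          refine DH2_co_D cs h hij hm (g := g) hgD ?_
          rw [hg', DH2_co_sub, DH2_co_smul, co_C cs h, Finsupp.single_apply, if_neg (Ne.symm h4),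
            mul_zero, sub_zero] at hx
          exact hx
        rcases kl_supp cs h h3 with h6 | h6
        · exact h4 h6.symm
        · rw [length_wT cs hij] at h6
          have := len_D_le cs hij hm h5
          omega
    rw [hg', sub_apply', smul_apply', kl_self cs h, mul_one, hgw, zero_sub, neg_eq_zero] at h1
    exact h1
  refine ⟨g, r, ?_, ?_, ?_⟩
  · rw [hg]; abel
  · intro c hc
    refine ⟨hgD c hc, ?_⟩
    rintro rfl
    exact hc hgw
  · intro c
    constructor
    · refine DH2_sum_C cs h (P := fun k => dle 0 (k c)) (dle_zero _) ?_ g ?_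
      · intro g1 g2 h1 h2
        rw [add_apply']; exact dle_add h1 h2
      · intro x hx
        rw [smul_apply']
        have hxw : x ≠ wT cs i j := by
          rintro rfl; exact hx hcow
        refine dle_mul (k := 0) (l := 0) (hcox x hxw) ?_
        by_cases h1 : c = x
        · rw [h1, kl_self cs h]; exact dle_one
        · exact dle_mono (by norm_num) (kl_dle cs h h1)
    · rw [hg, sub_apply', smul_apply']
      refine dle_sub (hdh1 c).1 ?_
      rw [C_wT_apply cs h hij hm]
      split_ifs
      · have h1 := (hdh1 (wT cs i j)).1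
        rw [← hr, length_wT cs hij] at h1
        refine dle_mono ?_ (dle_mul h1 (dle_v _))
        omega
      · rw [mul_zero]; exact dle_zero _

end Pool.Agent.PolyCell
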