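import Pool.Agent.PolyCell.Stmt

/-!
# Basic definitions for the proof
-/

open CoxeterSystem

namespace Pool.Agent.PolyCell

variable {B W : Type*} [Group W] {M : CoxeterMatrix B}

/-! ## Coxeter group side -/

/-- The dihedral parabolic subgroup. -/
def D (cs : CoxeterSystem M W) (i j : B) : Subgroup W :=
  Subgroup.closure {cs.simple i, cs.simple j}

/-- no right descent in `{i, j}` -/
def Rmin (cs : CoxeterSystem M W) (i j : B) (x : W) : Prop :=
  ¬ cs.IsRightDescent x i ∧ ¬ cs.IsRightDescent x j

/-- no left descent in `{i, j}` -/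
def Lmin (cs : CoxeterSystem M W) (i j : B) (x : W) : Prop :=
  ¬ cs.IsLeftDescent x i ∧ ¬ cs.IsLeftDescent x j

/-- the product `x y` is reduced -/
def Red (cs : CoxeterSystem M W) (x y : W) : Prop :=
  cs.length (x * y) = cs.length x + cs.length y

/-- triangle-free -/
def TF (M : CoxeterMatrix B) : Prop :=
  ∀ a b c : B, a ≠ b → b ≠ c → a ≠ c → M a b = 0 ∨ M b c = 0 ∨ M a c = 0

/-- `w` has a reduced factor `w_T` of (finite) exponent `> N`. -/
def Fac (cs : CoxeterSystem M W) (N : ℕ) (w : W) : Prop :=
  ∃ i j : B, i ≠ j ∧ N < M i j ∧ ∃ u x : W, w = u * wT cs i j * x ∧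
    cs.length w = cs.length u + M i j + cs.length x

/-- all reduced factors `w_T` of `w` have exponent `≤ N`. -/
def Le (cs : CoxeterSystem M W) (N : ℕ) (w : W) : Prop := ¬ Fac cs N w

/-- `(x, {i, j})` is a first pair of exponent `N`. -/
structure First (cs : CoxeterSystem M W) (N : ℕ) (i j : B) (x : W) : Prop where
  ne : i ≠ j
  exp : M i j = N
  rmin : Rmin cs i j x
  le : Le cs N (x * wT cs i j)
  fi : Le cs (N - 1) (x * cs.simple i)
  fj : Le cs (N - 1) (x * cs.simple j)

/-! ## Hecke algebra -/

/-- The Hecke algebra, as a type synonym of `W →₀ ℤ[v, v⁻¹]`. -/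
def Hk (_ : CoxeterSystem M W) : Type _ := W →₀ LP

variable (cs : CoxeterSystem M W)

noncomputable instance : AddCommGroup (Hk cs) := inferInstanceAs (AddCommGroup (W →₀ LP))
noncomputable instance : Module LP (Hk cs) := inferInstanceAs (Module LP (W →₀ LP))

instance : FunLike (Hk cs) W LP := inferInstanceAs (FunLike (W →₀ LP) W LP)

/-- the standard basis element `T_w` -/
noncomputable def T (w : W) : Hk cs := Finsupp.single w (1 : LP)

/-- `ξ = v - v⁻¹` -/
noncomputable def xi : LP := v 1 - v (-1)

/-- right multiplication by `T_s` -/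
noncomputable def rS (s : B) : Hk cs →ₗ[LP] Hk cs := rT cs s

/-- a reduced word of `w` -/
noncomputable def rw' (w : W) : List B := (cs.exists_isReduced w).choose

/-- `h ↦ h T_{s₁} ⋯ T_{s_k}` -/
noncomputable def rL (ω : List B) (h : Hk cs) : Hk cs := ω.foldl (fun h s => rS cs s h) h

/-- multiplication of the Hecke algebra: `h h' = ∑_w h'_w (h T_w)`. -/
noncomputable def mulH (h h' : Hk cs) : Hk cs :=
  Finsupp.sum (show W →₀ LP from h') fun w a => a • rL cs (rw' cs w) h

end Pool.Agent.PolyCell
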