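import Pool.Agent.PolyCell.AltLen
import Pool.Agent.PolyCell.CoxExch

/-!
# Dihedral parabolic subgroups: elements and minimal coset representatives
-/

open CoxeterSystem

namespace Pool.Agent.PolyCell

variable {B W : Type*} [Group W] {M : CoxeterMatrix B} (cs : CoxeterSystem M W)

private theorem Dih1_zero (i j : B) : alt cs i j 0 = 1 := by
  unfold alt
  exact cs.wordProd_nil

private theorem Dih1_succ (i j : B) (k : ℕ) :
    alt cs i j (k + 1) = alt cs j i k * cs.simple j := by
  unfold alt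
  rw [alternatingWord_succ, wordProd_concat]

private theorem Dih1_succ_mul (i j : B) (k : ℕ) :
    alt cs i j (k + 1) * cs.simple j = alt cs j i k := by
  rw [Dih1_succ, cs.simple_mul_simple_cancel_right]

private theorem Dih1_i (i j : B) : cs.simple i ∈ D cs i j := Subgroup.subset_closure (by simp)

private theorem Dih1_j (i j : B) : cs.simple j ∈ D cs i j := Subgroup.subset_closure (by simp)

private theorem Dih1_mem (i j : B) (k : ℕ) : alt cs i j k ∈ D cs i j ∧ alt cs j i k ∈ D cs i j := by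
  induction k with
  | zero =>
    rw [Dih1_zero, Dih1_zero]
    exact ⟨Subgroup.one_mem _, Subgroup.one_mem _⟩
  | succ k ih =>
    rw [Dih1_succ, Dih1_succ]
    exact ⟨Subgroup.mul_mem _ ih.2 (Dih1_j cs i j), Subgroup.mul_mem _ ih.1 (Dih1_i cs i j)⟩

theorem alt_mem_D (i j : B) (k : ℕ) : alt cs i j k ∈ D cs i j := (Dih1_mem cs i j k).1

theorem alt_mem_D' (i j : B) (k : ℕ) : alt cs j i k ∈ D cs i j := (Dih1_mem cs i j k).2

/-- a set containing `1` and closed under right multiplication by the generators contains `D` -/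
private theorem Dih1_ind {i j : B} {P : W → Prop} (h1 : P 1) (hi : ∀ u, P u → P (u * cs.simple i))
    (hj : ∀ u, P u → P (u * cs.simple j)) {u : W} (hu : u ∈ D cs i j) : P u := by
  unfold D at hu
  induction hu using Subgroup.closure_induction_right with
  | one => exact h1
  | mul_right x hx y hy ih =>
    rcases hy with rfl | hy
    · exact hi _ ih
    · rw [Set.mem_singleton_iff] at hy
      subst hy
      exact hj _ ih
  | mul_inv_cancel x hx y hy ih =>
    rcases hy with rfl | hy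
    · rw [cs.inv_simple]
      exact hi _ ih
    · rw [Set.mem_singleton_iff] at hy
      subst hy
      rw [cs.inv_simple]
      exact hj _ ih

/-- every element of `D` is an alternating product (no length statement needed) -/
theorem D_cases {i j : B} (hij : i ≠ j) (hm : M i j ≠ 0) {u : W} (hu : u ∈ D cs i j) :
    ∃ k ≤ M i j, u = alt cs i j k ∨ u = alt cs j i k := by
  have hbr : alt cs i j (M i j) = alt cs j i (M i j) := by
    have h := cs.wordProd_braidWord_eq i j
    unfold braidWord at h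
    rw [M.symmetric j i] at h
    exact h
  obtain ⟨m, hm'⟩ : ∃ m, M i j = m + 1 := ⟨M i j - 1, by omega⟩
  refine Dih1_ind cs (P := fun u => ∃ k ≤ M i j, u = alt cs i j k ∨ u = alt cs j i k) ?_ ?_ ?_ hu
  · exact ⟨0, Nat.zero_le _, Or.inl (Dih1_zero cs i j).symm⟩
  · rintro u ⟨k, hk, rfl | rfl⟩
    · rcases hk.lt_or_eq with h | h
      · exact ⟨k + 1, h, Or.inr (Dih1_succ cs j i k).symm⟩
      · refine ⟨m, by omega, Or.inl ?_⟩
        rw [h, hbr, hm', Dih1_succ_mul]
    · rcases k with _ | k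
      · refine ⟨1, by omega, Or.inr ?_⟩
        rw [Dih1_zero, Dih1_succ, Dih1_zero]
      · exact ⟨k, by omega, Or.inl (Dih1_succ_mul cs j i k)⟩
  · rintro u ⟨k, hk, rfl | rfl⟩
    · rcases k with _ | k
      · refine ⟨1, by omega, Or.inl ?_⟩
        rw [Dih1_zero, Dih1_succ, Dih1_zero]
      · exact ⟨k, by omega, Or.inr (Dih1_succ_mul cs i j k)⟩
    · rcases hk.lt_or_eq with h | h
      · exact ⟨k + 1, h, Or.inl (Dih1_succ cs i j k).symm⟩
      · refine ⟨m, by omega, Or.inr ?_⟩
        rw [h, ← hbr, hm', Dih1_succ_mul]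

/-- the infinite case -/
theorem D_cases_inf {i j : B} (hij : i ≠ j) (hm : M i j = 0) {u : W} (hu : u ∈ D cs i j) :
    ∃ k, u = alt cs i j k ∨ u = alt cs j i k := by
  refine Dih1_ind cs (P := fun u => ∃ k, u = alt cs i j k ∨ u = alt cs j i k) ?_ ?_ ?_ hu
  · exact ⟨0, Or.inl (Dih1_zero cs i j).symm⟩
  · rintro u ⟨k, rfl | rfl⟩
    · exact ⟨k + 1, Or.inr (Dih1_succ cs j i k).symm⟩
    · rcases k with _ | k
      · refine ⟨1, Or.inr ?_⟩
        rw [Dih1_zero, Dih1_succ, Dih1_zero]
      · exact ⟨k, Or.inl (Dih1_succ_mul cs j i k)⟩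
  · rintro u ⟨k, rfl | rfl⟩
    · rcases k with _ | k
      · refine ⟨1, Or.inl ?_⟩
        rw [Dih1_zero, Dih1_succ, Dih1_zero]
      · exact ⟨k, Or.inr (Dih1_succ_mul cs i j k)⟩
    · exact ⟨k + 1, Or.inl (Dih1_succ cs i j k).symm⟩

/-- uniform version -/
private theorem Dih1_cases {i j : B} (hij : i ≠ j) {u : W} (hu : u ∈ D cs i j) :
    ∃ k, (M i j = 0 ∨ k ≤ M i j) ∧ (u = alt cs i j k ∨ u = alt cs j i k) := by
  by_cases hm : M i j = 0
  · obtain ⟨k, hk⟩ := D_cases_inf cs hij hm hu
    exact ⟨k, Or.inl hm, hk⟩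
  · obtain ⟨k, hk, h⟩ := D_cases cs hij hm hu
    exact ⟨k, Or.inr hk, h⟩

private theorem Dih1_length {i j : B} (hij : i ≠ j) {k : ℕ} (hk : M i j = 0 ∨ k ≤ M i j) :
    cs.length (alt cs i j k) = k ∧ cs.length (alt cs j i k) = k := by
  refine ⟨length_alt cs hij hk, length_alt cs hij.symm ?_⟩
  rw [M.symmetric j i]
  exact hk

private theorem Dih1_step {i j : B} {x : W} (hx : ∀ t ∈ D cs i j, cs.length x ≤ cs.length (x * t))
    {a : W} {k : B} (ha : a ∈ D cs i j) (hk : cs.simple k ∈ D cs i j)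
    (h1 : cs.length (x * a) = cs.length x + cs.length a)
    (h2 : cs.length a < cs.length (a * cs.simple k)) :
    cs.length (x * (a * cs.simple k)) = cs.length x + cs.length (a * cs.simple k) := by
  have h3 : cs.length (a * cs.simple k) = cs.length a + 1 := by
    rcases cs.length_mul_simple a k with h | h
    · exact h
    · omega
  rw [← mul_assoc]
  rcases cs.length_mul_simple (x * a) k with h | h
  · rw [h, h1, h3]
    ring
  · exfalso
    have h4 : cs.IsRightDescent (x * a) k := by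
      unfold CoxeterSystem.IsRightDescent
      omega
    have h5 : ¬ cs.IsRightDescent a k := by
      unfold CoxeterSystem.IsRightDescent
      omega
    obtain ⟨x', hx1, hx2⟩ := exch cs (x := x) (y := a) h1 h4 h5
    have h6 : x' = x * (a * cs.simple k * a⁻¹) := by
      rw [← mul_assoc, ← mul_assoc, hx1, mul_inv_cancel_right]
    have h7 := hx (a * cs.simple k * a⁻¹)
      (Subgroup.mul_mem _ (Subgroup.mul_mem _ ha hk) (Subgroup.inv_mem _ ha))
    rw [← h6] at h7
    omega

private theorem Dih1_alt {i j : B} (hij : i ≠ j) {x : W}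
    (hx : ∀ t ∈ D cs i j, cs.length x ≤ cs.length (x * t)) (k : ℕ)
    (hk : M i j = 0 ∨ k ≤ M i j) :
    cs.length (x * alt cs i j k) = cs.length x + cs.length (alt cs i j k) ∧
      cs.length (x * alt cs j i k) = cs.length x + cs.length (alt cs j i k) := by
  induction k with
  | zero =>
    rw [Dih1_zero, Dih1_zero, mul_one, cs.length_one]
    exact ⟨rfl, rfl⟩
  | succ k ih =>
    have hk' : M i j = 0 ∨ k ≤ M i j := by omega
    have ih := ih hk'
    have hl := Dih1_length cs hij hk
    have hl' := Dih1_length cs hij hk'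
    constructor
    · rw [Dih1_succ]
      refine Dih1_step cs hx (alt_mem_D' cs i j k) (Dih1_j cs i j) ih.2 ?_
      rw [← Dih1_succ]
      omega
    · rw [Dih1_succ]
      refine Dih1_step cs hx (alt_mem_D cs i j k) (Dih1_i cs i j) ih.1 ?_
      rw [← Dih1_succ]
      omega

private theorem Dih1_min_len {i j : B} (hij : i ≠ j) {x u : W}
    (hx : ∀ t ∈ D cs i j, cs.length x ≤ cs.length (x * t)) (hu : u ∈ D cs i j) :
    cs.length (x * u) = cs.length x + cs.length u := by
  obtain ⟨k, hk, rfl | rfl⟩ := Dih1_cases cs hij hu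
  · exact (Dih1_alt cs hij hx k hk).1
  · exact (Dih1_alt cs hij hx k hk).2

/-- elements of minimal length in a coset -/
private theorem Dih1_exists_min (i j : B) (w : W) :
    ∃ x u, (∀ t ∈ D cs i j, cs.length x ≤ cs.length (x * t)) ∧ u ∈ D cs i j ∧ w = x * u := by
  classical
  have hne : ∃ n : ℕ, ∃ t ∈ D cs i j, cs.length (w * t) = n :=
    ⟨_, 1, Subgroup.one_mem _, rfl⟩
  obtain ⟨t, ht, hlt⟩ := Nat.find_spec hne
  refine ⟨w * t, t⁻¹, ?_, Subgroup.inv_mem _ ht, by rw [mul_inv_cancel_right]⟩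
  intro t' ht'
  rw [hlt]
  apply Nat.find_min' hne
  exact ⟨t * t', Subgroup.mul_mem _ ht ht', by rw [mul_assoc]⟩

private theorem Dih1_min_rmin {i j : B} {x : W}
    (hx : ∀ t ∈ D cs i j, cs.length x ≤ cs.length (x * t)) : Rmin cs i j x := by
  constructor
  · intro h
    have := hx _ (Dih1_i cs i j)
    unfold CoxeterSystem.IsRightDescent at h
    omega
  · intro h
    have := hx _ (Dih1_j cs i j)
    unfold CoxeterSystem.IsRightDescent at h
    omega

private theorem Dih1_rmin_min {i j : B} (hij : i ≠ j) {x : W} (hx : Rmin cs i j x) :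
    ∀ t ∈ D cs i j, cs.length x ≤ cs.length (x * t) := by
  obtain ⟨x0, u, h0, hu, rfl⟩ := Dih1_exists_min cs i j x
  obtain ⟨k, hk, hcase⟩ := Dih1_cases cs hij hu
  rcases k with _ | k
  · have hu1 : u = 1 := by
      rcases hcase with h | h
      · rw [h, Dih1_zero]
      · rw [h, Dih1_zero]
    rw [hu1, mul_one]
    exact h0
  · exfalso
    have hl := Dih1_length cs hij hk
    have hl' := Dih1_length cs hij (k := k) (by omega)
    rcases hcase with h | h
    · apply hx.2
      unfold CoxeterSystem.IsRightDescent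
      rw [mul_assoc, Dih1_min_len cs hij h0 hu,
        Dih1_min_len cs hij h0 (Subgroup.mul_mem _ hu (Dih1_j cs i j)), h, Dih1_succ_mul, hl.1,
        hl'.2]
      omega
    · apply hx.1
      unfold CoxeterSystem.IsRightDescent
      rw [mul_assoc, Dih1_min_len cs hij h0 hu,
        Dih1_min_len cs hij h0 (Subgroup.mul_mem _ hu (Dih1_i cs i j)), h, Dih1_succ_mul, hl.2,
        hl'.1]
      omega

/-- `ℓ(x u) = ℓ(x) + ℓ(u)` for `x` without right descents in `{i,j}`. (Induct on `ℓ(u)` using `exch`, or: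
take an element of minimal length in the coset `x D`.) -/
theorem len_mul_D {i j : B} (hij : i ≠ j) {x u : W} (hx : Rmin cs i j x) (hu : u ∈ D cs i j) :
    cs.length (x * u) = cs.length x + cs.length u :=
  Dih1_min_len cs hij (Dih1_rmin_min cs hij hx) hu

private theorem Dih1_lmin_inv {i j : B} {y : W} (hy : Lmin cs i j y) : Rmin cs i j y⁻¹ :=
  ⟨fun h => hy.1 (cs.isRightDescent_inv_iff.1 h), fun h => hy.2 (cs.isRightDescent_inv_iff.1 h)⟩

private theorem Dih1_rmin_inv {i j : B} {y : W} (hy : Rmin cs i j y) : Lmin cs i j y⁻¹ :=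
  ⟨fun h => hy.1 (cs.isLeftDescent_inv_iff.1 h), fun h => hy.2 (cs.isLeftDescent_inv_iff.1 h)⟩

theorem len_D_mul {i j : B} (hij : i ≠ j) {y u : W} (hy : Lmin cs i j y) (hu : u ∈ D cs i j) :
    cs.length (u * y) = cs.length u + cs.length y := by
  have h := len_mul_D cs hij (Dih1_lmin_inv cs hy) (Subgroup.inv_mem _ hu)
  rw [← mul_inv_rev, cs.length_inv, cs.length_inv, cs.length_inv] at h
  omega

theorem decompR {i j : B} (hij : i ≠ j) (w : W) :
    ∃ x u, Rmin cs i j x ∧ u ∈ D cs i j ∧ w = x * u := by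
  obtain ⟨x, u, hx, hu, hw⟩ := Dih1_exists_min cs i j w
  exact ⟨x, u, Dih1_min_rmin cs hx, hu, hw⟩

theorem decompL {i j : B} (hij : i ≠ j) (w : W) :
    ∃ u y, Lmin cs i j y ∧ u ∈ D cs i j ∧ w = u * y := by
  obtain ⟨x, u, hx, hu, hw⟩ := decompR cs hij w⁻¹
  refine ⟨u⁻¹, x⁻¹, Dih1_rmin_inv cs hx, Subgroup.inv_mem _ hu, ?_⟩
  rw [← mul_inv_rev, ← hw, inv_inv]

theorem rd_mul_D {i j k : B} (hij : i ≠ j) (hk : k = i ∨ k = j) {x u : W} (hx : Rmin cs i j x)
    (hu : u ∈ D cs i j) : cs.IsRightDescent (x * u) k ↔ cs.IsRightDescent u k := by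
  have hkD : cs.simple k ∈ D cs i j := by
    rcases hk with rfl | rfl
    · exact Dih1_i cs _ _
    · exact Dih1_j cs _ _
  unfold CoxeterSystem.IsRightDescent
  rw [mul_assoc, len_mul_D cs hij hx hu, len_mul_D cs hij hx (Subgroup.mul_mem _ hu hkD)]
  omega

theorem ld_D_mul {i j k : B} (hij : i ≠ j) (hk : k = i ∨ k = j) {y u : W} (hy : Lmin cs i j y)
    (hu : u ∈ D cs i j) : cs.IsLeftDescent (u * y) k ↔ cs.IsLeftDescent u k := by
  have hkD : cs.simple k ∈ D cs i j := by
    rcases hk with rfl | rfl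
    · exact Dih1_i cs _ _
    · exact Dih1_j cs _ _
  unfold CoxeterSystem.IsLeftDescent
  rw [← mul_assoc, len_D_mul cs hij hy hu, len_D_mul cs hij hy (Subgroup.mul_mem _ hkD hu)]
  omega

theorem decompR_unique {i j : B} (hij : i ≠ j) {x x' u u' : W} (hx : Rmin cs i j x)
    (hx' : Rmin cs i j x') (hu : u ∈ D cs i j) (hu' : u' ∈ D cs i j) (h : x * u = x' * u') :
    x = x' ∧ u = u' := by
  have h1 : x = x' * (u' * u⁻¹) := by
    rw [← mul_assoc, ← h, mul_inv_cancel_right]
  have h2 : x' = x * (u * u'⁻¹) := by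
    rw [← mul_assoc, h, mul_inv_cancel_right]
  have h3 := len_mul_D cs hij hx' (Subgroup.mul_mem _ hu' (Subgroup.inv_mem _ hu))
  have h4 := len_mul_D cs hij hx (Subgroup.mul_mem _ hu (Subgroup.inv_mem _ hu'))
  rw [← h1] at h3
  rw [← h2] at h4
  have h5 : cs.length (u' * u⁻¹) = 0 := by omega
  rw [cs.length_eq_zero_iff] at h5
  have h6 : x = x' := by
    rw [h5, mul_one] at h1
    exact h1
  refine ⟨h6, ?_⟩
  rw [h6] at h
  exact mul_left_cancel h

theorem decompL_unique {i j : B} (hij : i ≠ j) {y y' u u' : W} (hy : Lmin cs i j y)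
    (hy' : Lmin cs i j y') (hu : u ∈ D cs i j) (hu' : u' ∈ D cs i j) (h : u * y = u' * y') :
    y = y' ∧ u = u' := by
  have h1 := decompR_unique cs hij (Dih1_lmin_inv cs hy) (Dih1_lmin_inv cs hy')
    (Subgroup.inv_mem _ hu) (Subgroup.inv_mem _ hu') (by rw [← mul_inv_rev, ← mul_inv_rev, h])
  exact ⟨inv_injective h1.1, inv_injective h1.2⟩

end Pool.Agent.PolyCell
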