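import Pool.Agent.PolyCell.Dih1

/-!
# Dihedral parabolic subgroups: longest element, descents
-/

open CoxeterSystem

namespace Pool.Agent.PolyCell

variable {B W : Type*} [Group W] {M : CoxeterMatrix B} (cs : CoxeterSystem M W)

theorem two_le_exp {i j : B} (hij : i ≠ j) (hm : M i j ≠ 0) : 2 ≤ M i j := by
  have := M.off_diagonal i j hij
  omega

private theorem Dih2_alt_succ (i j : B) (k : ℕ) :
    alt cs i j (k + 1) = alt cs j i k * cs.simple j := by
  unfold alt
  rw [alternatingWord_succ, cs.wordProd_concat]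

private theorem Dih2_alt_succ' (i j : B) (k : ℕ) :
    alt cs i j (k + 1) = cs.simple (if Even k then j else i) * alt cs i j k := by
  unfold alt
  rw [alternatingWord_succ', cs.wordProd_cons]

private theorem Dih2_alt_mul (i j : B) (k : ℕ) :
    alt cs j i (k + 1) * cs.simple i = alt cs i j k := by
  rw [Dih2_alt_succ, mul_assoc, cs.simple_mul_simple_self, mul_one]

private theorem Dih2_len_alt_le (i j : B) (k : ℕ) : cs.length (alt cs i j k) ≤ k := by
  have := cs.length_wordProd_le (alternatingWord i j k)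
  rwa [length_alternatingWord] at this

private theorem Dih2_alt_inv (k : ℕ) : ∀ i j : B,
    (alt cs i j k)⁻¹ = if Even k then alt cs j i k else alt cs i j k := by
  induction k with
  | zero => intro i j; simp [alt, alternatingWord]
  | succ k ih =>
    intro i j
    rw [Dih2_alt_succ, mul_inv_rev, cs.inv_simple, ih j i]
    by_cases hk : Even k
    · have h1 : ¬ Even (k + 1) := by rw [Nat.even_add_one]; exact not_not.2 hk
      rw [if_pos hk, if_neg h1, ← Dih2_alt_succ, Dih2_alt_succ' cs i j k, if_pos hk]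
    · have h1 : Even (k + 1) := by rw [Nat.even_add_one]; exact hk
      rw [if_neg hk, if_pos h1, Dih2_alt_succ' cs j i k, if_neg hk]

theorem wT_symm (i j : B) : wT cs i j = wT cs j i := by
  unfold wT alt
  exact cs.wordProd_braidWord_eq i j

theorem wT_mem (i j : B) : wT cs i j ∈ D cs i j := alt_mem_D cs i j _

theorem length_wT {i j : B} (hij : i ≠ j) : cs.length (wT cs i j) = M i j :=
  length_alt cs hij (Or.inr le_rfl)

theorem wT_inv (i j : B) : (wT cs i j)⁻¹ = wT cs i j := by
  unfold wT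
  rw [Dih2_alt_inv]
  split_ifs
  · have h := wT_symm cs i j
    unfold wT at h
    rw [M.symmetric j i] at h
    exact h.symm
  · rfl

theorem wT_mul_self (i j : B) : wT cs i j * wT cs i j = 1 := by
  nth_rewrite 1 [← wT_inv]
  exact inv_mul_cancel _

private theorem Dih2_wT_eq {i j : B} (k : ℕ) (hk : M i j = k + 1) :
    wT cs i j * cs.simple j = alt cs j i k ∧ wT cs i j * cs.simple i = alt cs i j k := by
  constructor
  · unfold wT
    rw [hk, Dih2_alt_mul]
  · rw [wT_symm]
    unfold wT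
    rw [M.symmetric j i, hk, Dih2_alt_mul]

theorem rd_wT {i j k : B} (hij : i ≠ j) (hm : M i j ≠ 0) (hk : k = i ∨ k = j) :
    cs.IsRightDescent (wT cs i j) k := by
  obtain ⟨n, hn⟩ := Nat.exists_eq_succ_of_ne_zero hm
  obtain ⟨h1, h2⟩ := Dih2_wT_eq cs n hn
  unfold IsRightDescent
  rw [length_wT cs hij, hn]
  rcases hk with rfl | rfl
  · rw [h2]
    have := Dih2_len_alt_le cs k j n
    omega
  · rw [h1]
    have := Dih2_len_alt_le cs k i n
    omega

theorem ld_wT {i j k : B} (hij : i ≠ j) (hm : M i j ≠ 0) (hk : k = i ∨ k = j) :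
    cs.IsLeftDescent (wT cs i j) k := by
  rw [← wT_inv, cs.isLeftDescent_inv_iff]
  exact rd_wT cs hij hm hk

/-- elements of `D` have length `≤ M i j` -/
theorem len_D_le {i j : B} (hij : i ≠ j) (hm : M i j ≠ 0) {u : W} (hu : u ∈ D cs i j) :
    cs.length u ≤ M i j := by
  obtain ⟨k, hk, rfl | rfl⟩ := D_cases cs hij hm hu
  · exact (Dih2_len_alt_le cs _ _ _).trans hk
  · exact (Dih2_len_alt_le cs _ _ _).trans hk

theorem eq_wT_of_len {i j : B} (hij : i ≠ j) (hm : M i j ≠ 0) {u : W} (hu : u ∈ D cs i j)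
    (h : cs.length u = M i j) : u = wT cs i j := by
  obtain ⟨k, hk, rfl | rfl⟩ := D_cases cs hij hm hu
  · have h1 := Dih2_len_alt_le cs i j k
    have h2 : k = M i j := by omega
    rw [h2]
    rfl
  · have h1 := Dih2_len_alt_le cs j i k
    have h2 : k = M j i := by rw [M.symmetric j i]; omega
    rw [h2, wT_symm]
    rfl

/-- an alternating element which is not the longest one has one right descent -/
private theorem Dih2_not_rd {i j : B} (hij : i ≠ j) {k : ℕ} (hk : M i j = 0 ∨ k < M i j) :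
    ¬ cs.IsRightDescent (alt cs i j k) i := by
  unfold IsRightDescent
  rw [← Dih2_alt_succ, length_alt cs hij.symm (k := k + 1) (by rw [M.symmetric j i]; omega),
    length_alt cs hij (by omega)]
  omega

private theorem Dih2_rd {i j : B} (hij : i ≠ j) {k : ℕ} (hk : M i j = 0 ∨ k + 1 ≤ M i j) :
    cs.IsRightDescent (alt cs i j (k + 1)) j := by
  unfold IsRightDescent
  rw [Dih2_alt_mul, length_alt cs hij hk]
  have := Dih2_len_alt_le cs j i k
  omega

/-- an element of `D` with both right descents is `w_T` -/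
theorem eq_wT_of_rd {i j : B} (hij : i ≠ j) (hm : M i j ≠ 0) {u : W} (hu : u ∈ D cs i j)
    (h1 : cs.IsRightDescent u i) (h2 : cs.IsRightDescent u j) : u = wT cs i j := by
  obtain ⟨k, hk, rfl | rfl⟩ := D_cases cs hij hm hu
  · by_cases h : k < M i j
    · exact absurd h1 (Dih2_not_rd cs hij (Or.inr h))
    · have h3 : k = M i j := by omega
      rw [h3]
      rfl
  · by_cases h : k < M i j
    · exact absurd h2 (Dih2_not_rd cs hij.symm (Or.inr (by rw [M.symmetric j i]; exact h)))
    · have h3 : k = M j i := by rw [M.symmetric j i]; omega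
      rw [h3, wT_symm]
      rfl

private theorem Dih2_inv_mem {i j : B} {u : W} (hu : u ∈ D cs i j) : u⁻¹ ∈ D cs i j :=
  (D cs i j).inv_mem hu

theorem eq_wT_of_ld {i j : B} (hij : i ≠ j) (hm : M i j ≠ 0) {u : W} (hu : u ∈ D cs i j)
    (h1 : cs.IsLeftDescent u i) (h2 : cs.IsLeftDescent u j) : u = wT cs i j := by
  have h := eq_wT_of_rd cs hij hm (Dih2_inv_mem cs hu) (cs.isRightDescent_inv_iff.2 h1)
    (cs.isRightDescent_inv_iff.2 h2)
  rw [← inv_inv u, h, wT_inv]

private theorem Dih2_suffix (i j : B) (k r : ℕ) :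
    ∃ w, alt cs i j (k + r) = w * alt cs i j k ∧ cs.length w ≤ r := by
  induction r with
  | zero => exact ⟨1, by simp, by simp⟩
  | succ r ih =>
    obtain ⟨w, h1, h2⟩ := ih
    refine ⟨cs.simple (if Even (k + r) then j else i) * w, ?_, ?_⟩
    · rw [← add_assoc, Dih2_alt_succ', h1, mul_assoc]
    · have := cs.length_mul_le (cs.simple (if Even (k + r) then j else i)) w
      rw [cs.length_simple] at this
      omega

private theorem Dih2_compl {i j : B} (hij : i ≠ j) {k : ℕ} (hk : k ≤ M i j) :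
    cs.length (wT cs i j * (alt cs i j k)⁻¹) + cs.length (alt cs i j k) = M i j := by
  obtain ⟨w, h1, h2⟩ := Dih2_suffix cs i j k (M i j - k)
  rw [Nat.add_sub_cancel' hk] at h1
  have h3 : wT cs i j = w * alt cs i j k := h1
  have h4 : wT cs i j * (alt cs i j k)⁻¹ = w := by rw [h3, mul_inv_cancel_right]
  have h5 := length_wT cs hij
  have h6 := cs.length_mul_le w (alt cs i j k)
  rw [← h3, h5] at h6
  have h7 := length_alt cs hij (k := k) (Or.inr hk)
  rw [h4]
  omega

private theorem Dih2_compl' {i j : B} (hij : i ≠ j) (hm : M i j ≠ 0) {u : W}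
    (hu : u ∈ D cs i j) :
    cs.length (wT cs i j * u⁻¹) + cs.length u = M i j := by
  obtain ⟨k, hk, rfl | rfl⟩ := D_cases cs hij hm hu
  · exact Dih2_compl cs hij hk
  · have h := Dih2_compl cs hij.symm (k := k) (by rw [M.symmetric j i]; exact hk)
    rw [← wT_symm, M.symmetric j i] at h
    exact h

/-- `u⁻¹ w_T` has the complementary length -/
theorem len_compl {i j : B} (hij : i ≠ j) (hm : M i j ≠ 0) {u : W} (hu : u ∈ D cs i j) :
    cs.length (u⁻¹ * wT cs i j) + cs.length u = M i j ∧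
      cs.length (wT cs i j * u) + cs.length u = M i j := by
  have h := Dih2_compl' cs hij hm (Dih2_inv_mem cs hu)
  rw [inv_inv, cs.length_inv] at h
  refine ⟨?_, h⟩
  rw [← cs.length_inv (u⁻¹ * wT cs i j), mul_inv_rev, inv_inv, wT_inv]
  exact h

/-- elements of `D` are alternating products of their length -/
private theorem Dih2_cases {i j : B} (hij : i ≠ j) {u : W} (hu : u ∈ D cs i j) :
    ∃ k, (M i j = 0 ∨ k ≤ M i j) ∧ (u = alt cs i j k ∨ u = alt cs j i k) ∧ cs.length u = k := by
  by_cases hm : M i j = 0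
  · obtain ⟨k, h⟩ := D_cases_inf cs hij hm hu
    refine ⟨k, Or.inl hm, h, ?_⟩
    rcases h with rfl | rfl
    · exact length_alt cs hij (Or.inl hm)
    · exact length_alt cs hij.symm (Or.inl (by rw [M.symmetric j i]; exact hm))
  · obtain ⟨k, hk, h⟩ := D_cases cs hij hm hu
    refine ⟨k, Or.inr hk, h, ?_⟩
    rcases h with rfl | rfl
    · exact length_alt cs hij (Or.inr hk)
    · exact length_alt cs hij.symm (Or.inr (by rw [M.symmetric j i]; exact hk))

private theorem Dih2_simple_inj {i j : B} (h : cs.simple i = cs.simple j) : i = j := by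
  by_contra hij
  refine pow_ne_one cs hij (r := 1) one_pos ?_ ?_
  · have := M.off_diagonal i j hij
    omega
  · rw [pow_one, h, cs.simple_mul_simple_self]

private theorem Dih2_simple_mem {i j k : B} (hij : i ≠ j) (h : cs.simple k ∈ D cs i j) :
    k = i ∨ k = j := by
  obtain ⟨n, -, h1, h2⟩ := Dih2_cases cs hij h
  rw [cs.length_simple] at h2
  rw [← h2] at h1
  rcases h1 with h1 | h1
  · right
    apply Dih2_simple_inj cs
    rw [h1]
    simp [alt, alternatingWord]
  · left
    apply Dih2_simple_inj cs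
    rw [h1]
    simp [alt, alternatingWord]

private theorem Dih2_word_mem {i j : B} (ω : List B) (h : ∀ x ∈ ω, x = i ∨ x = j) :
    cs.wordProd ω ∈ D cs i j := by
  induction ω with
  | nil => rw [cs.wordProd_nil]; exact (D cs i j).one_mem
  | cons a ω ih =>
    rw [cs.wordProd_cons]
    refine (D cs i j).mul_mem ?_ (ih fun x hx => h x (List.mem_cons_of_mem _ hx))
    apply Subgroup.subset_closure
    rcases h a List.mem_cons_self with rfl | rfl
    · exact Set.mem_insert _ _
    · exact Set.mem_insert_of_mem _ rfl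

private theorem Dih2_letters (k : ℕ) : ∀ (i j x : B), x ∈ alternatingWord i j k →
    x = i ∨ x = j := by
  induction k with
  | zero => intro i j x hx; simp [alternatingWord] at hx
  | succ k ih =>
    intro i j x hx
    rw [alternatingWord_succ, List.concat_eq_append, List.mem_append] at hx
    rcases hx with hx | hx
    · exact (ih j i x hx).symm
    · right
      simpa using hx

/-- descents of elements of `D` lie in `{i, j}` -/
theorem rd_of_mem_D {i j k : B} (hij : i ≠ j) {u : W} (hu : u ∈ D cs i j)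
    (h : cs.IsRightDescent u k) : k = i ∨ k = j := by
  obtain ⟨n, hn, h1, h2⟩ := Dih2_cases cs hij hu
  have key : ∃ ω : List B, (∀ x ∈ ω, x = i ∨ x = j) ∧ cs.IsReduced ω ∧ cs.wordProd ω = u := by
    rcases h1 with h1 | h1
    · refine ⟨alternatingWord i j n, fun x => Dih2_letters n i j x, ?_, h1.symm⟩
      have h3 : cs.wordProd (alternatingWord i j n) = u := h1.symm
      unfold CoxeterSystem.IsReduced
      rw [h3, h2, length_alternatingWord]
    · refine ⟨alternatingWord j i n, fun x hx => (Dih2_letters n j i x hx).symm, ?_, h1.symm⟩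
      have h3 : cs.wordProd (alternatingWord j i n) = u := h1.symm
      unfold CoxeterSystem.IsReduced
      rw [h3, h2, length_alternatingWord]
  obtain ⟨ω, h3, h4, h5⟩ := key
  obtain ⟨l, -, h6⟩ := exchange cs ω h4 k (by rw [h5]; exact h)
  have h7 : cs.wordProd ω * cs.simple k ∈ D cs i j := by
    rw [h6]
    exact Dih2_word_mem cs _ fun x hx => h3 x ((List.eraseIdx_sublist ω l).subset hx)
  rw [h5] at h7
  have h8 : cs.simple k ∈ D cs i j := by
    have := (D cs i j).mul_mem (Dih2_inv_mem cs hu) h7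
    rwa [inv_mul_cancel_left] at this
  exact Dih2_simple_mem cs hij h8

theorem ld_of_mem_D {i j k : B} (hij : i ≠ j) {u : W} (hu : u ∈ D cs i j)
    (h : cs.IsLeftDescent u k) : k = i ∨ k = j :=
  rd_of_mem_D cs hij (Dih2_inv_mem cs hu) (cs.isRightDescent_inv_iff.2 h)

private theorem Dih2_both {i j : B} (hij : i ≠ j) {u : W} (hu : u ∈ D cs i j)
    (h1 : cs.IsRightDescent u i) (h2 : cs.IsRightDescent u j) :
    M i j ≠ 0 ∧ u = wT cs i j := by
  have hm : M i j ≠ 0 := by
    intro hm
    obtain ⟨k, rfl | rfl⟩ := D_cases_inf cs hij hm hu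
    · exact Dih2_not_rd cs hij (Or.inl hm) h1
    · exact Dih2_not_rd cs hij.symm (Or.inl (by rw [M.symmetric j i]; exact hm)) h2
  exact ⟨hm, eq_wT_of_rd cs hij hm hu h1 h2⟩

/-- two different right descents: finite exponent and full component -/
theorem both_rd {i j : B} (hij : i ≠ j) {w : W} (h1 : cs.IsRightDescent w i)
    (h2 : cs.IsRightDescent w j) :
    M i j ≠ 0 ∧ ∃ z, Rmin cs i j z ∧ w = z * wT cs i j ∧ cs.length w = cs.length z + M i j := by
  obtain ⟨x, u, hx, hu, rfl⟩ := decompR cs hij w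
  rw [rd_mul_D cs hij (Or.inl rfl) hx hu] at h1
  rw [rd_mul_D cs hij (Or.inr rfl) hx hu] at h2
  obtain ⟨hm, rfl⟩ := Dih2_both cs hij hu h1 h2
  refine ⟨hm, x, hx, rfl, ?_⟩
  rw [len_mul_D cs hij hx hu, length_wT cs hij]

theorem both_ld {i j : B} (hij : i ≠ j) {w : W} (h1 : cs.IsLeftDescent w i)
    (h2 : cs.IsLeftDescent w j) :
    M i j ≠ 0 ∧ ∃ z, Lmin cs i j z ∧ w = wT cs i j * z ∧ cs.length w = M i j + cs.length z := by
  obtain ⟨u, y, hy, hu, rfl⟩ := decompL cs hij w
  rw [ld_D_mul cs hij (Or.inl rfl) hy hu] at h1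
  rw [ld_D_mul cs hij (Or.inr rfl) hy hu] at h2
  obtain ⟨hm, h3⟩ := Dih2_both cs hij (Dih2_inv_mem cs hu) (cs.isRightDescent_inv_iff.2 h1)
    (cs.isRightDescent_inv_iff.2 h2)
  have h4 : u = wT cs i j := by rw [← inv_inv u, h3, wT_inv]
  subst h4
  refine ⟨hm, y, hy, rfl, ?_⟩
  rw [len_D_mul cs hij hy hu, length_wT cs hij]

/-- if `i, j` are right descents of `w`, then `i` is a right descent of `w s_j` -/
theorem rd_of_both {i j : B} (hij : i ≠ j) {w : W} (h1 : cs.IsRightDescent w i)
    (h2 : cs.IsRightDescent w j) : cs.IsRightDescent (w * cs.simple j) i := by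
  obtain ⟨hm, z, hz, rfl, -⟩ := both_rd cs hij h1 h2
  have h3 := two_le_exp hij hm
  obtain ⟨n, hn⟩ : ∃ n, M i j = n + 1 + 1 := ⟨M i j - 2, by omega⟩
  rw [mul_assoc, (Dih2_wT_eq cs (n + 1) hn).1,
    rd_mul_D cs hij (Or.inl rfl) hz (alt_mem_D' cs i j _)]
  exact Dih2_rd cs hij.symm (Or.inr (by rw [M.symmetric j i]; omega))

/-- if moreover `3 ≤ M i j`, then `j` is a right descent of `w s_j s_i` -/
theorem rd_of_both' {i j : B} (hij : i ≠ j) (hm : 3 ≤ M i j) {w : W}
    (h1 : cs.IsRightDescent w i) (h2 : cs.IsRightDescent w j) :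
    cs.IsRightDescent (w * cs.simple j * cs.simple i) j := by
  obtain ⟨-, z, hz, rfl, -⟩ := both_rd cs hij h1 h2
  obtain ⟨n, hn⟩ : ∃ n, M i j = n + 1 + 1 + 1 := ⟨M i j - 3, by omega⟩
  rw [mul_assoc z, (Dih2_wT_eq cs (n + 1 + 1) hn).1, mul_assoc, Dih2_alt_mul,
    rd_mul_D cs hij (Or.inr rfl) hz (alt_mem_D cs i j _)]
  exact Dih2_rd cs hij (Or.inr (by omega))

private theorem Dih2_prev {a b : B} (hab : a ≠ b) {n : ℕ} (hn : M a b = 0 ∨ n ≤ M a b)
    (h2 : 2 ≤ n) {t : B} (htab : t = a ∨ t = b) (ht : cs.IsRightDescent (alt cs a b n) t) :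
    ∃ s, s ≠ t ∧ (s = a ∨ s = b) ∧ cs.IsRightDescent (alt cs a b n * cs.simple t) s := by
  obtain ⟨r, rfl⟩ : ∃ r, n = r + 1 + 1 := ⟨n - 2, by omega⟩
  rcases htab with rfl | rfl
  · have h3 : ¬ (M t b = 0 ∨ r + 1 + 1 < M t b) := fun h => Dih2_not_rd cs hab h ht
    have h4 : M t b = r + 1 + 1 := by omega
    have h5 : alt cs t b (r + 1 + 1) = wT cs t b := by unfold wT; rw [h4]
    refine ⟨b, hab.symm, Or.inr rfl, ?_⟩
    rw [h5, (Dih2_wT_eq cs (r + 1) h4).2]
    exact Dih2_rd cs hab (Or.inr (by omega))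
  · refine ⟨a, hab, Or.inl rfl, ?_⟩
    rw [Dih2_alt_mul]
    refine Dih2_rd cs hab.symm ?_
    rw [M.symmetric t a]
    omega

/-- `ℓ(u) ≥ 2`, `u ∈ D`, `t` a right descent of `u`: the other letter is a right descent of `u s_t` -/
theorem rd_prev {i j t : B} (hij : i ≠ j) {u : W} (hu : u ∈ D cs i j) (h2 : 2 ≤ cs.length u)
    (ht : cs.IsRightDescent u t) :
    ∃ s, s ≠ t ∧ (s = i ∨ s = j) ∧ (t = i ∨ t = j) ∧ cs.IsRightDescent (u * cs.simple t) s := by
  have htij := rd_of_mem_D cs hij hu ht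
  obtain ⟨n, hn, h1, h3⟩ := Dih2_cases cs hij hu
  rw [h3] at h2
  rcases h1 with rfl | rfl
  · obtain ⟨s, h4, h5, h6⟩ := Dih2_prev cs hij hn h2 htij ht
    exact ⟨s, h4, h5, htij, h6⟩
  · obtain ⟨s, h4, h5, h6⟩ := Dih2_prev cs hij.symm (by rw [M.symmetric j i]; exact hn) h2
      htij.symm ht
    exact ⟨s, h4, h5.symm, htij, h6⟩

/-- commuting generators -/
theorem comm_of_two {i j : B} (h : M i j = 2) :
    cs.simple i * cs.simple j = cs.simple j * cs.simple i := by
  have h1 := cs.simple_mul_simple_pow i j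
  rw [h, pow_two] at h1
  have h2 := eq_inv_of_mul_eq_one_left h1
  rw [h2, mul_inv_rev, cs.inv_simple, cs.inv_simple]

end Pool.Agent.PolyCell
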