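import Pool.Agent.PolyCell.TFree

/-!
# Statements of the key reducedness lemma (F) and of the wall lemma (Star)
-/

open CoxeterSystem

namespace Pool.Agent.PolyCell

variable {B W : Type*} [Group W] {M : CoxeterMatrix B} (cs : CoxeterSystem M W)

/-- statement F(y) -/
def FStat (y : W) : Prop :=
  ∀ (i j : B) (x u : W), i ≠ j → M i j ≠ 0 → Rmin cs i j x → Lmin cs i j y → u ∈ D cs i j →
    2 ≤ cs.length u →
    cs.length (x * u * y) = cs.length x + cs.length u + cs.length y ∧
      ∀ k, cs.IsRightDescent (x * u * y) k → cs.IsRightDescent (u * y) k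

/-- statement Star(y) -/
def StarStat (y : W) : Prop :=
  ∀ (X : W) (τ t k k' : B), cs.IsRightDescent X τ → ¬ cs.IsRightDescent X t → τ ≠ t → M τ t ≠ 0 →
    Lmin cs τ t y → y * cs.simple k = cs.simple t * y → ¬ cs.IsRightDescent y k → k' ≠ k →
    M k k' ≠ 0 → ¬ cs.IsRightDescent (cs.simple τ * y) k' → ¬ cs.IsRightDescent (X * y) k'

end Pool.Agent.PolyCell
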