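import Pool.Agent.PolyCell.FDefs

/-!
# Step for F

Proof (doc `proof/MP_338de0_co`, B). `y = 1`: `len_mul_D` and `rd_long` (`R(xu) ⊆ {i,j}`), `rd_mul_D`.
`y ≠ 1`: take `h ∈ R(y)`, `y' = y s_h` (`ℓ(y') < ℓ(y)`, `Lmin i j y'`): F(y') gives `ℓ(x u y') = ℓ(x)+ℓ(u)+ℓ(y')` and `R(xuy') ⊆ R(uy')`, and
`h ∉ R(u y')` (as `ℓ(u y' s_h) = ℓ(u) + ℓ(y)` by `len_D_mul`), so `h ∉ R(xuy')` and the length statement for `y` follows.
Let `g ∈ R(xuy)` and suppose `g ∉ R(uy)`. `h ∈ R(xuy)`, `h ∈ R(uy)`, so `g ≠ h`; `both_rd`: `M g h ≠ 0`, `T' = {g,h}`,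
`xuy = z w_{T'}`, `z` `T'`-minimal. Write `y = y1 b1` (`decompR` for `T'`): `b1 ∈ D_{T'}`, `b1 ≠ 1` (`h ∈ R(y)`), `g ∉ R(b1)` (`rd_mul_D`, since `g ∉ R(y)`, because
`g ∉ R(uy)` and `u.y` is reduced). `x u y1` is not `T'`-minimal: otherwise `g ∈ R(x u y1 b1)` iff `g ∈ R(b1)`. (Here and below `ℓ(y1) < ℓ(y)`, so F(y1), Star(y1) apply; `y1` is `{i,j}`-lmin as a prefix of
`y`.) So there is `k ∈ T'`, `k ∈ R(x u y1) ⊆ R(u y1)`, and `k ∉ R(y1)`. Deodhar (`deodhar`): `y1 s_k = s_t y1`, `t ∈ {i,j}`, `t ∈ R(u)`. Let `u1 = u s_t`, `k'` the other letter of `T'`; `u y1 = u1 s_t y1 = u1 y1 s_k`, so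
`u1 y1 = u y1 s_k`, `k ∉ R(u1 y1)`. If `k' ∈ R(u1 y1)`: `deodhar` again: `y1 s_k' = s_t' y1`, `t' ∈ R(u1)`, `t' ≠ t`; by `eq_one_of_conj` `y1 = 1`;
then `{g,h} = {i,j}` (`s_k = s_t`, `s_k' = s_t'`) and `y = b1 ∈ D i j`, `Lmin`, so `y = 1`, contradiction. So `u1 y1` is `T'`-rmin, `u y = u1 y1 (s_k b1)`, `s_k b1 ∈ D_{T'}`, and `g ∉ R(uy)` means
`g ∉ R(s_k b1)` (`rd_mul_D`); `x u y = (x u1 y1)(s_k b1)`, `g ∈ R(xuy)`: hence `x u1 y1` is not `T'`-rmin. `k ∉ R(x u1 y1)` because `x u1 y1 s_k = x u y1` has length `ℓ(x)+ℓ(u)+ℓ(y1)` (F(y1)), while `ℓ(x u1 y1) ≤ ℓ(x)+ℓ(u)-1+ℓ(y1)`. So `k' ∈ R(x u1 y1)`. If `ℓ(u1) ≥ 2`: F(y1): `k' ∈ R(u1 y1)`, contradiction. If `ℓ(u1) = 1`, `u1 = s_τ`, `τ ≠ t`, `{τ,t} = {i,j}`: Star(y1) for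
`X = x s_τ` (`t ∉ R(x s_τ)` by `rd_mul_D`; `y1 s_k = s_t y1`; `k' ∉ R(s_τ y1)`; `M k k' ≠ 0`) gives `k' ∉ R(X y1)`, contradiction.
-/

open CoxeterSystem

namespace Pool.Agent.PolyCell

variable {B W : Type*} [Group W] {M : CoxeterMatrix B} (cs : CoxeterSystem M W)

/-- prefixes of left minimal elements -/
private theorem FStep_prefix {i j : B} {y1 b : W} (hred : cs.length (y1 * b) = cs.length y1 + cs.length b)
    (h : Lmin cs i j (y1 * b)) : Lmin cs i j y1 := by
  have key : ∀ k, cs.IsLeftDescent y1 k → cs.IsLeftDescent (y1 * b) k := by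
    intro k hk
    unfold IsLeftDescent at hk ⊢
    have h1 := cs.length_mul_le (cs.simple k * y1) b
    rw [mul_assoc] at h1
    omega
  exact ⟨fun h1 => h.1 (key i h1), fun h1 => h.2 (key j h1)⟩

/-- membership in the two-element set -/
private theorem FStep_lmin {i j τ t : B} {y : W} (h : Lmin cs i j y) (hτ : τ = i ∨ τ = j)
    (ht : t = i ∨ t = j) : Lmin cs τ t y := by
  constructor
  · rcases hτ with rfl | rfl
    · exact h.1
    · exact h.2
  · rcases ht with rfl | rfl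
    · exact h.1
    · exact h.2

private theorem FStep_simple_mem {i j t : B} (ht : t = i ∨ t = j) : cs.simple t ∈ D cs i j := by
  apply Subgroup.subset_closure
  rcases ht with rfl | rfl
  · exact Or.inl rfl
  · exact Or.inr rfl

private theorem FStep_M {i j τ t : B} (hm : M i j ≠ 0) (hne : τ ≠ t) (hτ : τ = i ∨ τ = j)
    (ht : t = i ∨ t = j) : M τ t ≠ 0 := by
  rcases hτ with rfl | rfl
  · rcases ht with rfl | rfl
    · exact absurd rfl hne
    · exact hm
  · rcases ht with rfl | rfl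
    · rw [M.symmetric]
      exact hm
    · exact absurd rfl hne

/-- step for F -/
theorem f_step (hM : TF M) (y : W)
    (ih : ∀ z, cs.length z < cs.length y → FStat cs z ∧ StarStat cs z) : FStat cs y := by
  intro i j x u hij hm hx hy hu h2
  by_cases hy1 : y = 1
  · subst hy1
    rw [mul_one, mul_one, cs.length_one, add_zero]
    refine ⟨len_mul_D cs hij hx hu, fun k hk => ?_⟩
    exact (rd_mul_D cs hij (rd_long cs hM hij hm hx hu h2 hk) hx hu).1 hk
  obtain ⟨h, hh⟩ := cs.exists_rightDescent_of_ne_one hy1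
  -- the prefix `y s_h`
  set y' := y * cs.simple h with hy'def
  have hy'len : cs.length y' + 1 = cs.length y := (cs.isRightDescent_iff).1 hh
  have hyy' : y = y' * cs.simple h := by
    rw [hy'def, cs.simple_mul_simple_cancel_right]
  have hy' : Lmin cs i j y' := by
    refine FStep_prefix cs (b := cs.simple h) ?_ (by rwa [← hyy'])
    rw [← hyy', cs.length_simple]
    omega
  obtain ⟨F1, F2⟩ := (ih y' (by omega)).1 i j x u hij hm hx hy' hu h2
  have luy := len_D_mul cs hij hy hu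
  have luy' := len_D_mul cs hij hy' hu
  have huy : u * y = u * y' * cs.simple h := by rw [mul_assoc, ← hyy']
  have hxuy : x * u * y = x * u * y' * cs.simple h := by rw [mul_assoc (x * u), ← hyy']
  have hn1 : ¬ cs.IsRightDescent (u * y') h := by
    unfold IsRightDescent
    rw [← huy]
    omega
  have hn2 : ¬ cs.IsRightDescent (x * u * y') h := fun h0 => hn1 (F2 h h0)
  have hlen : cs.length (x * u * y) = cs.length x + cs.length u + cs.length y := by
    have := (cs.not_isRightDescent_iff).1 hn2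
    rw [hxuy, this]
    omega
  refine ⟨hlen, fun g hg => ?_⟩
  by_contra hng
  have hh1 : cs.IsRightDescent (x * u * y) h := by
    unfold IsRightDescent
    rw [hlen, hxuy, cs.simple_mul_simple_cancel_right]
    omega
  have hh2 : cs.IsRightDescent (u * y) h := by
    unfold IsRightDescent
    rw [luy, huy, cs.simple_mul_simple_cancel_right]
    omega
  have hgh : g ≠ h := by
    rintro rfl
    exact hng hh2
  obtain ⟨hMgh, -⟩ := both_rd cs hgh hg hh1
  have hgy : ¬ cs.IsRightDescent y g := by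
    intro h0
    apply hng
    unfold IsRightDescent at h0 ⊢
    have h1 := cs.length_mul_le u (y * cs.simple g)
    rw [← mul_assoc] at h1
    omega
  obtain ⟨y1, b1, hy1m, hb1, hyb⟩ := decompR cs hgh y
  have lyb : cs.length y = cs.length y1 + cs.length b1 := by
    rw [hyb]
    exact len_mul_D cs hgh hy1m hb1
  have hb1h : cs.IsRightDescent b1 h := by
    rw [hyb] at hh
    exact (rd_mul_D cs hgh (Or.inr rfl) hy1m hb1).1 hh
  have hb1g : ¬ cs.IsRightDescent b1 g := by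
    intro h0
    apply hgy
    rw [hyb]
    exact (rd_mul_D cs hgh (Or.inl rfl) hy1m hb1).2 h0
  have lb1 : 0 < cs.length b1 := lt_of_le_of_lt (Nat.zero_le _) hb1h
  have hy1l : Lmin cs i j y1 := by
    refine FStep_prefix cs (b := b1) ?_ (by rwa [← hyb])
    rw [← hyb, lyb]
  obtain ⟨ihF, ihS⟩ := ih y1 (by omega)
  obtain ⟨G1, G2⟩ := ihF i j x u hij hm hx hy1l hu h2
  -- `x u y1` is not right minimal
  have hnot : ¬ Rmin cs g h (x * u * y1) := by
    intro h0
    apply hb1g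
    refine (rd_mul_D cs hgh (Or.inl rfl) h0 hb1).1 ?_
    rwa [mul_assoc, ← hyb]
  obtain ⟨k, k', hkk, hk, hk', hMkk, hcov, hkd⟩ : ∃ k k', k ≠ k' ∧ (k = g ∨ k = h) ∧
      (k' = g ∨ k' = h) ∧ M k k' ≠ 0 ∧ (∀ P : B → Prop, P k → P k' → P g ∧ P h) ∧
      cs.IsRightDescent (x * u * y1) k := by
    by_cases h0 : cs.IsRightDescent (x * u * y1) g
    · exact ⟨g, h, hgh, Or.inl rfl, Or.inr rfl, hMgh, fun P h1 h2 => ⟨h1, h2⟩, h0⟩
    · have h1 : cs.IsRightDescent (x * u * y1) h := by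
        by_contra h1
        exact hnot ⟨h0, h1⟩
      refine ⟨h, g, hgh.symm, Or.inr rfl, Or.inl rfl, ?_, fun P h1 h2 => ⟨h2, h1⟩, h1⟩
      rw [M.symmetric]
      exact hMgh
  have hkd' := G2 k hkd
  have hky1 : ¬ cs.IsRightDescent y1 k := by
    rcases hk with rfl | rfl
    · exact hy1m.1
    · exact hy1m.2
  have hk'y1 : ¬ cs.IsRightDescent y1 k' := by
    rcases hk' with rfl | rfl
    · exact hy1m.1
    · exact hy1m.2
  obtain ⟨t, ht, hyt, hut⟩ := deodhar cs hij hy1l hu hkd' hky1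
  set u1 := u * cs.simple t with hu1def
  have hu1 : u1 ∈ D cs i j := Subgroup.mul_mem _ hu (FStep_simple_mem cs ht)
  have lu1 : cs.length u1 + 1 = cs.length u := (cs.isRightDescent_iff).1 hut
  have huu1 : u = u1 * cs.simple t := by
    rw [hu1def, cs.simple_mul_simple_cancel_right]
  have hu1t : ¬ cs.IsRightDescent u1 t := by
    unfold IsRightDescent
    rw [← huu1]
    omega
  have e1 : u1 * y1 * cs.simple k = u * y1 := by
    rw [mul_assoc, hyt, ← mul_assoc, ← huu1]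
  have lu1y1 := len_D_mul cs hij hy1l hu1
  have luy1 := len_D_mul cs hij hy1l hu
  have hku1 : ¬ cs.IsRightDescent (u1 * y1) k := by
    unfold IsRightDescent
    rw [e1]
    omega
  have hk'u1 : ¬ cs.IsRightDescent (u1 * y1) k' := by
    intro h0
    obtain ⟨t', ht', hyt', hut'⟩ := deodhar cs hij hy1l hu1 h0 hk'y1
    have htt : t ≠ t' := by
      rintro rfl
      exact hu1t hut'
    have hone : y1 = 1 := eq_one_of_conj cs hM hij hm hy1l ht ht' htt hkk hyt hyt' hky1 hk'y1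
    rw [hone, mul_one] at hkd' h0
    have hkij := rd_of_mem_D cs hij hu hkd'
    have hk'ij := rd_of_mem_D cs hij hu1 h0
    obtain ⟨hgij, hhij⟩ := hcov (fun c => c = i ∨ c = j) hkij hk'ij
    obtain ⟨e, he⟩ := cs.exists_leftDescent_of_ne_one hy1
    have hyD : y ∈ D cs g h := by
      rw [hyb, hone, one_mul]
      exact hb1
    have heij : e = i ∨ e = j := by
      rcases ld_of_mem_D cs hgh hyD he with rfl | rfl
      · exact hgij
      · exact hhij
    rcases heij with rfl | rfl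
    · exact hy.1 he
    · exact hy.2 he
  have hRm : ∀ w : W, ¬ cs.IsRightDescent w k → ¬ cs.IsRightDescent w k' → Rmin cs g h w :=
    fun w h1 h2 => hcov (fun c => ¬ cs.IsRightDescent w c) h1 h2
  have hkD : cs.simple k * b1 ∈ D cs g h := Subgroup.mul_mem _ (FStep_simple_mem cs hk) hb1
  have e2 : u * y = u1 * y1 * (cs.simple k * b1) := by
    rw [← mul_assoc, e1, hyb, mul_assoc]
  have hgsb : ¬ cs.IsRightDescent (cs.simple k * b1) g := by
    intro h0
    apply hng
    rw [e2]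
    exact (rd_mul_D cs hgh (Or.inl rfl) (hRm _ hku1 hk'u1) hkD).2 h0
  have e3 : x * u * y = x * (u1 * y1) * (cs.simple k * b1) := by
    rw [mul_assoc x u y, e2, mul_assoc x]
  have hkx : ¬ cs.IsRightDescent (x * (u1 * y1)) k := by
    unfold IsRightDescent
    have e4 : x * (u1 * y1) * cs.simple k = x * u * y1 := by
      rw [mul_assoc, e1, mul_assoc]
    rw [e4, G1]
    have := cs.length_mul_le x (u1 * y1)
    omega
  have hk'x : cs.IsRightDescent (x * (u1 * y1)) k' := by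
    by_contra h0
    apply hgsb
    refine (rd_mul_D cs hgh (Or.inl rfl) (hRm _ hkx h0) hkD).1 ?_
    rwa [← e3]
  rw [← mul_assoc] at hk'x
  rcases Nat.lt_or_ge (cs.length u1) 2 with hl | hl
  · obtain ⟨τ, hτ⟩ := (cs.length_eq_one_iff).1 (show cs.length u1 = 1 by omega)
    have hτd : cs.IsRightDescent u1 τ := by
      unfold IsRightDescent
      rw [hτ, cs.simple_mul_simple_self, cs.length_one, cs.length_simple]
      exact one_pos
    have hτij := rd_of_mem_D cs hij hu1 hτd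
    have hτt : τ ≠ t := by
      rintro rfl
      exact hu1t hτd
    refine ihS (x * cs.simple τ) τ t k k' ?_ ?_ hτt (FStep_M hm hτt hτij ht)
      (FStep_lmin cs hy1l hτij ht) hyt hky1 hkk.symm hMkk ?_ ?_
    · rw [← hτ]
      exact (rd_mul_D cs hij hτij hx hu1).2 hτd
    · rw [← hτ]
      exact fun h0 => hu1t ((rd_mul_D cs hij ht hx hu1).1 h0)
    · rw [← hτ]
      exact hk'u1
    · rw [← hτ]
      exact hk'x
  · exact hk'u1 ((ihF i j x u1 hij hm hx hy1l hu1 hl).2 k' hk'x)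

end Pool.Agent.PolyCell
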