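import Pool.Agent.PolyCell.StarStep
import Pool.Agent.PolyCell.FStep

/-!
# The key reducedness lemma (F) and the wall lemma (Star)
-/

open CoxeterSystem

namespace Pool.Agent.PolyCell

variable {B W : Type*} [Group W] {M : CoxeterMatrix B} (cs : CoxeterSystem M W)

theorem f_and_star (hM : TF M) (y : W) : FStat cs y ∧ StarStat cs y := by
  induction hn : cs.length y using Nat.strong_induction_on generalizing y with
  | _ n ih =>
    subst hn
    exact ⟨f_step cs hM y fun z hz => ih _ hz z rfl, star_step cs hM y fun z hz => ih _ hz z rfl⟩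

theorem fstat (hM : TF M) (y : W) : FStat cs y := (f_and_star cs hM y).1

theorem starstat (hM : TF M) (y : W) : StarStat cs y := (f_and_star cs hM y).2

/-- inverse form of F: left descents -/
theorem f_left (hM : TF M) {i j k : B} {x u y : W} (hij : i ≠ j) (hm : M i j ≠ 0)
    (hx : Rmin cs i j x) (hy : Lmin cs i j y) (hu : u ∈ D cs i j) (h2 : 2 ≤ cs.length u)
    (h : cs.IsLeftDescent (x * u * y) k) : cs.IsLeftDescent (x * u) k := by
  have hy' : Rmin cs i j y⁻¹ :=
    ⟨fun h' => hy.1 ((cs.isRightDescent_inv_iff).1 h'), fun h' => hy.2 ((cs.isRightDescent_inv_iff).1 h')⟩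
  have hx' : Lmin cs i j x⁻¹ :=
    ⟨fun h' => hx.1 ((cs.isLeftDescent_inv_iff).1 h'), fun h' => hx.2 ((cs.isLeftDescent_inv_iff).1 h')⟩
  have hu' : u⁻¹ ∈ D cs i j := (D cs i j).inv_mem hu
  have h2' : 2 ≤ cs.length u⁻¹ := by rwa [cs.length_inv]
  have hF := (fstat cs hM x⁻¹ i j y⁻¹ u⁻¹ hij hm hy' hx' hu' h2').2 k
  have e1 : (x * u * y)⁻¹ = y⁻¹ * u⁻¹ * x⁻¹ := by group
  have e2 : (x * u)⁻¹ = u⁻¹ * x⁻¹ := by group
  rw [← e1, ← e2, cs.isRightDescent_inv_iff, cs.isRightDescent_inv_iff] at hF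
  exact hF h

end Pool.Agent.PolyCell
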