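import Pool.Agent.PolyCell.FacCl
import Pool.Agent.PolyCell.FStar

/-!
# C2, C3

C2 (`le_mul_far`). Induction on `ℓ(Y)`. `e ∉ R(Y)` (else `both_rd` gives `M τ e ≠ 0`). Suppose `Fac N (Y s_e)`; `fac_step`:
(i) `i' ≠ j'` in `R(Y s_e)`, `N < M i' j'`. If `e ∉ {i',j'}`, then `i', j' ∈ R(Y)` (`rd_of_both` with `e`), `Fac N Y`, contradiction. If `{i',j'} = {e,f}`: `f ∈ R(Y)`, `f ≠ τ` (`M τ e = 0`),
`3 ≤ M e f`; (*) `e ∈ R(Y s_f)` by `rd_of_both'` (applied to `w = Y s_e`, `j = e`, `i = f`) and `τ ∈ R(Y s_f)` by `rd_of_both`: so `M τ e ≠ 0` by `both_rd`, contradiction.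
(ii) `f ∈ R(Y s_e)`, `Fac N (Y s_e s_f)`. `f = e`: `Fac N Y`, contradiction. `f ≠ e`: `f ∈ R(Y)`, `M e f ≠ 0`, `f ≠ τ`. `M e f ≥ 3`: (*). `M e f = 2`: `Y s_e s_f = (Y s_f) s_e`, `τ ∈ R(Y s_f)`, induction for `Y s_f`.

C3 (`le_mul_dih`). Induction on `ℓ(u)`; `ℓ(u) = 1`: `u = s_c`. `ℓ(u) ≥ 2`: suppose `Fac N (Xu)`; `fac_step`: (i) both letters are in `R(Xu) ⊆ {i,j}` (`rd_long`), so in `R(u)`: `u = w_T`, contradiction to the length.
(ii) `e ∈ R(Xu)`, `Fac N (X u s_e)`: `e ∈ {i,j}`, `e ∈ R(u)`, `u' = u s_e ≠ 1` is an initial factor of `u`, its left descent is `c` (the only left descent of `u`, otherwise `u = w_T`): induction.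
-/

open CoxeterSystem

namespace Pool.Agent.PolyCell

variable {B W : Type*} [Group W] {M : CoxeterMatrix B} (cs : CoxeterSystem M W)

/-- the contradiction (*) -/
private theorem Fac2_star {Y : W} {τ e f : B} (hτ : cs.IsRightDescent Y τ) (hne : τ ≠ e)
    (hm : M τ e = 0) (hfe : f ≠ e) (hfτ : f ≠ τ) (h3 : 3 ≤ M f e)
    (hf : cs.IsRightDescent (Y * cs.simple e) f) (he : cs.IsRightDescent (Y * cs.simple e) e)
    (hfY : cs.IsRightDescent Y f) : False := by
  have h1 := rd_of_both' cs hfe h3 hf he
  rw [cs.simple_mul_simple_cancel_right] at h1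
  have h2 := rd_of_both cs hfτ.symm hτ hfY
  exact (both_rd cs hne h2 h1).1 hm

/-- C2. Induction on `ℓ(Y)`; use `fac_step` for `Y s_e`. -/
theorem le_mul_far {N : ℕ} (hN : 2 ≤ N) {Y : W} {τ e : B} (hY : Le cs N Y)
    (hτ : cs.IsRightDescent Y τ) (hne : τ ≠ e) (hm : M τ e = 0) :
    Le cs N (Y * cs.simple e) := by
  induction hn : cs.length Y using Nat.strong_induction_on generalizing Y with
  | _ n ih =>
    subst hn
    have heY : ¬ cs.IsRightDescent Y e := fun h => (both_rd cs hne hτ h).1 hm
    have he : cs.IsRightDescent (Y * cs.simple e) e := by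
      by_contra h
      exact heY ((cs.isRightDescent_iff_not_isRightDescent_mul).2 h)
    have hback : ∀ f, f ≠ e → cs.IsRightDescent (Y * cs.simple e) f → cs.IsRightDescent Y f := by
      intro f hfe hf
      have h := rd_of_both cs hfe hf he
      rwa [cs.simple_mul_simple_cancel_right] at h
    have hsymm : ∀ f, M f e ≠ 0 → f ≠ τ := by
      rintro f hf rfl
      exact hf hm
    intro hFac
    rcases fac_step cs hFac with ⟨i', j', hij', hNm, hi', hj'⟩ | ⟨f, hf, hF⟩
    · by_cases h1 : i' = e
      · subst h1
        have h3 : 3 ≤ M j' i' := by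
          rw [M.symmetric]
          omega
        exact Fac2_star cs hτ hne hm hij'.symm (hsymm j' (by omega)) h3 hj' he
          (hback j' hij'.symm hj')
      · by_cases h2 : j' = e
        · subst h2
          have h3 : 3 ≤ M i' j' := by omega
          exact Fac2_star cs hτ hne hm hij' (hsymm i' (by omega)) h3 hi' he (hback i' hij' hi')
        · exact hY (fac_of_both cs hij' hNm (hback i' h1 hi') (hback j' h2 hj'))
    · by_cases hfe : f = e
      · subst hfe
        rw [cs.simple_mul_simple_cancel_right] at hF
        exact hY hF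
      · have hfY := hback f hfe hf
        have hm0 : M f e ≠ 0 := (both_rd cs hfe hf he).1
        have hfτ := hsymm f hm0
        rcases Nat.lt_or_ge (M f e) 3 with hlt | hge
        · have h2 : M f e = 2 := by
            have := two_le_exp hfe hm0
            omega
          have hc := comm_of_two cs h2
          have e1 : Y * cs.simple e * cs.simple f = Y * cs.simple f * cs.simple e := by
            rw [mul_assoc, ← hc, mul_assoc]
          rw [e1] at hF
          refine ih (cs.length (Y * cs.simple f)) hfY (Y := Y * cs.simple f) ?_ ?_ rfl hF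
          · exact fun h => hY (fac_of_fac_mul cs hfY h)
          · exact rd_of_both cs hfτ.symm hτ hfY
        · exact Fac2_star cs hτ hne hm hfe hfτ hge hf he hfY

/-- C3. Induction on `ℓ(u)`; use `fac_step` and `rd_long`. -/
theorem le_mul_dih (hM : TF M) {N : ℕ} {i j c : B} (hij : i ≠ j) (hm : M i j ≠ 0) {X u : W}
    (hX : Rmin cs i j X) (hu : u ∈ D cs i j) (hlt : cs.length u < M i j)
    (hc : cs.IsLeftDescent u c) (hle : Le cs N (X * cs.simple c)) : Le cs N (X * u) := by
  induction hn : cs.length u using Nat.strong_induction_on generalizing u with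
  | _ n ih =>
    subst hn
    have hcij := ld_of_mem_D cs hij hu hc
    have hc1 : cs.length (cs.simple c * u) + 1 = cs.length u := (cs.isLeftDescent_iff).1 hc
    rcases Nat.lt_or_ge (cs.length u) 2 with h2 | h2
    · have h0 : cs.length (cs.simple c * u) = 0 := by omega
      have h1 := (cs.length_eq_zero_iff).1 h0
      have h3 : u = cs.simple c := by
        have h4 : cs.simple c * (cs.simple c * u) = cs.simple c := by rw [h1, mul_one]
        rwa [cs.simple_mul_simple_cancel_left] at h4
      rw [h3]
      exact hle
    · have hno : ∀ k l, k ≠ l → (k = i ∨ k = j) → (l = i ∨ l = j) →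
          (cs.IsRightDescent u k ∧ cs.IsRightDescent u l ∨
            cs.IsLeftDescent u k ∧ cs.IsLeftDescent u l) → False := by
        rintro k l hkl hk hl hd
        have hw : u = wT cs i j := by
          rcases hk with rfl | rfl <;> rcases hl with rfl | rfl
          · exact absurd rfl hkl
          · rcases hd with hd | hd
            · exact eq_wT_of_rd cs hij hm hu hd.1 hd.2
            · exact eq_wT_of_ld cs hij hm hu hd.1 hd.2
          · rcases hd with hd | hd
            · exact eq_wT_of_rd cs hij hm hu hd.2 hd.1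
            · exact eq_wT_of_ld cs hij hm hu hd.2 hd.1
          · exact absurd rfl hkl
        rw [hw, length_wT cs hij] at hlt
        exact lt_irrefl _ hlt
      intro hFac
      rcases fac_step cs hFac with ⟨i', j', hij', hNm, hi', hj'⟩ | ⟨e, he, hF⟩
      · have hi2 := rd_long cs hM hij hm hX hu h2 hi'
        have hj2 := rd_long cs hM hij hm hX hu h2 hj'
        exact hno i' j' hij' hi2 hj2 (Or.inl ⟨(rd_mul_D cs hij hi2 hX hu).1 hi',
          (rd_mul_D cs hij hj2 hX hu).1 hj'⟩)
      · have he2 := rd_long cs hM hij hm hX hu h2 he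
        have heu := (rd_mul_D cs hij he2 hX hu).1 he
        have he1 : cs.length (u * cs.simple e) + 1 = cs.length u := (cs.isRightDescent_iff).1 heu
        have hu' : u * cs.simple e ∈ D cs i j := by
          refine (D cs i j).mul_mem hu ?_
          apply Subgroup.subset_closure
          rcases he2 with rfl | rfl
          · exact Set.mem_insert _ _
          · exact Set.mem_insert_of_mem _ (Set.mem_singleton _)
        have hne : u * cs.simple e ≠ 1 := by
          intro h
          rw [h, cs.length_one] at he1
          omega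
        obtain ⟨c', hc'⟩ := cs.exists_leftDescent_of_ne_one hne
        have hc'1 : cs.length (cs.simple c' * (u * cs.simple e)) + 1 =
            cs.length (u * cs.simple e) := (cs.isLeftDescent_iff).1 hc'
        have hc'u : cs.IsLeftDescent u c' := by
          show cs.length (cs.simple c' * u) < cs.length u
          have h5 : cs.simple c' * u = cs.simple c' * (u * cs.simple e) * cs.simple e := by
            rw [← mul_assoc, cs.simple_mul_simple_cancel_right]
          have h6 := cs.length_mul_le (cs.simple c' * (u * cs.simple e)) (cs.simple e)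
          rw [← h5, cs.length_simple] at h6
          omega
        have hcc : c' = c := by
          by_contra h
          exact hno c' c h (ld_of_mem_D cs hij hu hc'u) hcij (Or.inr ⟨hc'u, hc⟩)
        subst hcc
        have h7 := ih (cs.length (u * cs.simple e)) (by omega) (u := u * cs.simple e) hu'
          (by omega) hc' rfl
        rw [← mul_assoc] at h7
        exact h7 hF

end Pool.Agent.PolyCell
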