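import Pool.Agent.PolyCell.Dih3

/-!
# C1: closure properties of `Le`
-/

open CoxeterSystem

namespace Pool.Agent.PolyCell

variable {B W : Type*} [Group W] {M : CoxeterMatrix B} (cs : CoxeterSystem M W)

theorem fac_mono {N N' : ℕ} (h : N ≤ N') {w : W} (hw : Fac cs N' w) : Fac cs N w := by
  obtain ⟨i, j, hij, hm, h1⟩ := hw
  exact ⟨i, j, hij, lt_of_le_of_lt h hm, h1⟩

theorem le_mono {N N' : ℕ} (h : N ≤ N') {w : W} (hw : Le cs N w) : Le cs N' w := by
  exact fun hf => hw (fac_mono cs h hf)

theorem fac_of_prefix {N : ℕ} {x y : W} (h : Red cs x y) (hx : Fac cs N x) : Fac cs N (x * y) := by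
  obtain ⟨i, j, hij, hm, u, x', hx', hl⟩ := hx
  refine ⟨i, j, hij, hm, u, x' * y, ?_, ?_⟩
  · rw [hx']
    simp only [mul_assoc]
  · have h0 : cs.length (x * y) = cs.length x + cs.length y := h
    have h1 : x * y = u * wT cs i j * (x' * y) := by
      rw [hx']
      simp only [mul_assoc]
    have h2 := cs.length_mul_le (u * wT cs i j) (x' * y)
    have h3 := cs.length_mul_le u (wT cs i j)
    have h4 := cs.length_mul_le x' y
    rw [length_wT cs hij] at h3
    rw [← h1] at h2
    omega

theorem fac_of_suffix {N : ℕ} {x y : W} (h : Red cs x y) (hy : Fac cs N y) : Fac cs N (x * y) := by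
  obtain ⟨i, j, hij, hm, u, y', hy', hl⟩ := hy
  refine ⟨i, j, hij, hm, x * u, y', ?_, ?_⟩
  · rw [hy']
    simp only [mul_assoc]
  · have h0 : cs.length (x * y) = cs.length x + cs.length y := h
    have h1 : x * y = x * u * wT cs i j * y' := by
      rw [hy']
      simp only [mul_assoc]
    have h2 := cs.length_mul_le (x * u * wT cs i j) y'
    have h3 := cs.length_mul_le (x * u) (wT cs i j)
    have h4 := cs.length_mul_le x u
    rw [length_wT cs hij] at h3
    rw [← h1] at h2
    omega

theorem le_prefix {N : ℕ} {x y : W} (h : Red cs x y) (hx : Le cs N (x * y)) : Le cs N x :=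
  fun hf => hx (fac_of_prefix cs h hf)

theorem le_suffix {N : ℕ} {x y : W} (h : Red cs x y) (hx : Le cs N (x * y)) : Le cs N y :=
  fun hf => hx (fac_of_suffix cs h hf)

theorem fac_inv {N : ℕ} {x : W} : Fac cs N x⁻¹ ↔ Fac cs N x := by
  have key : ∀ z : W, Fac cs N z → Fac cs N z⁻¹ := by
    intro z hz
    obtain ⟨i, j, hij, hm, u, y, hy, hl⟩ := hz
    refine ⟨i, j, hij, hm, y⁻¹, u⁻¹, ?_, ?_⟩
    · rw [hy, mul_inv_rev, mul_inv_rev, wT_inv, mul_assoc]
    · rw [cs.length_inv, cs.length_inv, cs.length_inv, hl]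
      omega
  constructor
  · intro h
    have := key _ h
    rwa [inv_inv] at this
  · exact key x

theorem le_inv {N : ℕ} {x : W} : Le cs N x⁻¹ ↔ Le cs N x := not_congr (fac_inv cs)

/-- a factorisation is compatible with right descents: if `w = u w_T x` is reduced and `x ≠ 1` then some
right descent of `w` is one of `x` and can be removed. -/
theorem fac_step {N : ℕ} {w : W} (hw : Fac cs N w) :
    (∃ i j, i ≠ j ∧ N < M i j ∧ cs.IsRightDescent w i ∧ cs.IsRightDescent w j) ∨
      ∃ e, cs.IsRightDescent w e ∧ Fac cs N (w * cs.simple e) := by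
  obtain ⟨i, j, hij, hm, u, x, hx, hl⟩ := hw
  have hm0 : M i j ≠ 0 := by omega
  by_cases h1 : x = 1
  · left
    have key : ∀ k, (k = i ∨ k = j) → cs.IsRightDescent w k := by
      intro k hk
      have h2 : cs.length (wT cs i j * cs.simple k) < cs.length (wT cs i j) := rd_wT cs hij hm0 hk
      have h3 : w * cs.simple k = u * (wT cs i j * cs.simple k) := by
        rw [hx, h1, mul_one, mul_assoc]
      have h4 := cs.length_mul_le u (wT cs i j * cs.simple k)
      rw [length_wT cs hij] at h2
      show cs.length (w * cs.simple k) < cs.length w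
      rw [h3]
      omega
    exact ⟨i, j, hij, hm, key i (Or.inl rfl), key j (Or.inr rfl)⟩
  · right
    obtain ⟨e, he⟩ := cs.exists_rightDescent_of_ne_one h1
    have h2 : cs.length (x * cs.simple e) < cs.length x := he
    have h3 : w * cs.simple e = u * wT cs i j * (x * cs.simple e) := by
      rw [hx, mul_assoc]
    have h4 := cs.length_mul_le (u * wT cs i j) (x * cs.simple e)
    have h5 := cs.length_mul_le u (wT cs i j)
    rw [length_wT cs hij] at h5
    rw [← h3] at h4
    have h6 : cs.IsRightDescent w e := by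
      show cs.length (w * cs.simple e) < cs.length w
      omega
    refine ⟨e, h6, i, j, hij, hm, u, x * cs.simple e, h3, ?_⟩
    have h7 := cs.length_mul_simple w e
    omega

/-- both right descents: a factor -/
theorem fac_of_both {N : ℕ} {i j : B} (hij : i ≠ j) (hm : N < M i j) {w : W}
    (h1 : cs.IsRightDescent w i) (h2 : cs.IsRightDescent w j) : Fac cs N w := by
  obtain ⟨_, z, _, hz, hl⟩ := both_rd cs hij h1 h2
  exact ⟨i, j, hij, hm, z, 1, by rw [mul_one]; exact hz, by rw [cs.length_one]; omega⟩

theorem fac_of_both_left {N : ℕ} {i j : B} (hij : i ≠ j) (hm : N < M i j) {w : W}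
    (h1 : cs.IsLeftDescent w i) (h2 : cs.IsLeftDescent w j) : Fac cs N w := by
  obtain ⟨_, z, _, hz, hl⟩ := both_ld cs hij h1 h2
  exact ⟨i, j, hij, hm, 1, z, by rw [one_mul]; exact hz, by rw [cs.length_one]; omega⟩

/-- `w s_e` for a right descent `e` is a prefix of `w`. -/
theorem fac_of_fac_mul {N : ℕ} {w : W} {e : B} (he : cs.IsRightDescent w e)
    (h : Fac cs N (w * cs.simple e)) : Fac cs N w := by
  have h1 : cs.length (w * cs.simple e) < cs.length w := he
  have h2 := cs.length_mul_simple w e
  have h3 : w * cs.simple e * cs.simple e = w := by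
    rw [mul_assoc, cs.simple_mul_simple_self, mul_one]
  have h4 : Red cs (w * cs.simple e) (cs.simple e) := by
    show cs.length (w * cs.simple e * cs.simple e) = _
    rw [h3, cs.length_simple]
    omega
  have h5 := fac_of_prefix cs h4 h
  rwa [h3] at h5

/-- the exponent of a factor is at most the length -/
theorem not_fac_length {w : W} : ¬ Fac cs (cs.length w) w := by
  rintro ⟨i, j, hij, hm, u, x, hx, hl⟩
  omega

theorem le_one (N : ℕ) : Le cs N 1 := by
  rintro ⟨i, j, hij, hm, u, x, hx, hl⟩
  rw [cs.length_one] at hl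
  omega

end Pool.Agent.PolyCell
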