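import Pool.Agent.PolyCell.TMul

/-!
# The anti-involution `T_w ↦ T_{w⁻¹}`
-/

open CoxeterSystem

namespace Pool.Agent.PolyCell

variable {B W : Type*} [Group W] {M : CoxeterMatrix B} (cs : CoxeterSystem M W)

/-- `T_w ↦ T_{w⁻¹}` -/
noncomputable def fl : Hk cs →ₗ[LP] Hk cs :=
  Finsupp.lmapDomain LP LP (fun w : W => w⁻¹)

theorem fl_T (w : W) : fl cs (T cs w) = T cs w⁻¹ :=
  Finsupp.mapDomain_single

theorem fl_apply (h : Hk cs) (w : W) : (fl cs h) w = h w⁻¹ := by
  have := Finsupp.mapDomain_apply (f := fun w : W => w⁻¹) inv_injective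
    (show W →₀ LP from h) w⁻¹
  simp only [inv_inv] at this
  exact this

theorem fl_fl (h : Hk cs) : fl cs (fl cs h) = h := by
  apply hk_ext
  intro w
  rw [fl_apply, fl_apply, inv_inv]

private theorem Fl_T_s (w : W) (i : B) :
    fl cs (T cs w * T cs (cs.simple i)) = T cs (cs.simple i) * fl cs (T cs w) := by
  have hinv : (w * cs.simple i)⁻¹ = cs.simple i * w⁻¹ := by simp
  by_cases h : cs.IsRightDescent w i
  · rw [T_mul_s' cs h, map_add, map_smul, fl_T, fl_T, hinv,
      s_mul_T' cs ((cs.isLeftDescent_inv_iff).2 h)]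
  · rw [T_mul_s cs h, fl_T, fl_T, hinv,
      s_mul_T cs (fun h' => h ((cs.isLeftDescent_inv_iff).1 h'))]

private theorem Fl_s (h : Hk cs) (i : B) :
    fl cs (h * T cs (cs.simple i)) = T cs (cs.simple i) * fl cs h := by
  induction h using hk_induction cs with
  | h0 => simp
  | hT w => exact Fl_T_s cs w i
  | ha g k hg hk => rw [add_mul, map_add, hg, hk, map_add, mul_add]
  | hs r k hk => rw [smul_mul_assoc, map_smul, hk, map_smul, mul_smul_comm]

theorem fl_mul (g h : Hk cs) : fl cs (g * h) = fl cs h * fl cs g := by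
  induction h using hk_induction cs with
  | h0 => simp
  | hT w =>
    induction hn : cs.length w using Nat.strong_induction_on generalizing w g with
    | _ n ih =>
      by_cases hw : w = 1
      · subst hw
        rw [← one_def' cs, mul_one]
        have : fl cs (1 : Hk cs) = 1 := by rw [one_def' cs, fl_T, inv_one]
        rw [this, one_mul]
      · obtain ⟨i, hi⟩ := cs.exists_rightDescent_of_ne_one hw
        have hlt : cs.length (w * cs.simple i) < cs.length w := hi
        have hni : ¬ cs.IsRightDescent (w * cs.simple i) i :=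
          (cs.isRightDescent_iff_not_isRightDescent_mul).1 hi
        have e : T cs w = T cs (w * cs.simple i) * T cs (cs.simple i) := by
          rw [T_mul_s cs hni]; simp
        rw [e, ← mul_assoc, Fl_s, ih _ (hn ▸ hlt) g _ rfl, Fl_s, mul_assoc]
  | ha a b ha hb => rw [mul_add, map_add, ha, hb, map_add, add_mul]
  | hs r a ha => rw [mul_smul_comm, map_smul, ha, map_smul, smul_mul_assoc]

end Pool.Agent.PolyCell
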