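import Pool.Agent.PolyCell.GDefs

/-!
# Step for G2

Proof. `y = 1`: trivial. `y ≠ 1`: take `e0 ∈ L(y)` (`e0 ≠ τ, t`), `wall_step` for `(t, e0)` with `k := e`: `M t e0 ≠ 0`, `y = ν y2`, `ν ∈ D t e0`,
`Lmin t e0 y2`, `s_t ν = w`, `ℓ(ν) + 1 = M t e0`, `e0 ∈ L(ν)`, `e ∉ R(y2)`. TF (`M τ t ≠ 0`, `M t e0 ≠ 0`) gives `M τ e0 = 0`, so `e0 ∉ R(X)` (`both_rd`) and `X` is
`{t,e0}`-rmin; `le_mul_far`: `Le N (X s_e0)`.
* `ℓ(ν) ≥ 2`: `le_mul_dih` (`c = e0`, `u = ν`): `Le N (X ν)`; `Le N (ν y2) = Le N y` (suffix of `s_t y`); GStat(y2) for `(t,e0)`, `X`, `ν`.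
* `ℓ(ν) = 1`, i.e. `M t e0 = 2`: `ν = s_e0`, `y2 s_e = s_t y2`. G2Stat(y2) for `X' = X s_e0`, `τ' = e0`, `t`, `e`: `t ∉ R(X s_e0)` by `rd_mul_D`; `Le N (s_t y2)`, because
`s_t y = s_t s_e0 y2 = s_e0 (s_t y2)` is reduced. Conclusion `Le N (X s_e0 y2) = Le N (X y)`.
-/

open CoxeterSystem

namespace Pool.Agent.PolyCell

variable {B W : Type*} [Group W] {M : CoxeterMatrix B} (cs : CoxeterSystem M W)

theorem g2_step (hM : TF M) {N : ℕ} (hN : 2 ≤ N) (y : W)
    (ih : ∀ z, cs.length z < cs.length y → GStat cs N z ∧ G2Stat cs N z) : G2Stat cs N y := by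
  intro X τ t e hXτ hXt hτt hm hXle hy hconj hye hle
  by_cases hy1 : y = 1
  · rw [hy1, mul_one]
    exact hXle
  obtain ⟨e0, he0⟩ := cs.exists_leftDescent_of_ne_one hy1
  have hτe0 : τ ≠ e0 := by
    intro h
    exact hy.1 (h ▸ he0)
  have hte0 : t ≠ e0 := by
    intro h
    exact hy.2 (h ▸ he0)
  obtain ⟨hm0, ν, y2, hyν, hν, hy2, hlen, -, hν1, hνe, hy2e, htwo⟩ :=
    wall_step cs hconj hye he0 hte0
  have hMτ : M τ e0 = 0 := by
    rcases hM τ t e0 hτt hte0 hτe0 with h | h | h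
    · exact absurd h hm
    · exact absurd h hm0
    · exact h
  have hXe0 : ¬ cs.IsRightDescent X e0 := by
    intro h
    exact (both_rd cs hτe0 hXτ h).1 hMτ
  have hR : Rmin cs t e0 X := ⟨hXt, hXe0⟩
  have hXs : Le cs N (X * cs.simple e0) := le_mul_far cs hN hXle hXτ hτe0 hMτ
  have hM2 : 2 ≤ M t e0 := two_le_exp hte0 hm0
  have hlt : cs.length y2 < cs.length y := by omega
  have hredt : cs.length (cs.simple t * y) = cs.length y + 1 := cs.not_isLeftDescent_iff.1 hy.2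
  have hLy : Le cs N y := by
    refine le_suffix cs (x := cs.simple t) (y := y) ?_ hle
    unfold Red
    rw [hredt, cs.length_simple]
    omega
  rcases Nat.lt_or_ge (cs.length ν) 2 with h1 | h2
  · have hM2' : M t e0 = 2 := by omega
    obtain ⟨hνs, hconj2⟩ := htwo hM2'
    have hrd0 : cs.IsRightDescent (X * cs.simple e0) e0 := by
      rw [cs.isRightDescent_iff, mul_assoc, cs.simple_mul_simple_self, mul_one]
      exact (cs.not_isRightDescent_iff.1 hXe0).symm
    have hnt : ¬ cs.IsRightDescent (X * cs.simple e0) t := by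
      rw [← hνs, rd_mul_D cs hte0 (Or.inl rfl) hR hν]
      intro h
      have h3 : cs.IsRightDescent ν e0 := by
        rw [hνs, cs.isRightDescent_iff, cs.simple_mul_simple_self, cs.length_one,
          cs.length_simple]
      have h4 := eq_wT_of_rd cs hte0 hm0 hν h h3
      have h5 := length_wT cs hte0
      rw [← h4] at h5
      omega
    have hy2t : cs.length (cs.simple t * y2) = cs.length y2 + 1 :=
      cs.not_isLeftDescent_iff.1 hy2.1
    have hcomm : cs.simple t * y = cs.simple e0 * (cs.simple t * y2) := by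
      rw [hyν, hνs, ← mul_assoc, ← mul_assoc, comm_of_two cs hM2']
    have hLt : Le cs N (cs.simple t * y2) := by
      refine le_suffix cs (x := cs.simple e0) (y := cs.simple t * y2) ?_ ?_
      · unfold Red
        rw [← hcomm, hredt, cs.length_simple, hy2t]
        omega
      · rw [← hcomm]
        exact hle
    have hm0' : M e0 t ≠ 0 := by
      rw [M.symmetric]
      exact hm0
    have key := (ih y2 hlt).2 (X * cs.simple e0) e0 t e hrd0 hnt hte0.symm hm0' hXs
      ⟨hy2.2, hy2.1⟩ hconj2 hy2e hLt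
    rw [hyν, hνs, ← mul_assoc]
    exact key
  · have hXν : Le cs N (X * ν) := le_mul_dih cs hM hte0 hm0 hR hν (by omega) hνe hXs
    have key := (ih y2 hlt).1 t e0 X ν hte0 hm0 hR hy2 hν h2 hXν (by rw [← hyν]; exact hLy)
    rw [hyν, ← mul_assoc]
    exact key

end Pool.Agent.PolyCell
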