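import Pool.Agent.PolyCell.Fac2

/-!
# G and G2: statements
-/

open CoxeterSystem

namespace Pool.Agent.PolyCell

variable {B W : Type*} [Group W] {M : CoxeterMatrix B} (cs : CoxeterSystem M W)

def GStat (N : ℕ) (y : W) : Prop :=
  ∀ (i j : B) (x u : W), i ≠ j → M i j ≠ 0 → Rmin cs i j x → Lmin cs i j y → u ∈ D cs i j →
    2 ≤ cs.length u → Le cs N (x * u) → Le cs N (u * y) → Le cs N (x * u * y)

def G2Stat (N : ℕ) (y : W) : Prop :=
  ∀ (X : W) (τ t e : B), cs.IsRightDescent X τ → ¬ cs.IsRightDescent X t → τ ≠ t → M τ t ≠ 0 →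
    Le cs N X → Lmin cs τ t y → y * cs.simple e = cs.simple t * y → ¬ cs.IsRightDescent y e →
    Le cs N (cs.simple t * y) → Le cs N (X * y)

end Pool.Agent.PolyCell
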