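import Pool.Agent.PolyCell.GDefs

/-!
# Step for G

Proof. Inner induction on `ℓ(u)`. Let `w = x u y` (reduced and `R(w) ⊆ R(uy)` by `fstat`). Suppose `Fac N w`; `fac_step`:
(i) two right descents `i', j'` of `w` with `N < M i' j'`: both in `R(uy)`, so `Fac N (uy)` (`fac_of_both`), contradiction.
(ii) `e ∈ R(w)`, `Fac N (w s_e)`. `e ∈ R(uy)`. If `e ∈ R(y)`: GStat(y s_e) (`Le N (u (y s_e))` as prefix) gives `Le N (w s_e)`, contradiction. Otherwise `deodhar`: `y s_e = s_t y`, `t ∈ {i,j}`,
`t ∈ R(u)`; `u' = u s_t`; `w s_e = x u' y`. `x u'` is a prefix of `x u`, and `u' y = u y s_e` a prefix of `u y`. If `ℓ(u') ≥ 2`: inner induction. If `ℓ(u') = 1`, `u' = s_τ`, `τ ≠ t`, `{τ,t} = {i,j}`: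
G2Stat(y) for `X = x s_τ`, `τ`, `t`, `e` (`Le N X` prefix of `x u`; `t ∉ R(X)` by `rd_mul_D`; `Le N (s_t y)` since `u y = s_τ (s_t y)` is reduced).
-/

open CoxeterSystem

namespace Pool.Agent.PolyCell

variable {B W : Type*} [Group W] {M : CoxeterMatrix B} (cs : CoxeterSystem M W)

/-- prefixes have no new left descents -/
theorem GStep_ld {y : W} {e k : B} (he : cs.IsRightDescent y e) (hk : ¬ cs.IsLeftDescent y k) :
    ¬ cs.IsLeftDescent (y * cs.simple e) k := by
  intro h
  apply hk
  have h1 := (cs.isRightDescent_iff).1 he
  have h3 := (cs.isLeftDescent_iff).1 h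
  have h4 : cs.simple k * y = cs.simple k * (y * cs.simple e) * cs.simple e := by
    rw [mul_assoc, mul_assoc, cs.simple_mul_simple_self, mul_one]
  have h5 := cs.length_mul_le (cs.simple k * (y * cs.simple e)) (cs.simple e)
  rw [← h4, cs.length_simple] at h5
  unfold IsLeftDescent
  omega

theorem g_step (hM : TF M) {N : ℕ} (hN : 2 ≤ N) (y : W)
    (ih : ∀ z, cs.length z < cs.length y → GStat cs N z ∧ G2Stat cs N z)
    (h2 : G2Stat cs N y) : GStat cs N y := by
  intro i j x u hij hm hx hy hu hu2 hle1 hle2
  induction hn : cs.length u using Nat.strong_induction_on generalizing u with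
  | _ n ihu =>
    subst hn
    obtain ⟨hlen, hR⟩ := fstat cs hM y i j x u hij hm hx hy hu hu2
    have huy : cs.length (u * y) = cs.length u + cs.length y := len_D_mul cs hij hy hu
    have hxu : cs.length (x * u) = cs.length x + cs.length u := len_mul_D cs hij hx hu
    intro hF
    rcases fac_step cs hF with ⟨i', j', hne, hlt, h3, h4⟩ | ⟨e, he, hFe⟩
    · exact hle2 (fac_of_both cs hne hlt (hR i' h3) (hR j' h4))
    · have heu := hR e he
      by_cases hey : cs.IsRightDescent y e
      · have h5 := (cs.isRightDescent_iff).1 hey
        have hy' : Lmin cs i j (y * cs.simple e) :=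
          ⟨GStep_ld cs hey hy.1, GStep_ld cs hey hy.2⟩
        have h6 : cs.length (u * (y * cs.simple e)) = cs.length u + cs.length (y * cs.simple e) :=
          len_D_mul cs hij hy' hu
        have h7 : u * (y * cs.simple e) * cs.simple e = u * y := by
          rw [mul_assoc, mul_assoc, cs.simple_mul_simple_self, mul_one]
        have h8 : Le cs N (u * (y * cs.simple e)) := by
          refine le_prefix cs (y := cs.simple e) ?_ (by rw [h7]; exact hle2)
          unfold Red
          rw [h7, cs.length_simple, huy, h6]
          omega
        refine (ih (y * cs.simple e) (by omega)).1 i j x u hij hm hx hy' hu hu2 hle1 h8 ?_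
        rw [← mul_assoc]
        exact hFe
      · obtain ⟨t, ht, hte, htu⟩ := deodhar cs hij hy hu heu hey
        obtain ⟨τ, hτt, hτ, -, hτu⟩ := rd_prev cs hij hu hu2 htu
        have h5 := (cs.isRightDescent_iff).1 htu
        have hst : cs.simple t ∈ D cs i j := by
          rcases ht with rfl | rfl
          · exact Subgroup.subset_closure (Set.mem_insert _ _)
          · exact Subgroup.subset_closure (Set.mem_insert_of_mem _ rfl)
        have hu' : u * cs.simple t ∈ D cs i j := mul_mem hu hst
        have hxu' : cs.length (x * (u * cs.simple t)) = cs.length x + cs.length (u * cs.simple t) :=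
          len_mul_D cs hij hx hu'
        have huy' : cs.length (u * cs.simple t * y) = cs.length (u * cs.simple t) + cs.length y :=
          len_D_mul cs hij hy hu'
        have e1 : x * (u * cs.simple t) * cs.simple t = x * u := by
          rw [mul_assoc, mul_assoc, cs.simple_mul_simple_self, mul_one]
        have e2 : u * cs.simple t * y * cs.simple e = u * y := by
          rw [mul_assoc, hte, ← mul_assoc, mul_assoc u, cs.simple_mul_simple_self, mul_one]
        have e3 : x * (u * cs.simple t) * y = x * u * y * cs.simple e := by
          rw [mul_assoc (x * u), hte]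
          simp only [mul_assoc]
        have hl1 : Le cs N (x * (u * cs.simple t)) := by
          refine le_prefix cs (y := cs.simple t) ?_ (by rw [e1]; exact hle1)
          unfold Red
          rw [e1, cs.length_simple, hxu, hxu']
          omega
        have hl2 : Le cs N (u * cs.simple t * y) := by
          refine le_prefix cs (y := cs.simple e) ?_ (by rw [e2]; exact hle2)
          unfold Red
          rw [e2, cs.length_simple, huy, huy']
          omega
        by_cases h6 : 2 ≤ cs.length (u * cs.simple t)
        · refine ihu _ (by omega) (u * cs.simple t) hu' h6 hl1 hl2 rfl ?_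
          rw [e3]
          exact hFe
        · have h7 := (cs.isRightDescent_iff).1 hτu
          have hMt : M τ t ≠ 0 := by
            rcases hτ with rfl | rfl <;> rcases ht with rfl | rfl
            · exact absurd rfl hτt
            · exact hm
            · rw [M.symmetric]
              exact hm
            · exact absurd rfl hτt
          have hLy : Lmin cs τ t y := by
            constructor
            · rcases hτ with rfl | rfl
              · exact hy.1
              · exact hy.2
            · rcases ht with rfl | rfl
              · exact hy.1
              · exact hy.2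
          have hXt : ¬ cs.IsRightDescent (x * (u * cs.simple t)) t := by
            rw [rd_mul_D cs hij ht hx hu']
            exact (cs.isRightDescent_iff_not_isRightDescent_mul).1 htu
          have hXτ : cs.IsRightDescent (x * (u * cs.simple t)) τ := by
            rw [rd_mul_D cs hij hτ hx hu']
            exact hτu
          have hty : cs.length (cs.simple t * y) = cs.length y + 1 :=
            (cs.not_isLeftDescent_iff).1 hLy.2
          have hl3 : Le cs N (cs.simple t * y) := by
            have e4 : u * cs.simple t * (cs.simple t * y) = u * y := by
              rw [mul_assoc, ← mul_assoc (cs.simple t), cs.simple_mul_simple_self, one_mul]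
            refine le_suffix cs (x := u * cs.simple t) ?_ (by rw [e4]; exact hle2)
            unfold Red
            rw [e4, huy, hty]
            omega
          refine h2 (x * (u * cs.simple t)) τ t e hXτ hXt hτt hMt hl1 hLy hte hey hl3 ?_
          rw [e3]
          exact hFe

end Pool.Agent.PolyCell
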