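import Pool.Agent.PolyCell.G2Step
import Pool.Agent.PolyCell.GStep

/-!
# G and G2: `x . u . y ∈ W_{≤ N}`
-/

open CoxeterSystem

namespace Pool.Agent.PolyCell

variable {B W : Type*} [Group W] {M : CoxeterMatrix B} (cs : CoxeterSystem M W)

theorem g_and_g2 (hM : TF M) {N : ℕ} (hN : 2 ≤ N) (y : W) : GStat cs N y ∧ G2Stat cs N y := by
  induction hn : cs.length y using Nat.strong_induction_on generalizing y with
  | _ n ih =>
    subst hn
    have h2 := g2_step cs hM hN y fun z hz => ih _ hz z rfl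
    exact ⟨g_step cs hM hN y (fun z hz => ih _ hz z rfl) h2, h2⟩

theorem gstat (hM : TF M) {N : ℕ} (hN : 2 ≤ N) (y : W) : GStat cs N y := (g_and_g2 cs hM hN y).1

end Pool.Agent.PolyCell
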