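import Pool.Agent.PolyCell.FacCl

/-!
# The geometric facts used for the exponent `N`; first pairs

`Geo cs N`: if `(x,T)` is a first pair then `x u ∈ W_{< N}` for `u ∈ D_T`, `u ≠ w_T`; and `x w_T y` is reduced and in
`W_{≤ N}` if `x w_T` and `w_T y` are in `W_{≤ N}`.
`exists_first`: every `w ∈ W_{≤ N}` with a factor of exponent `N` is `x w_T y` with a first pair (`ℓ(x)` minimal).
`first_unique_end`: if `(x,T)` is first then `x w_T` is the only factorisation of `x w_T` with exponent `N`.
-/

open CoxeterSystem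

namespace Pool.Agent.PolyCell

variable {B W : Type*} [Group W] {M : CoxeterMatrix B} (cs : CoxeterSystem M W)

/-- no element has three left descents -/
def NoThree : Prop := ∀ ⦃w : W⦄ ⦃i j k : B⦄, cs.IsLeftDescent w i → cs.IsLeftDescent w j →
  cs.IsLeftDescent w k → i = j ∨ j = k ∨ i = k

/-- the geometric facts for the exponent `N` -/
structure Geo (N : ℕ) : Prop where
  /-- proper initial segments of `x w_T`, `(x,T)` first -/
  a3 : ∀ ⦃i j : B⦄ ⦃x u : W⦄, First cs N i j x → u ∈ D cs i j → u ≠ wT cs i j →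
    Le cs (N - 1) (x * u)
  /-- `x w_T y` is reduced and in `W_{≤ N}` -/
  vset : ∀ ⦃i j : B⦄ ⦃x y : W⦄, i ≠ j → M i j = N → Rmin cs i j x → Le cs N (x * wT cs i j) →
    Lmin cs i j y → Le cs N (wT cs i j * y) →
    cs.length (x * wT cs i j * y) = cs.length x + N + cs.length y ∧ Le cs N (x * wT cs i j * y)

/-- a factorisation of exponent `N` -/
private def Geo_Q (N : ℕ) (w : W) (i j : B) (x y : W) : Prop :=
  i ≠ j ∧ M i j = N ∧ w = x * wT cs i j * y ∧
    cs.length w = cs.length x + N + cs.length y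

private theorem Geo_ne {N : ℕ} (hN : 2 ≤ N) {i j : B} (hm : M i j = N) : M i j ≠ 0 := by
  omega

private theorem Geo_ldwT {N : ℕ} (hN : 2 ≤ N) {i j c : B} (hij : i ≠ j) (hm : M i j = N)
    (hc : c = i ∨ c = j) : cs.length (cs.simple c * wT cs i j) + 1 = N := by
  have h1 := cs.isLeftDescent_iff.1 (ld_wT cs hij (Geo_ne hN hm) hc)
  rw [h1, length_wT cs hij, hm]

private theorem Geo_rdwT {N : ℕ} (hN : 2 ≤ N) {i j c : B} (hij : i ≠ j) (hm : M i j = N)
    (hc : c = i ∨ c = j) : cs.length (wT cs i j * cs.simple c) + 1 = N := by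
  have h1 := cs.isRightDescent_iff.1 (rd_wT cs hij (Geo_ne hN hm) hc)
  rw [h1, length_wT cs hij, hm]

private theorem Geo_nrd {N : ℕ} (hN : 2 ≤ N) {w : W} {i j : B} {x y : W}
    (h : Geo_Q cs N w i j x y) {c : B} (hc : c = i ∨ c = j) : ¬ cs.IsRightDescent x c := by
  obtain ⟨hij, hm, hw, hl⟩ := h
  intro hd
  have h1 := cs.isRightDescent_iff.1 hd
  have h2 := Geo_ldwT cs hN hij hm hc
  have h3 : w = x * cs.simple c * (cs.simple c * wT cs i j) * y := by
    rw [hw]
    congr 1
    rw [mul_assoc, cs.simple_mul_simple_cancel_left]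
  have h4 := cs.length_mul_le (x * cs.simple c * (cs.simple c * wT cs i j)) y
  have h5 := cs.length_mul_le (x * cs.simple c) (cs.simple c * wT cs i j)
  rw [← h3] at h4
  omega

private theorem Geo_nld {N : ℕ} (hN : 2 ≤ N) {w : W} {i j : B} {x y : W}
    (h : Geo_Q cs N w i j x y) {c : B} (hc : c = i ∨ c = j) : ¬ cs.IsLeftDescent y c := by
  obtain ⟨hij, hm, hw, hl⟩ := h
  intro hd
  have h1 := cs.isLeftDescent_iff.1 hd
  have h2 := Geo_rdwT cs hN hij hm hc
  have h3 : w = x * (wT cs i j * cs.simple c) * (cs.simple c * y) := by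
    rw [hw, ← mul_assoc x, mul_assoc (x * wT cs i j) (cs.simple c),
      cs.simple_mul_simple_cancel_left]
  have h4 := cs.length_mul_le (x * (wT cs i j * cs.simple c)) (cs.simple c * y)
  have h5 := cs.length_mul_le x (wT cs i j * cs.simple c)
  rw [← h3] at h4
  omega

private theorem Geo_len {N : ℕ} {w : W} {i j : B} {x y : W}
    (h : Geo_Q cs N w i j x y) : cs.length (x * wT cs i j) = cs.length x + N ∧
      Red cs (x * wT cs i j) y := by
  obtain ⟨hij, hm, hw, hl⟩ := h
  have h4 := cs.length_mul_le (x * wT cs i j) y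
  have h5 := cs.length_mul_le x (wT cs i j)
  have h6 := length_wT cs hij
  rw [← hw] at h4
  refine ⟨by omega, ?_⟩
  show cs.length (x * wT cs i j * y) = _
  rw [← hw]
  omega

private theorem Geo_gen {N : ℕ} (hN : 2 ≤ N) {w : W} {i j : B} {x y : W} (h1 : Le cs N w)
    (h : Geo_Q cs N w i j x y)
    (hmin : ∀ i' j' x' y', Geo_Q cs N w i' j' x' y' → cs.length x ≤ cs.length x')
    {c : B} (hc : c = i ∨ c = j) : Le cs (N - 1) (x * cs.simple c) := by
  have hnr := Geo_nrd cs hN h hc
  obtain ⟨hl1, hred⟩ := Geo_len cs h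
  have hQ := h
  obtain ⟨hij, hm, hw, hl⟩ := h
  have h2 := Geo_ldwT cs hN hij hm hc
  have h3 := cs.not_isRightDescent_iff.1 hnr
  have h4 : x * wT cs i j = x * cs.simple c * (cs.simple c * wT cs i j) := by
    rw [mul_assoc, cs.simple_mul_simple_cancel_left]
  have hle : Le cs N (x * wT cs i j) := le_prefix cs hred (by rw [← hw]; exact h1)
  have hred2 : Red cs (x * cs.simple c) (cs.simple c * wT cs i j) := by
    show cs.length _ = _
    rw [← h4]
    omega
  have hle2 : Le cs N (x * cs.simple c) := le_prefix cs hred2 (by rw [← h4]; exact hle)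
  rintro ⟨i', j', hij', hm', u', v', he, hel⟩
  have hm'' : M i' j' = N := by
    by_contra hne
    exact hle2 ⟨i', j', hij', by omega, u', v', he, hel⟩
  rw [hm''] at hel
  set z := v' * ((cs.simple c * wT cs i j) * y) with hz
  have h5 : w = u' * wT cs i' j' * z := by
    rw [hw, h4, he, hz]
    simp only [mul_assoc]
  have h6 := cs.length_mul_le (u' * wT cs i' j') z
  have h7 := cs.length_mul_le u' (wT cs i' j')
  have h8 := length_wT cs hij'
  have h9 := cs.length_mul_le v' ((cs.simple c * wT cs i j) * y)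
  have h10 := cs.length_mul_le (cs.simple c * wT cs i j) y
  rw [← h5] at h6
  rw [← hz] at h9
  have h11 : Geo_Q cs N w i' j' u' z := ⟨hij', hm'', h5, by omega⟩
  have h12 := hmin _ _ _ _ h11
  omega

/-- a1: if `w ∈ W_{≤ N}` has a factor of exponent `N`, then `w = x w_T y` with a first pair.
(Take `ℓ(x)` minimal among the factorisations of exponent `N`.) -/
theorem exists_first {N : ℕ} (hN : 2 ≤ N) {w : W} (h1 : Le cs N w) (h2 : Fac cs (N - 1) w) :
    ∃ i j x y, First cs N i j x ∧ Lmin cs i j y ∧ w = x * wT cs i j * y ∧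
      cs.length w = cs.length x + N + cs.length y := by
  classical
  -- a factorisation with minimal `ℓ(x)`
  have hex : ∃ n, ∃ i j x y, Geo_Q cs N w i j x y ∧ cs.length x = n := by
    obtain ⟨i, j, hij, hm, u, x, hw, hl⟩ := h2
    have hm' : M i j = N := by
      by_contra hne
      exact h1 ⟨i, j, hij, by omega, u, x, hw, hl⟩
    rw [hm'] at hl
    exact ⟨_, i, j, u, x, ⟨hij, hm', hw, hl⟩, rfl⟩
  obtain ⟨i, j, x, y, hQ, hx⟩ := Nat.find_spec hex
  have hmin : ∀ i' j' x' y', Geo_Q cs N w i' j' x' y' → cs.length x ≤ cs.length x' := by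
    intro i' j' x' y' h
    rw [hx]
    exact Nat.find_min' hex ⟨i', j', x', y', h, rfl⟩
  obtain ⟨hl1, hred⟩ := Geo_len cs hQ
  refine ⟨i, j, x, y, ⟨hQ.1, hQ.2.1, ⟨Geo_nrd cs hN hQ (Or.inl rfl),
    Geo_nrd cs hN hQ (Or.inr rfl)⟩, ?_, Geo_gen cs hN h1 hQ hmin (Or.inl rfl),
    Geo_gen cs hN h1 hQ hmin (Or.inr rfl)⟩, ⟨Geo_nld cs hN hQ (Or.inl rfl),
    Geo_nld cs hN hQ (Or.inr rfl)⟩, hQ.2.2.1, hQ.2.2.2⟩
  exact le_prefix cs hred (by rw [← hQ.2.2.1]; exact h1)

/-- `w = x w_T` with `(x,T)` first: no other factor of exponent `N`. -/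
theorem first_unique_end {N : ℕ} (hT : NoThree cs) (hG : Geo cs N) (hN : 2 ≤ N) {i j i' j' : B} {x x' y' : W}
    (h : First cs N i j x) (hij' : i' ≠ j') (hm : M i' j' = N)
    (he : x * wT cs i j = x' * wT cs i' j' * y')
    (hl : cs.length x + N = cs.length x' + N + cs.length y') :
    y' = 1 ∧ x' = x ∧ ({i', j'} : Set B) = {i, j} := by
  have hm0 : M i j ≠ 0 := Geo_ne hN h.exp
  have hwl := length_wT cs h.ne
  have hwl' := length_wT cs hij'
  have hl1 := len_mul_D cs h.ne h.rmin (wT_mem cs i j)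
  rw [hwl, h.exp] at hl1
  rw [hm] at hwl'
  have hwD : 2 ≤ cs.length (wT cs i j) := by rw [hwl, h.exp]; exact hN
  have hR : ∀ c, cs.IsRightDescent (x * wT cs i j) c → c = i ∨ c = j := by
    intro c hc
    have di : cs.IsRightDescent (x * wT cs i j) i :=
      (rd_mul_D cs h.ne (Or.inl rfl) h.rmin (wT_mem cs i j)).2 (rd_wT cs h.ne hm0 (Or.inl rfl))
    have dj : cs.IsRightDescent (x * wT cs i j) j :=
      (rd_mul_D cs h.ne (Or.inr rfl) h.rmin (wT_mem cs i j)).2 (rd_wT cs h.ne hm0 (Or.inr rfl))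
    rw [← cs.isLeftDescent_inv_iff] at hc di dj
    rcases hT di dj hc with e | e | e
    · exact absurd e h.ne
    · exact Or.inr e.symm
    · exact Or.inl e.symm
  have hy : y' = 1 := by
    by_contra hy1
    obtain ⟨e, he'⟩ := cs.exists_rightDescent_of_ne_one hy1
    have h1 := cs.isRightDescent_iff.1 he'
    have h2 : x * wT cs i j * cs.simple e = x' * wT cs i' j' * (y' * cs.simple e) := by
      rw [he, mul_assoc]
    have h3 := cs.length_mul_le (x' * wT cs i' j') (y' * cs.simple e)
    have h4 := cs.length_mul_le x' (wT cs i' j')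
    have h5 : cs.IsRightDescent (x * wT cs i j) e := by
      show cs.length _ < cs.length _
      rw [h2]
      omega
    have h6 := hR e h5
    have h7 := Geo_rdwT cs hN h.ne h.exp h6
    have h8 : cs.simple e ∈ D cs i j := by
      rcases h6 with rfl | rfl
      · exact Subgroup.subset_closure (by simp)
      · exact Subgroup.subset_closure (by simp)
    have h9 : wT cs i j * cs.simple e ∈ D cs i j := Subgroup.mul_mem _ (wT_mem cs i j) h8
    have h10 : wT cs i j * cs.simple e ≠ wT cs i j := by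
      intro h0
      rw [h0, hwl, h.exp] at h7
      omega
    have h11 := hG.a3 h h9 h10
    have h12 := len_mul_D cs h.ne h.rmin h9
    refine h11 ⟨i', j', hij', by omega, x', y' * cs.simple e, ?_, ?_⟩
    · rw [← mul_assoc, h2]
    · rw [h12, hm]
      omega
  subst hy
  rw [mul_one] at he
  rw [cs.length_one] at hl
  have key : ∀ c, c = i' ∨ c = j' → c = i ∨ c = j := by
    intro c hc
    refine hR c ?_
    show cs.length _ < cs.length _
    have h1 := Geo_rdwT cs hN hij' hm hc
    have h2 := cs.length_mul_le x' (wT cs i' j' * cs.simple c)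
    rw [he, mul_assoc, ← he]
    omega
  have hi := key i' (Or.inl rfl)
  have hj := key j' (Or.inr rfl)
  refine ⟨rfl, ?_, ?_⟩
  · have h1 : wT cs i' j' = wT cs i j := by
      rcases hi with rfl | rfl <;> rcases hj with rfl | rfl
      · exact absurd rfl hij'
      · rfl
      · exact wT_symm cs _ _
      · exact absurd rfl hij'
    rw [h1] at he
    exact (mul_right_cancel he).symm
  · rcases hi with rfl | rfl <;> rcases hj with rfl | rfl
    · exact absurd rfl hij'
    · rfl
    · exact Set.pair_comm _ _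
    · exact absurd rfl hij'

end Pool.Agent.PolyCell
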