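import Pool.Agent.PolyCell.Gen
import Pool.Agent.PolyCell.Geo

/-!
# The axioms `NoThree` and `Geo` in the triangle-free case

a3. `u = 1`: prefix of `x s_i`. Otherwise `c ∈ L(u)`, `c ∈ {i,j}`, `le_mul_dih` for `N - 1`.
`vset`: `fstat` with `u = w_T` for the length, `gstat` for `Le N`.
-/

open CoxeterSystem

namespace Pool.Agent.PolyCell

variable {B W : Type*} [Group W] {M : CoxeterMatrix B} (cs : CoxeterSystem M W)

/-- a3 -/
theorem first_le {N : ℕ} (hM : TF M) (hN : 2 ≤ N) {i j : B} {x u : W} (h : First cs N i j x)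
    (hu : u ∈ D cs i j) (hne : u ≠ wT cs i j) : Le cs (N - 1) (x * u) := by
  have hm : M i j ≠ 0 := (by rw [h.exp]; omega)
  by_cases hu1 : u = 1
  · rw [hu1, mul_one]
    have h1 := cs.not_isRightDescent_iff.1 h.rmin.1
    refine le_prefix cs (y := cs.simple i) ?_ h.fi
    show cs.length _ = _
    rw [h1, cs.length_simple]
  · obtain ⟨c, hc⟩ := cs.exists_leftDescent_of_ne_one hu1
    have hlt : cs.length u < M i j := by
      refine lt_of_le_of_ne (len_D_le cs h.ne hm hu) fun he => hne ?_
      exact eq_wT_of_len cs h.ne hm hu he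
    refine le_mul_dih cs hM h.ne hm h.rmin hu hlt hc ?_
    rcases ld_of_mem_D cs h.ne hu hc with rfl | rfl
    · exact h.fi
    · exact h.fj

theorem noThree_TF (hM : TF M) : NoThree cs := fun _ _ _ _ h1 h2 h3 =>
  no_three_left cs hM h1 h2 h3

theorem geo_TF (hM : TF M) {N : ℕ} (hN : 2 ≤ N) : Geo cs N := by
  refine ⟨fun i j x u h hu hne => first_le cs hM hN h hu hne, ?_⟩
  intro i j x y hij hm hx hle hy hy2
  have hm0 : M i j ≠ 0 := by omega
  have hlT : cs.length (wT cs i j) = N := by rw [length_wT cs hij, hm]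
  have h2 : 2 ≤ cs.length (wT cs i j) := by omega
  have hl : cs.length (x * wT cs i j * y) = cs.length x + N + cs.length y := by
    have := (fstat cs hM y i j x (wT cs i j) hij hm0 hx hy (wT_mem cs i j) h2).1
    rw [this, hlT]
  exact ⟨hl, gstat cs hM hN y i j x (wT cs i j) hij hm0 hx hy (wT_mem cs i j) h2 hle hy2⟩

end Pool.Agent.PolyCell
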