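import Pool.Agent.PolyCell.CoxExch

/-!
# The Hecke algebra: bilinearity, unit, associativity of `mulH`

Hints. The left operators `lS s : T_w ↦ T_{sw}` or `T_{sw} + ξ T_w` (`sw < w`) commute with the right
operators `rS t` (use `CoxExch.lift_eq`: if `ℓ(sw) = ℓ(wt)` and `ℓ(swt) = ℓ(w)`, then `sw = wt`). If `ω` is a
reduced word of `z` then `rL ω (T 1) = T z`; hence `rL ω h` depends only on `z` (write `T_x` as a product of left
operators applied to `T 1`). Also `rS s (rS s h) = h + ξ rS s h`.
-/

open CoxeterSystem

namespace Pool.Agent.PolyCell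

variable {B W : Type*} [Group W] {M : CoxeterMatrix B} (cs : CoxeterSystem M W)

/-! ### linear maps on the Hecke algebra -/

theorem HAx_ext {V : Type*} [AddCommGroup V] [Module LP V] {f g : Hk cs →ₗ[LP] V}
    (h : ∀ w, f (T cs w) = g (T cs w)) : f = g := by
  have h1 : ∀ (w : W) (a : LP), f (Finsupp.single w a : W →₀ LP) =
      g (Finsupp.single w a : W →₀ LP) := by
    intro w a
    have h2 : (Finsupp.single w a : W →₀ LP) = (a • T cs w : Hk cs) := by
      show Finsupp.single w a = a • Finsupp.single w (1 : LP)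
      rw [Finsupp.smul_single, smul_eq_mul, mul_one]
    rw [h2]
    show f (a • T cs w) = g (a • T cs w)
    rw [map_smul, map_smul, h w]
  exact Finsupp.lhom_ext h1

open Classical in
/-- the right operators on the basis -/
theorem HAx_rS_T (i : B) (w : W) : rS cs i (T cs w) =
    T cs (w * cs.simple i) + (if cs.IsRightDescent w i then xi • T cs w else 0) := by
  show rT cs i (Finsupp.single w (1 : LP)) = _
  unfold rT
  rw [Finsupp.linearCombination_single, one_smul]
  show Finsupp.single (w * cs.simple i) (1 : LP) +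
    (if cs.IsRightDescent w i then Finsupp.single w (v 1 - v (-1)) else 0) = _
  congr 1
  split_ifs with h
  · show _ = xi • Finsupp.single w (1 : LP)
    rw [Finsupp.smul_single, smul_eq_mul, mul_one, xi]
  · rfl

open Classical in
/-- the left operators -/
noncomputable def HAx_lS (i : B) : Hk cs →ₗ[LP] Hk cs :=
  show (W →₀ LP) →ₗ[LP] (W →₀ LP) from
  Finsupp.linearCombination LP fun w =>
    Finsupp.single (cs.simple i * w) 1 +
      (if cs.IsLeftDescent w i then Finsupp.single w (v 1 - v (-1)) else 0)

open Classical in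
theorem HAx_lS_T (i : B) (w : W) : HAx_lS cs i (T cs w) =
    T cs (cs.simple i * w) + (if cs.IsLeftDescent w i then xi • T cs w else 0) := by
  show (Finsupp.linearCombination LP fun w =>
    Finsupp.single (cs.simple i * w) (1 : LP) +
      (if cs.IsLeftDescent w i then Finsupp.single w (v 1 - v (-1)) else 0))
        (Finsupp.single w (1 : LP)) = _
  rw [Finsupp.linearCombination_single, one_smul]
  show Finsupp.single (cs.simple i * w) (1 : LP) +
    (if cs.IsLeftDescent w i then Finsupp.single w (v 1 - v (-1)) else 0) = _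
  congr 1
  split_ifs with h
  · show _ = xi • Finsupp.single w (1 : LP)
    rw [Finsupp.smul_single, smul_eq_mul, mul_one, xi]
  · rfl

/-- left and right operators commute, on the basis -/
theorem HAx_comm_T (i j : B) (w : W) :
    HAx_lS cs i (rS cs j (T cs w)) = rS cs j (HAx_lS cs i (T cs w)) := by
  classical
  have e1 : cs.simple i * (w * cs.simple j) = cs.simple i * w * cs.simple j :=
    (mul_assoc _ _ _).symm
  -- both sides expanded
  have hL : HAx_lS cs i (rS cs j (T cs w)) = T cs (cs.simple i * w * cs.simple j) +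
      (if cs.IsLeftDescent (w * cs.simple j) i then xi • T cs (w * cs.simple j) else 0) +
      (if cs.IsRightDescent w j then xi • HAx_lS cs i (T cs w) else 0) := by
    rw [HAx_rS_T, map_add, HAx_lS_T, e1]
    congr 1
    split_ifs
    · rw [map_smul]
    · rw [map_zero]
  have hR : rS cs j (HAx_lS cs i (T cs w)) = T cs (cs.simple i * w * cs.simple j) +
      (if cs.IsRightDescent (cs.simple i * w) j then xi • T cs (cs.simple i * w) else 0) +
      (if cs.IsLeftDescent w i then xi • rS cs j (T cs w) else 0) := by
    rw [HAx_lS_T, map_add, HAx_rS_T]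
    congr 1
    split_ifs
    · rw [map_smul]
    · rw [map_zero]
  rw [hL, hR, HAx_lS_T, HAx_rS_T]
  have l1 := cs.length_simple_mul w i
  have l2 := cs.length_mul_simple w j
  have l3 := cs.length_simple_mul (w * cs.simple j) i
  have l4 := cs.length_mul_simple (cs.simple i * w) j
  rw [e1] at l3
  by_cases h1 : cs.IsLeftDescent w i
  · by_cases h2 : cs.IsRightDescent w j
    · by_cases h3 : cs.IsRightDescent (cs.simple i * w) j
      · have h4 : cs.IsLeftDescent (w * cs.simple j) i := by
          have a1 := cs.isLeftDescent_iff.1 h1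
          have a2 := cs.isRightDescent_iff.1 h2
          have a3 := cs.isRightDescent_iff.1 h3
          rw [cs.isLeftDescent_iff, e1]
          omega
        simp only [h1, h2, h3, h4, if_true, smul_add]
        abel
      · have h4 : ¬ cs.IsLeftDescent (w * cs.simple j) i := by
          have a1 := cs.isLeftDescent_iff.1 h1
          have a2 := cs.isRightDescent_iff.1 h2
          have a3 := cs.not_isRightDescent_iff.1 h3
          rw [cs.not_isLeftDescent_iff, e1]
          omega
        have h5 : cs.simple i * (cs.simple i * w) = cs.simple i * w * cs.simple j := by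
          refine lift_eq cs ?_ h3 ?_
          · rw [cs.not_isLeftDescent_iff, cs.simple_mul_simple_cancel_left]
            exact (cs.isLeftDescent_iff.1 h1).symm
          · rw [cs.simple_mul_simple_cancel_left]
            exact h2
        have h6 : w * cs.simple j = cs.simple i * w := by
          rw [cs.simple_mul_simple_cancel_left] at h5
          calc w * cs.simple j = cs.simple i * w * cs.simple j * cs.simple j := by rw [← h5]
            _ = cs.simple i * w := cs.simple_mul_simple_cancel_right j
        simp only [h1, h2, h3, h4, if_true, if_false, add_zero]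
        rw [h6]
    · have h3 : ¬ cs.IsRightDescent (cs.simple i * w) j := by
        have a1 := cs.isLeftDescent_iff.1 h1
        have a2 := cs.not_isRightDescent_iff.1 h2
        rw [cs.not_isRightDescent_iff]
        omega
      have h4 : cs.IsLeftDescent (w * cs.simple j) i := by
        have a1 := cs.isLeftDescent_iff.1 h1
        have a2 := cs.not_isRightDescent_iff.1 h2
        rw [cs.isLeftDescent_iff, e1]
        omega
      simp only [h1, h2, h3, h4, if_true, if_false, add_zero]
  · by_cases h2 : cs.IsRightDescent w j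
    · have h3 : cs.IsRightDescent (cs.simple i * w) j := by
        have a1 := cs.not_isLeftDescent_iff.1 h1
        have a2 := cs.isRightDescent_iff.1 h2
        rw [cs.isRightDescent_iff]
        omega
      have h4 : ¬ cs.IsLeftDescent (w * cs.simple j) i := by
        have a1 := cs.not_isLeftDescent_iff.1 h1
        have a2 := cs.isRightDescent_iff.1 h2
        rw [cs.not_isLeftDescent_iff, e1]
        omega
      simp only [h1, h2, h3, h4, if_true, if_false, add_zero]
    · by_cases h3 : cs.IsRightDescent (cs.simple i * w) j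
      · have h4 : cs.IsLeftDescent (w * cs.simple j) i := by
          have a1 := cs.not_isLeftDescent_iff.1 h1
          have a2 := cs.not_isRightDescent_iff.1 h2
          have a3 := cs.isRightDescent_iff.1 h3
          rw [cs.isLeftDescent_iff, e1]
          omega
        simp only [h1, h2, h3, h4, if_true, if_false, add_zero]
        rw [lift_eq cs h1 h2 h3]
      · have h4 : ¬ cs.IsLeftDescent (w * cs.simple j) i := by
          have a1 := cs.not_isLeftDescent_iff.1 h1
          have a2 := cs.not_isRightDescent_iff.1 h2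
          have a3 := cs.not_isRightDescent_iff.1 h3
          rw [cs.not_isLeftDescent_iff, e1]
          omega
        simp only [h1, h2, h3, h4, if_false]

theorem HAx_comm (i j : B) (h : Hk cs) :
    HAx_lS cs i (rS cs j h) = rS cs j (HAx_lS cs i h) := by
  have h1 : (HAx_lS cs i).comp (rS cs j) = (rS cs j).comp (HAx_lS cs i) :=
    HAx_ext cs fun w => HAx_comm_T cs i j w
  exact LinearMap.congr_fun h1 h

/-- the quadratic relation -/
theorem HAx_quad (i : B) (h : Hk cs) : rS cs i (rS cs i h) = h + xi • rS cs i h := by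
  classical
  have h1 : (rS cs i).comp (rS cs i) = LinearMap.id + xi • rS cs i := by
    refine HAx_ext cs fun w => ?_
    show rS cs i (rS cs i (T cs w)) = T cs w + xi • rS cs i (T cs w)
    by_cases hd : cs.IsRightDescent w i
    · have h2 : ¬ cs.IsRightDescent (w * cs.simple i) i := by
        rw [cs.not_isRightDescent_iff, cs.simple_mul_simple_cancel_right]
        exact (cs.isRightDescent_iff.1 hd).symm
      have h3 : rS cs i (T cs w) = T cs (w * cs.simple i) + xi • T cs w := by
        rw [HAx_rS_T, if_pos hd]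
      have h4 : rS cs i (T cs (w * cs.simple i)) = T cs w := by
        rw [HAx_rS_T, if_neg h2, add_zero, cs.simple_mul_simple_cancel_right]
      nth_rewrite 1 [h3]
      rw [map_add, map_smul, h4]
    · have h2 : cs.IsRightDescent (w * cs.simple i) i := by
        rw [cs.isRightDescent_iff, cs.simple_mul_simple_cancel_right]
        exact (cs.not_isRightDescent_iff.1 hd).symm
      have h3 : rS cs i (T cs w) = T cs (w * cs.simple i) := by
        rw [HAx_rS_T, if_neg hd, add_zero]
      rw [h3, HAx_rS_T, if_pos h2, cs.simple_mul_simple_cancel_right]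
  exact LinearMap.congr_fun h1 h

/-! ### words -/

theorem HAx_rL_nil (h : Hk cs) : rL cs [] h = h := rfl

theorem HAx_rL_cons (i : B) (ω : List B) (h : Hk cs) :
    rL cs (i :: ω) h = rL cs ω (rS cs i h) := rfl

theorem HAx_rL_append (ω η : List B) (h : Hk cs) :
    rL cs (ω ++ η) h = rL cs η (rL cs ω h) := by
  unfold rL
  rw [List.foldl_append]

theorem HAx_rL_add (ω : List B) (a b : Hk cs) : rL cs ω (a + b) = rL cs ω a + rL cs ω b := by
  induction ω generalizing a b with
  | nil => rfl
  | cons i ω ih => rw [HAx_rL_cons, HAx_rL_cons, HAx_rL_cons, map_add, ih]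

theorem HAx_rL_smul (ω : List B) (r : LP) (a : Hk cs) : rL cs ω (r • a) = r • rL cs ω a := by
  induction ω generalizing a with
  | nil => rfl
  | cons i ω ih => rw [HAx_rL_cons, HAx_rL_cons, map_smul, ih]

/-- `rL` as a linear map -/
noncomputable def HAx_R (ω : List B) : Hk cs →ₗ[LP] Hk cs where
  toFun := rL cs ω
  map_add' := HAx_rL_add cs ω
  map_smul' := HAx_rL_smul cs ω

/-- the product of left operators -/
noncomputable def HAx_lL : List B → Hk cs → Hk cs
  | [], h => h
  | i :: ω, h => HAx_lS cs i (HAx_lL ω h)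

theorem HAx_lL_rS (ω : List B) (j : B) (h : Hk cs) :
    HAx_lL cs ω (rS cs j h) = rS cs j (HAx_lL cs ω h) := by
  induction ω with
  | nil => rfl
  | cons i ω ih =>
    show HAx_lS cs i (HAx_lL cs ω (rS cs j h)) = rS cs j (HAx_lS cs i (HAx_lL cs ω h))
    rw [ih, HAx_comm]

theorem HAx_lL_rL (ω η : List B) (h : Hk cs) :
    HAx_lL cs ω (rL cs η h) = rL cs η (HAx_lL cs ω h) := by
  induction η generalizing h with
  | nil => rfl
  | cons i η ih => rw [HAx_rL_cons, HAx_rL_cons, ih, HAx_lL_rS]

theorem HAx_red_cons {i : B} {ω : List B} (h : cs.IsReduced (i :: ω)) :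
    cs.IsReduced ω ∧ ¬ cs.IsLeftDescent (cs.wordProd ω) i := by
  have h1 : cs.IsReduced ω := by
    have := h.drop 1
    simpa using this
  refine ⟨h1, ?_⟩
  rw [cs.not_isLeftDescent_iff, ← cs.wordProd_cons, h.eq, h1.eq, List.length_cons]

theorem HAx_red_append {ω : List B} {i : B} (h : cs.IsReduced (ω ++ [i])) :
    cs.IsReduced ω ∧ ¬ cs.IsRightDescent (cs.wordProd ω) i := by
  have h1 : cs.IsReduced ω := by
    have := h.take ω.length
    simpa using this
  refine ⟨h1, ?_⟩
  have h2 : cs.wordProd (ω ++ [i]) = cs.wordProd ω * cs.simple i := by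
    rw [cs.wordProd_append, cs.wordProd_singleton]
  rw [cs.not_isRightDescent_iff, ← h2, h.eq, h1.eq, List.length_append, List.length_singleton]

theorem HAx_lL_one {ω : List B} (h : cs.IsReduced ω) :
    HAx_lL cs ω (T cs 1) = T cs (cs.wordProd ω) := by
  classical
  induction ω with
  | nil => rw [cs.wordProd_nil]; rfl
  | cons i ω ih =>
    obtain ⟨h1, h2⟩ := HAx_red_cons cs h
    show HAx_lS cs i (HAx_lL cs ω (T cs 1)) = _
    rw [ih h1, HAx_lS_T, if_neg h2, add_zero, cs.wordProd_cons]

theorem HAx_rL_one {ω : List B} (h : cs.IsReduced ω) :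
    rL cs ω (T cs 1) = T cs (cs.wordProd ω) := by
  classical
  induction ω using List.reverseRecOn with
  | nil => rw [cs.wordProd_nil]; rfl
  | append_singleton ω i ih =>
    obtain ⟨h1, h2⟩ := HAx_red_append cs h
    rw [HAx_rL_append, ih h1, HAx_rL_cons, HAx_rL_nil, HAx_rS_T, if_neg h2, add_zero,
      cs.wordProd_append, cs.wordProd_singleton]

/-- `rL ω` depends on the product only -/
theorem HAx_rL_eq {ω η : List B} (hω : cs.IsReduced ω) (hη : cs.IsReduced η)
    (h : cs.wordProd ω = cs.wordProd η) (a : Hk cs) : rL cs ω a = rL cs η a := by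
  have h1 : HAx_R cs ω = HAx_R cs η := by
    refine HAx_ext cs fun w => ?_
    show rL cs ω (T cs w) = rL cs η (T cs w)
    obtain ⟨τ, hτ, rfl⟩ := cs.exists_isReduced w
    rw [← HAx_lL_one cs hτ, ← HAx_lL_rL, ← HAx_lL_rL, HAx_rL_one cs hω, HAx_rL_one cs hη, h]
  exact LinearMap.congr_fun h1 a

theorem HAx_rw (w : W) : cs.IsReduced (rw' cs w) ∧ w = cs.wordProd (rw' cs w) :=
  (cs.exists_isReduced w).choose_spec

/-! ### the multiplication -/

/-- right multiplication as a linear map in the second argument -/
noncomputable def HAx_M (a : Hk cs) : Hk cs →ₗ[LP] Hk cs :=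
  show (W →₀ LP) →ₗ[LP] Hk cs from
  Finsupp.linearCombination LP fun w => rL cs (rw' cs w) a

theorem HAx_mulH (a b : Hk cs) : mulH cs a b = HAx_M cs a b := rfl

theorem HAx_mulH_T (a : Hk cs) (w : W) : mulH cs a (T cs w) = rL cs (rw' cs w) a := by
  rw [HAx_mulH]
  show (Finsupp.linearCombination LP fun w => rL cs (rw' cs w) a) (Finsupp.single w (1 : LP)) = _
  rw [Finsupp.linearCombination_single, one_smul]

/-- an induction principle -/
theorem HAx_ind {P : Hk cs → Prop} (h0 : P 0) (hadd : ∀ a b, P a → P b → P (a + b))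
    (hT : ∀ (r : LP) (w : W), P (r • T cs w)) (a : Hk cs) : P a := by
  refine Finsupp.induction_linear (motive := fun a => P a) (show W →₀ LP from a) h0
    (fun f g hf hg => hadd f g hf hg) fun w r => ?_
  have h2 : (Finsupp.single w r : W →₀ LP) = (r • T cs w : Hk cs) := by
    show Finsupp.single w r = r • Finsupp.single w (1 : LP)
    rw [Finsupp.smul_single, smul_eq_mul, mul_one]
  rw [h2]
  exact hT r w

theorem mulH_add_right (a b c : Hk cs) : mulH cs a (b + c) = mulH cs a b + mulH cs a c := by
  rw [HAx_mulH, HAx_mulH, HAx_mulH, map_add]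

theorem mulH_smul_right (r : LP) (a b : Hk cs) : mulH cs a (r • b) = r • mulH cs a b := by
  rw [HAx_mulH, HAx_mulH, map_smul]

theorem HAx_mulH_zero (a : Hk cs) : mulH cs a 0 = 0 := by
  rw [HAx_mulH, map_zero]

theorem mulH_add_left (a b c : Hk cs) : mulH cs (a + b) c = mulH cs a c + mulH cs b c := by
  refine HAx_ind cs (P := fun c => mulH cs (a + b) c = mulH cs a c + mulH cs b c) ?_ ?_ ?_ c
  · rw [HAx_mulH_zero, HAx_mulH_zero, HAx_mulH_zero, add_zero]
  · intro c d hc hd
    rw [mulH_add_right, mulH_add_right, mulH_add_right, hc, hd]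
    abel
  · intro r w
    rw [mulH_smul_right, mulH_smul_right, mulH_smul_right, HAx_mulH_T, HAx_mulH_T, HAx_mulH_T,
      HAx_rL_add, smul_add]

theorem mulH_smul_left (r : LP) (a b : Hk cs) : mulH cs (r • a) b = r • mulH cs a b := by
  refine HAx_ind cs (P := fun b => mulH cs (r • a) b = r • mulH cs a b) ?_ ?_ ?_ b
  · rw [HAx_mulH_zero, HAx_mulH_zero, smul_zero]
  · intro c d hc hd
    rw [mulH_add_right, mulH_add_right, hc, hd, smul_add]
  · intro r' w
    rw [mulH_smul_right, mulH_smul_right, HAx_mulH_T, HAx_mulH_T, HAx_rL_smul, smul_comm]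

theorem one_mulH (a : Hk cs) : mulH cs (T cs 1) a = a := by
  refine HAx_ind cs (P := fun a => mulH cs (T cs 1) a = a) ?_ ?_ ?_ a
  · exact HAx_mulH_zero cs _
  · intro c d hc hd
    rw [mulH_add_right, hc, hd]
  · intro r w
    obtain ⟨h1, h2⟩ := HAx_rw cs w
    rw [mulH_smul_right, HAx_mulH_T, HAx_rL_one cs h1, ← h2]

theorem mulH_one (a : Hk cs) : mulH cs a (T cs 1) = a := by
  obtain ⟨h1, h2⟩ := HAx_rw cs (1 : W)
  have h3 : (rw' cs (1 : W)) = [] := by
    apply List.eq_nil_of_length_eq_zero
    rw [← h1.eq, ← h2, cs.length_one]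
  rw [HAx_mulH_T, h3, HAx_rL_nil]

/-- right multiplication commutes with `rS` -/
theorem HAx_mulH_rS (i : B) (a b : Hk cs) : mulH cs a (rS cs i b) = rS cs i (mulH cs a b) := by
  classical
  refine HAx_ind cs (P := fun b => mulH cs a (rS cs i b) = rS cs i (mulH cs a b)) ?_ ?_ ?_ b
  · rw [map_zero, HAx_mulH_zero, map_zero]
  · intro c d hc hd
    rw [map_add, mulH_add_right, mulH_add_right, map_add, hc, hd]
  · intro r w
    rw [map_smul, mulH_smul_right, mulH_smul_right, map_smul]
    refine congrArg (fun x : Hk cs => r • x) ?_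
    obtain ⟨h1, h2⟩ := HAx_rw cs w
    obtain ⟨h3, h4⟩ := HAx_rw cs (w * cs.simple i)
    rw [HAx_rS_T, mulH_add_right, HAx_mulH_T]
    by_cases hd : cs.IsRightDescent w i
    · rw [if_pos hd, mulH_smul_right, HAx_mulH_T]
      -- `rw' (w s) ++ [i]` is a reduced word of `w`
      have h5 : cs.wordProd (rw' cs (w * cs.simple i) ++ [i]) = w := by
        rw [cs.wordProd_append, cs.wordProd_singleton, ← h4, cs.simple_mul_simple_cancel_right]
      have h6 : cs.IsReduced (rw' cs (w * cs.simple i) ++ [i]) := by
        show cs.length _ = _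
        rw [h5, List.length_append, List.length_singleton, ← h3.eq, ← h4]
        exact (cs.isRightDescent_iff.1 hd).symm
      have h7 : rL cs (rw' cs w) a = rS cs i (rL cs (rw' cs (w * cs.simple i)) a) := by
        rw [HAx_rL_eq cs h1 h6 (by rw [h5, ← h2]) a, HAx_rL_append, HAx_rL_cons, HAx_rL_nil]
      rw [h7, HAx_quad]
    · rw [if_neg hd, HAx_mulH_zero, add_zero]
      have h5 : cs.wordProd (rw' cs w ++ [i]) = w * cs.simple i := by
        rw [cs.wordProd_append, cs.wordProd_singleton, ← h2]
      have h6 : cs.IsReduced (rw' cs w ++ [i]) := by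
        show cs.length _ = _
        rw [h5, List.length_append, List.length_singleton, ← h1.eq, ← h2]
        exact cs.not_isRightDescent_iff.1 hd
      rw [HAx_mulH_T, HAx_rL_eq cs h3 h6 (by rw [h5, ← h4]) a, HAx_rL_append, HAx_rL_cons,
        HAx_rL_nil]

theorem HAx_mulH_rL (ω : List B) (a b : Hk cs) :
    mulH cs a (rL cs ω b) = rL cs ω (mulH cs a b) := by
  induction ω generalizing b with
  | nil => rfl
  | cons i ω ih => rw [HAx_rL_cons, HAx_rL_cons, ih, HAx_mulH_rS]

theorem mulH_assoc (a b c : Hk cs) : mulH cs (mulH cs a b) c = mulH cs a (mulH cs b c) := by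
  refine HAx_ind cs (P := fun c => mulH cs (mulH cs a b) c = mulH cs a (mulH cs b c)) ?_ ?_ ?_ c
  · rw [HAx_mulH_zero, HAx_mulH_zero, HAx_mulH_zero]
  · intro c d hc hd
    rw [mulH_add_right, mulH_add_right, mulH_add_right, hc, hd]
  · intro r w
    rw [mulH_smul_right, mulH_smul_right, mulH_smul_right, HAx_mulH_T, HAx_mulH_T, HAx_mulH_rL]

theorem mulH_T_simple (h : Hk cs) (i : B) : mulH cs h (T cs (cs.simple i)) = rS cs i h := by
  obtain ⟨h1, h2⟩ := HAx_rw cs (cs.simple i)
  have h3 : cs.wordProd [i] = cs.simple i := cs.wordProd_singleton i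
  have h4 : cs.IsReduced [i] := by
    show cs.length _ = _
    rw [h3, cs.length_simple, List.length_singleton]
  rw [HAx_mulH_T, HAx_rL_eq cs h1 h4 (by rw [h3, ← h2]) h, HAx_rL_cons, HAx_rL_nil]

end Pool.Agent.PolyCell
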