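import Pool.Agent.PolyCell.KLProps
import Pool.Agent.PolyCell.Dih3

/-!
# `C_{w_T}`, eigenvectors

Hints. General fact (`eigen_coeff`): if `g T_s = v g` and `ws > w`, then `g(ws) = v g(w)` (compare the coefficients at `T_w`). So if `g T_s = v g` for `s = i, j`, then
`g(z u) = v^{ℓ(u) - m} g(z w_T)` for `z` rmin, `u ∈ D`. For `g = C_{w_T}`: `z ≠ 1` gives `g(z w_T) = 0` by `kl_supp`, as `ℓ(z w_T) > m`; this is `C_wT_apply`.
`eigen_factor`: `g = (∑_z g(z w_T) T_z) C_{w_T}`, sum over the rmin `z`. `C_wT_sq`: `C_{w_T} T_u = v^{ℓ(u)} C_{w_T}`, so `η = ∑_{u ∈ D} v^{2 ℓ(u) - m}`; it is invariant under `v ↦ v⁻¹` (`u ↦ u w_T`), or because `C_{w_T}` is bar invariant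
(`co_bar`); `D` is finite because `C_{w_T}` has finite support. `co_wT_mul`: `T_s C_{w_T} g = v C_{w_T} g` and `co_of_eigen_left`.
-/

open CoxeterSystem

namespace Pool.Agent.PolyCell

variable {B W : Type*} [Group W] {M : CoxeterMatrix B} (cs : CoxeterSystem M W)

theorem HPar1_mul_s (h : Hk cs) {w : W} {i : B} (hw : ¬ cs.IsRightDescent w i) :
    (h * T cs (cs.simple i)) w = h (w * cs.simple i) := by
  classical
  induction h using hk_induction with
  | h0 => rw [zero_mul]; rfl
  | hT y =>
    by_cases hy : cs.IsRightDescent y i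
    · rw [T_mul_s' cs hy, add_apply', smul_apply', T_apply, T_apply, T_apply]
      have h1 : w ≠ y := by
        rintro rfl
        exact hw hy
      have h2 : w = y * cs.simple i ↔ w * cs.simple i = y := by
        constructor
        · rintro rfl
          rw [cs.simple_mul_simple_cancel_right]
        · rintro rfl
          rw [cs.simple_mul_simple_cancel_right]
      simp only [h2, if_neg h1, mul_zero, add_zero]
    · rw [T_mul_s cs hy, T_apply, T_apply]
      have h2 : w = y * cs.simple i ↔ w * cs.simple i = y := by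
        constructor
        · rintro rfl
          rw [cs.simple_mul_simple_cancel_right]
        · rintro rfl
          rw [cs.simple_mul_simple_cancel_right]
      simp only [h2]
  | ha g h hg hh => rw [add_mul, add_apply', add_apply', hg, hh]
  | hs r h hh => rw [smul_mul_assoc, smul_apply', smul_apply', hh]

/-- eigenvectors: coefficients along `s` -/
theorem eigen_coeff {g : Hk cs} {i : B} (hg : g * T cs (cs.simple i) = v 1 • g) {w : W}
    (hw : ¬ cs.IsRightDescent w i) : g (w * cs.simple i) = v 1 * g w := by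
  rw [← HPar1_mul_s cs g hw, hg, smul_apply']

/-- eigenvectors for `i, j`: coefficients along `D` -/
theorem eigen_coeff_D {g : Hk cs} {i j : B} (hij : i ≠ j) (hm : M i j ≠ 0)
    (hi : g * T cs (cs.simple i) = v 1 • g) (hj : g * T cs (cs.simple j) = v 1 • g) {z u : W}
    (hz : Rmin cs i j z) (hu : u ∈ D cs i j) :
    g (z * u) = v ((cs.length u : ℤ) - M i j) * g (z * wT cs i j) := by
  obtain ⟨n, hn⟩ : ∃ n, n = M i j - cs.length u := ⟨_, rfl⟩
  induction n generalizing u with
  | zero =>
    have h1 := len_D_le cs hij hm hu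
    have h2 : cs.length u = M i j := by omega
    rw [eq_wT_of_len cs hij hm hu h2, length_wT cs hij, sub_self, v_zero, one_mul]
  | succ n ih =>
    have h1 := len_D_le cs hij hm hu
    have hne : u ≠ wT cs i j := by
      intro h
      rw [h, length_wT cs hij] at hn
      omega
    obtain ⟨t, ht, htd⟩ : ∃ t, (t = i ∨ t = j) ∧ ¬ cs.IsRightDescent u t := by
      by_contra hcon
      push Not at hcon
      exact hne (eq_wT_of_rd cs hij hm hu (hcon i (Or.inl rfl)) (hcon j (Or.inr rfl)))
    have hg : g * T cs (cs.simple t) = v 1 • g := by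
      rcases ht with rfl | rfl
      · exact hi
      · exact hj
    have htD : cs.simple t ∈ D cs i j := by
      unfold D
      apply Subgroup.subset_closure
      rcases ht with rfl | rfl
      · exact Or.inl rfl
      · exact Or.inr rfl
    have hlen : cs.length (u * cs.simple t) = cs.length u + 1 := cs.not_isRightDescent_iff.mp htd
    have h2 := ih (u := u * cs.simple t) (mul_mem hu htD) (by omega)
    have h3 : ¬ cs.IsRightDescent (z * u) t := by
      rw [rd_mul_D cs hij ht hz hu]
      exact htd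
    have h4 := eigen_coeff cs hg h3
    rw [mul_assoc] at h4
    rw [h4, hlen] at h2
    have h5 : v (-1) * v 1 = 1 := by
      rw [← v_add]
      exact v_zero
    calc g (z * u) = v (-1) * (v 1 * g (z * u)) := by rw [← mul_assoc, h5, one_mul]
      _ = v (-1) * (v (((cs.length u + 1 : ℕ) : ℤ) - M i j) * g (z * wT cs i j)) := by rw [h2]
      _ = v ((cs.length u : ℤ) - M i j) * g (z * wT cs i j) := by
          rw [← mul_assoc, ← v_add]
          congr 2
          push_cast
          ring

theorem HPar1_wT_i {C : W → Hk cs} (h : IsKL cs C) {i j t : B} (hij : i ≠ j) (hm : M i j ≠ 0)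
    (ht : t = i ∨ t = j) : C (wT cs i j) * T cs (cs.simple t) = v 1 • C (wT cs i j) :=
  kl_mul_s cs h (rd_wT cs hij hm ht)

open Classical in
/-- `C_{w_T} = ∑_{u ∈ D} v^{ℓ(u) - m} T_u`. (From `kl_mul_s`: the coefficient function of `C_{w_T}` is
multiplied by `v` along `D`; and it is supported on `D`. For the support: or verify directly that the right side
is bar invariant, since it is an eigenvector of all `T_s`, `s ∈ {i,j}`, and use uniqueness.) -/
theorem C_wT_apply {C : W → Hk cs} (h : IsKL cs C) {i j : B} (hij : i ≠ j) (hm : M i j ≠ 0)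
    (u : W) : C (wT cs i j) u = if u ∈ D cs i j then v ((cs.length u : ℤ) - M i j) else 0 := by
  have hi := HPar1_wT_i cs h hij hm (Or.inl rfl)
  have hj := HPar1_wT_i cs h hij hm (Or.inr rfl)
  have h1 : Rmin cs i j (1 : W) :=
    ⟨cs.not_isRightDescent_one i, cs.not_isRightDescent_one j⟩
  obtain ⟨x, y, hx, hy, rfl⟩ := decompR cs hij u
  rw [eigen_coeff_D cs hij hm hi hj hx hy]
  by_cases hx1 : x = 1
  · subst hx1
    rw [one_mul, one_mul, kl_self cs h, mul_one, if_pos hy]
  · have h2 : x * y ∉ D cs i j := by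
      intro hxy
      have h3 := decompR_unique cs hij hx h1 hy hxy (by rw [one_mul])
      exact hx1 h3.1
    rw [if_neg h2]
    have h4 : C (wT cs i j) (x * wT cs i j) = 0 := by
      by_contra hne
      have h5 := len_mul_D cs hij hx (wT_mem cs i j)
      rcases kl_supp cs h hne with h6 | h6
      · apply hx1
        exact mul_right_cancel (h6.trans (one_mul _).symm)
      · omega
    rw [h4, mul_zero]

theorem HPar1_mul_T {C : W → Hk cs} (h : IsKL cs C) {i j : B} (hij : i ≠ j) (hm : M i j ≠ 0)
    {u : W} (hu : u ∈ D cs i j) :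
    C (wT cs i j) * T cs u = v (cs.length u : ℤ) • C (wT cs i j) := by
  obtain ⟨n, hn⟩ : ∃ n, n = cs.length u := ⟨_, rfl⟩
  induction n generalizing u with
  | zero =>
    have h1 : u = 1 := cs.length_eq_zero_iff.mp hn.symm
    subst h1
    rw [← one_def', mul_one, cs.length_one, Nat.cast_zero, v_zero, one_smul]
  | succ n ih =>
    have hu1 : u ≠ 1 := by
      rintro rfl
      rw [cs.length_one] at hn
      omega
    obtain ⟨t, ht⟩ := cs.exists_rightDescent_of_ne_one hu1
    have ht2 := rd_of_mem_D cs hij hu ht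
    have htD : cs.simple t ∈ D cs i j := by
      unfold D
      apply Subgroup.subset_closure
      rcases ht2 with rfl | rfl
      · exact Or.inl rfl
      · exact Or.inr rfl
    have hlen := cs.isRightDescent_iff.mp ht
    have h2 : ¬ cs.IsRightDescent (u * cs.simple t) t :=
      cs.isRightDescent_iff_not_isRightDescent_mul.mp ht
    have h3 := T_mul_s cs h2
    rw [cs.simple_mul_simple_cancel_right] at h3
    rw [← h3, ← mul_assoc, ih (mul_mem hu htD) (by omega), smul_mul_assoc,
      HPar1_wT_i cs h hij hm ht2, smul_smul, ← v_add, ← hlen]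
    push_cast
    rfl

theorem C_wT_sq {C : W → Hk cs} (h : IsKL cs C) {i j : B} (hij : i ≠ j) (hm : M i j ≠ 0) :
    ∃ η : LP, η ≠ 0 ∧ LaurentPolynomial.invert η = η ∧
      C (wT cs i j) * C (wT cs i j) = η • C (wT cs i j) := by
  classical
  set c : Hk cs := C (wT cs i j) with hc
  set S : Finset W := (show W →₀ LP from c).support with hS
  have hsum : c = ∑ w ∈ S, c w • T cs w := eq_sum_T cs c
  have hSD : ∀ w ∈ S, w ∈ D cs i j ∧ c w = v ((cs.length w : ℤ) - M i j) := by
    intro w hw
    have h1 : c w ≠ 0 := Finsupp.mem_support_iff.mp hw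
    have h2 := C_wT_apply cs h hij hm w
    rw [← hc] at h2
    by_cases hw2 : w ∈ D cs i j
    · rw [if_pos hw2] at h2
      exact ⟨hw2, h2⟩
    · rw [if_neg hw2] at h2
      exact absurd h2 h1
  have hcc : c * c = (∑ w ∈ S, c w * v (cs.length w : ℤ)) • c := by
    have h1 : c * c = c * ∑ w ∈ S, c w • T cs w := congrArg (fun x => c * x) hsum
    rw [h1, Finset.mul_sum, Finset.sum_smul]
    refine Finset.sum_congr rfl fun w hw => ?_
    rw [mul_smul_comm, HPar1_mul_T cs h hij hm (hSD w hw).1, smul_smul]
  have hself : c (wT cs i j) = 1 := kl_self cs h _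
  have hwS : wT cs i j ∈ S := by
    rw [hS, Finsupp.mem_support_iff]
    show c (wT cs i j) ≠ 0
    rw [hself]
    exact one_ne_zero
  refine ⟨∑ w ∈ S, c w * v (cs.length w : ℤ), ?_, ?_, hcc⟩
  · -- the coefficient of `v ^ m` is `1`
    intro h0
    rw [← Finset.add_sum_erase S _ hwS, hself, one_mul, length_wT cs hij] at h0
    have h1 : dle ((M i j : ℤ) - 1)
        (∑ w ∈ S.erase (wT cs i j), c w * v (cs.length w : ℤ)) := by
      refine dle_sum _ _ fun w hw => ?_
      obtain ⟨hw1, hw2⟩ := Finset.mem_erase.mp hw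
      obtain ⟨hw3, hw4⟩ := hSD w hw2
      have h2 := len_D_le cs hij hm hw3
      have h3 : cs.length w ≠ M i j := fun h4 => hw1 (eq_wT_of_len cs hij hm hw3 h4)
      rw [hw4, ← v_add]
      exact dle_mono (by omega) (dle_v _)
    have h2 : v (M i j : ℤ) = -∑ w ∈ S.erase (wT cs i j), c w * v (cs.length w : ℤ) :=
      eq_neg_of_add_eq_zero_left h0
    have h3 : dle ((M i j : ℤ) - 1) (v (M i j : ℤ)) := by
      rw [h2]
      exact dle_neg h1
    have h4 := h3 (M i j : ℤ) (by omega)
    rw [coeff_v, if_pos rfl] at h4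
    exact one_ne_zero h4
  · -- bar invariance
    obtain ⟨β, hβ, hb, h2⟩ : ∃ β : Hk cs →+ Hk cs, IsBar cs β ∧ β c = c ∧
        ∀ (r : LP) (g : Hk cs), β (r • g) = LaurentPolynomial.invert r • β g := by
      obtain ⟨β, hβ, hβ2⟩ := h
      exact ⟨β, hβ, (hβ2 _).1, fun r g => hβ.smul r g⟩
    have h1 : β (c * c) = c * c := by rw [bar_mul cs hβ, hb]
    replace h2 := h2 (∑ w ∈ S, c w * v (cs.length w : ℤ)) c
    rw [← hcc, h1, hb, hcc] at h2
    have h3 := congrArg (fun g : Hk cs => g (wT cs i j)) h2
    simp only [smul_apply'] at h3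
    rw [hself, mul_one, mul_one] at h3
    exact h3.symm

/-- `C_{w_T} H` is spanned by the `C_z` with `i, j ∈ L(z)`. -/
theorem co_wT_mul {C : W → Hk cs} (h : IsKL cs C) {i j : B} (hij : i ≠ j) (hm : M i j ≠ 0)
    (g : Hk cs) {z : W} (hz : co cs C (C (wT cs i j) * g) z ≠ 0) :
    cs.IsLeftDescent z i ∧ cs.IsLeftDescent z j := by
  have key : ∀ t, (t = i ∨ t = j) → cs.IsLeftDescent z t := by
    intro t ht
    refine co_of_eigen_left cs h ?_ hz
    rw [← mul_assoc, kl_s_mul cs h (ld_wT cs hij hm ht), smul_mul_assoc]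
  exact ⟨key i (Or.inl rfl), key j (Or.inr rfl)⟩

end Pool.Agent.PolyCell
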