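import Pool.Agent.PolyCell.HAx

/-!
# The Hecke algebra as a ring
-/

open CoxeterSystem

namespace Pool.Agent.PolyCell

variable {B W : Type*} [Group W] {M : CoxeterMatrix B} (cs : CoxeterSystem M W)

theorem mulH_zero (a : Hk cs) : mulH cs a 0 = 0 := by
  have := mulH_add_right cs a 0 0
  simpa using this

theorem zero_mulH (a : Hk cs) : mulH cs 0 a = 0 := by
  have := mulH_add_left cs 0 0 a
  simpa using this

noncomputable instance : Ring (Hk cs) :=
  { (inferInstance : AddCommGroup (Hk cs)) with
    mul := mulH cs
    one := T cs 1
    mul_assoc := mulH_assoc cs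
    one_mul := one_mulH cs
    mul_one := mulH_one cs
    left_distrib := mulH_add_right cs
    right_distrib := mulH_add_left cs
    mul_zero := mulH_zero cs
    zero_mul := zero_mulH cs }

noncomputable instance : Algebra LP (Hk cs) :=
  Algebra.ofModule (fun r a b => mulH_smul_left cs r a b) (fun r a b => mulH_smul_right cs r a b)

theorem mul_def' (a b : Hk cs) : a * b = mulH cs a b := rfl

theorem one_def' : (1 : Hk cs) = T cs 1 := rfl

theorem mul_T_simple (h : Hk cs) (i : B) : h * T cs (cs.simple i) = rS cs i h :=
  mulH_T_simple cs h i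

end Pool.Agent.PolyCell
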