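import Pool.Agent.PolyCell.QStat

/-!
# The dichotomy B6

Proof. If some `h ∈ R(x)` has `M h g ≠ 0` (`h ≠ g`): if `h ∈ L(y)`, second alternative; otherwise `y` is `{g,h}`-lmin, `x = x1 a` (`decompR`), `a ≠ 1` (`h ∈ R(a)`), `g ∉ R(a)`, `ℓ(a s_g) = ℓ(a) + 1 ≥ 2` and
`fstat` for `x1`, `a s_g`, `y`. If there is no such `h`: `qstat`.
-/

open CoxeterSystem

namespace Pool.Agent.PolyCell

variable {B W : Type*} [Group W] {M : CoxeterMatrix B} (cs : CoxeterSystem M W)

/-- B6: dichotomy. -/
theorem dichotomy (hM : TF M) {x y : W} {g : B} (hx : ¬ cs.IsRightDescent x g)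
    (hy : ¬ cs.IsLeftDescent y g) :
    cs.length (x * cs.simple g * y) = cs.length x + 1 + cs.length y ∨
      ∃ h, h ≠ g ∧ M g h ≠ 0 ∧ cs.IsRightDescent x h ∧ cs.IsLeftDescent y h := by
  by_cases H : ∀ h, cs.IsRightDescent x h → M h g = 0
  · exact Or.inl (qstat cs hM hx H hy).1
  · push Not at H
    obtain ⟨h, hxh, hm⟩ := H
    have hne : h ≠ g := fun e => hx (e ▸ hxh)
    have hm' : M g h ≠ 0 := by
      rw [M.symmetric]
      exact hm
    by_cases hyh : cs.IsLeftDescent y h
    · exact Or.inr ⟨h, hne, hm', hxh, hyh⟩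
    · left
      obtain ⟨x1, a, hx1, ha, rfl⟩ := decompR cs hne.symm x
      have hga : ¬ cs.IsRightDescent a g := fun h' =>
        hx ((rd_mul_D cs hne.symm (Or.inl rfl) hx1 ha).2 h')
      have hha : cs.IsRightDescent a h := (rd_mul_D cs hne.symm (Or.inr rfl) hx1 ha).1 hxh
      have hl1 : cs.length (a * cs.simple g) = cs.length a + 1 := (cs.not_isRightDescent_iff).1 hga
      have hl2 : cs.length (a * cs.simple h) + 1 = cs.length a := (cs.isRightDescent_iff).1 hha
      have hag : a * cs.simple g ∈ D cs g h := by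
        refine (D cs g h).mul_mem ha ?_
        exact Subgroup.subset_closure (Set.mem_insert _ _)
      have h1 := (fstat cs hM y g h x1 (a * cs.simple g) hne.symm hm' hx1 ⟨hy, hyh⟩ hag
        (by omega)).1
      have h2 := len_mul_D cs hne.symm hx1 ha
      rw [← mul_assoc] at h1
      rw [h1, h2, hl1]
      ring

end Pool.Agent.PolyCell
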