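import Pool.Agent.PolyCell.Lat
import Pool.Agent.PolyCell.DH2
import Pool.Agent.PolyCell.QDich

/-!
# Junction lemmas: `T_{x₁} T_a T_b T_{y₁}` with `a, b ∈ D`

Proofs. A: if `ℓ(a) + ℓ(b) ≤ m`: `T_a T_b = T_{ab}` (`len_junction`) and `T_triple` (`ℓ(ab) ≥ 2`), `plat_T`. Otherwise `dh1`: `T_a T_b = ∑_{c ∈ D} f_c T_c` (`mul_supp_D`), `f_c` is `Gd (ℓ(a)+ℓ(b)+ℓ(c)-2m)`: for `ℓ(c) ≤ 1` the exponent is negative, so
`f_c = 0`; for `ℓ(c) ≥ 2`: `T_triple`, `plat_T`, `plat_smul`, `plat_mono` (`ℓ(c) ≤ m`). B: the same, `ℓ(c) = 1` has exponent `0`, `c = 1` negative. C: `dh2`; `T_x C_{w_T} T_y` is `Zero` by the ideal property (`Fac N (w_T)`); `ℓ(c) ≥ 2`: coefficient of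
degree `≤ 0` and `T_triple`, `lat_T`.
-/

open CoxeterSystem

namespace Pool.Agent.PolyCell

variable {B W : Type*} [Group W] {M : CoxeterMatrix B} {cs : CoxeterSystem M W}
  {C : W → Hk cs} {N : ℕ}

private theorem Junc_expand (p q g : Hk cs) :
    ∃ s : Finset W, (∀ c ∈ s, g c ≠ 0) ∧ p * g * q = ∑ c ∈ s, g c • (p * T cs c * q) := by
  refine ⟨(show W →₀ LP from g).support, fun c hc => Finsupp.mem_support_iff.1 hc, ?_⟩
  conv_lhs => rw [eq_sum_T cs g]
  unfold Finsupp.sum
  rw [Finset.mul_sum, Finset.sum_mul]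
  refine Finset.sum_congr rfl fun c _ => ?_
  rw [mul_smul_comm, smul_mul_assoc]
  rfl

private theorem Junc_lat {p q g : Hk cs} {k : ℤ}
    (h : ∀ c, g c ≠ 0 → Lat cs C N k (g c • (p * T cs c * q))) : Lat cs C N k (p * g * q) := by
  obtain ⟨s, h1, h2⟩ := Junc_expand p q g
  rw [h2]
  exact lat_sum s _ fun c hc => h c (h1 c hc)

private theorem Junc_plat {p q g : Hk cs} {k : ℤ}
    (h : ∀ c, g c ≠ 0 → PLat cs C N k (g c • (p * T cs c * q))) : PLat cs C N k (p * g * q) := by
  obtain ⟨s, h1, h2⟩ := Junc_expand p q g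
  rw [h2]
  exact plat_sum s _ fun c hc => h c (h1 c hc)

private theorem Junc_rd (i : B) : cs.IsRightDescent (cs.simple i) i := by
  unfold CoxeterSystem.IsRightDescent
  rw [cs.simple_mul_simple_self, cs.length_one, cs.length_simple]
  exact Nat.zero_lt_one

private theorem Junc_ne {i j : B} (hij : i ≠ j) (hm : M i j ≠ 0) : cs.simple i ≠ cs.simple j := by
  intro h
  have h1 : cs.IsRightDescent (cs.simple i) i := Junc_rd i
  have h2 : cs.IsRightDescent (cs.simple i) j := by
    rw [h]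
    exact Junc_rd j
  have hmem : cs.simple i ∈ D cs i j := Subgroup.subset_closure (Set.mem_insert _ _)
  have h3 := eq_wT_of_rd cs hij hm hmem h1 h2
  have h4 := length_wT cs hij
  rw [← h3, cs.length_simple] at h4
  have := two_le_exp hij hm
  omega

private theorem Junc_len_one {i j : B} (hij : i ≠ j) {c : W} (hc : c ∈ D cs i j)
    (h : cs.length c = 1) : c = cs.simple i ∨ c = cs.simple j := by
  obtain ⟨k, rfl⟩ := cs.length_eq_one_iff.1 h
  rcases rd_of_mem_D cs hij hc (Junc_rd k) with rfl | rfl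
  · exact Or.inl rfl
  · exact Or.inr rfl

/-- `T_{x₁} T_c T_{y₁} = T_{x₁ c y₁}` for `ℓ(c) ≥ 2` (from `fstat`). -/
theorem T_triple (hM : TF M) {i j : B} (hij : i ≠ j) (hm : M i j ≠ 0) {x c y : W}
    (hx : Rmin cs i j x) (hy : Lmin cs i j y) (hc : c ∈ D cs i j) (h2 : 2 ≤ cs.length c) :
    T cs x * T cs c * T cs y = T cs (x * c * y) := by
  have h1 : Red cs x c := len_mul_D cs hij hx hc
  have h3 := (fstat cs hM y i j x c hij hm hx hy hc h2).1
  have h4 : Red cs (x * c) y := by
    unfold Red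
    rw [h3, h1]
  rw [T_mul_T cs h1, T_mul_T cs h4]

private theorem Junc_term (hM : TF M) (hC : IsKL cs C) {i j : B} (hij : i ≠ j) (hm : M i j ≠ 0)
    {x c y : W} (hx : Rmin cs i j x) (hy : Lmin cs i j y) (hc : c ∈ D cs i j)
    (h2 : 2 ≤ cs.length c) {r : LP} {k l : ℤ} (hr : Gd l r) (hl : l ≤ k) :
    PLat cs C N k (r • (T cs x * T cs c * T cs y)) := by
  rw [T_triple hM hij hm hx hy hc h2]
  exact plat_mono (by omega) (plat_smul hr (plat_T hC (x * c * y)))

/-- A: total length at most `2 m - 2`. -/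
theorem junc_A (hM : TF M) (hC : IsKL cs C) {i j t : B} (hij : i ≠ j) (hm : M i j ≠ 0)
    {x a b y : W} (hx : Rmin cs i j x) (hy : Lmin cs i j y) (ha : a ∈ D cs i j) (hb : b ∈ D cs i j)
    (hat : cs.IsRightDescent a t) (hbt : ¬ cs.IsLeftDescent b t) (h2 : 2 ≤ cs.length a + cs.length b)
    (hl : cs.length a + cs.length b + 2 ≤ 2 * M i j) :
    PLat cs C N (max 0 ((cs.length a : ℤ) + cs.length b - M i j))
      (T cs x * T cs a * T cs b * T cs y) := by
  have hass : T cs x * T cs a * T cs b * T cs y = T cs x * (T cs a * T cs b) * T cs y := by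
    rw [mul_assoc (T cs x) (T cs a) (T cs b)]
  rw [hass]
  rcases Nat.le_total (cs.length a + cs.length b) (M i j) with h | h
  · have h1 := len_junction cs hij hm ha hb hat hbt h
    rw [T_mul_T cs h1, T_triple hM hij hm hx hy (Subgroup.mul_mem _ ha hb) (by rw [h1]; exact h2)]
    exact plat_mono (le_max_left _ _) (plat_T hC _)
  · refine Junc_plat fun c hc => ?_
    have hcD := mul_supp_D cs ha hb hc
    have hg := dh1 cs hij hm ha hb hat hbt h c
    have h3 : 2 ≤ cs.length c := by
      by_contra hlt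
      exact hc (hg.2.2 (by omega))
    have h4 := len_D_le cs hij hm hcD
    exact Junc_term hM hC hij hm hx hy hcD h3 hg (le_trans (by omega) (le_max_right _ _))

/-- B: total length `2 m - 1`. -/
theorem junc_B (hM : TF M) (hC : IsKL cs C) {i j t : B} (hij : i ≠ j) (hm : M i j ≠ 0)
    {x a b y : W} (hx : Rmin cs i j x) (hy : Lmin cs i j y) (ha : a ∈ D cs i j) (hb : b ∈ D cs i j)
    (hat : cs.IsRightDescent a t) (hbt : ¬ cs.IsLeftDescent b t)
    (hl : cs.length a + cs.length b + 1 = 2 * M i j) :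
    ∃ n n' : LP, Gd 0 n ∧ Gd 0 n' ∧ PLat cs C N ((M i j : ℤ) - 1)
      (T cs x * T cs a * T cs b * T cs y - n • (T cs x * T cs (cs.simple i) * T cs y)
        - n' • (T cs x * T cs (cs.simple j) * T cs y)) := by
  classical
  have h2m := two_le_exp hij hm
  have hle : M i j ≤ cs.length a + cs.length b := by omega
  have hg := dh1 cs hij hm ha hb hat hbt hle
  obtain ⟨g, hgdef⟩ : ∃ g, g = T cs a * T cs b := ⟨_, rfl⟩
  rw [← hgdef] at hg
  have hgi := hg (cs.simple i)
  have hgj := hg (cs.simple j)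
  rw [cs.length_simple] at hgi hgj
  have hnn : ((cs.length a : ℤ) + cs.length b + (1 : ℕ) - 2 * M i j) = 0 := by omega
  rw [hnn] at hgi hgj
  refine ⟨g (cs.simple i), g (cs.simple j), hgi, hgj, ?_⟩
  obtain ⟨g', hg'⟩ : ∃ g', g' = g - g (cs.simple i) • T cs (cs.simple i) -
    g (cs.simple j) • T cs (cs.simple j) := ⟨_, rfl⟩
  have hexp : T cs x * T cs a * T cs b * T cs y -
      g (cs.simple i) • (T cs x * T cs (cs.simple i) * T cs y) -
      g (cs.simple j) • (T cs x * T cs (cs.simple j) * T cs y) = T cs x * g' * T cs y := by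
    rw [mul_assoc (T cs x) (T cs a) (T cs b), ← hgdef, hg', mul_sub, mul_sub, sub_mul, sub_mul,
      mul_smul_comm, mul_smul_comm, smul_mul_assoc, smul_mul_assoc]
  rw [hexp]
  have happ : ∀ c, g' c = g c - g (cs.simple i) * (if c = cs.simple i then 1 else 0) -
      g (cs.simple j) * (if c = cs.simple j then 1 else 0) := by
    intro c
    rw [hg', sub_apply', sub_apply', smul_apply', smul_apply', T_apply, T_apply]
  have hne := Junc_ne (cs := cs) hij hm
  refine Junc_plat fun c hc => ?_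
  have hci : c ≠ cs.simple i := by
    rintro rfl
    apply hc
    rw [happ, if_pos rfl, if_neg hne]
    ring
  have hcj : c ≠ cs.simple j := by
    rintro rfl
    apply hc
    rw [happ, if_pos rfl, if_neg hne.symm]
    ring
  have hcc : g' c = g c := by
    rw [happ, if_neg hci, if_neg hcj]
    ring
  rw [hcc] at hc ⊢
  have hcD : c ∈ D cs i j := mul_supp_D cs ha hb (by rw [← hgdef]; exact hc)
  have h3 : 2 ≤ cs.length c := by
    by_contra hlt
    have h5 : cs.length c = 0 ∨ cs.length c = 1 := by omega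
    rcases h5 with h5 | h5
    · exact hc ((hg c).2.2 (by omega))
    · rcases Junc_len_one hij hcD h5 with h6 | h6
      · exact hci h6
      · exact hcj h6
  have h4 := len_D_le cs hij hm hcD
  exact Junc_term hM hC hij hm hx hy hcD h3 (hg c) (by omega)

/-- C: exponent `> N`. -/
theorem junc_C (hM : TF M) (hC : IsKL cs C) (hI : IdealN cs C N) {i j t : B} (hij : i ≠ j)
    (hm : N < M i j) {x a b y : W} (hx : Rmin cs i j x) (hy : Lmin cs i j y)
    (ha : a ∈ D cs i j) (hb : b ∈ D cs i j) (ha' : a ≠ wT cs i j) (hb' : b ≠ wT cs i j)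
    (hat : cs.IsRightDescent a t) (hbt : ¬ cs.IsLeftDescent b t)
    (hl : M i j ≤ cs.length a + cs.length b) :
    ∃ n n' n'' : LP, dle ((cs.length a : ℤ) + cs.length b - 2 * M i j) n ∧
      dle ((cs.length a : ℤ) + cs.length b + 1 - 2 * M i j) n' ∧
      dle ((cs.length a : ℤ) + cs.length b + 1 - 2 * M i j) n'' ∧
      Lat cs C N 0
        (T cs x * T cs a * T cs b * T cs y - n • (T cs x * T cs y)
          - n' • (T cs x * T cs (cs.simple i) * T cs y)
          - n'' • (T cs x * T cs (cs.simple j) * T cs y)) := by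
  classical
  have hm0 : M i j ≠ 0 := by omega
  have h2m := two_le_exp hij hm0
  obtain ⟨g, r, hab, hsupp, hdle⟩ := dh2 cs hC hij hm0 ha hb ha' hb' hat hbt hl
  have hd1 := (hdle 1).2
  have hdi := (hdle (cs.simple i)).2
  have hdj := (hdle (cs.simple j)).2
  rw [cs.length_one] at hd1
  rw [cs.length_simple] at hdi hdj
  have e1 : ((cs.length a : ℤ) + cs.length b + ((0 : ℕ) : ℤ) - 2 * M i j) =
      (cs.length a : ℤ) + cs.length b - 2 * M i j := by omega
  have e2 : ((cs.length a : ℤ) + cs.length b + ((1 : ℕ) : ℤ) - 2 * M i j) =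
      (cs.length a : ℤ) + cs.length b + 1 - 2 * M i j := by omega
  rw [e1] at hd1
  rw [e2] at hdi hdj
  refine ⟨g 1, g (cs.simple i), g (cs.simple j), hd1, hdi, hdj, ?_⟩
  obtain ⟨g', hg'⟩ : ∃ g', g' = g - g 1 • T cs 1 - g (cs.simple i) • T cs (cs.simple i) -
    g (cs.simple j) • T cs (cs.simple j) := ⟨_, rfl⟩
  have hexp : T cs x * T cs a * T cs b * T cs y - g 1 • (T cs x * T cs y) -
      g (cs.simple i) • (T cs x * T cs (cs.simple i) * T cs y) -
      g (cs.simple j) • (T cs x * T cs (cs.simple j) * T cs y) =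
      T cs x * g' * T cs y + r • (T cs x * C (wT cs i j) * T cs y) := by
    rw [mul_assoc (T cs x) (T cs a) (T cs b), hab, hg', mul_sub, mul_sub, mul_sub, sub_mul, sub_mul,
      sub_mul, mul_smul_comm, mul_smul_comm, mul_smul_comm, smul_mul_assoc, smul_mul_assoc,
      smul_mul_assoc, mul_add, add_mul, mul_smul_comm, smul_mul_assoc, ← one_def' cs, mul_one]
    abel
  rw [hexp]
  have hfac : Fac cs N (wT cs i j) := by
    refine ⟨i, j, hij, hm, 1, 1, by rw [one_mul, mul_one], ?_⟩
    rw [length_wT cs hij, cs.length_one]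
    omega
  have hz : Zero cs C N (r • (T cs x * C (wT cs i j) * T cs y)) :=
    zero_smul' (zero_mul_right hC hI (hI _ hfac (T cs x)).2 (T cs y))
  refine lat_add ?_ (lat_of_zero 0 hz)
  have happ : ∀ c, g' c = g c - g 1 * (if c = 1 then 1 else 0) -
      g (cs.simple i) * (if c = cs.simple i then 1 else 0) -
      g (cs.simple j) * (if c = cs.simple j then 1 else 0) := by
    intro c
    rw [hg', sub_apply', sub_apply', sub_apply', smul_apply', smul_apply', smul_apply', T_apply,
      T_apply, T_apply]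
  have hne := Junc_ne (cs := cs) hij hm0
  have hne1 : ∀ k : B, cs.simple k ≠ 1 := by
    intro k hk
    have h5 := cs.length_simple k
    rw [hk, cs.length_one] at h5
    omega
  refine Junc_lat fun c hc => ?_
  have hc1 : c ≠ 1 := by
    rintro rfl
    apply hc
    rw [happ, if_pos rfl, if_neg (hne1 i).symm, if_neg (hne1 j).symm]
    ring
  have hci : c ≠ cs.simple i := by
    rintro rfl
    apply hc
    rw [happ, if_pos rfl, if_neg hne, if_neg (hne1 i)]
    ring
  have hcj : c ≠ cs.simple j := by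
    rintro rfl
    apply hc
    rw [happ, if_pos rfl, if_neg hne.symm, if_neg (hne1 j)]
    ring
  have hcc : g' c = g c := by
    rw [happ, if_neg hci, if_neg hcj, if_neg hc1]
    ring
  rw [hcc] at hc ⊢
  have hcD : c ∈ D cs i j := (hsupp c hc).1
  have h3 : 2 ≤ cs.length c := by
    by_contra hlt
    have h5 : cs.length c = 0 ∨ cs.length c = 1 := by omega
    rcases h5 with h5 | h5
    · exact hc1 (cs.length_eq_zero_iff.1 h5)
    · rcases Junc_len_one hij hcD h5 with h6 | h6
      · exact hci h6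
      · exact hcj h6
  rw [T_triple hM hij hm0 hx hy hcD h3]
  have h6 := lat_smul (hdle c).1 (lat_T (N := N) hC (x * c * y))
  rwa [add_zero] at h6

end Pool.Agent.PolyCell
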