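import Pool.Agent.PolyCell.Lat
import Pool.Agent.PolyCell.HPar
import Pool.Agent.PolyCell.VSet

/-!
# The algebraic facts used for the exponent `N`

`KAx cs C N`: `T_x C_{w_T} T_y` is in the lattice for `x` rmin, `y` lmin (`m_T = N`), and it is `T_{x w_T y}` up to `Lat (-1)` if `(x,T)`
is a first pair and `w_T y ∈ W_{≤ N}`.
-/

open CoxeterSystem

namespace Pool.Agent.PolyCell

variable {B W : Type*} [Group W] {M : CoxeterMatrix B} {cs : CoxeterSystem M W}
  {C : W → Hk cs} {N : ℕ}

/-- the algebraic facts for the exponent `N` -/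
structure KAx (cs : CoxeterSystem M W) (C : W → Hk cs) (N : ℕ) : Prop where
  k1 : ∀ ⦃i j : B⦄ ⦃x y : W⦄, i ≠ j → M i j = N → Rmin cs i j x → Lmin cs i j y →
    Lat cs C N 0 (T cs x * C (wT cs i j) * T cs y)
  k1f : ∀ ⦃i j : B⦄ ⦃x y : W⦄, First cs N i j x → Lmin cs i j y → Le cs N (wT cs i j * y) →
    Lat cs C N (-1) (T cs x * C (wT cs i j) * T cs y - T cs (x * wT cs i j * y))

/-- expansion of the middle factor -/
theorem lat_expand {k : ℤ} (x y : W) (h : Hk cs)
    (H : ∀ u, h u ≠ 0 → Lat cs C N k (h u • (T cs x * T cs u * T cs y))) :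
    Lat cs C N k (T cs x * h * T cs y) := by
  have e : T cs x * h * T cs y =
      ∑ u ∈ (show W →₀ LP from h).support, h u • (T cs x * T cs u * T cs y) := by
    conv_lhs => rw [eq_sum_T cs h]
    rw [Finsupp.sum, Finset.mul_sum, Finset.sum_mul]
    refine Finset.sum_congr rfl fun u _ => ?_
    rw [mul_smul_comm, smul_mul_assoc]
    rfl
  rw [e]
  refine lat_sum _ _ fun u hu => H u ?_
  exact (Finsupp.mem_support_iff (f := (show W →₀ LP from h))).mp hu

/-- expansion of the left factor -/
theorem lat_expandL {k : ℤ} (z : W) (E g : Hk cs)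
    (H : ∀ u, u ≠ z → E u ≠ 0 → Lat cs C N k (E u • (T cs u * g))) :
    Lat cs C N k (E * g - E z • (T cs z * g)) := by
  classical
  have e : E * g = ∑ u ∈ insert z (show W →₀ LP from E).support, E u • (T cs u * g) := by
    conv_lhs => rw [eq_sum_T cs E]
    rw [Finsupp.sum, Finset.sum_mul]
    have e2 : ∑ u ∈ insert z (show W →₀ LP from E).support, E u • (T cs u * g) =
        ∑ u ∈ (show W →₀ LP from E).support, E u • (T cs u * g) := by
      by_cases hz : z ∈ (show W →₀ LP from E).support
      · rw [Finset.insert_eq_of_mem hz]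
      · rw [Finset.sum_insert hz]
        have h0 : E z = 0 := by
          by_contra h0
          exact hz ((Finsupp.mem_support_iff (f := (show W →₀ LP from E))).mpr h0)
        rw [h0, zero_smul, zero_add]
    rw [e2]
    refine Finset.sum_congr rfl fun u _ => ?_
    rw [smul_mul_assoc]
    rfl
  rw [e, ← Finset.add_sum_erase _ _ (Finset.mem_insert_self z _), add_sub_cancel_left]
  refine lat_sum _ _ fun u hu => ?_
  have hne : u ≠ z := Finset.ne_of_mem_erase hu
  by_cases h0 : E u = 0
  · rw [h0, zero_smul]
    exact lat_zero k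
  · exact H u hne h0

/-- expansion of the right factor -/
theorem lat_expandR {k : ℤ} (z : W) (E g : Hk cs)
    (H : ∀ u, u ≠ z → E u ≠ 0 → Lat cs C N k (E u • (g * T cs u))) :
    Lat cs C N k (g * E - E z • (g * T cs z)) := by
  classical
  have e : g * E = ∑ u ∈ insert z (show W →₀ LP from E).support, E u • (g * T cs u) := by
    conv_lhs => rw [eq_sum_T cs E]
    rw [Finsupp.sum, Finset.mul_sum]
    have e2 : ∑ u ∈ insert z (show W →₀ LP from E).support, E u • (g * T cs u) =
        ∑ u ∈ (show W →₀ LP from E).support, E u • (g * T cs u) := by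
      by_cases hz : z ∈ (show W →₀ LP from E).support
      · rw [Finset.insert_eq_of_mem hz]
      · rw [Finset.sum_insert hz]
        have h0 : E z = 0 := by
          by_contra h0
          exact hz ((Finsupp.mem_support_iff (f := (show W →₀ LP from E))).mpr h0)
        rw [h0, zero_smul, zero_add]
    rw [e2]
    refine Finset.sum_congr rfl fun u _ => ?_
    rw [mul_smul_comm]
    rfl
  rw [e, ← Finset.add_sum_erase _ _ (Finset.mem_insert_self z _), add_sub_cancel_left]
  refine lat_sum _ _ fun u hu => ?_
  have hne : u ≠ z := Finset.ne_of_mem_erase hu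
  by_cases h0 : E u = 0
  · rw [h0, zero_smul]
    exact lat_zero k
  · exact H u hne h0

end Pool.Agent.PolyCell
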