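import Pool.Agent.PolyCell.Bounds
import Pool.Agent.PolyCell.KAx

/-!
# K1: `T_x C_{w_T} T_y` lies in the lattice, and its leading part for first pairs
-/

open CoxeterSystem

namespace Pool.Agent.PolyCell

variable {B W : Type*} [Group W] {M : CoxeterMatrix B} {cs : CoxeterSystem M W}
  {C : W → Hk cs} {N : ℕ}

/-- generators in `D` -/
private theorem K1_one {i j : B} (hij : i ≠ j) {u : W} (hu : u ∈ D cs i j)
    (h1 : cs.length u = 1) : ∃ g, (g = i ∨ g = j) ∧ u = cs.simple g := by
  obtain ⟨g, hg⟩ := cs.length_eq_one_iff.mp h1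
  refine ⟨g, ?_, hg⟩
  refine rd_of_mem_D cs hij hu ?_
  rw [hg]
  unfold CoxeterSystem.IsRightDescent
  rw [cs.simple_mul_simple_self, cs.length_one, cs.length_simple]
  exact zero_lt_one

private theorem K1_simple_mem {i j g : B} (hg : g = i ∨ g = j) : cs.simple g ∈ D cs i j := by
  unfold D
  apply Subgroup.subset_closure
  rcases hg with rfl | rfl
  · exact Set.mem_insert _ _
  · exact Set.mem_insert_of_mem _ rfl

/-- `x s_g` is a prefix of `x w_T` -/
private theorem K1_prefix {i j g : B} (hij : i ≠ j) (hm : M i j ≠ 0) {x : W}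
    (hx : Rmin cs i j x) (hg : g = i ∨ g = j) (h : Le cs N (x * wT cs i j)) :
    Le cs N (x * cs.simple g) := by
  have hgm := K1_simple_mem (cs := cs) hg
  have hc := (len_compl cs hij hm hgm).1
  rw [cs.inv_simple, cs.length_simple] at hc
  have hr : Red cs (x * cs.simple g) (cs.simple g * wT cs i j) := by
    unfold Red
    have e : x * cs.simple g * (cs.simple g * wT cs i j) = x * wT cs i j := by
      rw [mul_assoc x, cs.simple_mul_simple_cancel_left]
    rw [e, len_mul_D cs hij hx (wT_mem cs i j), len_mul_D cs hij hx hgm, length_wT cs hij,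
      cs.length_simple]
    omega
  refine le_prefix cs hr ?_
  have e : x * cs.simple g * (cs.simple g * wT cs i j) = x * wT cs i j := by
    rw [mul_assoc x, cs.simple_mul_simple_cancel_left]
  rw [e]
  exact h

/-- `s_g y` is a suffix of `w_T y` -/
private theorem K1_suffix {i j g : B} (hij : i ≠ j) (hm : M i j ≠ 0) {y : W}
    (hy : Lmin cs i j y) (hg : g = i ∨ g = j) (h : Le cs N (wT cs i j * y)) :
    Le cs N (cs.simple g * y) := by
  have hgm := K1_simple_mem (cs := cs) hg
  have hc := (len_compl cs hij hm hgm).2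
  rw [cs.length_simple] at hc
  have e : wT cs i j * cs.simple g * (cs.simple g * y) = wT cs i j * y := by
    rw [mul_assoc (wT cs i j), cs.simple_mul_simple_cancel_left]
  have hr : Red cs (wT cs i j * cs.simple g) (cs.simple g * y) := by
    unfold Red
    rw [e, len_D_mul cs hij hy (wT_mem cs i j), len_D_mul cs hij hy hgm, length_wT cs hij,
      cs.length_simple]
    omega
  refine le_suffix cs hr ?_
  rw [e]
  exact h

/-- K1 for `x w_T, w_T y ∈ W_{≤ N}`: expand `C_{w_T}` by `C_wT_apply`; terms `v^{ℓ(u)-N} T_x T_u T_y`, `ℓ(u) ≥ 2` by `T_triple`,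
`ℓ(u) = 1` by E1, `u = 1` by E0. -/
theorem k1_le (hM : TF M) (hC : IsKL cs C) (hI : IdealN cs C N) (hN : 2 ≤ N) {i j : B}
    (hij : i ≠ j) (hm : M i j = N) {x y : W} (hx : Rmin cs i j x) (hy : Lmin cs i j y)
    (h1 : Le cs N (x * wT cs i j)) (h2 : Le cs N (wT cs i j * y)) :
    Lat cs C N 0 (T cs x * C (wT cs i j) * T cs y) := by
  classical
  have hm0 : M i j ≠ 0 := by omega
  refine lat_expand x y _ fun u hu => ?_
  rw [C_wT_apply cs hC hij hm0] at hu ⊢
  split_ifs at hu ⊢ with hD
  · have hlen := len_D_le cs hij hm0 hD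
    have hdl : dle ((cs.length u : ℤ) - M i j) (v ((cs.length u : ℤ) - M i j)) := dle_v _
    rcases Nat.lt_or_ge (cs.length u) 2 with hl | hl
    · rcases Nat.lt_or_ge (cs.length u) 1 with hl0 | hl0
      · have hu1 : u = 1 := cs.length_eq_zero_iff.mp (by omega)
        have hT : T cs x * T cs u * T cs y = T cs x * T cs y := by
          rw [hu1, ← one_def', mul_one]
        rw [hT]
        have hE := (E0 hM hC hI hN x y).1
        refine lat_mono ?_ (lat_smul hdl hE)
        omega
      · obtain ⟨g, hg, rfl⟩ := K1_one hij hD (by omega)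
        have hxg : ¬ cs.IsRightDescent x g := by
          rcases hg with rfl | rfl
          · exact hx.1
          · exact hx.2
        have hyg : ¬ cs.IsLeftDescent y g := by
          rcases hg with rfl | rfl
          · exact hy.1
          · exact hy.2
        have hE := (E1 hM hC hI hN hxg hyg (K1_prefix hij hm0 hx hg h1)
          (K1_suffix hij hm0 hy hg h2)).1
        refine lat_mono ?_ (lat_smul hdl hE)
        omega
    · rw [T_triple hM hij hm0 hx hy hD hl]
      refine lat_mono ?_ (lat_smul hdl (lat_T hC _))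
      omega
  · exact absurd rfl hu

/-- K1 in general: induction on `ℓ(x) + ℓ(y)`; if `x w_T ∈ W_{> N}`, `exists_E` expresses `T_x C_{w_T}` modulo
`H_{>N}` by `v⁻¹ℤ[v⁻¹]`-multiples of `T_z C_{w_T}`, `ℓ(z) < ℓ(x)`. -/
theorem k1 (hM : TF M) (hC : IsKL cs C) (hI : IdealN cs C N) (hN : 2 ≤ N) {i j : B}
    (hij : i ≠ j) (hm : M i j = N) {x y : W} (hx : Rmin cs i j x) (hy : Lmin cs i j y) :
    Lat cs C N 0 (T cs x * C (wT cs i j) * T cs y) := by
  have hm0 : M i j ≠ 0 := by omega
  induction hn : cs.length x + cs.length y using Nat.strong_induction_on generalizing x y with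
  | _ n ih =>
    subst hn
    by_cases h1 : Le cs N (x * wT cs i j)
    · by_cases h2 : Le cs N (wT cs i j * y)
      · exact k1_le hM hC hI hN hij hm hx hy h1 h2
      · have h2' : Fac cs N (wT cs i j * y) := not_not.mp h2
        obtain ⟨F, hF, hFy, hFz⟩ := exists_F cs hC hij hm0 hy
        have hz := (hI _ h2' (T cs x)).2
        rw [hF, ← mul_assoc] at hz
        have hd := lat_expandR (C := C) (N := N) (k := 0) y F (T cs x * C (wT cs i j))
          fun u hu hu0 => by
            obtain ⟨hu1, hu2, hu3⟩ := hFz u hu hu0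
            have := ih (cs.length x + cs.length u) (by omega) hx hu1 rfl
            exact lat_mono (by omega) (lat_smul hu3 this)
        rw [hFy, one_smul] at hd
        have := lat_sub (lat_of_zero 0 hz) hd
        rwa [sub_sub_cancel] at this
    · have h1' : Fac cs N (x * wT cs i j) := not_not.mp h1
      obtain ⟨E, hE, hEx, hEz⟩ := exists_E cs hC hij hm0 hx
      have hz := (hI _ h1' (T cs y)).1
      rw [hE, mul_assoc] at hz
      have hd := lat_expandL (C := C) (N := N) (k := 0) x E (C (wT cs i j) * T cs y)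
        fun u hu hu0 => by
          obtain ⟨hu1, hu2, hu3⟩ := hEz u hu hu0
          have := ih (cs.length u + cs.length y) (by omega) hu1 hy rfl
          rw [mul_assoc] at this
          exact lat_mono (by omega) (lat_smul hu3 this)
      rw [hEx, one_smul] at hd
      have := lat_sub (lat_of_zero 0 hz) hd
      rwa [sub_sub_cancel, ← mul_assoc] at this

/-- leading part for first pairs: E0', E1' instead of E0, E1: the term `u = w_T` is `T_{x w_T y}`; `2 ≤ ℓ(u) < N`: coefficient
`v^{ℓ(u)-N}` of degree `≤ -1`, `T_triple`, `lat_T`; `ℓ(u) = 1`: `v^{1-N}` times `Lat (N-2)` (`E1p`, `First.fi`, `First.fj`); `u = 1`: `v^{-N}` times `Lat (N-1)` (`E0p`, `Le (N-1) x` as prefix of `x s_i`). -/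
theorem k1_first (hM : TF M) (hC : IsKL cs C) (hI : IdealN cs C N) (hN : 2 ≤ N) {i j : B}
    {x y : W} (hx : First cs N i j x) (hy : Lmin cs i j y) (h2 : Le cs N (wT cs i j * y)) :
    Lat cs C N (-1) (T cs x * C (wT cs i j) * T cs y - T cs (x * wT cs i j * y)) := by
  classical
  have hij := hx.ne
  have hm := hx.exp
  have hxr := hx.rmin
  have hm0 : M i j ≠ 0 := by omega
  have hwD := wT_mem cs i j
  have hwl := length_wT cs hij
  have e : T cs x * C (wT cs i j) * T cs y - T cs (x * wT cs i j * y) =
      T cs x * (C (wT cs i j) - T cs (wT cs i j)) * T cs y := by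
    rw [mul_sub, sub_mul, T_triple hM hij hm0 hxr hy hwD (by omega)]
  rw [e]
  refine lat_expand x y _ fun u hu => ?_
  rw [sub_apply', T_apply] at hu ⊢
  by_cases huw : u = wT cs i j
  · exfalso
    apply hu
    rw [if_pos huw, huw, kl_self cs hC, sub_self]
  rw [if_neg huw, sub_zero] at hu ⊢
  rw [C_wT_apply cs hC hij hm0] at hu ⊢
  split_ifs at hu ⊢ with hD
  · have hlen := len_D_le cs hij hm0 hD
    have hlt : cs.length u ≠ M i j := fun hh => huw (eq_wT_of_len cs hij hm0 hD hh)
    have hdl : dle ((cs.length u : ℤ) - M i j) (v ((cs.length u : ℤ) - M i j)) := dle_v _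
    rcases Nat.lt_or_ge (cs.length u) 2 with hl | hl
    · rcases Nat.lt_or_ge (cs.length u) 1 with hl0 | hl0
      · have hu1 : u = 1 := cs.length_eq_zero_iff.mp (by omega)
        have hT : T cs x * T cs u * T cs y = T cs x * T cs y := by
          rw [hu1, ← one_def', mul_one]
        rw [hT]
        have hxle : Le cs (N - 1) x := by
          refine le_prefix cs (y := cs.simple i) ?_ hx.fi
          unfold Red
          rw [cs.not_isRightDescent_iff.mp hxr.1, cs.length_simple]
        have hE := E0p hM hC hI hN y hxle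
        refine lat_mono ?_ (lat_smul hdl hE)
        omega
      · obtain ⟨g, hg, rfl⟩ := K1_one hij hD (by omega)
        have hxg : ¬ cs.IsRightDescent x g := by
          rcases hg with rfl | rfl
          · exact hxr.1
          · exact hxr.2
        have hyg : ¬ cs.IsLeftDescent y g := by
          rcases hg with rfl | rfl
          · exact hy.1
          · exact hy.2
        have hxgl : Le cs (N - 1) (x * cs.simple g) := by
          rcases hg with rfl | rfl
          · exact hx.fi
          · exact hx.fj
        have hE := E1p hM hC hI hN hxg hyg hxgl (K1_suffix hij hm0 hy hg h2)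
        refine lat_mono ?_ (lat_smul hdl hE)
        omega
    · rw [T_triple hM hij hm0 hxr hy hD hl]
      refine lat_mono ?_ (lat_smul hdl (lat_T hC _))
      omega
  · exact absurd rfl hu

theorem kax_TF (hM : TF M) (hC : IsKL cs C) (hI : IdealN cs C N) (hN : 2 ≤ N) : KAx cs C N :=
  ⟨fun _ _ _ _ hij hm hx hy => k1 hM hC hI hN hij hm hx hy,
    fun _ _ _ _ hx hy h2 => k1_first hM hC hI hN hx hy h2⟩

end Pool.Agent.PolyCell
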