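import Pool.Agent.PolyCell.KAx
import Pool.Agent.PolyCell.BarECF

/-!
# K2: `C_{x w_T y} = E C_{w_T} F` modulo `H_{>N}` for first pairs

Proof. Write `E = T_x + ∑_{z ≠ x} e_z T_z`, `F = T_y + ∑_{z ≠ y} f_z T_z`, with coefficients of degree `≤ -1`. `E C_{w_T} F - T_{x w_T y} ∈ Lat (-1)` by `k1_first` (main term) and `k1` (other terms: `lat_smul`). `C_w - T_w ∈ Lat (-1)`
(`co_C`, `co_T_self`, `co_T_dle`). So the difference is in `Lat (-1)` and bar invariant (`bar_ECF`; `C_w` is bar invariant): `zero_of_bar`. (`β` and bar invariance of `C`: from `IsKL`.)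
-/

open CoxeterSystem

namespace Pool.Agent.PolyCell

variable {B W : Type*} [Group W] {M : CoxeterMatrix B} {cs : CoxeterSystem M W}
  {C : W → Hk cs} {N : ℕ}

/-- expansion of both factors -/
theorem K2_lat (hKA : KAx cs C N) {i j : B}
    (hij : i ≠ j) (hm : M i j = N) {G K : Hk cs} {k l : ℤ}
    (hG : ∀ z, G z ≠ 0 → Rmin cs i j z ∧ dle k (G z))
    (hK : ∀ u, K u ≠ 0 → Lmin cs i j u ∧ dle l (K u)) :
    Lat cs C N (k + l) (G * C (wT cs i j) * K) := by
  have e : G * C (wT cs i j) * K = ∑ z ∈ (show W →₀ LP from G).support,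
      ∑ u ∈ (show W →₀ LP from K).support,
        (G z * K u) • (T cs z * C (wT cs i j) * T cs u) := by
    conv_lhs => rw [eq_sum_T cs G, eq_sum_T cs K]
    rw [Finsupp.sum, Finsupp.sum, Finset.sum_mul, Finset.sum_mul]
    refine Finset.sum_congr rfl fun z _ => ?_
    rw [Finset.mul_sum]
    refine Finset.sum_congr rfl fun u _ => ?_
    rw [smul_mul_assoc, smul_mul_assoc, mul_smul_comm, smul_smul]
    rfl
  rw [e]
  refine lat_sum _ _ fun z hz => lat_sum _ _ fun u hu => ?_
  have hz' : G z ≠ 0 := Finsupp.mem_support_iff.1 hz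
  have hu' : K u ≠ 0 := Finsupp.mem_support_iff.1 hu
  obtain ⟨h1, h2⟩ := hG z hz'
  obtain ⟨h3, h4⟩ := hK u hu'
  have h5 := lat_smul (dle_mul h2 h4) (hKA.k1 hij hm h1 h3)
  rwa [zero_add] at h5

theorem K2_lat_C (hC : IsKL cs C) (w : W) : Lat cs C N (-1) (C w - T cs w) := by
  intro u _
  rw [map_sub, Finsupp.sub_apply, co_C cs hC]
  by_cases hu : u = w
  · subst hu
    rw [co_T_self cs hC, Finsupp.single_eq_same, sub_self]
    exact dle_zero _
  · rw [Finsupp.single_eq_of_ne hu, zero_sub]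
    exact dle_neg (co_T_dle cs hC hu)

open Classical in
theorem K2_sub_T (E : Hk cs) {x z : W} (hE : E x = 1) :
    (E - T cs x) z = if z = x then 0 else E z := by
  rw [sub_apply', T_apply]
  split_ifs with h
  · rw [h, hE, sub_self]
  · rw [sub_zero]

theorem k2 (hC : IsKL cs C) (hK : KAx cs C N) (hN : 2 ≤ N) {i j : B}
    {x y : W} (hx : First cs N i j x) (hy : Lmin cs i j y) (h2 : Le cs N (wT cs i j * y))
    {E F : Hk cs} (hE : C (x * wT cs i j) = E * C (wT cs i j)) (hE1 : E x = 1)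
    (hE2 : ∀ z, z ≠ x → E z ≠ 0 → Rmin cs i j z ∧ cs.length z < cs.length x ∧ dle (-1) (E z))
    (hF : C (wT cs i j * y) = C (wT cs i j) * F) (hF1 : F y = 1)
    (hF2 : ∀ z, z ≠ y → F z ≠ 0 → Lmin cs i j z ∧ cs.length z < cs.length y ∧ dle (-1) (F z)) :
    Zero cs C N (C (x * wT cs i j * y) - E * C (wT cs i j) * F) := by
  classical
  obtain ⟨β, hβ, hβC⟩ := hC
  have hC : IsKL cs C := ⟨β, hβ, hβC⟩
  have hm : M i j ≠ 0 := by
    rw [hx.exp]
    omega
  have hb := bar_ECF hC (β := (show Hk cs →+ Hk cs from β)) hβ hx.ne hm hE hF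
  have hbar : (show Hk cs →+ Hk cs from β) (C (x * wT cs i j * y) - E * C (wT cs i j) * F) =
      C (x * wT cs i j * y) - E * C (wT cs i j) * F := by
    rw [map_sub, hb]
    congr 1
    exact (hβC _).1
  refine zero_of_bar hC hβ hbar ?_
  -- the pieces
  have e1 : C (x * wT cs i j * y) - E * C (wT cs i j) * F =
      (C (x * wT cs i j * y) - T cs (x * wT cs i j * y)) -
        ((T cs x * C (wT cs i j) * T cs y - T cs (x * wT cs i j * y)) +
          T cs x * C (wT cs i j) * (F - T cs y) +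
          (E - T cs x) * C (wT cs i j) * F) := by
    noncomm_ring
  rw [e1]
  refine lat_sub (K2_lat_C hC _) (lat_add (lat_add (hK.k1f hx hy h2) ?_) ?_)
  · have h3 := K2_lat hK hx.ne hx.exp (G := T cs x) (K := F - T cs y) (k := 0) (l := -1)
      ?_ ?_
    · rwa [zero_add] at h3
    · intro z hz
      rw [T_apply] at hz ⊢
      split_ifs at hz ⊢ with h
      · exact ⟨h ▸ hx.rmin, dle_one⟩
      · exact absurd rfl hz
    · intro u hu
      rw [K2_sub_T F hF1] at hu ⊢
      split_ifs at hu ⊢ with h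
      · exact absurd rfl hu
      · exact ⟨(hF2 u h hu).1, (hF2 u h hu).2.2⟩
  · have h3 := K2_lat hK hx.ne hx.exp (G := E - T cs x) (K := F) (k := -1) (l := 0)
      ?_ ?_
    · rwa [add_zero] at h3
    · intro z hz
      rw [K2_sub_T E hE1] at hz ⊢
      split_ifs at hz ⊢ with h
      · exact absurd rfl hz
      · exact ⟨(hE2 z h hz).1, (hE2 z h hz).2.2⟩
    · intro u hu
      by_cases h : u = y
      · subst h
        rw [hF1]
        exact ⟨hy, dle_one⟩
      · exact ⟨(hF2 u h hu).1, dle_mono (by norm_num) (hF2 u h hu).2.2⟩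

end Pool.Agent.PolyCell
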