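import Pool.Agent.PolyCell.KLEx

/-!
# Properties of the Kazhdan-Lusztig basis and coordinates

Hints. By `kl_unique` the basis `C` is the one of `kl_exists`: this gives `kl_supp` and `kl_mul_s`. `kl_fl`: `w ↦ fl (C w⁻¹)` is also a KL basis (`bar_fl`), so equal to `C`. `kl_bij`: unitriangularity with respect to the length: `kl_self`, `kl_supp`
(injectivity: an element of maximal length in the support of `a`; surjectivity: `T_w` is in the range by induction on `ℓ(w)`). `co_T_dle`, `co_T_supp`: `T_w = C_w - ∑_{y ≠ w} C_w(y) T_y`, induction on `ℓ(w)`.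
-/

open CoxeterSystem

namespace Pool.Agent.PolyCell

variable {B W : Type*} [Group W] {M : CoxeterMatrix B} (cs : CoxeterSystem M W)

theorem kl_self {C : W → Hk cs} (h : IsKL cs C) (w : W) : C w w = 1 := by
  obtain ⟨β, -, H⟩ := h
  exact (H w).2.1

theorem kl_dle {C : W → Hk cs} (h : IsKL cs C) {w y : W} (hy : y ≠ w) : dle (-1) (C w y) := by
  obtain ⟨β, -, H⟩ := h
  intro n hn
  exact (H w).2.2 y hy n (by omega)

theorem kl_supp {C : W → Hk cs} (h : IsKL cs C) {w y : W} (hy : C w y ≠ 0) :
    y = w ∨ cs.length y < cs.length w := by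
  obtain ⟨C', h', hs, -⟩ := kl_exists cs
  have e := kl_unique cs h h'
  subst e
  exact hs w y hy

theorem kl_mul_s {C : W → Hk cs} (h : IsKL cs C) {w : W} {i : B} (hi : cs.IsRightDescent w i) :
    C w * T cs (cs.simple i) = v 1 • C w := by
  obtain ⟨C', h', -, hm⟩ := kl_exists cs
  have e := kl_unique cs h h'
  subst e
  exact hm w i hi

theorem kl_fl {C : W → Hk cs} (h : IsKL cs C) (w : W) : fl cs (C w) = C w⁻¹ := by
  have h' : IsKL cs (fun w : W => fl cs (C w⁻¹)) := by
    obtain ⟨β, hβ, H⟩ := h
    refine ⟨β, hβ, ?_⟩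
    intro w
    refine ⟨?_, ?_, ?_⟩
    · have e1 := bar_fl (cs := cs) (β := β) hβ (C w⁻¹)
      have e2 : β (C w⁻¹) = C w⁻¹ := (H w⁻¹).1
      show β (fl cs (C w⁻¹)) = fl cs (C w⁻¹)
      exact e1.trans (congrArg (fl cs) e2)
    · have e1 := fl_apply cs (C w⁻¹) w
      exact e1.trans (H w⁻¹).2.1
    · intro y hy n hn
      have e1 := fl_apply cs (C w⁻¹) y
      have e2 : y⁻¹ ≠ w⁻¹ := fun e => hy (inv_injective e)
      have e3 := (H w⁻¹).2.2 y⁻¹ e2 n hn
      exact (congrArg (fun p : LP => p.coeff n) e1).trans e3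
  have e := kl_unique cs h' h
  have e1 : fl cs (C (w⁻¹)⁻¹) = C w⁻¹ := congrFun e w⁻¹
  rwa [inv_inv] at e1

theorem kl_s_mul {C : W → Hk cs} (h : IsKL cs C) {w : W} {i : B} (hi : cs.IsLeftDescent w i) :
    T cs (cs.simple i) * C w = v 1 • C w := by
  have h1 : cs.IsRightDescent w⁻¹ i := by
    rw [cs.isRightDescent_inv_iff]
    exact hi
  have h2 := congrArg (fl cs) (kl_mul_s cs h h1)
  rw [fl_mul, fl_T, map_smul, kl_fl cs h, inv_inv, cs.inv_simple] at h2
  exact h2

/-- evaluation -/
noncomputable def KLBasic_ev (z : W) : Hk cs →ₗ[LP] LP :=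
  (Finsupp.lapply z : (W →₀ LP) →ₗ[LP] LP)

theorem KLBasic_ev_apply (z : W) (g : Hk cs) : KLBasic_ev cs z g = g z := rfl

theorem KLBasic_comb_apply (C : W → Hk cs) (a : W →₀ LP) (z : W) :
    (Finsupp.linearCombination LP C a : Hk cs) z = a.sum fun w r => r * C w z := by
  rw [← KLBasic_ev_apply, Finsupp.linearCombination_apply, map_finsuppSum]
  apply Finsupp.sum_congr
  intro w _
  rw [map_smul, KLBasic_ev_apply, smul_eq_mul]

open Classical in
/-- `T_w = C_w - ∑_{y ≠ w} C_w(y) T_y` -/
theorem KLBasic_T_eq {C : W → Hk cs} (h : IsKL cs C) (w : W) :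
    T cs w = C w - ∑ y ∈ (show W →₀ LP from C w).support.erase w, (C w y) • T cs y := by
  classical
  have e := eq_sum_T cs (C w)
  have hw : w ∈ (show W →₀ LP from C w).support := by
    rw [Finsupp.mem_support_iff]
    have := kl_self cs h w
    intro h0
    have h1 : C w w = 0 := h0
    rw [this] at h1
    exact one_ne_zero h1
  rw [Finsupp.sum, ← Finset.add_sum_erase _ _ hw] at e
  have e2 : (show W →₀ LP from C w) w = 1 := kl_self cs h w
  rw [e2, one_smul] at e
  rw [eq_sub_iff_add_eq]
  exact e.symm

theorem kl_bij {C : W → Hk cs} (h : IsKL cs C) :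
    Function.Bijective (Finsupp.linearCombination LP C : (W →₀ LP) →ₗ[LP] Hk cs) := by
  classical
  constructor
  · rw [← LinearMap.ker_eq_bot, LinearMap.ker_eq_bot']
    intro a ha
    by_contra hne
    have hs : a.support.Nonempty := Finsupp.support_nonempty_iff.mpr hne
    obtain ⟨w, hw, hmax⟩ := Finset.exists_max_image a.support cs.length hs
    have e1 := KLBasic_comb_apply cs C a w
    rw [ha] at e1
    have e2 : (a.sum fun w' r => r * C w' w) = a w := by
      rw [Finsupp.sum, Finset.sum_eq_single w]
      · rw [kl_self cs h, mul_one]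
      · intro w' hw' hne'
        by_contra hc
        have h1 : C w' w ≠ 0 := fun h0 => hc (by rw [h0, mul_zero])
        rcases kl_supp cs h h1 with h2 | h2
        · exact hne' h2.symm
        · have := hmax w' hw'
          omega
      · intro hc
        exact absurd hw hc
    have e3 : a w = 0 := by
      rw [← e2, ← e1]
      rfl
    exact (Finsupp.mem_support_iff.mp hw) e3
  · have key : ∀ n : ℕ, ∀ w : W, cs.length w = n →
        T cs w ∈ LinearMap.range (Finsupp.linearCombination LP C : (W →₀ LP) →ₗ[LP] Hk cs) := by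
      intro n
      induction n using Nat.strong_induction_on with
      | _ n ih =>
        intro w hw
        rw [KLBasic_T_eq cs h w]
        apply Submodule.sub_mem
        · exact ⟨Finsupp.single w 1, by rw [Finsupp.linearCombination_single, one_smul]⟩
        · apply Submodule.sum_mem
          intro y hy
          apply Submodule.smul_mem
          rw [Finset.mem_erase, Finsupp.mem_support_iff] at hy
          rcases kl_supp cs h (w := w) (y := y) hy.2 with h2 | h2
          · exact absurd h2 hy.1
          · exact ih (cs.length y) (by omega) y rfl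
    intro g
    have hg : g ∈ LinearMap.range (Finsupp.linearCombination LP C : (W →₀ LP) →ₗ[LP] Hk cs) := by
      rw [eq_sum_T cs g, Finsupp.sum]
      apply Submodule.sum_mem
      intro y _
      exact Submodule.smul_mem _ _ (key _ y rfl)
    exact hg

open Classical in
/-- coordinates in the Kazhdan-Lusztig basis -/
noncomputable def co (C : W → Hk cs) : Hk cs →ₗ[LP] (W →₀ LP) :=
  if H : Function.Bijective (Finsupp.linearCombination LP C : (W →₀ LP) →ₗ[LP] Hk cs) then
    ((LinearEquiv.ofBijective _ H).symm : Hk cs →ₗ[LP] (W →₀ LP)) else 0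

theorem co_spec {C : W → Hk cs} (h : IsKL cs C) (g : Hk cs) :
    Finsupp.linearCombination LP C (co cs C g) = g := by
  rw [co, dif_pos (kl_bij cs h)]
  exact (LinearEquiv.ofBijective _ (kl_bij cs h)).apply_symm_apply g

theorem co_comb {C : W → Hk cs} (h : IsKL cs C) (a : W →₀ LP) :
    co cs C (Finsupp.linearCombination LP C a) = a := by
  rw [co, dif_pos (kl_bij cs h)]
  exact (LinearEquiv.ofBijective _ (kl_bij cs h)).symm_apply_apply a

theorem co_C {C : W → Hk cs} (h : IsKL cs C) (w : W) :
    co cs C (C w) = Finsupp.single w 1 := by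
  have e := co_comb cs h (Finsupp.single w 1)
  rwa [Finsupp.linearCombination_single, one_smul] at e

open Classical in
theorem KLBasic_co_T {C : W → Hk cs} (h : IsKL cs C) (w z : W) :
    co cs C (T cs w) z = (Finsupp.single w (1 : LP)) z -
      ∑ y ∈ (show W →₀ LP from C w).support.erase w, C w y * co cs C (T cs y) z := by
  classical
  conv_lhs => rw [KLBasic_T_eq cs h w, map_sub, co_C cs h, map_sum]
  rw [Finsupp.sub_apply, Finsupp.finsetSum_apply]
  congr 1
  apply Finset.sum_congr rfl
  intro y _
  rw [map_smul, Finsupp.smul_apply, smul_eq_mul]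

open Classical in
theorem KLBasic_mem {C : W → Hk cs} (h : IsKL cs C) {w y : W}
    (hy : y ∈ (show W →₀ LP from C w).support.erase w) : y ≠ w ∧ cs.length y < cs.length w := by
  rw [Finset.mem_erase, Finsupp.mem_support_iff] at hy
  refine ⟨hy.1, ?_⟩
  rcases kl_supp cs h (w := w) (y := y) hy.2 with h2 | h2
  · exact absurd h2 hy.1
  · exact h2

theorem co_T_supp {C : W → Hk cs} (h : IsKL cs C) {w y : W} (hy : co cs C (T cs w) y ≠ 0) :
    y = w ∨ cs.length y < cs.length w := by
  classical
  have key : ∀ n : ℕ, ∀ w z : W, cs.length w = n → co cs C (T cs w) z ≠ 0 →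
      z = w ∨ cs.length z < cs.length w := by
    intro n
    induction n using Nat.strong_induction_on with
    | _ n ih =>
      intro w z hw hz
      by_contra hc
      push Not at hc
      apply hz
      rw [KLBasic_co_T cs h, Finsupp.single_apply, if_neg (fun e => hc.1 e.symm), zero_sub,
        neg_eq_zero]
      apply Finset.sum_eq_zero
      intro y hy
      obtain ⟨h1, h2⟩ := KLBasic_mem cs h hy
      by_contra h3
      have h4 : co cs C (T cs y) z ≠ 0 := fun h0 => h3 (by rw [h0, mul_zero])
      rcases ih (cs.length y) (by omega) y z rfl h4 with h5 | h5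
      · rw [h5] at hc
        omega
      · omega
  exact key _ w y rfl hy

theorem co_T_self {C : W → Hk cs} (h : IsKL cs C) (w : W) : co cs C (T cs w) w = 1 := by
  classical
  rw [KLBasic_co_T cs h, Finsupp.single_apply, if_pos rfl, sub_eq_self]
  apply Finset.sum_eq_zero
  intro y hy
  obtain ⟨h1, h2⟩ := KLBasic_mem cs h hy
  by_contra h3
  have h4 : co cs C (T cs y) w ≠ 0 := fun h0 => h3 (by rw [h0, mul_zero])
  rcases co_T_supp cs h h4 with h5 | h5
  · exact h1 h5.symm
  · omega

theorem co_T_dle {C : W → Hk cs} (h : IsKL cs C) {w y : W} (hy : y ≠ w) :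
    dle (-1) (co cs C (T cs w) y) := by
  classical
  have key : ∀ n : ℕ, ∀ w z : W, cs.length w = n → z ≠ w → dle (-1) (co cs C (T cs w) z) := by
    intro n
    induction n using Nat.strong_induction_on with
    | _ n ih =>
      intro w z hw hz
      rw [KLBasic_co_T cs h, Finsupp.single_apply, if_neg (fun e => hz e.symm), zero_sub]
      apply dle_neg
      apply dle_sum
      intro y hy
      obtain ⟨h1, h2⟩ := KLBasic_mem cs h hy
      have h3 : dle 0 (co cs C (T cs y) z) := by
        by_cases h4 : z = y
        · rw [h4, co_T_self cs h]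
          exact dle_one
        · exact dle_mono (by norm_num) (ih (cs.length y) (by omega) y z rfl h4)
      have h5 := dle_mul (kl_dle cs h h1) h3
      rwa [add_zero] at h5
  exact key _ w y rfl hy

end Pool.Agent.PolyCell
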