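import Pool.Agent.PolyCell.Bar

/-!
# Existence and uniqueness of the Kazhdan-Lusztig basis
-/

open CoxeterSystem

namespace Pool.Agent.PolyCell

variable {B W : Type*} [Group W] {M : CoxeterMatrix B} (cs : CoxeterSystem M W)

theorem KLEx_coeff_int (n : ℤ) : ((n : ℤ) : LP).coeff 0 = n := by
  have h1 : (1 : LP).coeff 0 = 1 := by
    rw [← v_zero, coeff_v, if_pos rfl]
  induction n using Int.induction_on with
  | zero =>
    rw [Int.cast_zero]
    rfl
  | succ i ih =>
    have h2 : (((i : ℤ) + 1 : ℤ) : LP).coeff 0 = ((i : ℤ) : LP).coeff 0 + (1 : LP).coeff 0 := by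
      rw [Int.cast_add, Int.cast_one]
      rfl
    rw [h2, ih, h1]
  | pred i ih =>
    have h2 : ((-(i : ℤ) - 1 : ℤ) : LP).coeff 0 = ((-(i : ℤ) : ℤ) : LP).coeff 0 - (1 : LP).coeff 0 := by
      rw [Int.cast_sub, Int.cast_one]
      rfl
    rw [h2, ih, h1]

theorem KLEx_zero_apply (w : W) : (0 : Hk cs) w = 0 := rfl

theorem KLEx_neg_apply (g : Hk cs) (w : W) : (-g) w = -(g w) := rfl

theorem KLEx_sum_apply {ι : Type*} (s : Finset ι) (f : ι → Hk cs) (w : W) :
    (∑ i ∈ s, f i) w = ∑ i ∈ s, f i w := by
  classical
  induction s using Finset.induction_on with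
  | empty => simp [KLEx_zero_apply]
  | insert a s ha ih => rw [Finset.sum_insert ha, Finset.sum_insert ha, add_apply', ih]

/-- finite support -/
theorem KLEx_finite (h : Hk cs) : ∃ s : Finset W, ∀ y, y ∈ s ↔ h y ≠ 0 :=
  ⟨(show W →₀ LP from h).support, fun w => Finsupp.mem_support_iff⟩

theorem KLEx_eq_sum (h : Hk cs) (s : Finset W) (hs : ∀ y, y ∈ s ↔ h y ≠ 0) :
    h = ∑ w ∈ s, h w • T cs w := by
  classical
  apply hk_ext
  intro y
  rw [KLEx_sum_apply]
  have : ∀ w ∈ s, (h w • T cs w : Hk cs) y = if y = w then h y else 0 := by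
    intro w _
    rw [smul_apply', T_apply]
    split_ifs with hy
    · rw [hy, mul_one]
    · rw [mul_zero]
  rw [Finset.sum_congr rfl this, Finset.sum_ite_eq]
  split_ifs with hy
  · rfl
  · by_contra hne
    exact hy ((hs y).2 hne)

theorem KLEx_beta_smul {β : Hk cs →+ Hk cs} (hβ : IsBar cs β) (r : LP) (h : Hk cs) :
    β (r • h) = LaurentPolynomial.invert r • β h := hβ.smul r h

theorem KLEx_beta_one {β : Hk cs →+ Hk cs} (hβ : IsBar cs β) : β 1 = 1 := hβ.one

/-- Uniqueness principle: a bar invariant `h` all of whose coefficients have negative degree is `0`.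
(Look at an element of maximal length in the support; `bar_T_support`, `bar_T_self`.) -/
theorem eq_zero_of_bar {β : Hk cs →+ Hk cs} (hβ : IsBar cs β) {h : Hk cs} (hb : β h = h)
    (hd : ∀ w, dle (-1) (h w)) : h = 0 := by
  classical
  by_contra hne
  obtain ⟨s, hs⟩ := KLEx_finite cs h
  have hsne : s.Nonempty := by
    by_contra hem
    rw [Finset.not_nonempty_iff_eq_empty] at hem
    apply hne
    apply hk_ext
    intro w
    by_contra hw
    have := (hs w).2 hw
    rw [hem] at this
    exact absurd this (Finset.notMem_empty w)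
  obtain ⟨w, hws, hmax⟩ := Finset.exists_max_image s cs.length hsne
  have h1 : (β h) w = LaurentPolynomial.invert (h w) := by
    conv_lhs => rw [KLEx_eq_sum cs h s hs]
    rw [map_sum, KLEx_sum_apply, Finset.sum_eq_single w]
    · rw [KLEx_beta_smul cs hβ, smul_apply', bar_T_self cs hβ, mul_one]
    · intro y hy hyw
      rw [KLEx_beta_smul cs hβ, smul_apply']
      have : (β (T cs y)) w = 0 := by
        by_contra hc
        rcases bar_T_support cs hβ hc with hc | hc
        · exact hyw hc.symm
        · have := hmax y hy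
          omega
      rw [this, mul_zero]
    · intro hw
      exact absurd hws hw
  rw [hb] at h1
  have h2 := eq_zero_of_invert (hd w) h1.symm
  exact (hs w).1 hws h2

theorem kl_unique {C C' : W → Hk cs} (h : IsKL cs C) (h' : IsKL cs C') : C = C' := by
  classical
  obtain ⟨β, hβ, hC⟩ := h
  obtain ⟨β', hβ', hC'⟩ := h'
  have hbb := bar_unique cs hβ hβ'
  subst hbb
  funext w
  have : C w - C' w = 0 := by
    apply eq_zero_of_bar cs hβ
    · have e1 : β (C w) = C w := (hC w).1
      have e2 : β (C' w) = C' w := (hC' w).1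
      have e3 : β (C w - C' w) = β (C w) - β (C' w) := map_sub β _ _
      exact e3.trans (congrArg₂ (· - ·) e1 e2)
    · intro y
      rw [sub_apply']
      by_cases hy : y = w
      · subst hy
        have e1 : C y y = 1 := (hC y).2.1
        have e2 : C' y y = 1 := (hC' y).2.1
        rw [e1, e2, sub_self]
        exact dle_zero _
      · apply dle_sub
        · intro n hn
          exact (hC w).2.2 y hy n (by omega)
        · intro n hn
          exact (hC' w).2.2 y hy n (by omega)
  exact sub_eq_zero.1 this

theorem KLEx_mul_apply (h : Hk cs) (i : B) (z : W) [Decidable (cs.IsRightDescent z i)] :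
    (h * T cs (cs.simple i)) z =
      h (z * cs.simple i) + if cs.IsRightDescent z i then xi * h z else 0 := by
  classical
  have hinv : ∀ a b : W, (a = b * cs.simple i) ↔ (a * cs.simple i = b) := by
    intro a b
    constructor
    · rintro rfl
      rw [mul_assoc, cs.simple_mul_simple_self, mul_one]
    · rintro rfl
      rw [mul_assoc, cs.simple_mul_simple_self, mul_one]
  refine hk_induction cs (P := fun h => (h * T cs (cs.simple i)) z =
      h (z * cs.simple i) + if cs.IsRightDescent z i then xi * h z else 0) ?_ ?_ ?_ ?_ h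
  · simp only [zero_mul, KLEx_zero_apply, mul_zero, ite_self, add_zero]
  · intro w
    by_cases hw : cs.IsRightDescent w i
    · rw [T_mul_s' cs hw, add_apply', smul_apply', T_apply, T_apply, T_apply]
      by_cases hzw : z = w
      · subst hzw
        rw [if_pos rfl, if_pos hw]
        by_cases h3 : z = z * cs.simple i
        · rw [if_pos h3, if_pos ((hinv _ _).1 h3)]
        · rw [if_neg h3, if_neg (fun h4 => h3 ((hinv _ _).2 h4))]
      · rw [if_neg hzw, mul_zero, ite_self]
        by_cases h3 : z = w * cs.simple i
        · rw [if_pos h3, if_pos ((hinv _ _).1 h3)]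
        · rw [if_neg h3, if_neg (fun h4 => h3 ((hinv _ _).2 h4))]
    · rw [T_mul_s cs hw, T_apply, T_apply, T_apply]
      by_cases hzw : z = w
      · subst hzw
        rw [if_neg hw, add_zero]
        by_cases h3 : z = z * cs.simple i
        · rw [if_pos h3, if_pos ((hinv _ _).1 h3)]
        · rw [if_neg h3, if_neg (fun h4 => h3 ((hinv _ _).2 h4))]
      · rw [if_neg hzw, mul_zero, ite_self, add_zero]
        by_cases h3 : z = w * cs.simple i
        · rw [if_pos h3, if_pos ((hinv _ _).1 h3)]
        · rw [if_neg h3, if_neg (fun h4 => h3 ((hinv _ _).2 h4))]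
  · intro g h hg hh
    rw [add_mul, add_apply', add_apply', add_apply', hg, hh]
    split_ifs <;> ring
  · intro r h hh
    rw [smul_mul_assoc, smul_apply', smul_apply', smul_apply', hh]
    split_ifs <;> ring

/-- the properties of `C_w` without the descent property -/
structure KLEx_P (β : Hk cs →+ Hk cs) (w : W) (c : Hk cs) : Prop where
  inv : β c = c
  one : c w = 1
  neg : ∀ y, y ≠ w → dle (-1) (c y)
  supp : ∀ y, c y ≠ 0 → y = w ∨ cs.length y < cs.length w

theorem KLEx_P_unique {β : Hk cs →+ Hk cs} (hβ : IsBar cs β) {w : W} {c c' : Hk cs}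
    (h : KLEx_P cs β w c) (h' : KLEx_P cs β w c') : c = c' := by
  have : c - c' = 0 := by
    apply eq_zero_of_bar cs hβ
    · rw [map_sub, h.inv, h'.inv]
    · intro y
      rw [sub_apply']
      by_cases hy : y = w
      · subst hy
        rw [h.one, h'.one, sub_self]
        exact dle_zero _
      · exact dle_sub (h.neg y hy) (h'.neg y hy)
  exact sub_eq_zero.1 this

/-- all properties of `C_w` -/
def KLEx_Q (β : Hk cs →+ Hk cs) (w : W) (c : Hk cs) : Prop :=
  KLEx_P cs β w c ∧ ∀ i, cs.IsRightDescent w i → c * T cs (cs.simple i) = v 1 • c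

theorem KLEx_Cs_mul (i : B) :
    (T cs (cs.simple i) + v (-1) • (1 : Hk cs)) * T cs (cs.simple i) =
      v 1 • (T cs (cs.simple i) + v (-1) • (1 : Hk cs)) := by
  rw [add_mul, T_s_sq, smul_mul_assoc, one_mul, smul_add, smul_smul, ← v_add]
  have : (v (1 + -1) : LP) = 1 := by
    rw [show (1 : ℤ) + -1 = 0 from rfl, v_zero]
  rw [this, one_smul, add_assoc, ← add_smul]
  have : (xi + v (-1) : LP) = v 1 := by
    unfold xi
    ring
  rw [this, add_comm]

theorem KLEx_bar_Cs {β : Hk cs →+ Hk cs} (hβ : IsBar cs β) (i : B) :
    β (T cs (cs.simple i) + v (-1) • (1 : Hk cs)) =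
      T cs (cs.simple i) + v (-1) • (1 : Hk cs) := by
  rw [map_add, bar_T_simple cs hβ, KLEx_beta_smul cs hβ, KLEx_beta_one cs hβ, invert_v,
    sub_add, ← sub_smul]
  have : (xi - v (- -1) : LP) = - v (-1) := by
    unfold xi
    rw [neg_neg]
    ring
  rw [this, neg_smul, sub_neg_eq_add]

theorem KLEx_step {β : Hk cs →+ Hk cs} (hβ : IsBar cs β) {w : W} {i : B}
    (hi : cs.IsRightDescent w i) (C : W → Hk cs)
    (hC : ∀ z, cs.length z < cs.length w → KLEx_Q cs β z (C z)) :
    ∃ c, KLEx_P cs β w c ∧ c * T cs (cs.simple i) = v 1 • c := by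
  classical
  set s := cs.simple i with hs
  have hss : s * s = 1 := cs.simple_mul_simple_self i
  set w' := w * s with hw'
  have hw's : w' * s = w := by rw [hw', mul_assoc, hss, mul_one]
  have hlw : cs.length w' + 1 = cs.length w := by
    have h1 := cs.isRightDescent_iff.1 hi
    exact h1
  have hP' : KLEx_Q cs β w' (C w') := hC w' (by omega)
  set a := C w' with ha
  set h := a * (T cs s + v (-1) • (1 : Hk cs)) with hh
  have hbar : β h = h := by
    rw [hh, bar_mul cs hβ, hP'.1.inv, KLEx_bar_Cs cs hβ]
  have hmul : h * T cs s = v 1 • h := by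
    rw [hh, mul_assoc, KLEx_Cs_mul, mul_smul_comm]
  have happ : ∀ z, h z = a (z * s) + (if cs.IsRightDescent z i then v 1 * a z else v (-1) * a z) := by
    intro z
    rw [hh, mul_add, add_apply', KLEx_mul_apply, mul_smul_comm, mul_one, smul_apply']
    split_ifs
    · unfold xi
      ring
    · ring
  have hw'nd : ¬ cs.IsRightDescent w' i := by
    intro hd
    have h1 := cs.isRightDescent_iff.1 hd
    change cs.length (w' * s) + 1 = cs.length w' at h1
    rw [hw's] at h1
    omega
  have hlen : ∀ z, cs.length z ≤ cs.length (z * s) + 1 := by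
    intro z
    have h1 := cs.length_mul_le (z * s) s
    rw [mul_assoc, hss, mul_one] at h1
    have h2 : cs.length s = 1 := cs.length_simple i
    omega
  have haw : a w = 0 := by
    by_contra hne
    rcases hP'.1.supp w hne with h1 | h1
    · rw [← h1] at hlw
      omega
    · omega
  have hone : h w = 1 := by
    rw [happ, if_pos hi, haw, mul_zero, add_zero]
    exact hP'.1.one
  have hsupp : ∀ y, h y ≠ 0 → y = w ∨ cs.length y < cs.length w := by
    intro y hy
    by_cases h1 : a (y * s) = 0
    · have h2 : a y ≠ 0 := by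
        intro h2
        apply hy
        rw [happ, h1, h2]
        simp
      rcases hP'.1.supp y h2 with h3 | h3
      · right
        rw [h3]
        omega
      · right
        omega
    · rcases hP'.1.supp _ h1 with h3 | h3
      · left
        rw [← hw's, ← h3, mul_assoc, hss, mul_one]
      · right
        have := hlen y
        omega
  have hdeg0 : ∀ y, y ≠ w → dle 0 (h y) := by
    intro y hy
    have hys : y * s ≠ w' := by
      intro h1
      apply hy
      rw [← hw's, ← h1, mul_assoc, hss, mul_one]
    rw [happ]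
    split_ifs with hd
    · have hyw' : y ≠ w' := by
        rintro rfl
        exact hw'nd hd
      apply dle_add (dle_mono (by norm_num) (hP'.1.neg _ hys))
      have := dle_mul (dle_v 1) (hP'.1.neg _ hyw')
      exact dle_mono (by norm_num) this
    · apply dle_add (dle_mono (by norm_num) (hP'.1.neg _ hys))
      by_cases hyw' : y = w'
      · rw [hyw', hP'.1.one, mul_one]
        exact dle_mono (by norm_num) (dle_v (-1))
      · have := dle_mul (dle_v (-1)) (hP'.1.neg _ hyw')
        exact dle_mono (by norm_num) this
  have hdeg1 : ∀ y, y ≠ w → ¬ cs.IsRightDescent y i → dle (-1) (h y) := by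
    intro y hy hd
    have hys : y * s ≠ w' := by
      intro h1
      apply hy
      rw [← hw's, ← h1, mul_assoc, hss, mul_one]
    rw [happ, if_neg hd]
    apply dle_add (hP'.1.neg _ hys)
    by_cases hyw' : y = w'
    · rw [hyw', hP'.1.one, mul_one]
      exact dle_v (-1)
    · have := dle_mul (dle_v (-1)) (hP'.1.neg _ hyw')
      exact dle_mono (by norm_num) this
  obtain ⟨S, hS⟩ := KLEx_finite cs h
  set S' := S.filter (fun z => z ≠ w ∧ cs.IsRightDescent z i) with hS'
  have hS'l : ∀ z ∈ S', cs.length z < cs.length w := by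
    intro z hz
    rw [hS', Finset.mem_filter] at hz
    rcases hsupp z ((hS z).1 hz.1) with h1 | h1
    · exact absurd h1 hz.2.1
    · exact h1
  have hinvint : ∀ n : ℤ, LaurentPolynomial.invert ((n : ℤ) : LP) = ((n : ℤ) : LP) := by
    intro n
    exact map_intCast _ n
  refine ⟨h - ∑ z ∈ S', (((h z).coeff 0 : ℤ) : LP) • C z, ⟨?_, ?_, ?_, ?_⟩, ?_⟩
  · rw [map_sub, hbar, map_sum]
    congr 1
    apply Finset.sum_congr rfl
    intro z hz
    rw [KLEx_beta_smul cs hβ, (hC z (hS'l z hz)).1.inv, hinvint]
  · rw [sub_apply', hone, KLEx_sum_apply, Finset.sum_eq_zero, sub_zero]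
    intro z hz
    rw [smul_apply']
    have : C z w = 0 := by
      by_contra hne
      have hl := hS'l z hz
      rcases (hC z hl).1.supp w hne with h1 | h1
      · rw [h1] at hl
        omega
      · omega
    rw [this, mul_zero]
  · intro y hy
    rw [sub_apply', KLEx_sum_apply]
    by_cases hyS : y ∈ S'
    · rw [← Finset.add_sum_erase S' _ hyS, ← sub_sub]
      apply dle_sub
      · have h1 := (hC y (hS'l y hyS)).1.one
        rw [smul_apply', h1, mul_one]
        intro n hn
        have h2 := dle_sub (hdeg0 y hy) (dle_int ((h y).coeff 0))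
        rcases eq_or_lt_of_le (show 0 ≤ n by omega) with h3 | h3
        · subst h3
          have h4 : (h y - (((h y).coeff 0 : ℤ) : LP)).coeff 0 =
            (h y).coeff 0 - (((h y).coeff 0 : ℤ) : LP).coeff 0 := by
            rfl
          rw [h4, KLEx_coeff_int, sub_self]
        · exact h2 n h3
      · apply dle_sum
        intro z hz
        rw [Finset.mem_erase] at hz
        rw [smul_apply']
        have h1 := dle_mul (dle_int ((h z).coeff 0)) ((hC z (hS'l z hz.2)).1.neg y (Ne.symm hz.1))
        exact dle_mono (by norm_num) h1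
    · apply dle_sub
      · by_cases hyS0 : y ∈ S
        · apply hdeg1 y hy
          intro hd
          apply hyS
          rw [hS', Finset.mem_filter]
          exact ⟨hyS0, hy, hd⟩
        · have : h y = 0 := by
            by_contra hne
            exact hyS0 ((hS y).2 hne)
          rw [this]
          exact dle_zero _
      · apply dle_sum
        intro z hz
        have hzy : y ≠ z := by
          rintro rfl
          exact hyS hz
        rw [smul_apply']
        have h1 := dle_mul (dle_int ((h z).coeff 0)) ((hC z (hS'l z hz)).1.neg y hzy)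
        exact dle_mono (by norm_num) h1
  · intro y hy
    rw [sub_apply', KLEx_sum_apply] at hy
    by_cases hhy : h y = 0
    · rw [hhy, zero_sub, neg_ne_zero] at hy
      obtain ⟨z, hz, hzy⟩ := Finset.exists_ne_zero_of_sum_ne_zero hy
      rw [smul_apply'] at hzy
      have h1 : C z y ≠ 0 := right_ne_zero_of_mul hzy
      have hl := hS'l z hz
      rcases (hC z hl).1.supp y h1 with h2 | h2
      · right
        rw [h2]
        exact hl
      · right
        omega
    · exact hsupp y hhy
  · rw [sub_mul, hmul, smul_sub, Finset.sum_mul, Finset.smul_sum]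
    congr 1
    apply Finset.sum_congr rfl
    intro z hz
    have hd : cs.IsRightDescent z i := by
      rw [hS', Finset.mem_filter] at hz
      exact hz.2.2
    rw [smul_mul_assoc, (hC z (hS'l z hz)).2 i hd, smul_comm]

theorem KLEx_exists {β : Hk cs →+ Hk cs} (hβ : IsBar cs β) (n : ℕ) :
    ∀ w : W, cs.length w = n → ∃ c, KLEx_Q cs β w c := by
  classical
  induction n using Nat.strong_induction_on with
  | _ n ih =>
    intro w hw
    have hex : ∀ z, cs.length z < cs.length w → ∃ c, KLEx_Q cs β z c := by
      intro z hz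
      exact ih (cs.length z) (by omega) z rfl
    let C : W → Hk cs := fun z =>
      if hz : cs.length z < cs.length w then (hex z hz).choose else 0
    have hC : ∀ z, cs.length z < cs.length w → KLEx_Q cs β z (C z) := by
      intro z hz
      have h1 : C z = (hex z hz).choose := dif_pos hz
      rw [h1]
      exact (hex z hz).choose_spec
    by_cases h1 : w = 1
    · subst h1
      refine ⟨1, ⟨?_, ?_, ?_, ?_⟩, ?_⟩
      · exact KLEx_beta_one cs hβ
      · rw [one_def', T_apply, if_pos rfl]
      · intro y hy
        rw [one_def', T_apply, if_neg hy]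
        exact dle_zero _
      · intro y hy
        rw [one_def', T_apply] at hy
        left
        by_contra hne
        rw [if_neg hne] at hy
        exact hy rfl
      · intro i hi
        exfalso
        have h2 := cs.isRightDescent_iff.1 hi
        rw [cs.length_one] at h2
        omega
    · obtain ⟨i, hi⟩ := cs.exists_rightDescent_of_ne_one h1
      obtain ⟨c, hc, hci⟩ := KLEx_step cs hβ hi C hC
      refine ⟨c, hc, ?_⟩
      intro j hj
      obtain ⟨c', hc', hcj'⟩ := KLEx_step cs hβ hj C hC
      rw [KLEx_P_unique cs hβ hc hc']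
      exact hcj'

/-- Existence, with the triangularity with respect to the length and the right descent property.
Induction on `ℓ(w)`, `w = w' s > w'`: `C_w = C_{w'} C_s - ∑_{z s < z, ℓ(z) < ℓ(w')} μ_z C_z`, where `μ_z` is the constant
coefficient of `C_{w'} C_s` at `T_z`. -/
theorem kl_exists : ∃ C : W → Hk cs, IsKL cs C ∧
    (∀ w y, C w y ≠ 0 → y = w ∨ cs.length y < cs.length w) ∧
    (∀ w i, cs.IsRightDescent w i → C w * T cs (cs.simple i) = v 1 • C w) := by
  obtain ⟨β, hβ⟩ := exists_bar cs
  have hex : ∀ w, ∃ c, KLEx_Q cs β w c := fun w => KLEx_exists cs hβ _ w rfl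
  choose C hC using hex
  refine ⟨C, ⟨β, hβ, ?_⟩, ?_, ?_⟩
  · intro w
    refine ⟨(hC w).1.inv, (hC w).1.one, ?_⟩
    intro y hy n hn
    exact (hC w).1.neg y hy n (by omega)
  · intro w y hy
    exact (hC w).1.supp y hy
  · intro w i hi
    exact (hC w).2 i hi

end Pool.Agent.PolyCell
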