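import Pool.Agent.PolyCell.KLBasic

/-!
# More properties of the Kazhdan-Lusztig basis

Hints. `kl_step`: `h = C_w (T_s + v⁻¹)` satisfies `h T_s = v h` (as `(T_s + v⁻¹) T_s = v (T_s + v⁻¹)`). If `h T_s = v h` and `h = ∑ a_z C_z`, then `∑_{s ∉ R(z)} a_z (C_z T_s - v C_z) = 0` (`kl_mul_s`); if `z` has maximal length among the `z` with
`a_z ≠ 0`, `s ∉ R(z)`, the coefficient at `T_{zs}` is `a_z`: contradiction. `kl_step_left`: by `fl` (`kl_fl`). `co_bar`: `β (∑ a_w C_w) = ∑ invert(a_w) C_w`; `C` is bar invariant for `β` by `bar_unique`.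
-/

open CoxeterSystem

namespace Pool.Agent.PolyCell

variable {B W : Type*} [Group W] {M : CoxeterMatrix B} (cs : CoxeterSystem M W)

private theorem KLProps_zero_apply (w : W) : (0 : Hk cs) w = 0 := rfl

private theorem KLProps_rdesc_mul {w : W} {i : B} (hw : ¬ cs.IsRightDescent w i) :
    cs.IsRightDescent (w * cs.simple i) i := by
  unfold CoxeterSystem.IsRightDescent at hw ⊢
  rw [mul_assoc, cs.simple_mul_simple_self, mul_one]
  rcases cs.length_mul_simple w i with h | h <;> omega

private theorem KLProps_mul_s_apply {w : W} {i : B} (hw : ¬ cs.IsRightDescent w i) (h : Hk cs) :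
    (h * T cs (cs.simple i)) (w * cs.simple i) = h w + xi * h (w * cs.simple i) := by
  classical
  induction h using hk_induction cs with
  | h0 =>
    rw [zero_mul, KLProps_zero_apply, KLProps_zero_apply, mul_zero, add_zero]
  | hT y =>
    by_cases hy : cs.IsRightDescent y i
    · rw [T_mul_s' cs hy, add_apply', smul_apply', T_apply, T_apply cs y w,
        if_neg (c := w * cs.simple i = y * cs.simple i), if_neg (c := w = y)]
      · rintro rfl
        exact hw hy
      · intro h
        rw [mul_left_inj] at h
        rw [h] at hw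
        exact hw hy
    · rw [T_mul_s cs hy, T_apply, T_apply, T_apply, if_neg (c := w * cs.simple i = y)]
      · simp only [mul_left_inj, mul_zero, add_zero]
      · rintro rfl
        exact hy (KLProps_rdesc_mul cs hw)
  | ha g h hg hh =>
    rw [add_mul, add_apply', hg, hh, add_apply', add_apply']
    ring
  | hs r h hh =>
    rw [smul_mul_assoc, smul_apply', hh, smul_apply', smul_apply']
    ring

/-- coordinates of the flipped element -/
theorem co_fl {C : W → Hk cs} (h : IsKL cs C) (g : Hk cs) (w : W) :
    co cs C (fl cs g) w = co cs C g w⁻¹ := by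
  have h1 : fl cs g = Finsupp.linearCombination LP C
      ((co cs C g).mapDomain (fun w : W => w⁻¹)) := by
    conv_lhs => rw [← co_spec cs h g]
    rw [Finsupp.linearCombination_mapDomain, Finsupp.linearCombination_apply,
      Finsupp.linearCombination_apply, Finsupp.sum, map_sum, Finsupp.sum]
    refine Finset.sum_congr rfl fun z _ => ?_
    rw [map_smul, kl_fl cs h]
    rfl
  rw [h1, co_comb cs h]
  have h2 := Finsupp.mapDomain_apply (f := fun w : W => w⁻¹) inv_injective (co cs C g) w⁻¹
  simpa using h2

/-- bar invariance in coordinates -/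
theorem co_bar {C : W → Hk cs} (h : IsKL cs C) {β : Hk cs →+ Hk cs} (hβ : IsBar cs β)
    (g : Hk cs) (w : W) : co cs C (β g) w = LaurentPolynomial.invert (co cs C g w) := by
  have hC : ∀ z, β (C z) = C z := by
    obtain ⟨β', hβ', h1⟩ := h
    intro z
    rw [bar_unique cs hβ hβ']
    exact (h1 z).1
  have h1 : β g = Finsupp.linearCombination LP C
      ((co cs C g).mapRange (fun p : LP => LaurentPolynomial.invert p) (map_zero _)) := by
    conv_lhs => rw [← co_spec cs h g]
    rw [Finsupp.linearCombination_apply, Finsupp.linearCombination_apply,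
      Finsupp.sum_mapRange_index (fun z => by rw [zero_smul]), Finsupp.sum, map_sum, Finsupp.sum]
    refine Finset.sum_congr rfl fun z _ => ?_
    have h2 : β (co cs C g z • C z) = LaurentPolynomial.invert (co cs C g z) • β (C z) :=
      hβ.smul _ _
    rw [h2, hC]
  rw [h1, co_comb cs h]
  rfl

/-- right eigenvectors of `T_s` are spanned by the `C_z`, `s ∈ R(z)` -/
theorem co_of_eigen {C : W → Hk cs} (h : IsKL cs C) {g : Hk cs} {i : B}
    (hg : g * T cs (cs.simple i) = v 1 • g) {z : W} (hz : co cs C g z ≠ 0) :
    cs.IsRightDescent z i := by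
  classical
  by_contra hzi
  set a := co cs C g with ha
  let Z := a.support.filter fun z => ¬ cs.IsRightDescent z i
  have hZ : Z.Nonempty := ⟨z, Finset.mem_filter.2 ⟨Finsupp.mem_support_iff.2 hz, hzi⟩⟩
  obtain ⟨y, hy, hmax⟩ := Z.exists_max_image (fun z => cs.length z) hZ
  obtain ⟨hya, hyi⟩ := Finset.mem_filter.1 hy
  have hsum : g = ∑ z ∈ a.support, a z • C z := by
    conv_lhs => rw [← co_spec cs h g]
    rw [Finsupp.linearCombination_apply]
    rfl
  -- evaluation of `g T_s - v g` at `y s`
  let ev : Hk cs →ₗ[LP] LP :=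
    { toFun := fun g => g (y * cs.simple i)
      map_add' := fun _ _ => rfl
      map_smul' := fun _ _ => rfl }
  have hev : ∀ g : Hk cs, ev g = g (y * cs.simple i) := fun _ => rfl
  have h1 : ∑ z ∈ a.support, a z * (ev (C z * T cs (cs.simple i) - v 1 • C z)) = 0 := by
    have h2 : ev (g * T cs (cs.simple i) - v 1 • g) = 0 := by
      rw [hg, sub_self, map_zero]
    rw [← h2]
    conv_rhs => rw [hsum]
    rw [Finset.sum_mul, Finset.smul_sum, ← Finset.sum_sub_distrib, map_sum]
    refine Finset.sum_congr rfl fun z _ => ?_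
    rw [smul_mul_assoc, smul_comm, ← smul_sub, map_smul, smul_eq_mul]
  rw [Finset.sum_eq_single_of_mem y hya] at h1
  · rw [map_sub, map_smul, hev, hev, KLProps_mul_s_apply cs hyi, kl_self cs h] at h1
    have h3 : C y (y * cs.simple i) = 0 := by
      by_contra h4
      rcases kl_supp cs h h4 with h5 | h5
      · have := KLProps_rdesc_mul cs hyi
        rw [h5] at this
        exact hyi this
      · have := KLProps_rdesc_mul cs hyi
        unfold CoxeterSystem.IsRightDescent at this
        rw [mul_assoc, cs.simple_mul_simple_self, mul_one] at this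
        omega
    rw [h3] at h1
    simp only [mul_zero, smul_zero, add_zero, sub_zero, mul_one] at h1
    exact Finsupp.mem_support_iff.1 hya h1
  · intro b hb hby
    by_cases hbi : cs.IsRightDescent b i
    · rw [kl_mul_s cs h hbi, sub_self, map_zero, mul_zero]
    · have hbZ : b ∈ Z := Finset.mem_filter.2 ⟨hb, hbi⟩
      have hlen := hmax b hbZ
      have hlt : cs.length y < cs.length (y * cs.simple i) := by
        have := KLProps_rdesc_mul cs hyi
        unfold CoxeterSystem.IsRightDescent at this
        rwa [mul_assoc, cs.simple_mul_simple_self, mul_one] at this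
      have h3 : C b (y * cs.simple i) = 0 := by
        by_contra h4
        rcases kl_supp cs h h4 with h5 | h5
        · have := KLProps_rdesc_mul cs hyi
          rw [h5] at this
          exact hbi this
        · omega
      have h4 : C b y = 0 := by
        by_contra h4
        rcases kl_supp cs h h4 with h5 | h5
        · exact hby h5.symm
        · omega
      rw [map_sub, map_smul, hev, hev, KLProps_mul_s_apply cs hyi, h3, h4]
      simp

/-- left eigenvectors of `T_s` are spanned by the `C_z`, `s ∈ L(z)` -/
theorem co_of_eigen_left {C : W → Hk cs} (h : IsKL cs C) {g : Hk cs} {i : B}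
    (hg : T cs (cs.simple i) * g = v 1 • g) {z : W} (hz : co cs C g z ≠ 0) :
    cs.IsLeftDescent z i := by
  have h1 : fl cs g * T cs (cs.simple i) = v 1 • fl cs g := by
    rw [← map_smul, ← hg, fl_mul, fl_T, cs.inv_simple]
  have h2 : co cs C (fl cs g) z⁻¹ ≠ 0 := by
    rw [co_fl cs h, inv_inv]
    exact hz
  have h3 := co_of_eigen cs h h1 h2
  rwa [cs.isRightDescent_inv_iff] at h3

private theorem KLProps_v_xi : xi + v (-1) = v 1 := by
  unfold xi
  ring

private theorem KLProps_v_inv : v 1 * v (-1) = 1 := by
  rw [← v_add, add_neg_cancel, v_zero]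

private theorem KLProps_key (i : B) :
    (T cs (cs.simple i) + v (-1) • (1 : Hk cs)) * T cs (cs.simple i) =
      v 1 • (T cs (cs.simple i) + v (-1) • (1 : Hk cs)) := by
  rw [add_mul, T_s_sq, smul_mul_assoc, one_mul, smul_add, smul_smul, KLProps_v_inv, one_smul,
    add_assoc, ← add_smul, KLProps_v_xi, add_comm]

private theorem KLProps_key' (i : B) :
    T cs (cs.simple i) * (T cs (cs.simple i) + v (-1) • (1 : Hk cs)) =
      v 1 • (T cs (cs.simple i) + v (-1) • (1 : Hk cs)) := by
  rw [mul_add, T_s_sq, mul_smul_comm, mul_one, smul_add, smul_smul, KLProps_v_inv, one_smul,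
    add_assoc, ← add_smul, KLProps_v_xi, add_comm]

/-- `C_w C_s` for `ws > w`: coefficients only at `z` with `zs < z`. -/
theorem kl_step {C : W → Hk cs} (h : IsKL cs C) {w : W} {i : B} (hi : ¬ cs.IsRightDescent w i)
    {z : W} (hz : co cs C (C w * T cs (cs.simple i) + v (-1) • C w) z ≠ 0) :
    cs.IsRightDescent z i := by
  refine co_of_eigen cs h ?_ hz
  have h1 : C w * T cs (cs.simple i) + v (-1) • C w =
      C w * (T cs (cs.simple i) + v (-1) • (1 : Hk cs)) := by
    rw [mul_add, mul_smul_comm, mul_one]
  rw [h1, mul_assoc, KLProps_key, mul_smul_comm]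

theorem kl_step_left {C : W → Hk cs} (h : IsKL cs C) {w : W} {i : B} (hi : ¬ cs.IsLeftDescent w i)
    {z : W} (hz : co cs C (T cs (cs.simple i) * C w + v (-1) • C w) z ≠ 0) :
    cs.IsLeftDescent z i := by
  refine co_of_eigen_left cs h ?_ hz
  have h1 : T cs (cs.simple i) * C w + v (-1) • C w =
      (T cs (cs.simple i) + v (-1) • (1 : Hk cs)) * C w := by
    rw [add_mul, smul_mul_assoc, one_mul]
  rw [h1, ← mul_assoc, KLProps_key', smul_mul_assoc]

end Pool.Agent.PolyCell
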