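import Pool.Agent.PolyCell.KLProps
import Pool.Agent.PolyCell.FacCl

/-!
# Lattices modulo `W_{> N}`

Hints. `T_fac_expand`: strong induction on `ℓ(w)`: `T_w = C_w - ∑_{y ≠ w} C_w(y) T_y`, `C_w` is `Zero` (`co_C`), `C_w(y)` has degree `≤ -1` and `ℓ(y) < ℓ(w)`; for the `y` with `Fac N y` use the induction hypothesis. `zero_of_bar`: `co_bar`, `eq_zero_of_invert`. `zero_mul_right`: `h = ∑ co(h)(w) C_w` with `Fac N w`.
-/

open CoxeterSystem

namespace Pool.Agent.PolyCell

variable {B W : Type*} [Group W] {M : CoxeterMatrix B} (cs : CoxeterSystem M W)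

/-- zero modulo the span of the `C_w`, `w ∈ W_{> N}` -/
def Zero (C : W → Hk cs) (N : ℕ) (h : Hk cs) : Prop := ∀ w, Le cs N w → co cs C h w = 0

/-- in `v^k 𝓛` modulo the span of the `C_w`, `w ∈ W_{> N}` -/
def Lat (C : W → Hk cs) (N : ℕ) (k : ℤ) (h : Hk cs) : Prop := ∀ w, Le cs N w → dle k (co cs C h w)

/-- moreover the coefficients of `v^k` are nonnegative -/
def PLat (C : W → Hk cs) (N : ℕ) (k : ℤ) (h : Hk cs) : Prop :=
  Lat cs C N k h ∧ ∀ w, Le cs N w → 0 ≤ (co cs C h w).coeff k

/-- `H_{> N}` is a two-sided ideal -/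
def IdealN (C : W → Hk cs) (N : ℕ) : Prop :=
  ∀ w, Fac cs N w → ∀ h : Hk cs, Zero cs C N (C w * h) ∧ Zero cs C N (h * C w)

variable {cs} {C : W → Hk cs} {N : ℕ}

theorem lat_zero (k : ℤ) : Lat cs C N k 0 := by
  intro w _
  rw [map_zero]
  exact dle_zero k

theorem lat_add {k : ℤ} {g h : Hk cs} (hg : Lat cs C N k g) (hh : Lat cs C N k h) :
    Lat cs C N k (g + h) := by
  intro w hw
  rw [map_add, Finsupp.add_apply]
  exact dle_add (hg w hw) (hh w hw)

theorem lat_sub {k : ℤ} {g h : Hk cs} (hg : Lat cs C N k g) (hh : Lat cs C N k h) :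
    Lat cs C N k (g - h) := by
  intro w hw
  rw [map_sub, Finsupp.sub_apply]
  exact dle_sub (hg w hw) (hh w hw)

theorem lat_smul {k l : ℤ} {r : LP} {h : Hk cs} (hr : dle l r) (hh : Lat cs C N k h) :
    Lat cs C N (k + l) (r • h) := by
  intro w hw
  rw [map_smul, Finsupp.smul_apply, smul_eq_mul, add_comm k l]
  exact dle_mul hr (hh w hw)

theorem lat_mono {k l : ℤ} (hkl : k ≤ l) {h : Hk cs} (hh : Lat cs C N k h) : Lat cs C N l h :=
  fun w hw => dle_mono hkl (hh w hw)

theorem lat_of_zero (k : ℤ) {h : Hk cs} (hh : Zero cs C N h) : Lat cs C N k h := by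
  intro w hw
  rw [hh w hw]
  exact dle_zero k

theorem lat_sum {ι : Type*} (s : Finset ι) (f : ι → Hk cs) {k : ℤ}
    (h : ∀ i ∈ s, Lat cs C N k (f i)) : Lat cs C N k (∑ i ∈ s, f i) := by
  classical
  induction s using Finset.induction_on with
  | empty => simpa using lat_zero k
  | insert a s ha ih =>
    rw [Finset.sum_insert ha]
    exact lat_add (h a (Finset.mem_insert_self a s))
      (ih fun i hi => h i (Finset.mem_insert_of_mem hi))

theorem plat_zero (k : ℤ) : PLat cs C N k 0 := by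
  refine ⟨lat_zero k, fun w _ => ?_⟩
  rw [map_zero]
  exact le_of_eq rfl

theorem plat_add {k : ℤ} {g h : Hk cs} (hg : PLat cs C N k g) (hh : PLat cs C N k h) :
    PLat cs C N k (g + h) := by
  refine ⟨lat_add hg.1 hh.1, fun w hw => ?_⟩
  rw [map_add, Finsupp.add_apply]
  have h1 := hg.2 w hw
  have h2 := hh.2 w hw
  have h3 : (co cs C g w + co cs C h w : LP).coeff k
      = (co cs C g w).coeff k + (co cs C h w).coeff k := rfl
  rw [h3]
  exact add_nonneg h1 h2

theorem plat_smul {k l : ℤ} {r : LP} {h : Hk cs} (hr : Gd l r) (hh : PLat cs C N k h) :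
    PLat cs C N (k + l) (r • h) := by
  refine ⟨lat_smul hr.1 hh.1, fun w hw => ?_⟩
  rw [map_smul, Finsupp.smul_apply, smul_eq_mul, add_comm k l,
    coeff_mul_top hr.1 (hh.1 w hw)]
  exact mul_nonneg hr.2.1 (hh.2 w hw)

theorem plat_of_lat {k : ℤ} {h : Hk cs} (hh : Lat cs C N (k - 1) h) : PLat cs C N k h := by
  refine ⟨lat_mono (by omega) hh, fun w hw => ?_⟩
  rw [hh w hw k (by omega)]

theorem plat_mono {k l : ℤ} (hkl : k ≤ l) {h : Hk cs} (hh : PLat cs C N k h) :
    PLat cs C N l h := by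
  rcases eq_or_lt_of_le hkl with rfl | hlt
  · exact hh
  · refine ⟨lat_mono hkl hh.1, fun w hw => ?_⟩
    rw [hh.1 w hw l hlt]

theorem plat_sum {ι : Type*} (s : Finset ι) (f : ι → Hk cs) {k : ℤ}
    (h : ∀ i ∈ s, PLat cs C N k (f i)) : PLat cs C N k (∑ i ∈ s, f i) := by
  classical
  induction s using Finset.induction_on with
  | empty => simpa using plat_zero k
  | insert a s ha ih =>
    rw [Finset.sum_insert ha]
    exact plat_add (h a (Finset.mem_insert_self a s))
      (ih fun i hi => h i (Finset.mem_insert_of_mem hi))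

theorem lat_T (hC : IsKL cs C) (w : W) : Lat cs C N 0 (T cs w) := by
  intro y _
  rcases eq_or_ne y w with rfl | hne
  · rw [co_T_self cs hC]
    exact dle_one
  · exact dle_mono (by norm_num) (co_T_dle cs hC hne)

theorem plat_T (hC : IsKL cs C) (w : W) : PLat cs C N 0 (T cs w) := by
  refine ⟨lat_T hC w, fun y _ => ?_⟩
  rcases eq_or_ne y w with rfl | hne
  · rw [co_T_self cs hC]
    exact gd_one.2.1
  · rw [co_T_dle cs hC hne 0 (by norm_num)]

theorem lat_T_fac (hC : IsKL cs C) {w : W} (hw : Fac cs N w) : Lat cs C N (-1) (T cs w) := by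
  intro y hy
  refine co_T_dle cs hC ?_
  rintro rfl
  exact hy hw

theorem zero_add' {g h : Hk cs} (hg : Zero cs C N g) (hh : Zero cs C N h) :
    Zero cs C N (g + h) := by
  intro w hw
  rw [map_add, Finsupp.add_apply, hg w hw, hh w hw, add_zero]

theorem zero_sub' {g h : Hk cs} (hg : Zero cs C N g) (hh : Zero cs C N h) :
    Zero cs C N (g - h) := by
  intro w hw
  rw [map_sub, Finsupp.sub_apply, hg w hw, hh w hw, sub_zero]

theorem zero_smul' {r : LP} {h : Hk cs} (hh : Zero cs C N h) : Zero cs C N (r • h) := by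
  intro w hw
  rw [map_smul, Finsupp.smul_apply, hh w hw, smul_zero]

/-- a sum of `Zero` elements is `Zero` -/
private theorem Lat_zero_sum {ι : Type*} (s : Finset ι) (f : ι → Hk cs)
    (h : ∀ i ∈ s, Zero cs C N (f i)) : Zero cs C N (∑ i ∈ s, f i) := by
  classical
  induction s using Finset.induction_on with
  | empty =>
    intro w _
    rw [Finset.sum_empty, map_zero]
    rfl
  | insert a s ha ih =>
    rw [Finset.sum_insert ha]
    exact zero_add' (h a (Finset.mem_insert_self a s))
      (ih fun i hi => h i (Finset.mem_insert_of_mem hi))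

/-- a `Zero` element is a combination of the `C_w`, `w ∈ W_{> N}` -/
private theorem Lat_zero_repr (hC : IsKL cs C) {h : Hk cs} (hh : Zero cs C N h) :
    ∃ a : W →₀ LP, h = ∑ w ∈ a.support, a w • C w ∧ ∀ w ∈ a.support, Fac cs N w := by
  refine ⟨co cs C h, ?_, ?_⟩
  · have h1 := co_spec cs hC h
    rw [Finsupp.linearCombination_apply, Finsupp.sum] at h1
    exact h1.symm
  · intro w hw
    by_contra hf
    exact (Finsupp.mem_support_iff.1 hw) (hh w hf)

theorem zero_mul_right (hC : IsKL cs C) (hI : IdealN cs C N) {h : Hk cs} (hh : Zero cs C N h)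
    (g : Hk cs) : Zero cs C N (h * g) := by
  obtain ⟨a, ha, hf⟩ := Lat_zero_repr hC hh
  rw [ha, Finset.sum_mul]
  refine Lat_zero_sum _ _ fun w hw => ?_
  rw [smul_mul_assoc]
  exact zero_smul' (hI w (hf w hw) g).1

theorem zero_mul_left (hC : IsKL cs C) (hI : IdealN cs C N) {h : Hk cs} (hh : Zero cs C N h)
    (g : Hk cs) : Zero cs C N (g * h) := by
  obtain ⟨a, ha, hf⟩ := Lat_zero_repr hC hh
  rw [ha, Finset.mul_sum]
  refine Lat_zero_sum _ _ fun w hw => ?_
  rw [mul_smul_comm]
  exact zero_smul' (hI w (hf w hw) g).2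

/-- (Red) `T_w` for `w ∈ W_{> N}` in terms of shorter `T_z`, `z ∈ W_{≤ N}` -/
theorem T_fac_expand (hC : IsKL cs C) {w : W} (hw : Fac cs N w) :
    ∃ a : W →₀ LP, Zero cs C N (T cs w - Finsupp.linearCombination LP (T cs) a) ∧
      ∀ z, a z ≠ 0 → Le cs N z ∧ cs.length z < cs.length w ∧ dle (-1) (a z) := by
  classical
  induction hn : cs.length w using Nat.strong_induction_on generalizing w with
  | _ n ih =>
  -- for every `y` shorter than `w`
  have key : ∀ y : W, ∃ b : W →₀ LP, cs.length y < n →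
      Zero cs C N (T cs y - Finsupp.linearCombination LP (T cs) b) ∧
        ∀ z, b z ≠ 0 → Le cs N z ∧ cs.length z < n ∧ dle 0 (b z) := by
    intro y
    by_cases hy : cs.length y < n
    · by_cases hf : Fac cs N y
      · obtain ⟨b, hb1, hb2⟩ := ih (cs.length y) hy hf rfl
        exact ⟨b, fun _ => ⟨hb1, fun z hz => ⟨(hb2 z hz).1, lt_trans (hb2 z hz).2.1 hy,
          dle_mono (by norm_num) (hb2 z hz).2.2⟩⟩⟩
      · refine ⟨Finsupp.single y 1, fun _ => ⟨?_, ?_⟩⟩
        · rw [Finsupp.linearCombination_single, one_smul, sub_self]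
          intro z _
          rw [map_zero]
          rfl
        · intro z hz
          have hzy : z = y := by
            by_contra hne
            exact hz (Finsupp.single_eq_of_ne hne)
          subst hzy
          refine ⟨hf, hy, ?_⟩
          rw [Finsupp.single_eq_same]
          exact dle_one
    · exact ⟨0, fun h => absurd h hy⟩
  choose b hb using key
  set Cw : W →₀ LP := (C w : W →₀ LP) with hCw
  set s : Finset W := Cw.support.erase w with hs
  have hs1 : ∀ y ∈ s, cs.length y < n := by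
    intro y hy
    rw [hs, Finset.mem_erase, Finsupp.mem_support_iff] at hy
    rcases kl_supp cs hC (w := w) (y := y) hy.2 with h | h
    · exact absurd h hy.1
    · rwa [hn] at h
  have hs2 : ∀ y ∈ s, dle (-1) (Cw y) := by
    intro y hy
    rw [hs, Finset.mem_erase] at hy
    exact kl_dle cs hC hy.1
  have hsum : T cs w = C w - ∑ y ∈ s, Cw y • T cs y := by
    have h1 := eq_sum_T cs (C w)
    have h2 : (Finsupp.sum (show W →₀ LP from C w) fun w a => a • T cs w)
        = ∑ y ∈ Cw.support, Cw y • T cs y := rfl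
    have hw1 : Cw w = 1 := kl_self cs hC w
    have hmem : w ∈ Cw.support := by
      rw [Finsupp.mem_support_iff, hw1]
      exact one_ne_zero
    rw [h2, ← Finset.add_sum_erase _ _ hmem, hw1, one_smul] at h1
    rw [eq_sub_iff_add_eq, hs]
    exact h1.symm
  refine ⟨∑ y ∈ s, (-(Cw y)) • b y, ?_, ?_⟩
  · have h1 : T cs w - Finsupp.linearCombination LP (T cs) (∑ y ∈ s, (-(Cw y)) • b y)
        = C w - ∑ y ∈ s, Cw y • (T cs y - Finsupp.linearCombination LP (T cs) (b y)) := by
      have h0 : ∀ y, Finsupp.linearCombination LP (T cs) ((-(Cw y)) • b y)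
          = -(Cw y • Finsupp.linearCombination LP (T cs) (b y)) := fun y => by
        rw [LinearMap.map_smul, neg_smul]
      rw [map_sum, hsum, Finset.sum_congr rfl fun y _ => h0 y, Finset.sum_neg_distrib]
      simp only [smul_sub, Finset.sum_sub_distrib]
      abel
    rw [h1]
    refine zero_sub' ?_ (Lat_zero_sum _ _ fun y hy => zero_smul' (hb y (hs1 y hy)).1)
    intro z hz
    rw [co_C cs hC]
    refine Finsupp.single_eq_of_ne ?_
    rintro rfl
    exact hz hw
  · intro z hz
    have h1 : (∑ y ∈ s, (-(Cw y)) • b y) z = ∑ y ∈ s, -(Cw y) * b y z := by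
      rw [Finset.sum_apply']
      rfl
    rw [h1] at hz ⊢
    obtain ⟨y, hy, hyz⟩ := Finset.exists_ne_zero_of_sum_ne_zero hz
    have hbz : b y z ≠ 0 := fun h0 => hyz (by rw [h0, mul_zero])
    have h2 := (hb y (hs1 y hy)).2 z hbz
    refine ⟨h2.1, h2.2.1, dle_sum s _ fun x hx => ?_⟩
    by_cases h0 : b x z = 0
    · rw [h0, mul_zero]
      exact dle_zero _
    · have h3 := ((hb x (hs1 x hx)).2 z h0).2.2
      have h4 := dle_mul (dle_neg (hs2 x hx)) h3
      rwa [add_zero] at h4

/-- A bar invariant element in `Lat (-1)` is zero modulo `H_{>N}`. -/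
theorem zero_of_bar (hC : IsKL cs C) {β : Hk cs →+ Hk cs} (hβ : IsBar cs β) {h : Hk cs}
    (hb : β h = h) (hl : Lat cs C N (-1) h) : Zero cs C N h := by
  intro w hw
  refine eq_zero_of_invert (hl w hw) ?_
  rw [← co_bar cs hC hβ h w, hb]

end Pool.Agent.PolyCell
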