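import Pool.Agent.PolyCell.Bounds

/-!
# The leading coefficient of `C_{w_T}` in `T_{w_T y} T_{y⁻¹ w_T}`

Proof. `lead_wT`: `T_{w_T} T_{w_T} = ∑_{c ∈ D} f_c T_c` (`mul_supp_D`), the coordinate at `C_{w_T}` is `f_{w_T}` (`co_T_self`, `co_T_supp`: for `c ≠ w_T` in `D`, `co (T_c) (w_T) = 0` since `ℓ(c) < m`), coefficient of `v^N` is `1` by `wT_mul_gd`.
`lead_T`: induction on `ℓ(y)`: `y = y' s`: `T_{w_T y} T_{(w_T y)⁻¹} = T_{w_T y'} T_s T_s T_{(w_T y')⁻¹} = T_{w_T y'} T_{(w_T y')⁻¹} + ξ T_{w_T y'} T_s T_{(w_T y')⁻¹}`; `E1` with `x = w_T y'`, `g = s`, `y = (w_T y')⁻¹`: the second term has nonnegative coefficient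
of `v^N` (`coeff_mul_top`, degree `≤ N - 1` and coefficient of `v^{N-1}` nonnegative).
-/

open CoxeterSystem

namespace Pool.Agent.PolyCell

variable {B W : Type*} [Group W] {M : CoxeterMatrix B} {cs : CoxeterSystem M W}
  {C : W → Hk cs} {N : ℕ}

/-- `T_{w_T} T_{w_T}`: coefficient of `v^N` at `C_{w_T}` is `1` (`wT_mul_gd`), and the product is in `PLat N N`. -/
theorem lead_wT (hC : IsKL cs C) {i j : B} (hij : i ≠ j) (hm : M i j = N) (hN : 2 ≤ N)
    (hle : Le cs N (wT cs i j)) :
    1 ≤ (co cs C (T cs (wT cs i j) * T cs (wT cs i j)) (wT cs i j)).coeff N := by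
  have hm0 : M i j ≠ 0 := by omega
  have hlen : cs.length (wT cs i j) = N := by rw [length_wT cs hij, hm]
  have h1 := (wT_mul_gd cs hij hm0 (wT_mem cs i j)).2
  rw [hlen] at h1
  have h2 : co cs C (T cs (wT cs i j) * T cs (wT cs i j)) (wT cs i j)
      = (T cs (wT cs i j) * T cs (wT cs i j)) (wT cs i j) := by
    set h : Hk cs := T cs (wT cs i j) * T cs (wT cs i j) with hh
    have hexp : h = ∑ c ∈ Finsupp.support (show W →₀ LP from h), h c • T cs c := by
      conv_lhs => rw [eq_sum_T cs h]
      rfl
    have hco : co cs C h (wT cs i j)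
        = ∑ c ∈ Finsupp.support (show W →₀ LP from h), h c * co cs C (T cs c) (wT cs i j) := by
      conv_lhs => rw [hexp]
      rw [map_sum, Finsupp.finsetSum_apply]
      refine Finset.sum_congr rfl fun c _ => ?_
      rw [map_smul, Finsupp.smul_apply, smul_eq_mul]
    rw [hco, Finset.sum_eq_single (wT cs i j)]
    · rw [co_T_self cs hC, mul_one]
    · intro c hc hne
      have hc' : h c ≠ 0 := Finsupp.mem_support_iff.mp hc
      have hD : c ∈ D cs i j := mul_supp_D cs (wT_mem cs i j) (wT_mem cs i j) hc'
      have hle' := len_D_le cs hij hm0 hD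
      by_cases h0 : co cs C (T cs c) (wT cs i j) = 0
      · rw [h0, mul_zero]
      · rcases co_T_supp cs hC h0 with h3 | h3
        · exact absurd h3.symm hne
        · omega
    · intro hc
      have hc' : h (wT cs i j) = 0 := Finsupp.notMem_support_iff.mp hc
      rw [hc', zero_mul]
  rw [h2, h1]

/-- induction on `ℓ(y)`: `T_{w_T y' s} T_{s y'⁻¹ w_T} = T_{w_T y'} T_{y'⁻¹ w_T} + ξ T_{w_T y'} T_s T_{y'⁻¹ w_T}`, E1. -/
theorem lead_T (hM : TF M) (hC : IsKL cs C) (hI : IdealN cs C N) (hN : 2 ≤ N) {i j : B}
    (hij : i ≠ j) (hm : M i j = N) {y : W} (hy : Lmin cs i j y) (h2 : Le cs N (wT cs i j * y)) :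
    1 ≤ (co cs C (T cs (wT cs i j * y) * T cs (wT cs i j * y)⁻¹) (wT cs i j)).coeff N := by
  induction hn : cs.length y using Nat.strong_induction_on generalizing y with
  | _ n ih =>
    subst hn
    have hm0 : M i j ≠ 0 := by omega
    have hred : ∀ z, Lmin cs i j z → cs.length (wT cs i j * z) = cs.length (wT cs i j) + cs.length z :=
      fun z hz => len_D_mul cs hij hz (wT_mem cs i j)
    have hleT : Le cs N (wT cs i j) := le_prefix cs (hred y hy) h2
    by_cases hy1 : y = 1
    · subst hy1
      rw [mul_one, wT_inv]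
      exact lead_wT hC hij hm hN hleT
    · obtain ⟨s, hs⟩ := cs.exists_rightDescent_of_ne_one hy1
      have hlys : cs.length (y * cs.simple s) + 1 = cs.length y := cs.isRightDescent_iff.mp hs
      set y' := y * cs.simple s with hy'
      have hyy : y = y' * cs.simple s := by
        rw [hy', mul_assoc, cs.simple_mul_simple_self, mul_one]
      have hmin : Lmin cs i j y' := by
        have aux : ∀ k, ¬ cs.IsLeftDescent y k → ¬ cs.IsLeftDescent y' k := by
          intro k hk hk'
          apply hk
          have e1 : cs.length (cs.simple k * y') + 1 = cs.length y' := cs.isLeftDescent_iff.mp hk'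
          have e2 : cs.length (cs.simple k * y) ≤ cs.length (cs.simple k * y') + 1 := by
            have := cs.length_mul_le (cs.simple k * y') (cs.simple s)
            rw [cs.length_simple] at this
            rw [hyy, ← mul_assoc]
            exact this
          unfold IsLeftDescent
          omega
        exact ⟨aux i hy.1, aux j hy.2⟩
      have hw : wT cs i j * y = wT cs i j * y' * cs.simple s := by
        rw [mul_assoc, ← hyy]
      have hl' : cs.length (wT cs i j * y' * cs.simple s)
          = cs.length (wT cs i j * y') + cs.length (cs.simple s) := by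
        rw [← hw, hred y hy, hred y' hmin, cs.length_simple]
        omega
      have hle' : Le cs N (wT cs i j * y') := by
        rw [hw] at h2
        exact le_prefix cs hl' h2
      have IH := ih (cs.length y') (by omega) hmin hle' rfl
      have hnr : ¬ cs.IsRightDescent (wT cs i j * y') s := by
        rw [cs.not_isRightDescent_iff, hl', cs.length_simple]
      have hnl : ¬ cs.IsLeftDescent (wT cs i j * y')⁻¹ s := by
        rw [cs.isLeftDescent_inv_iff]
        exact hnr
      have hle2 : Le cs N (cs.simple s * (wT cs i j * y')⁻¹) := by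
        have e : cs.simple s * (wT cs i j * y')⁻¹ = (wT cs i j * y)⁻¹ := by
          rw [hw, mul_inv_rev (wT cs i j * y') (cs.simple s), cs.inv_simple]
        rw [e, le_inv]
        exact h2
      have hE1 := E1 hM hC hI hN hnr hnl (by rw [← hw]; exact h2) hle2
      have hsplit : T cs (wT cs i j * y) * T cs (wT cs i j * y)⁻¹
          = T cs (wT cs i j * y') * T cs (wT cs i j * y')⁻¹
            + xi • (T cs (wT cs i j * y') * T cs (cs.simple s) * T cs (wT cs i j * y')⁻¹) := by
        have e1 : T cs (wT cs i j * y) = T cs (wT cs i j * y') * T cs (cs.simple s) := by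
          rw [T_mul_s cs hnr, hw]
        have e2 : T cs (wT cs i j * y)⁻¹ = T cs (cs.simple s) * T cs (wT cs i j * y')⁻¹ := by
          rw [s_mul_T cs hnl, hw, mul_inv_rev (wT cs i j * y') (cs.simple s), cs.inv_simple]
        rw [e1, e2]
        calc T cs (wT cs i j * y') * T cs (cs.simple s)
              * (T cs (cs.simple s) * T cs (wT cs i j * y')⁻¹)
            = T cs (wT cs i j * y') * (T cs (cs.simple s) * T cs (cs.simple s))
              * T cs (wT cs i j * y')⁻¹ := by simp only [mul_assoc]
          _ = _ := by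
            rw [T_s_sq, mul_add, mul_one, add_mul, mul_smul_comm, smul_mul_assoc]
      have hc2 : (co cs C (xi • (T cs (wT cs i j * y') * T cs (cs.simple s)
          * T cs (wT cs i j * y')⁻¹)) (wT cs i j)).coeff N
          = (co cs C (T cs (wT cs i j * y') * T cs (cs.simple s)
          * T cs (wT cs i j * y')⁻¹) (wT cs i j)).coeff ((N : ℤ) - 1) := by
        rw [map_smul, Finsupp.smul_apply, smul_eq_mul]
        have h3 := coeff_mul_top dle_xi (hE1.1 (wT cs i j) hleT)
        rw [coeff_xi, if_pos rfl, one_mul] at h3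
        rw [← h3]
        congr 1
        ring
      have hpos := hE1.2 (wT cs i j) hleT
      rw [hsplit, map_add, Finsupp.add_apply]
      have hadd : ∀ p q : LP, (p + q).coeff (N : ℤ) = p.coeff N + q.coeff N := by
        intro p q
        simp
      rw [hadd, hc2]
      omega

end Pool.Agent.PolyCell
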