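import Pool.Agent.PolyCell.Lead1
import Pool.Agent.PolyCell.KAx

/-!
# The leading coefficient of `C_{w_T}` in `C_{w_T y} C_{y⁻¹ w_T}` (triangle-free case)

Proof. `C_w = T_w + ∑_{z ≠ w} p_z T_z`, `C_{w⁻¹} = T_{w⁻¹} + …`, coefficients of degree `≤ -1`: `C_w C_{w⁻¹} - T_w T_{w⁻¹}` is in `Lat (N - 1)` by `E0`.
-/

open CoxeterSystem

namespace Pool.Agent.PolyCell

variable {B W : Type*} [Group W] {M : CoxeterMatrix B} {cs : CoxeterSystem M W}
  {C : W → Hk cs} {N : ℕ}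

/-- products of elements with bounded degrees -/
private theorem LeadTF_mul_lat (hM : TF M) (hC : IsKL cs C) (hI : IdealN cs C N) (hN : 2 ≤ N)
    {k l : ℤ} {g h : Hk cs} (hg : ∀ z, dle k (g z)) (hh : ∀ z, dle l (h z)) :
    Lat cs C N ((N : ℤ) + (k + l)) (g * h) := by
  have e1 := eq_sum_T cs g
  have e2 := eq_sum_T cs h
  have e3 : g * h = ∑ z ∈ (show W →₀ LP from g).support,
      ∑ z' ∈ (show W →₀ LP from h).support,
        (g z * h z') • (T cs z * T cs z') := by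
    conv_lhs => rw [e1, e2]
    unfold Finsupp.sum
    rw [Finset.sum_mul]
    refine Finset.sum_congr rfl fun z _ => ?_
    rw [Finset.mul_sum]
    refine Finset.sum_congr rfl fun z' _ => ?_
    rw [smul_mul_smul_comm]
    rfl
  rw [e3]
  refine lat_sum _ _ fun z _ => lat_sum _ _ fun z' _ => ?_
  exact lat_smul (dle_mul (hg z) (hh z')) (E0 hM hC hI hN z z').1

theorem lead_C (hM : TF M) (hC : IsKL cs C) (hI : IdealN cs C N) (hN : 2 ≤ N) {i j : B}
    (hij : i ≠ j) (hm : M i j = N) {y : W} (hy : Lmin cs i j y) (h2 : Le cs N (wT cs i j * y)) :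
    1 ≤ (co cs C (C (wT cs i j * y) * C (wT cs i j * y)⁻¹) (wT cs i j)).coeff N := by
  classical
  set w := wT cs i j * y with hw
  -- the difference to `T_w T_{w⁻¹}`
  have hR : ∀ u : W, ∀ z, dle (-1) ((C u - T cs u : Hk cs) z) := by
    intro u z
    rw [sub_apply', T_apply]
    by_cases hz : z = u
    · subst hz
      rw [if_pos rfl, kl_self cs hC, sub_self]
      exact dle_zero _
    · rw [if_neg hz, sub_zero]
      exact kl_dle cs hC hz
  have hT : ∀ u : W, ∀ z, dle 0 ((T cs u : Hk cs) z) := by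
    intro u z
    rw [T_apply]
    split_ifs
    · exact dle_one
    · exact dle_zero _
  have h1 : Lat cs C N ((N : ℤ) + (-1 + 0)) ((C w - T cs w) * T cs w⁻¹) :=
    LeadTF_mul_lat hM hC hI hN (hR w) (hT w⁻¹)
  have h1' : Lat cs C N ((N : ℤ) + (0 + -1)) (T cs w * (C w⁻¹ - T cs w⁻¹)) :=
    LeadTF_mul_lat hM hC hI hN (hT w) (hR w⁻¹)
  have h1'' : Lat cs C N ((N : ℤ) + (-1 + -1)) ((C w - T cs w) * (C w⁻¹ - T cs w⁻¹)) :=
    LeadTF_mul_lat hM hC hI hN (hR w) (hR w⁻¹)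
  have h3 : Lat cs C N ((N : ℤ) - 1) ((C w - T cs w) * T cs w⁻¹ + T cs w * (C w⁻¹ - T cs w⁻¹)
      + (C w - T cs w) * (C w⁻¹ - T cs w⁻¹)) :=
    lat_add (lat_add (lat_mono (by omega) h1) (lat_mono (by omega) h1'))
      (lat_mono (by omega) h1'')
  have e : C w * C w⁻¹ = T cs w * T cs w⁻¹ + ((C w - T cs w) * T cs w⁻¹
      + T cs w * (C w⁻¹ - T cs w⁻¹) + (C w - T cs w) * (C w⁻¹ - T cs w⁻¹)) := by
    noncomm_ring
  have hle : Le cs N (wT cs i j) := by
    refine le_prefix cs (x := wT cs i j) (y := y) ?_ h2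
    exact len_D_mul cs hij hy (wT_mem cs i j)
  have h4 := h3 _ hle
  have h5 := lead_T hM hC hI hN hij hm hy h2
  rw [← hw] at h5
  have h6 := h4 (N : ℤ) (by omega)
  rw [e, map_add, Finsupp.add_apply, AddMonoidAlgebra.coeff_add, Finsupp.add_apply, h6, add_zero]
  exact h5

end Pool.Agent.PolyCell
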