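import Pool.Agent.PolyCell.Main
import Pool.Agent.PolyCell.GeoTF
import Pool.Agent.PolyCell.K1
import Pool.Agent.PolyCell.LeadTF

/-!
# The triangle-free case
-/

open CoxeterSystem

namespace Pool.Agent.PolyCell

variable {B W : Type*} [Group W] {M : CoxeterMatrix B} {cs : CoxeterSystem M W}

theorem cellConj (hM : TF M) {N0 : ℕ} (hN0 : ∀ i j : B, M i j ≤ N0) : CellConj cs := by
  refine cellConj_of_axioms hN0 (noThree_TF cs hM) (fun N hN _ => geo_TF cs hM hN)
    (fun C hC N hN _ hI => kax_TF hM hC hI hN) ?_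
  intro C hC hI N hN _ i j y hij hm hy h2 h0
  have h5 := lead_C hM hC (hI N (by omega)) hN hij hm hy h2
  rw [h0] at h5
  simp at h5

end Pool.Agent.PolyCell
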