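import Pool.Agent.PolyCell.Stmt
import Pool.Agent.PolyCell.Defs

/-!
# Polygon matrices
-/

open CoxeterSystem

namespace Pool.Agent.PolyCell

private theorem Poly_adj {n : ℕ} {M : CoxeterMatrix (ZMod n)} {a : ZMod n → ℕ}
    (h : IsPolygon M a) {i j : ZMod n} (hij : i ≠ j) (hm : M i j ≠ 0) :
    j = i + 1 ∨ i = j + 1 := by
  by_contra hc
  rw [not_or] at hc
  exact hm (h.2 i j hij hc.1 hc.2)

private theorem Poly_val {n : ℕ} {M : CoxeterMatrix (ZMod n)} {a : ZMod n → ℕ}
    (h : IsPolygon M a) {i j : ZMod n} (hij : j = i + 1) : M i j = a i ∧ M j i = a i := by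
  subst hij
  exact ⟨h.1 i, by rw [M.symmetric (i + 1) i]; exact h.1 i⟩

/-- polygons with at least four sides, and triangles with an ideal vertex, are triangle-free -/
theorem poly_TF {n : ℕ} (hn : 3 ≤ n) {M : CoxeterMatrix (ZMod n)} {a : ZMod n → ℕ}
    (h : IsPolygon M a) (h4 : 4 ≤ n ∨ ∃ k, a k = 0) : TF M := by
  -- the oriented case
  have key : ∀ x y z : ZMod n, y = x + 1 → z = y + 1 → x = z + 1 → M x y ≠ 0 → M y z ≠ 0 →
      M z x ≠ 0 → False := by
    intro x y z h1 h2 h3 m1 m2 m3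
    have h5 : ((3 : ℕ) : ZMod n) = 0 := by
      have : x = x + 3 := by
        conv_lhs => rw [h3, h2, h1]
        ring
      push_cast
      linear_combination -this
    have h6 : n ∣ 3 := (ZMod.natCast_eq_zero_iff 3 n).1 h5
    have h7 : n = 3 := le_antisymm (Nat.le_of_dvd (by norm_num) h6) hn
    rcases h4 with h4 | ⟨k, hk⟩
    · omega
    · subst h7
      rw [(Poly_val h h1).1] at m1
      rw [(Poly_val h h2).1] at m2
      rw [(Poly_val h h3).1] at m3
      have h8 : ∀ x k : ZMod 3, k = x ∨ k = x + 1 ∨ k = x + 1 + 1 := by decide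
      rcases h8 x k with rfl | rfl | rfl
      · exact m1 hk
      · rw [h1] at m2
        exact m2 hk
      · rw [h2, h1] at m3
        exact m3 hk
  intro x y z hxy hyz hxz
  by_contra hc
  rw [not_or, not_or] at hc
  obtain ⟨m1, m2, m3⟩ := hc
  rcases Poly_adj h hxy m1 with h1 | h1 <;> rcases Poly_adj h hyz m2 with h2 | h2 <;>
    rcases Poly_adj h hxz m3 with h3 | h3
  · exact hyz (h1.trans h3.symm)
  · exact key x y z h1 h2 h3 m1 m2 (by rw [M.symmetric z x]; exact m3)
  · exact hxz (add_right_cancel (h1.symm.trans h2))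
  · exact hxz (add_right_cancel (h1.symm.trans h2))
  · exact hxz (h1.trans h2.symm)
  · exact hxz (h1.trans h2.symm)
  · exact key z y x h2 h1 h3 (by rw [M.symmetric z y]; exact m2)
      (by rw [M.symmetric y x]; exact m1) m3
  · exact hyz (add_right_cancel (h1.symm.trans h3))

theorem poly_bounded {n : ℕ} [NeZero n] (M : CoxeterMatrix (ZMod n)) :
    ∃ N0, ∀ i j, M i j ≤ N0 := by
  classical
  refine ⟨Finset.univ.sup (fun p : ZMod n × ZMod n => M p.1 p.2), fun i j => ?_⟩
  exact Finset.le_sup (f := fun p : ZMod n × ZMod n => M p.1 p.2) (Finset.mem_univ (i, j))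

end Pool.Agent.PolyCell
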