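import Pool.Agent.PolyCell.FStar

/-!
# Q

Proof. Strong induction on `ℓ(y)`. `y = 1`: if `k ∈ R(X s_g)`, `k ≠ g`, then `M g k ≠ 0` (`both_rd`) and `k ∈ R(X)` (`rd_of_both`): contradiction to `hX`.
`y ≠ 1`: `h ∈ R(y)`, `y' = y s_h`: the induction hypothesis gives the length statement (`h ∉ R(s_g y')`, so `h ∉ R(X s_g y')`). Let `g' ∈ R(X s_g y)`, `g' ∉ R(s_g y)`. `g' ≠ h`, `T' = {g',h}`, `M g' h ≠ 0`. `y = y1 b1`
(`decompR` for `T'`), `b1 ≠ 1`, `g' ∉ R(b1)`. `X s_g y1` is not `T'`-rmin (`rd_mul_D`), so there is `k ∈ T'`, `k ∈ R(X s_g y1) ⊆ R(s_g y1)` (induction for `y1`), `k ∉ R(y1)`: `lift_eq`: `s_g y1 = y1 s_k`.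
`s_g y = y1 (s_k b1)`, `g' ∉ R(s_g y)` so `g' ∉ R(s_k b1)`; `X s_g y = (X y1)(s_k b1)`, so `X y1` is not `T'`-rmin; `k ∉ R(X y1)` (`ℓ(X y1 s_k) = ℓ(X s_g y1) = ℓ(X) + 1 + ℓ(y1)`); so the other letter `k'` of `T'` is in
`R(X y1)`; `k' ∉ R(y1)`. If `y1 = 1`: `s_g = s_k`, `k = g`, `k' ∈ R(X)`, `M k' g ≠ 0`: contradiction to `hX`. If `y1 ≠ 1`: `e0 ∈ L(y1)`, `e0 ≠ g`, `wall_step` (`t = g`, `e = e0`, `k`): `M g e0 ≠ 0`, `y1 = ν y2`. `e0 ∉ R(X)` by `hX`. So `X` is
`{g,e0}`-rmin. `ℓ(ν) ≥ 2`: `fstat` (y2): `k' ∈ R(X ν y2) ⊆ R(ν y2) = R(y1)`, contradiction. `M g e0 = 2`: `ν = s_e0`, `y2 s_k = s_g y2`: `starstat` (y2) for `X s_e0`, `τ = e0`, `t = g`: `k' ∉ R(s_e0 y2) = R(y1)`, so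
`k' ∉ R(X s_e0 y2) = R(X y1)`, contradiction.
-/

open CoxeterSystem

namespace Pool.Agent.PolyCell

variable {B W : Type*} [Group W] {M : CoxeterMatrix B} (cs : CoxeterSystem M W)

private theorem QStat_rd_iff (w : W) (i : B) :
    cs.IsRightDescent w i ↔ cs.length (w * cs.simple i) + 1 = cs.length w :=
  cs.isRightDescent_iff

private theorem QStat_nrd_iff (w : W) (i : B) :
    ¬ cs.IsRightDescent w i ↔ cs.length (w * cs.simple i) = cs.length w + 1 :=
  cs.not_isRightDescent_iff

private theorem QStat_nld_iff (w : W) (i : B) :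
    ¬ cs.IsLeftDescent w i ↔ cs.length (cs.simple i * w) = cs.length w + 1 :=
  cs.not_isLeftDescent_iff

private theorem QStat_rd_simple {g k : B} (h : cs.IsRightDescent (cs.simple g) k) : k = g := by
  by_contra hne
  have hg : cs.IsRightDescent (cs.simple g) g := by
    rw [QStat_rd_iff]
    simp
  obtain ⟨h0, z, -, -, h3⟩ := both_rd cs hne h hg
  have := two_le_exp hne h0
  rw [cs.length_simple] at h3
  omega

/-- prefixes -/
private theorem QStat_pre {a b : W} {g : B} (h : cs.length (a * b) = cs.length a + cs.length b)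
    (hg : ¬ cs.IsLeftDescent (a * b) g) : ¬ cs.IsLeftDescent a g := by
  rw [QStat_nld_iff] at hg
  intro ha
  have ha' := cs.isLeftDescent_iff.mp ha
  have := cs.length_mul_le (cs.simple g * a) b
  rw [mul_assoc] at this
  omega

/-- Q: see doc `proof/MP_338de0_co`. Strong induction on `ℓ(y)`, the proof is the one of F. -/
theorem qstat (hM : TF M) {X y : W} {g : B} (hg : ¬ cs.IsRightDescent X g)
    (hX : ∀ h, cs.IsRightDescent X h → M h g = 0) (hy : ¬ cs.IsLeftDescent y g) :
    cs.length (X * cs.simple g * y) = cs.length X + 1 + cs.length y ∧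
      ∀ k, cs.IsRightDescent (X * cs.simple g * y) k → cs.IsRightDescent (cs.simple g * y) k := by
  induction hn : cs.length y using Nat.strong_induction_on generalizing y with
  | _ n ih =>
  subst hn
  have IH : ∀ z, cs.length z < cs.length y → ¬ cs.IsLeftDescent z g →
      cs.length (X * cs.simple g * z) = cs.length X + 1 + cs.length z ∧
      ∀ k, cs.IsRightDescent (X * cs.simple g * z) k → cs.IsRightDescent (cs.simple g * z) k :=
    fun z hz hzg => ih _ hz hzg rfl
  clear ih
  have hlX : cs.length (X * cs.simple g) = cs.length X + 1 := (QStat_nrd_iff cs X g).mp hg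
  by_cases hy1 : y = 1
  · subst hy1
    refine ⟨by simpa using hlX, fun k hk => ?_⟩
    rw [mul_one] at hk ⊢
    have hgg : cs.IsRightDescent (X * cs.simple g) g := by
      rw [QStat_rd_iff, hlX]; simp
    by_cases hkg : k = g
    · subst hkg
      rw [QStat_rd_iff]; simp
    · exfalso
      obtain ⟨h0, -⟩ := both_rd cs hkg hk hgg
      have h1 := rd_of_both cs hkg hk hgg
      rw [mul_assoc, cs.simple_mul_simple_self, mul_one] at h1
      exact h0 (hX k h1)
  · -- a right descent of y
    obtain ⟨h, hh⟩ := cs.exists_rightDescent_of_ne_one hy1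
    have hlsy : cs.length (cs.simple g * y) = cs.length y + 1 := (QStat_nld_iff cs y g).mp hy
    have hly' : cs.length (y * cs.simple h) + 1 = cs.length y := (QStat_rd_iff cs y h).mp hh
    have hyy : y * cs.simple h * cs.simple h = y := by
      rw [mul_assoc, cs.simple_mul_simple_self, mul_one]
    have hy' : ¬ cs.IsLeftDescent (y * cs.simple h) g := by
      apply QStat_pre cs (b := cs.simple h)
      · rw [hyy, cs.length_simple]; omega
      · rw [hyy]; exact hy
    obtain ⟨hl1, hr1⟩ := IH _ (by omega) hy'
    have hnd : ¬ cs.IsRightDescent (cs.simple g * (y * cs.simple h)) h := by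
      intro hc
      rw [QStat_rd_iff, mul_assoc, hyy] at hc
      have := cs.length_mul_le (cs.simple g) (y * cs.simple h)
      rw [cs.length_simple] at this
      omega
    have hnd' : ¬ cs.IsRightDescent (X * cs.simple g * (y * cs.simple h)) h :=
      fun hc => hnd (hr1 h hc)
    have hlen : cs.length (X * cs.simple g * y) = cs.length X + 1 + cs.length y := by
      rw [QStat_nrd_iff, mul_assoc, hyy] at hnd'
      omega
    refine ⟨hlen, fun g' hg' => ?_⟩
    by_contra hng'
    have hhX : cs.IsRightDescent (X * cs.simple g * y) h := by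
      rw [QStat_rd_iff, mul_assoc (X * cs.simple g) y, hlen, hl1]; omega
    have hhs : cs.IsRightDescent (cs.simple g * y) h := by
      by_contra hc
      rw [QStat_nrd_iff, mul_assoc] at hc
      have := cs.length_mul_le (cs.simple g) (y * cs.simple h)
      rw [cs.length_simple] at this
      omega
    have hne : g' ≠ h := fun hc => hng' (hc ▸ hhs)
    obtain ⟨hm, -⟩ := both_rd cs hne hg' hhX
    obtain ⟨y1, b1, hy1m, hb1, hyb⟩ := decompR cs hne y
    have hlb : cs.length y = cs.length y1 + cs.length b1 := by
      rw [hyb]; exact len_mul_D cs hne hy1m hb1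
    have hhb : cs.IsRightDescent b1 h := by
      rw [hyb] at hh
      exact (rd_mul_D cs hne (Or.inr rfl) hy1m hb1).mp hh
    have hb1pos : 0 < cs.length b1 := by
      have := (QStat_rd_iff cs b1 h).mp hhb
      omega
    have hng'y : ¬ cs.IsRightDescent y g' := by
      intro hc
      apply hng'
      by_contra hc2
      rw [QStat_nrd_iff, mul_assoc] at hc2
      have h3 := (QStat_rd_iff cs y g').mp hc
      have := cs.length_mul_le (cs.simple g) (y * cs.simple g')
      rw [cs.length_simple] at this
      omega
    have hng'b : ¬ cs.IsRightDescent b1 g' := by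
      intro hc
      apply hng'y
      rw [hyb]
      exact (rd_mul_D cs hne (Or.inl rfl) hy1m hb1).mpr hc
    have hy1g : ¬ cs.IsLeftDescent y1 g := by
      apply QStat_pre cs (b := b1)
      · rw [← hyb]; exact hlb
      · rw [← hyb]; exact hy
    obtain ⟨hl2, hr2⟩ := IH y1 (by omega) hy1g
    -- X s_g y1 is not minimal
    have hnm : ¬ Rmin cs g' h (X * cs.simple g * y1) := by
      intro hc
      apply hng'b
      rw [hyb, ← mul_assoc] at hg'
      exact (rd_mul_D cs hne (Or.inl rfl) hc hb1).mp hg'
    -- the main argument for a letter k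
    have key : ∀ k k' : B, (k = g' ∨ k = h) → (k' = g' ∨ k' = h) → k' ≠ k →
        (∀ l : B, (l = g' ∨ l = h) → l = k ∨ l = k') →
        cs.IsRightDescent (X * cs.simple g * y1) k → False := by
      intro k k' hk hk' hkk hall hkd
      have hk1 : cs.IsRightDescent (cs.simple g * y1) k := hr2 k hkd
      have hky1 : ¬ cs.IsRightDescent y1 k := by
        rcases hk with rfl | rfl
        · exact hy1m.1
        · exact hy1m.2
      have hk'y1 : ¬ cs.IsRightDescent y1 k' := by
        rcases hk' with rfl | rfl
        · exact hy1m.1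
        · exact hy1m.2
      have hMkk' : M k k' ≠ 0 := by
        rcases hk with rfl | rfl <;> rcases hk' with rfl | rfl
        · exact absurd rfl hkk
        · exact hm
        · rw [M.symmetric]; exact hm
        · exact absurd rfl hkk
      have hl := lift_eq cs hy1g hky1 hk1
      have hskb : cs.simple k * b1 ∈ D cs g' h := by
        apply Subgroup.mul_mem _ _ hb1
        apply Subgroup.subset_closure
        rcases hk with rfl | rfl
        · simp
        · simp
      have e1 : cs.simple g * y = y1 * (cs.simple k * b1) := by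
        rw [hyb, ← mul_assoc, hl, mul_assoc]
      have e2 : X * cs.simple g * y = X * y1 * (cs.simple k * b1) := by
        rw [mul_assoc, e1, mul_assoc]
      have h5 : ¬ cs.IsRightDescent (cs.simple k * b1) g' := by
        intro hc
        apply hng'
        rw [e1]
        exact (rd_mul_D cs hne (Or.inl rfl) hy1m hskb).mpr hc
      have h6 : ¬ Rmin cs g' h (X * y1) := by
        intro hc
        apply h5
        rw [e2] at hg'
        exact (rd_mul_D cs hne (Or.inl rfl) hc hskb).mp hg'
      have h7 : ¬ cs.IsRightDescent (X * y1) k := by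
        rw [QStat_nrd_iff]
        have e3 : X * y1 * cs.simple k = X * cs.simple g * y1 := by
          rw [mul_assoc, ← hl, mul_assoc]
        have := cs.length_mul_le X y1
        have h8 := cs.length_mul_simple (X * y1) k
        rw [e3] at h8 ⊢
        omega
      have h9 : cs.IsRightDescent (X * y1) k' := by
        by_contra hc
        apply h6
        constructor
        · rcases hall g' (Or.inl rfl) with e | e
          · rw [e]; exact h7
          · rw [e]; exact hc
        · rcases hall h (Or.inr rfl) with e | e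
          · rw [e]; exact h7
          · rw [e]; exact hc
      by_cases hy11 : y1 = 1
      · subst hy11
        rw [mul_one] at hk1 h9
        have hkg : k = g := QStat_rd_simple cs hk1
        subst hkg
        have := hX k' h9
        apply hMkk'
        rw [M.symmetric]
        exact this
      · obtain ⟨e0, he0⟩ := cs.exists_leftDescent_of_ne_one hy11
        have hge : g ≠ e0 := fun hc => hy1g (hc ▸ he0)
        obtain ⟨hmg, ν, y2, hy2, hν, hL2, hlν, -, hν1, -, hk2, h22⟩ :=
          wall_step cs hl.symm hky1 he0 hge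
        have he0X : ¬ cs.IsRightDescent X e0 := by
          intro hc
          have := hX e0 hc
          apply hmg
          rw [M.symmetric]
          exact this
        have hRX : Rmin cs g e0 X := ⟨hg, he0X⟩
        have h2 := two_le_exp hge hmg
        rcases Nat.lt_or_ge (M g e0) 3 with h3 | h3
        · have h4 : M g e0 = 2 := by omega
          obtain ⟨hνe, hy2k⟩ := h22 h4
          have hst := starstat cs hM y2 (X * cs.simple e0) e0 g k k' ?_ ?_ (Ne.symm hge) ?_
            ⟨hL2.2, hL2.1⟩ hy2k hk2 hkk hMkk' ?_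
          · apply hst
            rw [mul_assoc, ← hνe, ← hy2]
            exact h9
          · rw [QStat_rd_iff, mul_assoc, cs.simple_mul_simple_self, mul_one]
            exact ((QStat_nrd_iff cs X e0).mp he0X).symm
          · intro hc
            have he0D : cs.simple e0 ∈ D cs g e0 := by
              apply Subgroup.subset_closure
              simp
            have := (rd_mul_D cs hge (Or.inl rfl) hRX he0D).mp hc
            exact hge (QStat_rd_simple cs this)
          · rw [M.symmetric]; exact hmg
          · rw [← hνe, ← hy2]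
            exact hk'y1
        · obtain ⟨-, h10⟩ := fstat cs hM y2 g e0 X ν hge hmg hRX hL2 hν (by omega)
          apply hk'y1
          rw [hy2]
          apply h10
          rw [mul_assoc, ← hy2]
          exact h9
    apply hnm
    refine ⟨fun hc => ?_, fun hc => ?_⟩
    · exact key g' h (Or.inl rfl) (Or.inr rfl) (Ne.symm hne) (fun l hl => hl) hc
    · exact key h g' (Or.inr rfl) (Or.inl rfl) hne (fun l hl => hl.symm) hc

end Pool.Agent.PolyCell
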