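import Pool.Agent.PolyCell.Defs

/-!
# Strong exchange property

Hints. Let `R = {t // cs.IsReflection t}` (or all of `W`). The maps `s_i : (t, ε) ↦ (s_i t s_i, ε + [t = s_i])` on
`W × ZMod 2` satisfy the Coxeter relations, by `cs.lift` they give an action of `W`; for a word `ω` the
`ε`-component of `π ω · (t, 0)` is the parity of the number of occurrences of `t` in the inversion
sequence of `ω`. Hence the parity only depends on `π ω`, and `IsReduced.nodup_rightInvSeq` etc. apply.
-/

open CoxeterSystem

namespace Pool.Agent.PolyCell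

variable {B W : Type*} [Group W] {M : CoxeterMatrix B} (cs : CoxeterSystem M W)

/-- the action of a simple reflection on `W × ZMod 2` -/
private def Refl_f [DecidableEq W] (i : B) : Function.End (W × ZMod 2) :=
  fun p => (cs.simple i * p.1 * cs.simple i, p.2 + if p.1 = cs.simple i then 1 else 0)

private theorem Refl_word [DecidableEq W] (ω : List B) (t : W) (ε : ZMod 2) :
    (ω.map (Refl_f cs)).prod (t, ε) =
      (cs.wordProd ω * t * (cs.wordProd ω)⁻¹, ε + ((cs.rightInvSeq ω).count t : ZMod 2)) := by
  induction ω with
  | nil =>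
    simp only [List.map_nil, List.prod_nil, cs.wordProd_nil, cs.rightInvSeq_nil, List.count_nil]
    change (t, ε) = _
    simp
  | cons i ω ih =>
    rw [List.map_cons, List.prod_cons]
    change Refl_f cs i ((ω.map (Refl_f cs)).prod (t, ε)) = _
    rw [ih]
    simp only [Refl_f, cs.wordProd_cons, rightInvSeq, List.count_cons]
    refine Prod.ext ?_ ?_
    · simp [mul_assoc]
    · simp only
      have h : (cs.wordProd ω * t * (cs.wordProd ω)⁻¹ = cs.simple i) ↔
          ((cs.wordProd ω)⁻¹ * cs.simple i * cs.wordProd ω = t) := by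
        constructor
        · intro h
          rw [← h]
          group
        · intro h
          rw [← h]
          group
      by_cases hh : (cs.wordProd ω)⁻¹ * cs.simple i * cs.wordProd ω = t
      · rw [if_pos (h.2 hh), if_pos (by simpa using hh)]
        push_cast
        ring
      · rw [if_neg (fun h' => hh (h.1 h')), if_neg (by simpa using hh)]
        push_cast
        ring

private theorem Refl_alt (i j : B) (G : Type*) [Monoid G] (f : B → G) (m : ℕ) :
    (f i * f j) ^ m = ((alternatingWord i j (2 * m)).map f).prod := by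
  induction m with
  | zero => simp [alternatingWord]
  | succ m ih =>
    rw [pow_succ', ih, show 2 * (m + 1) = 2 * m + 1 + 1 by ring, alternatingWord_succ',
      alternatingWord_succ']
    have h1 : ¬ Even (2 * m + 1) := by simp
    have h2 : Even (2 * m) := by simp
    rw [if_neg h1, if_pos h2]
    simp [mul_assoc]

private theorem Refl_rev (i j : B) (m : ℕ) :
    (alternatingWord i j (2 * m)).reverse = alternatingWord j i (2 * m) := by
  apply List.ext_getElem
  · simp
  · intro k h1 h2
    simp only [List.length_reverse, length_alternatingWord] at h1 h2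
    rw [List.getElem_reverse]
    rw [getElem_alternatingWord, getElem_alternatingWord]
    · simp only [length_alternatingWord]
      by_cases hk : Even k
      · have a1 : ¬ Even (2 * m + (2 * m - 1 - k)) := by
          obtain ⟨r, hr⟩ := hk
          rw [Nat.not_even_iff_odd]
          exact ⟨2 * m - 1 - r, by omega⟩
        have a2 : Even (2 * m + k) := by
          obtain ⟨r, hr⟩ := hk
          exact ⟨m + r, by omega⟩
        rw [if_neg a1, if_pos a2]
      · rw [Nat.not_even_iff_odd] at hk
        have a1 : Even (2 * m + (2 * m - 1 - k)) := by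
          obtain ⟨r, hr⟩ := hk
          exact ⟨2 * m - 1 - r, by omega⟩
        have a2 : ¬ Even (2 * m + k) := by
          obtain ⟨r, hr⟩ := hk
          rw [Nat.not_even_iff_odd]
          exact ⟨m + r, by omega⟩
        rw [if_pos a1, if_neg a2]
    · omega
    · simp only [length_alternatingWord]; omega

private theorem Refl_even [DecidableEq W] (i j : B) (t : W) :
    Even ((cs.rightInvSeq (alternatingWord i j (2 * M i j))).count t) := by
  set m := M i j with hm
  have h1 : cs.rightInvSeq (alternatingWord i j (2 * m)) =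
      (cs.leftInvSeq (alternatingWord j i (2 * m))).reverse := by
    rw [← cs.rightInvSeq_reverse, Refl_rev]
  rw [h1, List.count_reverse]
  set L := cs.leftInvSeq (alternatingWord j i (2 * m)) with hL
  have hlen : L.length = 2 * m := by simp [hL]
  have hget : ∀ k (hk : k < 2 * m), L[k]'(by omega) = cs.wordProd (alternatingWord i j (2 * k + 1)) := by
    intro k hk
    exact cs.getElem_leftInvSeq_alternatingWord j i m k hk
  have hper : L.drop m = L.take m := by
    apply List.ext_getElem
    · simp [hlen]; omega
    · intro k h2 h3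
      rw [List.getElem_drop, List.getElem_take]
      simp only [List.length_drop, List.length_take, hlen] at h2 h3
      rw [hget _ (by omega), hget _ (by omega)]
      rw [cs.prod_alternatingWord_eq_mul_pow, cs.prod_alternatingWord_eq_mul_pow]
      have e1 : (2 * (m + k) + 1) / 2 = m + k := by omega
      have e2 : (2 * k + 1) / 2 = k := by omega
      have e3 : ¬ Even (2 * (m + k) + 1) := by simp
      have e4 : ¬ Even (2 * k + 1) := by simp
      rw [e1, e2, if_neg e3, if_neg e4, pow_add, hm, cs.simple_mul_simple_pow, one_mul]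
  have h4 : L.count t = (L.take m).count t + (L.drop m).count t := by
    rw [← List.count_append, List.take_append_drop]
  rw [h4, hper]
  exact ⟨_, rfl⟩

private theorem Refl_liftable [DecidableEq W] : M.IsLiftable (Refl_f cs) := by
  intro i j
  rw [Refl_alt]
  funext p
  obtain ⟨t, ε⟩ := p
  rw [Refl_word]
  change _ = (t, ε)
  have h := Refl_even cs i j t
  have h2 : (((cs.rightInvSeq (alternatingWord i j (2 * M i j))).count t : ℕ) : ZMod 2) = 0 := by
    rw [ZMod.natCast_eq_zero_iff]
    exact h.two_dvd
  rw [h2, cs.prod_alternatingWord_eq_mul_pow]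
  have e1 : 2 * M i j / 2 = M i j := by omega
  have e2 : Even (2 * M i j) := by simp
  rw [e1, if_pos e2, cs.simple_mul_simple_pow]
  simp

private theorem Refl_lift [DecidableEq W] (ω : List B) :
    cs.lift ⟨Refl_f cs, Refl_liftable cs⟩ (cs.wordProd ω) = (ω.map (Refl_f cs)).prod := by
  unfold wordProd
  rw [map_list_prod, List.map_map]
  congr 1
  apply List.map_congr_left
  intro i _
  exact cs.lift_apply_simple (Refl_liftable cs) i

/-- the action on `W × ZMod 2` -/
private noncomputable def Refl_A [DecidableEq W] (w : W) : Function.End (W × ZMod 2) :=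
  cs.lift ⟨Refl_f cs, Refl_liftable cs⟩ w

private theorem Refl_A_mul [DecidableEq W] (v w : W) (p : W × ZMod 2) :
    Refl_A cs (v * w) p = Refl_A cs v (Refl_A cs w p) := by
  unfold Refl_A
  rw [map_mul]
  rfl

private theorem Refl_A_one [DecidableEq W] (p : W × ZMod 2) : Refl_A cs 1 p = p := by
  unfold Refl_A
  rw [map_one]
  rfl

private theorem Refl_A_word [DecidableEq W] (ω : List B) (t : W) (ε : ZMod 2) :
    Refl_A cs (cs.wordProd ω) (t, ε) =
      (cs.wordProd ω * t * (cs.wordProd ω)⁻¹, ε + ((cs.rightInvSeq ω).count t : ZMod 2)) := by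
  unfold Refl_A
  rw [Refl_lift, Refl_word]

private theorem Refl_A_gen [DecidableEq W] (w t : W) (ε : ZMod 2) :
    Refl_A cs w (t, ε) = (w * t * w⁻¹, ε + (Refl_A cs w (t, 0)).2) := by
  obtain ⟨ω, rfl⟩ := cs.wordProd_surjective w
  rw [Refl_A_word, Refl_A_word]
  simp

private theorem Refl_A_simple [DecidableEq W] (i : B) (ε : ZMod 2) :
    Refl_A cs (cs.simple i) (cs.simple i, ε) = (cs.simple i, ε + 1) := by
  have h := Refl_A_word cs [i] (cs.simple i) ε
  simp only [cs.wordProd_singleton, cs.rightInvSeq_singleton] at h
  rw [h]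
  simp

private theorem Refl_A_self [DecidableEq W] {t : W} (ht : cs.IsReflection t) :
    Refl_A cs t (t, 0) = (t, 1) := by
  obtain ⟨u, i, rfl⟩ := ht
  have h1 : Refl_A cs u⁻¹ (u * cs.simple i * u⁻¹, 0) =
      (cs.simple i, (Refl_A cs u⁻¹ (u * cs.simple i * u⁻¹, 0)).2) := by
    have h := Refl_A_gen cs u⁻¹ (u * cs.simple i * u⁻¹) 0
    refine Prod.ext ?_ rfl
    rw [h]
    simp only [inv_inv]
    group
  set a := (Refl_A cs u⁻¹ (u * cs.simple i * u⁻¹, 0)).2 with ha
  have h2 : Refl_A cs u (cs.simple i, a) = (u * cs.simple i * u⁻¹, 0) := by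
    rw [← h1, ← Refl_A_mul, mul_inv_cancel, Refl_A_one]
  rw [Refl_A_mul, Refl_A_mul, h1, Refl_A_simple, Refl_A_gen cs u (cs.simple i) (a + 1)]
  have h3 := Refl_A_gen cs u (cs.simple i) a
  rw [h2] at h3
  have h4 : (0 : ZMod 2) = a + (Refl_A cs u (cs.simple i, 0)).2 := congrArg Prod.snd h3
  refine Prod.ext rfl ?_
  simp only
  rw [add_right_comm, ← h4, zero_add]

private theorem Refl_odd_of [DecidableEq W] (w : W) {t : W}
    (h : (Refl_A cs w (t, 0)).2 = 1) : cs.length (w * t) < cs.length w := by
  obtain ⟨ω, hred, hw⟩ := cs.exists_isReduced w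
  rw [hw, Refl_A_word] at h
  simp only [zero_add] at h
  have hmem : t ∈ cs.rightInvSeq ω := by
    by_contra hn
    rw [List.count_eq_zero_of_not_mem hn] at h
    simp at h
  rw [hw]
  exact (cs.isRightInversion_of_mem_rightInvSeq hred hmem).2

open Classical in
/-- `t` occurs an odd number of times in the right inversion sequence of (any word) `ω` iff `t` is a
right inversion of `π ω`. -/
theorem odd_count_iff (ω : List B) {t : W} (ht : cs.IsReflection t) :
    Odd ((cs.rightInvSeq ω).count t) ↔ cs.length (cs.wordProd ω * t) < cs.length (cs.wordProd ω) := by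
  have hw : (Refl_A cs (cs.wordProd ω) (t, 0)).2 = (((cs.rightInvSeq ω).count t : ℕ) : ZMod 2) := by
    rw [Refl_A_word]
    simp
  constructor
  · intro h
    apply Refl_odd_of
    rw [hw]
    exact ZMod.natCast_eq_one_iff_odd.2 h
  · intro h
    by_contra hn
    rw [Nat.not_odd_iff_even] at hn
    have h0 : (((cs.rightInvSeq ω).count t : ℕ) : ZMod 2) = 0 := by
      rw [ZMod.natCast_eq_zero_iff]
      exact hn.two_dvd
    have h1 : (Refl_A cs (cs.wordProd ω * t) (t, 0)).2 = 1 := by
      rw [Refl_A_mul, Refl_A_self cs ht, Refl_A_gen, hw, h0]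
      simp
    have h2 := Refl_odd_of cs _ h1
    rw [mul_assoc, ht.mul_self, mul_one] at h2
    omega

/-- Strong exchange, set form. -/
theorem strong_exchange (ω : List B) {t : W} (ht : cs.IsReflection t)
    (h : cs.length (cs.wordProd ω * t) < cs.length (cs.wordProd ω)) : t ∈ cs.rightInvSeq ω := by
  classical
  by_contra hn
  have h1 := (odd_count_iff cs ω ht).2 h
  rw [List.count_eq_zero_of_not_mem hn] at h1
  simp at h1

end Pool.Agent.PolyCell
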