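import Pool.Agent.PolyCell.FDefs

/-!
# Step for Star

Proof (doc `proof/MP_338de0_co`, B). `y = 1`: then `s_k = s_t`, so `k = t` (length/`cs.simple` injective). If `k' ∈ R(X)`,
`k' ≠ τ` (since `k' ∉ R(s_τ y) = R(s_τ)`), `both_rd`: `M τ k' ≠ 0`; `M τ t ≠ 0`, `M t k' ≠ 0`, contradicting TF.
`y ≠ 1`: take `e ∈ L(y)` (`e ≠ τ, t`), `wall_step` for `(t, e)`: `M t e ≠ 0`, `y = ν y2`, ...; `M τ t ≠ 0`, `M t e ≠ 0` so
`M τ e = 0` by TF and `e ∉ R(X)` by `both_rd`: hence `Rmin t e X`. If `ℓ(ν) ≥ 2` (`M t e ≥ 3`): F(y2) for `(t,e)`, `X`, `u = ν`: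
`R(X ν y2) ⊆ R(ν y2) = R(y)`, and `k' ∉ R(y)` because `k' ∉ R(s_τ y)` and `ℓ(s_τ y s_k') ≤ ...`: if `k' ∈ R(y)` then `k' ∈ R(s_τ y)`,
as `s_τ y` is reduced (`τ ∉ L(y)`). If `M t e = 2`: `ν = s_e`, `y2 s_k = s_t y2`, and `X' = X s_e`, `τ' = e`, `t`, `y2`, `k`, `k'` satisfy the
hypotheses of Star(y2): `e ∈ R(X s_e)` as `e ∉ R(X)`; `t ∉ R(X s_e)` by `rd_mul_D` (`Rmin t e X`, `s_e ∈ D`); `Lmin e t y2`; `k' ∉ R(s_e y2) = R(y)`. Conclusion
`k' ∉ R(X s_e y2) = R(X y)`.
-/

open CoxeterSystem

namespace Pool.Agent.PolyCell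

variable {B W : Type*} [Group W] {M : CoxeterMatrix B} (cs : CoxeterSystem M W)

private theorem StarStep_simple_inj {i j : B} (h : cs.simple i = cs.simple j) : i = j := by
  by_contra hij
  have hm : M i j = 0 ∨ 2 ≤ M i j := by
    have := M.off_diagonal i j hij
    omega
  have h2 := length_alt cs hij hm
  have h1 : alt cs i j 2 = 1 := by
    simp [alt, CoxeterSystem.alternatingWord, CoxeterSystem.wordProd, h]
  rw [h1] at h2
  simp at h2

/-- step for Star -/
theorem star_step (hM : TF M) (y : W)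
    (ih : ∀ z, cs.length z < cs.length y → FStat cs z ∧ StarStat cs z) : StarStat cs y := by
  intro X τ t k k' hXτ hXt hτt hMτt hy hyk hk hk' hMkk' hk'y hcon
  have hk'ny : ¬ cs.IsRightDescent y k' := by
    intro h
    apply hk'y
    have h1 : cs.length (cs.simple τ * y) = cs.length y + 1 := cs.not_isLeftDescent_iff.mp hy.1
    have h2 : cs.length (y * cs.simple k') + 1 = cs.length y := cs.isRightDescent_iff.mp h
    have h3 := cs.length_mul_le (cs.simple τ) (y * cs.simple k')
    rw [cs.length_simple] at h3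
    unfold CoxeterSystem.IsRightDescent
    rw [mul_assoc]
    omega
  by_cases hy1 : y = 1
  · subst hy1
    have hkt : k = t := by
      apply StarStep_simple_inj cs
      simpa using hyk
    subst hkt
    have hk'τ : k' ≠ τ := by
      rintro rfl
      apply hk'y
      simp [CoxeterSystem.IsRightDescent]
    have hX : cs.IsRightDescent X k' := by simpa using hcon
    have h1 := (both_rd cs (Ne.symm hk'τ) hXτ hX).1
    rcases hM τ k k' hτt (Ne.symm hk') (Ne.symm hk'τ) with h | h | h
    · exact hMτt h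
    · exact hMkk' h
    · exact h1 h
  · obtain ⟨e, he⟩ := cs.exists_leftDescent_of_ne_one hy1
    have heτ : e ≠ τ := by
      rintro rfl
      exact hy.1 he
    have het : e ≠ t := by
      rintro rfl
      exact hy.2 he
    obtain ⟨hMte, ν, y2, hyν, hνD, hy2, hlen, hν1, hν2, hνe, hy2k, h2⟩ :=
      wall_step cs hyk hk he (Ne.symm het)
    have hMτe : M τ e = 0 := by
      rcases hM τ t e hτt (Ne.symm het) (Ne.symm heτ) with h | h | h
      · exact absurd h hMτt
      · exact absurd h hMte
      · exact h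
    have heX : ¬ cs.IsRightDescent X e := fun h =>
      (both_rd cs (Ne.symm heτ) hXτ h).1 hMτe
    have hM2 : 2 ≤ M t e := two_le_exp (Ne.symm het) hMte
    have hlt : cs.length y2 < cs.length y := by omega
    by_cases h3 : M t e = 2
    · obtain ⟨hν, hy2'⟩ := h2 h3
      subst hν
      have hDe : cs.simple e ∈ D cs t e := Subgroup.subset_closure (by simp)
      have hXe : cs.IsRightDescent (X * cs.simple e) e := by
        have := cs.not_isRightDescent_iff.mp heX
        unfold CoxeterSystem.IsRightDescent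
        rw [mul_assoc, cs.simple_mul_simple_self, mul_one]
        omega
      have hXt' : ¬ cs.IsRightDescent (X * cs.simple e) t := by
        rw [rd_mul_D cs (Ne.symm het) (Or.inl rfl) ⟨hXt, heX⟩ hDe]
        intro h
        have h4 := cs.isRightDescent_iff.mp h
        rw [cs.length_simple] at h4
        have h5 : cs.simple e * cs.simple t = 1 := cs.length_eq_zero_iff.mp (by omega)
        have h6 : cs.simple e = cs.simple t := by
          have := congrArg (· * cs.simple t) h5
          simpa [mul_assoc] using this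
        exact het (StarStep_simple_inj cs h6)
      have hst := (ih y2 hlt).2 (X * cs.simple e) e t k k' hXe hXt' het
        (by rw [M.symmetric]; exact hMte) ⟨hy2.2, hy2.1⟩ hy2' hy2k hk' hMkk'
        (by rw [← hyν]; exact hk'ny)
      apply hst
      rw [mul_assoc, ← hyν]
      exact hcon
    · have hF := (ih y2 hlt).1 t e X ν (Ne.symm het) hMte ⟨hXt, heX⟩ hy2 hνD (by omega)
      apply hk'ny
      rw [hyν]
      apply hF.2
      rw [mul_assoc, ← hyν]
      exact hcon

end Pool.Agent.PolyCell
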