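import Mathlib

/-!
# Right cells of polygon reflection groups: the definitions used in the statement

`(W, S)` is a Coxeter system `cs : CoxeterSystem M W` (generators indexed by `B`, `M i j = 0` stands
for `m(i,j) = ∞`).
-/

open CoxeterSystem

namespace Pool.Agent.PolyCell

variable {B W : Type*} [Group W] {M : CoxeterMatrix B}

/-- The ground ring `ℤ[v, v⁻¹]`. -/
abbrev LP := LaurentPolynomial ℤ

/-- The power `v ^ n`. -/
noncomputable def v (n : ℤ) : LP := LaurentPolynomial.T n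

/-! ## Hecke algebra (equal parameters) and Kazhdan-Lusztig basis

The Hecke algebra is the free `ℤ[v, v⁻¹]`-module on `W`, with standard basis `T_w = single w 1`,
normalised by `T_s² = 1 + (v - v⁻¹) T_s`. -/

open Classical in
/-- Right multiplication by `T_s`: `T_w T_s = T_{ws}` if `ℓ(ws) > ℓ(w)`, and
`T_w T_s = T_{ws} + (v - v⁻¹) T_w` otherwise. -/
noncomputable def rT (cs : CoxeterSystem M W) (s : B) : (W →₀ LP) →ₗ[LP] (W →₀ LP) :=
  Finsupp.linearCombination LP fun w =>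
    Finsupp.single (w * cs.simple s) 1 +
      (if cs.IsRightDescent w s then Finsupp.single w (v 1 - v (-1)) else 0)

/-- `β` is the bar involution: `β(v) = v⁻¹`, `β(T_1) = T_1`, `β(h T_s) = β(h) T_s⁻¹`, where
`T_s⁻¹ = T_s - (v - v⁻¹)`. -/
structure IsBar (cs : CoxeterSystem M W) (β : (W →₀ LP) →+ (W →₀ LP)) : Prop where
  one : β (Finsupp.single 1 1) = Finsupp.single 1 1
  smul : ∀ (r : LP) (h : W →₀ LP), β (r • h) = LaurentPolynomial.invert r • β h
  mul : ∀ (s : B) (h : W →₀ LP), β (rT cs s h) = rT cs s (β h) - (v 1 - v (-1)) • β h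

/-- `C` is the Kazhdan-Lusztig basis: `C_w` is bar invariant and
`C_w ∈ T_w + ∑_{y ≠ w} v⁻¹ ℤ[v⁻¹] T_y`. -/
def IsKL (cs : CoxeterSystem M W) (C : W → (W →₀ LP)) : Prop :=
  ∃ β : (W →₀ LP) →+ (W →₀ LP), IsBar cs β ∧
    ∀ w, β (C w) = C w ∧ C w w = 1 ∧ ∀ y, y ≠ w → ∀ n : ℤ, 0 ≤ n → (C w y).coeff n = 0

/-- `C_y` appears in `C_w C_s` for some generator `s` (`C_s = T_s + v⁻¹`). -/
def RStep (cs : CoxeterSystem M W) (C : W → (W →₀ LP)) (y w : W) : Prop :=
  ∃ s : B, ∃ a : W →₀ LP,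
    rT cs s (C w) + v (-1) • C w = Finsupp.linearCombination LP C a ∧ a y ≠ 0

/-- The right preorder `y ≤_R w`. -/
def RLe (cs : CoxeterSystem M W) (C : W → (W →₀ LP)) : W → W → Prop :=
  Relation.ReflTransGen (RStep cs C)

/-- Right cells. -/
def IsRightCell (cs : CoxeterSystem M W) (C : W → (W →₀ LP)) (Γ : Set W) : Prop :=
  ∃ w, Γ = {y | RLe cs C y w ∧ RLe cs C w y}

/-! ## The sets of the conjecture -/

/-- The product of the alternating word with `k` letters `… i j i j`. -/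
def alt (cs : CoxeterSystem M W) (i j : B) (k : ℕ) : W := cs.wordProd (alternatingWord i j k)

/-- The longest element `w_T` of `⟨i, j⟩`, `T = {i, j}` (for `M i j ≠ 0`). -/
def wT (cs : CoxeterSystem M W) (i j : B) : W := alt cs i j (M i j)

/-- `w = u . w_T . v` (lengths add) for some pair `T` of exponent `e`. -/
def HasFactor (cs : CoxeterSystem M W) (e : ℕ) (w : W) : Prop :=
  ∃ i j : B, i ≠ j ∧ M i j = e ∧ e ≠ 0 ∧ ∃ u x : W, w = u * wT cs i j * x ∧
    cs.length w = cs.length u + cs.length (wT cs i j) + cs.length x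

/-- The set `C_i` for the exponent `e = e_i`. -/
def CSet (cs : CoxeterSystem M W) (e : ℕ) : Set W :=
  {w | HasFactor cs e w ∧ ∀ e', e < e' → ¬ HasFactor cs e' w}

/-- `U^T = W^T ∖ ⋃_{j > i} C_j`, for a pair `T` of exponent `e = e_i`; `W^T` is the set of elements
with left descent set `T`. -/
def USet (cs : CoxeterSystem M W) (e : ℕ) (T : Set B) : Set W :=
  {w | {s | cs.IsLeftDescent w s} = T ∧ ∀ e', e < e' → w ∉ CSet cs e'}

/-- The pairs `(x, T)`, `T` of exponent `e`, `x ∈ Ω_T = {w⁻¹ w_T : w ∈ U^T}`. -/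
def Omega (cs : CoxeterSystem M W) (e : ℕ) : Set (W × Set B) :=
  {p | ∃ i j : B, i ≠ j ∧ M i j = e ∧ p.2 = {i, j} ∧ ∃ w ∈ USet cs e {i, j}, p.1 = w⁻¹ * wT cs i j}

/-- The set `x · U^T`. -/
def cellSet (cs : CoxeterSystem M W) (e : ℕ) (p : W × Set B) : Set W :=
  {w | ∃ y ∈ USet cs e p.2, w = p.1 * y}

/-- `(x,T) ⪯ (x',T')`: `ℓ(x) ≤ ℓ(x')` and `x' · U^{T'} ⊆ x · U^T`. -/
def Prec (cs : CoxeterSystem M W) (e : ℕ) (p q : W × Set B) : Prop :=
  cs.length p.1 ≤ cs.length q.1 ∧ cellSet cs e q ⊆ cellSet cs e p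

/-- The minimal pairs. -/
def MinPair (cs : CoxeterSystem M W) (e : ℕ) (p : W × Set B) : Prop :=
  p ∈ Omega cs e ∧ ∀ q ∈ Omega cs e, Prec cs e q p → q = p

/-- `M` is the Coxeter matrix of an `n`-gon: `a k` is the exponent of the vertex between the sides `k`
and `k+1` (`0` stands for an ideal vertex), all other pairs have exponent `∞`. -/
def IsPolygon {n : ℕ} (M : CoxeterMatrix (ZMod n)) (a : ZMod n → ℕ) : Prop :=
  (∀ k, M k (k + 1) = a k) ∧ ∀ i j, i ≠ j → j ≠ i + 1 → i ≠ j + 1 → M i j = 0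

/-- The statement of the conjecture for a Coxeter system: for every (finite) exponent `e` the right
cells contained in `C_e` are the sets `x · U^T` for the minimal pairs `(x, T)`, `T` of exponent `e`. -/
def CellConj (cs : CoxeterSystem M W) : Prop :=
  (∃! C : W → (W →₀ LP), IsKL cs C) ∧ ∀ C : W → (W →₀ LP), IsKL cs C → ∀ e : ℕ, e ≠ 0 →
    {Γ : Set W | IsRightCell cs C Γ ∧ Γ ⊆ CSet cs e} =
      {Γ : Set W | ∃ p, MinPair cs e p ∧ Γ = cellSet cs e p}

end Pool.Agent.PolyCell
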