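import Pool.Agent.PolyCell.Dih3

/-!
# Consequences of triangle-freeness: B1, B2
-/

open CoxeterSystem

namespace Pool.Agent.PolyCell

variable {B W : Type*} [Group W] {M : CoxeterMatrix B} (cs : CoxeterSystem M W)

/-- B1: no three right descents. -/
theorem no_three (hM : TF M) {w : W} {a b c : B} (ha : cs.IsRightDescent w a)
    (hb : cs.IsRightDescent w b) (hc : cs.IsRightDescent w c) : a = b ∨ b = c ∨ a = c := by
  by_contra hcon
  push Not at hcon
  obtain ⟨hab, hbc, hac⟩ := hcon
  rcases hM a b c hab hbc hac with h | h | h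
  · exact (both_rd cs hab ha hb).1 h
  · exact (both_rd cs hbc hb hc).1 h
  · exact (both_rd cs hac ha hc).1 h

theorem no_three_left (hM : TF M) {w : W} {a b c : B} (ha : cs.IsLeftDescent w a)
    (hb : cs.IsLeftDescent w b) (hc : cs.IsLeftDescent w c) : a = b ∨ b = c ∨ a = c := by
  rw [← cs.isRightDescent_inv_iff] at ha hb hc
  exact no_three cs hM ha hb hc

/-- B2: `x` right minimal, `u ∈ D`, `ℓ(u) ≥ 2`: `R(xu) ⊆ {i,j}`. (If `k ∈ R(xu)`, `k ∉ {i,j}`, `t ∈ R(u)` and `s` the other
letter, then `k, s ∈ R(x u s_t)` by `rd_of_both`, `rd_prev`, so `s,t,k` have pairwise finite exponents.) -/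
theorem rd_long (hM : TF M) {i j k : B} (hij : i ≠ j) (hm : M i j ≠ 0) {x u : W} (hx : Rmin cs i j x)
    (hu : u ∈ D cs i j) (h2 : 2 ≤ cs.length u) (h : cs.IsRightDescent (x * u) k) :
    k = i ∨ k = j := by
  by_contra hk
  push Not at hk
  obtain ⟨hki, hkj⟩ := hk
  have hu1 : u ≠ 1 := by
    rintro rfl
    simp at h2
  obtain ⟨t, ht⟩ := cs.exists_rightDescent_of_ne_one hu1
  obtain ⟨s, hst, hs, ht', hsd⟩ := rd_prev cs hij hu h2 ht
  have hkt : k ≠ t := by rcases ht' with rfl | rfl <;> assumption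
  have hks : k ≠ s := by rcases hs with rfl | rfl <;> assumption
  have hsD : cs.simple t ∈ D cs i j := by
    rcases ht' with rfl | rfl <;> exact Subgroup.subset_closure (by simp)
  have htx : cs.IsRightDescent (x * u) t := (rd_mul_D cs hij ht' hx hu).2 ht
  have hMst : M s t ≠ 0 := by
    rcases hs with rfl | rfl <;> rcases ht' with rfl | rfl
    · exact absurd rfl hst
    · exact hm
    · rw [M.symmetric]; exact hm
    · exact absurd rfl hst
  have h1 : cs.IsRightDescent (x * u * cs.simple t) k := rd_of_both cs hkt h htx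
  have h3 : cs.IsRightDescent (x * u * cs.simple t) s := by
    rw [mul_assoc]
    exact (rd_mul_D cs hij hs hx (mul_mem hu hsD)).2 hsd
  rcases hM s t k hst (Ne.symm hkt) (Ne.symm hks) with h4 | h4 | h4
  · exact hMst h4
  · exact (both_rd cs (Ne.symm hkt) htx h).1 h4
  · exact (both_rd cs (Ne.symm hks) h3 h1).1 h4

theorem ld_long (hM : TF M) {i j k : B} (hij : i ≠ j) (hm : M i j ≠ 0) {y u : W} (hy : Lmin cs i j y)
    (hu : u ∈ D cs i j) (h2 : 2 ≤ cs.length u) (h : cs.IsLeftDescent (u * y) k) :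
    k = i ∨ k = j := by
  rw [← cs.isRightDescent_inv_iff, mul_inv_rev] at h
  refine rd_long cs hM hij hm ?_ (inv_mem hu) (by rwa [cs.length_inv]) h
  exact ⟨by rw [cs.isRightDescent_inv_iff]; exact hy.1,
    by rw [cs.isRightDescent_inv_iff]; exact hy.2⟩

/-- If `y s_k = s_t y`, `y s_k' = s_t' y` (`k ≠ k'`, `k,k' ∉ R(y)`, `{t,t'} = {i,j}`, `y` left minimal), then `y = 1`.
(`k, k' ∈ R(w_T y)` and a right descent of `y` would be a third one.) -/
theorem eq_one_of_conj (hM : TF M) {i j k k' t t' : B} (hij : i ≠ j) (hm : M i j ≠ 0) {y : W}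
    (hy : Lmin cs i j y) (ht : t = i ∨ t = j) (ht' : t' = i ∨ t' = j) (htt : t ≠ t') (hkk : k ≠ k')
    (h : y * cs.simple k = cs.simple t * y) (h' : y * cs.simple k' = cs.simple t' * y)
    (hk : ¬ cs.IsRightDescent y k) (hk' : ¬ cs.IsRightDescent y k') : y = 1 := by
  by_contra hy1
  obtain ⟨r, hr⟩ := cs.exists_rightDescent_of_ne_one hy1
  have hlen : cs.length (wT cs i j * y) = cs.length (wT cs i j) + cs.length y :=
    len_D_mul cs hij hy (wT_mem cs i j)
  have key : ∀ (l c : B), (c = i ∨ c = j) → y * cs.simple l = cs.simple c * y →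
      cs.IsRightDescent (wT cs i j * y) l := by
    intro l c hc hlc
    have hcD : cs.simple c ∈ D cs i j := by
      rcases hc with rfl | rfl <;> exact Subgroup.subset_closure (by simp)
    have h1 : cs.length (wT cs i j * cs.simple c) + 1 = cs.length (wT cs i j) :=
      cs.isRightDescent_iff.mp (rd_wT cs hij hm hc)
    have h2 : cs.length (wT cs i j * cs.simple c * y) =
        cs.length (wT cs i j * cs.simple c) + cs.length y :=
      len_D_mul cs hij hy (mul_mem (wT_mem cs i j) hcD)
    unfold CoxeterSystem.IsRightDescent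
    rw [mul_assoc, hlc, ← mul_assoc, h2, hlen]
    omega
  have hrw : cs.IsRightDescent (wT cs i j * y) r := by
    have h1 := cs.isRightDescent_iff.mp hr
    have h2 := cs.length_mul_le (wT cs i j) (y * cs.simple r)
    unfold CoxeterSystem.IsRightDescent
    rw [mul_assoc, hlen]
    omega
  rcases no_three cs hM (key k t ht h) (key k' t' ht' h') hrw with h3 | h3 | h3
  · exact hkk h3
  · subst h3; exact hk' hr
  · subst h3; exact hk hr

end Pool.Agent.PolyCell
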