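import Pool.Agent.PolyCell.HRing

/-!
# Multiplication of standard basis elements
-/

open CoxeterSystem

namespace Pool.Agent.PolyCell

variable {B W : Type*} [Group W] {M : CoxeterMatrix B} (cs : CoxeterSystem M W)

theorem T_apply (w y : W) [Decidable (y = w)] : (T cs w : Hk cs) y = if y = w then 1 else 0 := by
  classical
  have h := Finsupp.single_apply (a := w) (a' := y) (b := (1 : LP))
  have h2 : (T cs w : Hk cs) y = (Finsupp.single w (1 : LP)) y := rfl
  rw [h2, h]
  by_cases hyw : y = w
  · rw [if_pos hyw.symm, if_pos hyw]
  · rw [if_neg (fun e => hyw e.symm), if_neg hyw]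

theorem add_apply' (g h : Hk cs) (w : W) : (g + h) w = g w + h w := rfl

theorem smul_apply' (r : LP) (h : Hk cs) (w : W) : (r • h) w = r * h w := rfl

theorem sub_apply' (g h : Hk cs) (w : W) : (g - h) w = g w - h w := rfl

theorem hk_ext {g h : Hk cs} (H : ∀ w, g w = h w) : g = h :=
  Finsupp.ext (f := (show W →₀ LP from g)) (g := (show W →₀ LP from h)) H

/-- expansion in the standard basis -/
theorem eq_sum_T (h : Hk cs) :
    h = Finsupp.sum (show W →₀ LP from h) fun w a => a • T cs w := by
  have h1 := Finsupp.sum_single (show W →₀ LP from h)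
  refine Eq.trans h1.symm ?_
  refine Finsupp.sum_congr fun w _ => ?_
  show Finsupp.single w ((show W →₀ LP from h) w) =
    ((show W →₀ LP from h) w) • (Finsupp.single w (1 : LP))
  rw [Finsupp.smul_single, smul_eq_mul, mul_one]

/-- induction principle -/
theorem hk_induction {P : Hk cs → Prop} (h0 : P 0) (hT : ∀ w, P (T cs w))
    (ha : ∀ g h, P g → P h → P (g + h)) (hs : ∀ (r : LP) h, P h → P (r • h)) (h : Hk cs) : P h := by
  refine Finsupp.induction_linear (motive := fun f : W →₀ LP => P f) (show W →₀ LP from h) h0
    (fun f g hf hg => ha f g hf hg) ?_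
  intro w b
  have h1 := hs b _ (hT w)
  have h2 : b • T cs w = (Finsupp.single w b : W →₀ LP) := by
    show b • (Finsupp.single w (1 : LP)) = _
    rw [Finsupp.smul_single, smul_eq_mul, mul_one]
  rw [← h2]
  exact h1

open Classical in
private theorem TMul_rS_T (w : W) (i : B) : rS cs i (T cs w) =
    T cs (w * cs.simple i) + (if cs.IsRightDescent w i then xi • T cs w else 0) := by
  have h1 : rS cs i (T cs w) = rT cs i (Finsupp.single w (1 : LP)) := rfl
  rw [h1]
  unfold rT
  rw [Finsupp.linearCombination_single, one_smul]
  by_cases h : cs.IsRightDescent w i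
  · rw [if_pos h, if_pos h]
    show _ = (Finsupp.single (w * cs.simple i) (1 : LP)) +
      (v 1 - v (-1)) • (Finsupp.single w (1 : LP))
    rw [Finsupp.smul_single, smul_eq_mul, mul_one]
  · rw [if_neg h, if_neg h]
    rfl

theorem T_mul_s {w : W} {i : B} (h : ¬ cs.IsRightDescent w i) :
    T cs w * T cs (cs.simple i) = T cs (w * cs.simple i) := by
  rw [mul_T_simple, TMul_rS_T, if_neg h, add_zero]

theorem T_mul_s' {w : W} {i : B} (h : cs.IsRightDescent w i) :
    T cs w * T cs (cs.simple i) = T cs (w * cs.simple i) + xi • T cs w := by
  rw [mul_T_simple, TMul_rS_T, if_pos h]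

private theorem TMul_last {y : W} (hy : y ≠ 1) : ∃ (y' : W) (i : B), y = y' * cs.simple i ∧
    ¬ cs.IsRightDescent y' i ∧ cs.length y = cs.length y' + 1 := by
  obtain ⟨i, hi⟩ := cs.exists_rightDescent_of_ne_one hy
  have h1 := (cs.isRightDescent_iff).1 hi
  refine ⟨y * cs.simple i, i, (cs.simple_mul_simple_cancel_right i).symm, ?_, h1.symm⟩
  exact (cs.isRightDescent_iff_not_isRightDescent_mul).1 hi

theorem T_mul_T {x y : W} (h : Red cs x y) : T cs x * T cs y = T cs (x * y) := by
  induction hn : cs.length y generalizing y with
  | zero =>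
    rw [cs.length_eq_zero_iff] at hn
    subst hn
    rw [← one_def', mul_one, mul_one]
  | succ n ih =>
    have hy : y ≠ 1 := by
      rintro rfl
      rw [cs.length_one] at hn
      omega
    obtain ⟨y', i, rfl, hi, hl⟩ := TMul_last cs hy
    unfold Red at h
    have h1 := cs.length_mul_le x y'
    have h2 := cs.length_mul_le (x * y') (cs.simple i)
    rw [cs.length_simple, mul_assoc] at h2
    have h3 : Red cs x y' := by unfold Red; omega
    have h4 : ¬ cs.IsRightDescent (x * y') i := by
      rw [cs.not_isRightDescent_iff, mul_assoc]
      unfold Red at h3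
      omega
    rw [← T_mul_s cs hi, ← mul_assoc, ih h3 (by omega), T_mul_s cs h4, mul_assoc]

theorem s_mul_T {w : W} {i : B} (h : ¬ cs.IsLeftDescent w i) :
    T cs (cs.simple i) * T cs w = T cs (cs.simple i * w) := by
  refine T_mul_T cs ?_
  unfold Red
  rw [(cs.not_isLeftDescent_iff).1 h, cs.length_simple]
  omega

theorem T_s_sq (i : B) :
    T cs (cs.simple i) * T cs (cs.simple i) = 1 + xi • T cs (cs.simple i) := by
  have h : cs.IsRightDescent (cs.simple i) i := by
    rw [cs.isRightDescent_iff, cs.simple_mul_simple_self, cs.length_one, cs.length_simple]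
  rw [T_mul_s' cs h, cs.simple_mul_simple_self, one_def']

theorem s_mul_T' {w : W} {i : B} (h : cs.IsLeftDescent w i) :
    T cs (cs.simple i) * T cs w = T cs (cs.simple i * w) + xi • T cs w := by
  have h1 : ¬ cs.IsLeftDescent (cs.simple i * w) i :=
    (cs.isLeftDescent_iff_not_isLeftDescent_mul).1 h
  have h2 : T cs w = T cs (cs.simple i) * T cs (cs.simple i * w) := by
    rw [s_mul_T cs h1, cs.simple_mul_simple_cancel_left]
  have h3 : T cs (cs.simple i) * T cs w =
      (T cs (cs.simple i) * T cs (cs.simple i)) * T cs (cs.simple i * w) := by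
    rw [mul_assoc, ← h2]
  rw [h3, T_s_sq, add_mul, one_mul, smul_mul_assoc, ← h2]

open Classical in
private theorem TMul_apply (h : Hk cs) (i : B) (w : W) : (h * T cs (cs.simple i)) w =
    h (w * cs.simple i) + (if cs.IsRightDescent w i then xi * h w else 0) := by
  rw [mul_T_simple]
  induction h using hk_induction cs with
  | h0 =>
    rw [map_zero]
    show (0 : LP) = 0 + _
    split_ifs
    · show (0 : LP) = 0 + xi * 0
      ring
    · ring
  | hT z =>
    rw [TMul_rS_T, add_apply', T_apply, T_apply]
    by_cases hz : cs.IsRightDescent z i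
    · rw [if_pos hz, smul_apply', T_apply]
      by_cases hw : w = z
      · subst hw
        rw [if_pos hz]
        have h1 : w ≠ w * cs.simple i := by
          intro e
          have := cs.length_mul_simple_ne w i
          exact this (congrArg cs.length e.symm)
        simp [h1, h1.symm]
      · rw [if_neg hw]
        by_cases hw2 : w = z * cs.simple i
        · subst hw2
          rw [cs.simple_mul_simple_cancel_right]
          simp
        · have : w * cs.simple i ≠ z := by
            rintro rfl
            exact hw2 (cs.simple_mul_simple_cancel_right i).symm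
          rw [if_neg hw2, if_neg this]
          simp
    · rw [if_neg hz]
      show _ + (0 : LP) = _
      by_cases hw : w = z
      · subst hw
        rw [if_neg hz]
        have h1 : w ≠ w * cs.simple i := by
          intro e
          have := cs.length_mul_simple_ne w i
          exact this (congrArg cs.length e.symm)
        simp [h1, h1.symm]
      · by_cases hw2 : w = z * cs.simple i
        · subst hw2
          rw [cs.simple_mul_simple_cancel_right]
          simp [T_apply, hw]
        · have : w * cs.simple i ≠ z := by
            rintro rfl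
            exact hw2 (cs.simple_mul_simple_cancel_right i).symm
          simp [T_apply, hw, hw2, this]
  | ha g h hg hh =>
    rw [map_add, add_apply', hg, hh, add_apply', add_apply']
    split_ifs <;> ring
  | hs r h hh =>
    rw [map_smul, smul_apply', hh, smul_apply', smul_apply']
    split_ifs <;> ring

/-- support of a product: lengths -/
theorem mul_support {x y w : W} (h : (T cs x * T cs y) w ≠ 0) :
    cs.length w ≤ cs.length x + cs.length y := by
  classical
  induction hn : cs.length y generalizing y w with
  | zero =>
    rw [cs.length_eq_zero_iff] at hn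
    subst hn
    rw [← one_def', mul_one, T_apply] at h
    by_cases hw : w = x
    · subst hw
      omega
    · rw [if_neg hw] at h
      exact absurd rfl h
  | succ n ih =>
    have hy : y ≠ 1 := by
      rintro rfl
      rw [cs.length_one] at hn
      omega
    obtain ⟨y', i, rfl, hi, hl⟩ := TMul_last cs hy
    rw [← T_mul_s cs hi, ← mul_assoc, TMul_apply] at h
    have hn' : cs.length y' = n := by omega
    by_cases h1 : (T cs x * T cs y') (w * cs.simple i) = 0
    · by_cases h2 : (T cs x * T cs y') w = 0
      · rw [h1, h2] at h
        exfalso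
        apply h
        split_ifs <;> ring
      · have := ih h2 hn'
        omega
    · have h3 := ih h1 hn'
      have h4 := cs.length_mul_simple w i
      omega

/-- a subspace stable under right multiplication by the `T_s` is a right ideal -/
theorem right_ideal_of_simple {P : Hk cs → Prop} (h0 : P 0) (ha : ∀ g h, P g → P h → P (g + h))
    (hs : ∀ (r : LP) h, P h → P (r • h)) (hT : ∀ h i, P h → P (h * T cs (cs.simple i)))
    {h : Hk cs} (hh : P h) (g : Hk cs) : P (h * g) := by
  refine hk_induction cs (P := fun g => P (h * g)) ?_ ?_ ?_ ?_ g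
  · show P (h * 0)
    rw [mul_zero]
    exact h0
  · intro w
    show P (h * T cs w)
    induction hn : cs.length w generalizing w with
    | zero =>
      rw [cs.length_eq_zero_iff] at hn
      subst hn
      rw [← one_def', mul_one]
      exact hh
    | succ n ih =>
      have hw : w ≠ 1 := by
        rintro rfl
        rw [cs.length_one] at hn
        omega
      obtain ⟨w', i, rfl, hi, hl⟩ := TMul_last cs hw
      rw [← T_mul_s cs hi, ← mul_assoc]
      exact hT _ i (ih w' (by omega))
  · intro g₁ g₂ h₁ h₂
    show P (h * (g₁ + g₂))
    rw [mul_add]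
    exact ha _ _ h₁ h₂
  · intro r g' h'
    show P (h * (r • g'))
    rw [mul_smul_comm]
    exact hs r _ h'

end Pool.Agent.PolyCell
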